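import Pool.Agent.Helper586.GenEnc

set_option autoImplicit false

namespace Pool.Agent.Helper586.RG

section pd

variable {β : Type*}

theorem pd_ex (f : ℕ → β) (l : ℕ) : ∃ g, 1 ≤ g ∧ ∀ t, t + g < l → f t = f (t + g) :=
  ⟨l + 1, by omega, fun t ht => by omega⟩

open Classical in
/-- smallest period of `f` on `[0,l)` -/
noncomputable def pd (f : ℕ → β) (l : ℕ) : ℕ := Nat.find (pd_ex f l)

theorem pd_pos (f : ℕ → β) (l : ℕ) : 1 ≤ pd f l := by
  classical
  exact (Nat.find_spec (pd_ex f l)).1

theorem pd_spec (f : ℕ → β) (l : ℕ) : ∀ t, t + pd f l < l → f t = f (t + pd f l) := by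
  classical
  exact (Nat.find_spec (pd_ex f l)).2

theorem pd_le {f : ℕ → β} {l g : ℕ} (h1 : 1 ≤ g) (h : ∀ t, t + g < l → f t = f (t + g)) :
    pd f l ≤ g := by
  classical
  exact Nat.find_min' (pd_ex f l) ⟨h1, h⟩

theorem pd_le_len {f : ℕ → β} {l : ℕ} (h1 : 1 ≤ l) : pd f l ≤ l :=
  pd_le h1 (fun t ht => by omega)

theorem pd_zero (f : ℕ → β) : pd f 0 = 1 :=
  le_antisymm (pd_le le_rfl (fun t ht => by omega)) (pd_pos f 0)

theorem pd_congr {f f' : ℕ → β} {l : ℕ} (h : ∀ t < l, f t = f' t) : pd f l = pd f' l := by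
  apply le_antisymm
  · apply pd_le (pd_pos _ _)
    intro t ht
    rw [h t (by omega), h _ ht]
    exact pd_spec f' l t ht
  · apply pd_le (pd_pos _ _)
    intro t ht
    rw [← h t (by omega), ← h _ ht]
    exact pd_spec f l t ht

end pd

variable {β : Type*} (F : ℕ → β)

/-- `F` is a palindrome on the `l` positions ending at `i` -/
def PP (i l : ℕ) : Prop := l ≤ i + 1 ∧ ∀ t < l, F (i - t) = F (i + 1 - l + t)

/-- a maximal palindrome -/
def DD (i l : ℕ) : Prop := PP F i l ∧ l ≤ i ∧ F (i + 1) ≠ F (i - l)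

/-- its smallest period -/
noncomputable def gq (i l : ℕ) : ℕ := pd (fun t => F (i - t)) l

variable {F}

theorem PP.refl {i l : ℕ} (h : PP F i l) {x : ℕ} (h1 : i + 1 ≤ x + l) (h2 : x ≤ i) :
    F x = F (2 * i + 1 - l - x) := by
  have := h.2 (i - x) (by omega)
  rw [show i - (i - x) = x by omega] at this
  rw [this]
  congr 1
  have := h.1
  omega

theorem gq_border {i l k : ℕ} (h : PP F i l) (hk : PP F i k) (hlt : k < l) :
    gq F i l ≤ l - k := by
  apply pd_le (by omega)
  intro t ht
  have e1 := hk.2 t (by omega)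
  have e2 := h.2 (t + (l - k)) (by omega)
  have h1 := h.1
  change F (i - t) = F (i - (t + (l - k)))
  rw [e1, e2]
  congr 1
  omega

theorem tele (i L : ℕ) [DecidablePred (PP F i)] :
    ∃ k ≤ L, PP F i k ∧ ∑ l ∈ (Finset.Icc 1 L).filter (PP F i), gq F i l ≤ k := by
  induction L with
  | zero => exact ⟨0, le_rfl, ⟨by omega, fun t ht => by omega⟩, by simp⟩
  | succ L ih =>
    obtain ⟨k, hk1, hk2, hk3⟩ := ih
    have e : Finset.Icc 1 (L + 1) = insert (L + 1) (Finset.Icc 1 L) := by
      ext x; simp only [Finset.mem_Icc, Finset.mem_insert]; omega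
    by_cases hp : PP F i (L + 1)
    · refine ⟨L + 1, le_rfl, hp, ?_⟩
      rw [e, Finset.filter_insert, if_pos hp, Finset.sum_insert (by simp)]
      have := gq_border hp hk2 (by omega)
      omega
    · refine ⟨k, by omega, hk2, ?_⟩
      rw [e, Finset.filter_insert, if_neg hp]
      exact hk3

theorem tele_le (i L : ℕ) [DecidablePred (PP F i)] :
    ∑ l ∈ (Finset.Icc 1 L).filter (PP F i), gq F i l ≤ L := by
  obtain ⟨k, h1, _, h2⟩ := tele (F := F) i L
  omega

theorem PP.shrink {i l : ℕ} (h : PP F i l) {e : ℕ} (he : 2 * e ≤ l) :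
    PP F (i - e) (l - 2 * e) := by
  have h1 := h.1
  refine ⟨by omega, ?_⟩
  intro t ht
  have := h.2 (e + t) (by omega)
  rw [show i - e - t = i - (e + t) by omega, this]
  congr 1
  omega

theorem gq_shrink (i l e : ℕ) : gq F (i - e) (l - 2 * e) ≤ gq F i l := by
  apply pd_le (pd_pos _ _)
  intro t ht
  have := pd_spec (fun t => F (i - t)) l (e + t) (by omega)
  change F (i - e - t) = F (i - e - (t + gq F i l))
  rw [show i - e - t = i - (e + t) by omega,
    show i - e - (t + gq F i l) = i - (e + t + gq F i l) by omega]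
  exact this

theorem DD.uniq_aux {i l i' l' : ℕ} (h : DD F i l) (h' : PP F i' l') (hc : 2 * i + 1 - l = 2 * i' + 1 - l')
    (hlt : i < i') : False := by
  obtain ⟨h1, h2, h3⟩ := h
  have h4 := h'.1
  have := h'.refl (x := i + 1) (by omega) (by omega)
  apply h3
  rw [this]
  congr 1
  omega

theorem DD.uniq {i l i' l' : ℕ} (h : DD F i l) (h' : DD F i' l') (hc : 2 * i + 1 - l = 2 * i' + 1 - l') :
    i = i' ∧ l = l' := by
  have h1 := h.2.1
  have h1' := h'.2.1
  rcases lt_trichotomy i i' with hlt | heq | hgt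
  · exact (h.uniq_aux h'.1 hc hlt).elim
  · omega
  · exact (h'.uniq_aux h.1 hc.symm hgt).elim

/-- two palindromes with close centers: the shorter one has a small period -/
theorem close_period {i l i' l' Δ : ℕ} (h : PP F i l) (h' : PP F i' l') (hl : l ≤ l')
    (hc : (2 * i + 1 - l) + Δ = 2 * i' + 1 - l' ∨ (2 * i' + 1 - l') + Δ = 2 * i + 1 - l) :
    ∀ t, t + Δ < l → F (i - t) = F (i - (t + Δ)) := by
  intro t ht
  have h1 := h.1
  have h1' := h'.1
  rcases hc with hc | hc
  · -- `x = i - t - Δ`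
    have e1 := h.refl (x := i - (t + Δ)) (by omega) (by omega)
    have e2 := h'.refl (x := 2 * i + 1 - l - (i - (t + Δ))) (by omega) (by omega)
    rw [e1, e2]
    congr 1
    omega
  · have e1 := h.refl (x := i - t) (by omega) (by omega)
    have e2 := h'.refl (x := 2 * i + 1 - l - (i - t)) (by omega) (by omega)
    rw [e1, e2]
    congr 1
    omega

/-- a palindrome with a period `Δ` whose central part has a smaller period `g` -/
theorem central_period {i l Δ g E0 : ℕ} (h : PP F i l) (hΔ : 1 ≤ Δ) (hg : 1 ≤ g)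
    (p1 : ∀ t, t + Δ < l → F (i - t) = F (i - (t + Δ))) (hE : g + Δ + 2 * E0 ≤ l)
    (p2 : ∀ t, t + g < l - 2 * E0 → F (i - E0 - t) = F (i - E0 - (t + g))) :
    ∀ t, t + g < l → F (i - t) = F (i - (t + g)) := by
  have key : ∀ d, d ≤ E0 → ∀ t, t + g < l - 2 * (E0 - d) →
      F (i - (E0 - d) - t) = F (i - (E0 - d) - (t + g)) := by
    intro d
    induction d with
    | zero => intro _ t ht; exact p2 t ht
    | succ d ih =>
      intro hd
      have ih := ih (by omega)
      obtain ⟨s, hs⟩ : ∃ s, E0 - d = s + 1 := ⟨E0 - d - 1, by omega⟩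
      have hs' : E0 - (d + 1) = s := by omega
      rw [hs] at ih
      rw [hs']
      have h1 := h.1
      have hend : F (i - s) = F (i - s - g) := by
        have e1 : F (i - s) = F (i - (s + Δ)) := p1 s (by omega)
        have e2 := fw (fun t => F (i - (s + 1) - t)) (g + Δ) g Δ (l - 2 * (s + 1)) le_rfl hg hΔ ih
          (fun t ht => by
            have := p1 (s + 1 + t) (by omega)
            change F (i - (s + 1) - t) = F (i - (s + 1) - (t + Δ))
            rw [show i - (s + 1) - t = i - (s + 1 + t) by omega, this]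
            congr 1; omega) (by omega)
        change F (i - (s + 1) - (g - 1)) = F (i - (s + 1) - (Δ - 1)) at e2
        rw [show i - (s + 1) - (g - 1) = i - s - g by omega,
          show i - (s + 1) - (Δ - 1) = i - (s + Δ) by omega] at e2
        rw [e1, e2]
      intro t ht
      rcases Nat.eq_zero_or_pos t with rfl | ht0
      · rw [Nat.sub_zero, Nat.zero_add]; exact hend
      · rcases lt_or_ge (t + g) (l - 2 * s - 1) with h2 | h2
        · have := ih (t - 1) (by omega)
          rw [show i - (s + 1) - (t - 1) = i - s - t by omega,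
            show i - (s + 1) - (t - 1 + g) = i - s - (t + g) by omega] at this
          exact this
        · -- mirror of the end
          have e1 := h.refl (x := i - s - (t + g)) (by omega) (by omega)
          have e2 := h.refl (x := i - s - t) (by omega) (by omega)
          rw [e1, e2, show 2 * i + 1 - l - (i - s - (t + g)) = i - s by omega,
            show 2 * i + 1 - l - (i - s - t) = i - s - g by omega]
          exact hend.symm
  intro t ht
  have := key E0 le_rfl t (by omega)
  rw [show i - (E0 - E0) - t = i - t by omega, show i - (E0 - E0) - (t + g) = i - (t + g) by omega]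
    at this
  exact this

/-- the bad maximal palindromes have centers far apart -/
theorem bad_far_aux {m i l i' l' : ℕ} (h : PP F i l) (h' : PP F i' l') (hl : l ≤ l')
    (hm : m ≤ l) (hlm : l < 2 * m)
    (hb : 16 * gq F (i - m / 4) (l - 2 * (m / 4)) < gq F i l) {Δ : ℕ}
    (hc : (2 * i + 1 - l) + Δ = 2 * i' + 1 - l' ∨ (2 * i' + 1 - l') + Δ = 2 * i + 1 - l)
    (hΔ : 1 ≤ Δ) (hΔm : Δ < m / 8) : False := by
  have p1 := close_period h h' hl hc
  set g := gq F (i - m / 4) (l - 2 * (m / 4)) with hg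
  have hg1 : 1 ≤ g := pd_pos _ _
  have hle : gq F i l ≤ Δ := pd_le hΔ p1
  have p2 : ∀ t, t + g < l - 2 * (m / 4) → F (i - m / 4 - t) = F (i - m / 4 - (t + g)) :=
    pd_spec (fun t => F (i - m / 4 - t)) (l - 2 * (m / 4))
  have p3 := central_period h hΔ hg1 p1 (E0 := m / 4) (by omega) p2
  have : gq F i l ≤ g := pd_le hg1 p3
  omega

theorem bad_far {m i l i' l' : ℕ} (h : DD F i l) (h' : DD F i' l')
    (hm : m ≤ l) (hlm : l < 2 * m) (hm' : m ≤ l') (hlm' : l' < 2 * m)
    (hb : 16 * gq F (i - m / 4) (l - 2 * (m / 4)) < gq F i l)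
    (hb' : 16 * gq F (i' - m / 4) (l' - 2 * (m / 4)) < gq F i' l')
    (hd : (2 * i + 1 - l) / (m / 8) = (2 * i' + 1 - l') / (m / 8)) (h8 : 1 ≤ m / 8) :
    i = i' ∧ l = l' := by
  have hmod : ∀ x y : ℕ, x / (m / 8) = y / (m / 8) → x ≤ y → y - x < m / 8 := by
    intro x y hxy _
    have e1 := Nat.div_add_mod x (m / 8)
    have e2 := Nat.div_add_mod y (m / 8)
    have e3 := Nat.mod_lt y (show m / 8 > 0 by omega)
    rw [hxy] at e1
    omega
  by_contra hne
  have hc : 2 * i + 1 - l ≠ 2 * i' + 1 - l' := fun hc => hne (h.uniq h' hc)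
  rcases le_or_gt l l' with hl | hl
  · rcases lt_or_gt_of_ne hc with hlt | hgt
    · exact bad_far_aux h.1 h'.1 hl hm hlm hb (Δ := (2 * i' + 1 - l') - (2 * i + 1 - l))
        (Or.inl (by omega)) (by omega) (hmod _ _ hd hlt.le)
    · exact bad_far_aux h.1 h'.1 hl hm hlm hb (Δ := (2 * i + 1 - l) - (2 * i' + 1 - l'))
        (Or.inr (by omega)) (by omega) (hmod _ _ hd.symm hgt.le)
  · rcases lt_or_gt_of_ne hc with hlt | hgt
    · exact bad_far_aux h'.1 h.1 hl.le hm' hlm' hb' (Δ := (2 * i' + 1 - l') - (2 * i + 1 - l))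
        (Or.inr (by omega)) (by omega) (hmod _ _ hd hlt.le)
    · exact bad_far_aux h'.1 h.1 hl.le hm' hlm' hb' (Δ := (2 * i + 1 - l) - (2 * i' + 1 - l'))
        (Or.inl (by omega)) (by omega) (hmod _ _ hd.symm hgt.le)

end Pool.Agent.Helper586.RG
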