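import Pool.Agent.Helper586.DyadF

set_option autoImplicit false

namespace Pool.Agent.Helper586.RG

variable {β : Type*} (F : ℕ → β)

open Classical in
/-- palindromes with end position below `n` and length at most `L` -/
noncomputable def Ps (n L : ℕ) : Finset (ℕ × ℕ) :=
  ((Finset.range n) ×ˢ (Finset.Icc 1 L)).filter (fun p => PP F p.1 p.2)

open Classical in
/-- maximal palindromes with end position below `n` and length in `[m, 2m)` -/
noncomputable def Ds (n m : ℕ) : Finset (ℕ × ℕ) :=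
  ((Finset.range n) ×ˢ (Finset.Ico m (2 * m))).filter (fun p => DD F p.1 p.2)

variable {F}

theorem mem_Ds {n m : ℕ} {p : ℕ × ℕ} :
    p ∈ Ds F n m ↔ (p.1 < n ∧ m ≤ p.2 ∧ p.2 < 2 * m) ∧ DD F p.1 p.2 := by
  classical
  rw [Ds, Finset.mem_filter, Finset.mem_product, Finset.mem_range, Finset.mem_Ico]

theorem mem_Ps {n L : ℕ} {p : ℕ × ℕ} :
    p ∈ Ps F n L ↔ (p.1 < n ∧ 1 ≤ p.2 ∧ p.2 ≤ L) ∧ PP F p.1 p.2 := by
  classical
  rw [Ps, Finset.mem_filter, Finset.mem_product, Finset.mem_range, Finset.mem_Icc]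

theorem sum_Ps (n L : ℕ) : ∑ p ∈ Ps F n L, gq F p.1 p.2 ≤ n * L := by
  classical
  rw [Ps, Finset.sum_filter, Finset.sum_product]
  calc ∑ x ∈ Finset.range n, ∑ y ∈ Finset.Icc 1 L, (if PP F (x, y).1 (x, y).2 then
        gq F (x, y).1 (x, y).2 else 0)
      = ∑ x ∈ Finset.range n, ∑ l ∈ (Finset.Icc 1 L).filter (PP F x), gq F x l := by
        apply Finset.sum_congr rfl
        intro x _
        rw [Finset.sum_filter]
    _ ≤ ∑ x ∈ Finset.range n, L := Finset.sum_le_sum (fun x _ => tele_le x L)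
    _ = n * L := by rw [Finset.sum_const, Finset.card_range, smul_eq_mul]

theorem gapsum_small (n : ℕ) {m : ℕ} (hm : 1 ≤ m) :
    ∑ p ∈ Ds F n m, gq F p.1 p.2 ≤ n * (2 * m) := by
  refine le_trans (Finset.sum_le_sum_of_subset ?_) (sum_Ps n (2 * m))
  intro p hp
  rw [mem_Ds] at hp
  rw [mem_Ps]
  exact ⟨⟨hp.1.1, by omega, by omega⟩, hp.2.1⟩

theorem good_sum (n : ℕ) {m : ℕ} (hm : 1 ≤ m) (G : Finset (ℕ × ℕ)) (hG : G ⊆ Ds F n m)
    (hg : ∀ p ∈ G, gq F p.1 p.2 ≤ 16 * gq F (p.1 - m / 4) (p.2 - 2 * (m / 4))) :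
    (∑ p ∈ G, gq F p.1 p.2) * (m / 4 + 1) ≤ 16 * (n * (2 * m)) := by
  classical
  calc (∑ p ∈ G, gq F p.1 p.2) * (m / 4 + 1)
      = ∑ p ∈ G, ∑ e ∈ Finset.range (m / 4 + 1), gq F p.1 p.2 := by
        rw [Finset.sum_mul]
        apply Finset.sum_congr rfl
        intro p _
        rw [Finset.sum_const, Finset.card_range, smul_eq_mul, mul_comm]
    _ ≤ ∑ p ∈ G, ∑ e ∈ Finset.range (m / 4 + 1), 16 * gq F (p.1 - e) (p.2 - 2 * e) := by
        apply Finset.sum_le_sum
        intro p hp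
        apply Finset.sum_le_sum
        intro e he
        rw [Finset.mem_range] at he
        refine (hg p hp).trans (Nat.mul_le_mul_left _ ?_)
        have := gq_shrink (F := F) (p.1 - e) (p.2 - 2 * e) (m / 4 - e)
        rwa [show p.1 - e - (m / 4 - e) = p.1 - m / 4 by omega,
          show p.2 - 2 * e - 2 * (m / 4 - e) = p.2 - 2 * (m / 4) by omega] at this
    _ = 16 * ∑ x ∈ G ×ˢ Finset.range (m / 4 + 1), gq F (x.1.1 - x.2) (x.1.2 - 2 * x.2) := by
        rw [Finset.sum_product, Finset.mul_sum]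
        apply Finset.sum_congr rfl
        intro p _
        rw [Finset.mul_sum]
    _ = 16 * ∑ y ∈ (G ×ˢ Finset.range (m / 4 + 1)).image
          (fun x : (ℕ × ℕ) × ℕ => (x.1.1 - x.2, x.1.2 - 2 * x.2)), gq F y.1 y.2 := by
        congr 1
        rw [Finset.sum_image]
        rintro ⟨⟨i, l⟩, e⟩ hx ⟨⟨i', l'⟩, e'⟩ hx' hxx
        rw [Finset.mem_coe, Finset.mem_product, Finset.mem_range] at hx hx'
        have h1 := mem_Ds.mp (hG hx.1)
        have h1' := mem_Ds.mp (hG hx'.1)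
        have h2 := hx.2
        have h2' := hx'.2
        simp only [Prod.mk.injEq] at hxx h1 h1' h2 h2' ⊢
        have h3 := h1.2.2.1
        have h3' := h1'.2.2.1
        obtain ⟨ha, hb⟩ := h1.2.uniq h1'.2 (by omega)
        subst ha
        subst hb
        refine ⟨⟨rfl, rfl⟩, by omega⟩
    _ ≤ 16 * ∑ y ∈ Ps F n (2 * m), gq F y.1 y.2 := by
        apply Nat.mul_le_mul_left
        apply Finset.sum_le_sum_of_subset
        intro y hy
        rw [Finset.mem_image] at hy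
        obtain ⟨⟨⟨i, l⟩, e⟩, hx, rfl⟩ := hy
        rw [Finset.mem_product, Finset.mem_range] at hx
        have h1 := mem_Ds.mp (hG hx.1)
        have h2 := hx.2
        simp only at h1 h2
        rw [mem_Ps]
        simp only
        exact ⟨⟨by omega, by omega, by omega⟩, h1.2.1.shrink (by omega)⟩
    _ ≤ 16 * (n * (2 * m)) := Nat.mul_le_mul_left _ (sum_Ps n (2 * m))

theorem bad_card (n : ℕ) {m : ℕ} (hm : 8 ≤ m) (B : Finset (ℕ × ℕ)) (hB : B ⊆ Ds F n m)
    (hb : ∀ p ∈ B, 16 * gq F (p.1 - m / 4) (p.2 - 2 * (m / 4)) < gq F p.1 p.2) :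
    B.card ≤ 2 * n / (m / 8) + 1 := by
  classical
  rw [← Finset.card_range (2 * n / (m / 8) + 1)]
  apply Finset.card_le_card_of_injOn (fun p : ℕ × ℕ => (2 * p.1 + 1 - p.2) / (m / 8))
  · intro p hp
    rw [Finset.mem_coe] at hp
    have h1 := mem_Ds.mp (hB hp)
    rw [Finset.mem_coe, Finset.mem_range, Nat.lt_succ_iff]
    apply Nat.div_le_div_right
    omega
  · intro p hp p' hp' hpp
    rw [Finset.mem_coe] at hp hp'
    have h1 := mem_Ds.mp (hB hp)
    have h1' := mem_Ds.mp (hB hp')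
    obtain ⟨ha, hb⟩ := bad_far h1.2 h1'.2 h1.1.2.1 h1.1.2.2 h1'.1.2.1 h1'.1.2.2 (hb p hp)
      (hb p' hp') hpp (by omega)
    exact Prod.ext ha hb

/-- the sum of the smallest periods of the maximal palindromes of a dyadic length is linear -/
theorem gapsum (n : ℕ) {m : ℕ} (hm : 1 ≤ m) :
    ∑ p ∈ Ds F n m, gq F p.1 p.2 ≤ 200 * n := by
  classical
  rcases lt_or_ge m 8 with h8 | h8
  · refine (gapsum_small n hm).trans ?_
    have : n * (2 * m) ≤ n * 16 := Nat.mul_le_mul_left _ (by omega)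
    omega
  · set G := (Ds F n m).filter (fun p => gq F p.1 p.2 ≤
      16 * gq F (p.1 - m / 4) (p.2 - 2 * (m / 4))) with hG
    set B := (Ds F n m).filter (fun p => ¬ gq F p.1 p.2 ≤
      16 * gq F (p.1 - m / 4) (p.2 - 2 * (m / 4))) with hB
    rw [← Finset.sum_filter_add_sum_filter_not (Ds F n m) (fun p => gq F p.1 p.2 ≤
      16 * gq F (p.1 - m / 4) (p.2 - 2 * (m / 4)))]
    have h1 := good_sum (F := F) n hm G (Finset.filter_subset _ _) (by
      intro p hp
      rw [hG, Finset.mem_filter] at hp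
      exact hp.2)
    have h1' : ∑ p ∈ G, gq F p.1 p.2 ≤ 128 * n := by
      have h2 : (∑ p ∈ G, gq F p.1 p.2) * m ≤ (128 * n) * m := by
        calc (∑ p ∈ G, gq F p.1 p.2) * m ≤ (∑ p ∈ G, gq F p.1 p.2) * (4 * (m / 4 + 1)) :=
              Nat.mul_le_mul_left _ (by omega)
          _ = 4 * ((∑ p ∈ G, gq F p.1 p.2) * (m / 4 + 1)) := by ring
          _ ≤ 4 * (16 * (n * (2 * m))) := Nat.mul_le_mul_left _ h1
          _ = (128 * n) * m := by ring
      exact Nat.le_of_mul_le_mul_right h2 (by omega)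
    have h2 := bad_card (F := F) n h8 B (Finset.filter_subset _ _) (by
      intro p hp
      rw [hB, Finset.mem_filter] at hp
      omega)
    have h3 : ∑ p ∈ B, gq F p.1 p.2 ≤ 66 * n := by
      rcases B.eq_empty_or_nonempty with he | ⟨p, hp⟩
      · rw [he]; simp
      · have h4 := mem_Ds.mp (Finset.filter_subset _ _ hp)
        have h5 := h4.2.2.1
        have h6 : ∑ p ∈ B, gq F p.1 p.2 ≤ B.card * (2 * m) := by
          rw [← smul_eq_mul]
          apply Finset.sum_le_card_nsmul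
          intro p hp
          have h4 := mem_Ds.mp (Finset.filter_subset _ _ hp)
          have : gq F p.1 p.2 ≤ p.2 := pd_le_len (by omega)
          omega
        have h7 : 2 * n / (m / 8) * (m / 8) ≤ 2 * n := Nat.div_mul_le_self _ _
        have h8' : m ≤ 16 * (m / 8) := by omega
        calc ∑ p ∈ B, gq F p.1 p.2 ≤ B.card * (2 * m) := h6
          _ ≤ (2 * n / (m / 8) + 1) * (2 * m) := Nat.mul_le_mul_right _ h2
          _ = 2 * n / (m / 8) * (2 * m) + 2 * m := by ring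
          _ ≤ 2 * n / (m / 8) * (2 * (16 * (m / 8))) + 2 * m := by
              gcongr
          _ = 32 * (2 * n / (m / 8) * (m / 8)) + 2 * m := by ring
          _ ≤ 66 * n := by omega
    calc _ = ∑ p ∈ G, gq F p.1 p.2 + ∑ p ∈ B, gq F p.1 p.2 := rfl
      _ ≤ 200 * n := by omega

/-- the weight of a pair (period, length) -/
noncomputable def Ew (X : ℝ) (g l : ℕ) : ℝ := g * (l + 1) * X / (X + l + 1) ^ 3

theorem Ew_bound {X : ℝ} (hX : 0 < X) (g : ℕ) {l m : ℕ} (hm : m ≤ l) (hm2 : l < 2 * m) :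
    Ew X g l ≤ 4 * (1 / (X + m) - 1 / (X + (2 * m : ℕ))) * g := by
  have h1 : ((l : ℝ) + 1) ≤ 2 * m := by exact_mod_cast hm2
  have h2 : (m : ℝ) ≤ l := by exact_mod_cast hm
  have hm0 : (0 : ℝ) ≤ m := Nat.cast_nonneg m
  have hl0 : (0 : ℝ) ≤ l := Nat.cast_nonneg l
  have hg0 : (0 : ℝ) ≤ g := Nat.cast_nonneg g
  have hXm : 0 < X + m := by linarith
  rw [Ew]
  have e1 : 4 * (1 / (X + m) - 1 / (X + (2 * m : ℕ))) * g =
      g * (4 * m / ((X + m) * (X + 2 * m))) := by
    push_cast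
    field_simp
    ring
  rw [e1, mul_assoc, mul_div_assoc]
  apply mul_le_mul_of_nonneg_left _ hg0
  rw [div_le_div_iff₀ (by positivity) (by positivity)]
  have h3 : (X + m) * (X + 2 * m) ≤ 2 * (X + l + 1) ^ 2 := by
    nlinarith
  calc ((l : ℝ) + 1) * X * ((X + m) * (X + 2 * m))
      ≤ (2 * m) * (X + l + 1) * (2 * (X + l + 1) ^ 2) := by
        gcongr
        linarith
    _ = 4 * m * (X + l + 1) ^ 3 := by ring

open Classical in
theorem Ew_sum {X : ℝ} (hX : 0 < X) (n : ℕ) :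
    ∑ i ∈ Finset.range n, ∑ l ∈ (Finset.Icc 1 i).filter (DD F i), Ew X (gq F i l) l
      ≤ 800 * n / X := by
  have e1 : ∑ i ∈ Finset.range n, ∑ l ∈ (Finset.Icc 1 i).filter (DD F i), Ew X (gq F i l) l =
      ∑ p ∈ ((Finset.range n) ×ˢ (Finset.Icc 1 n)).filter (fun p => DD F p.1 p.2),
        Ew X (gq F p.1 p.2) p.2 := by
    rw [Finset.sum_filter, Finset.sum_product]
    apply Finset.sum_congr rfl
    intro i hi
    rw [Finset.mem_range] at hi
    rw [← Finset.sum_filter]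
    apply Finset.sum_congr _ (fun _ _ => rfl)
    ext l
    rw [Finset.mem_filter, Finset.mem_filter, Finset.mem_Icc, Finset.mem_Icc]
    constructor
    · rintro ⟨h1, h2⟩
      exact ⟨⟨h1.1, by omega⟩, h2⟩
    · rintro ⟨h1, h2⟩
      have := h2.2.1
      exact ⟨⟨h1.1, this⟩, h2⟩
  rw [e1]
  set A := ((Finset.range n) ×ˢ (Finset.Icc 1 n)).filter (fun p => DD F p.1 p.2) with hA
  have hmaps : ∀ p ∈ A, Nat.log 2 p.2 ∈ Finset.range (n + 1) := by
    intro p hp
    rw [hA, Finset.mem_filter, Finset.mem_product, Finset.mem_Icc] at hp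
    rw [Finset.mem_range]
    have := Nat.log_le_self 2 p.2
    omega
  rw [← Finset.sum_fiberwise_of_maps_to hmaps]
  have hfib : ∀ r ∈ Finset.range (n + 1), ∑ p ∈ A.filter (fun p => Nat.log 2 p.2 = r),
      Ew X (gq F p.1 p.2) p.2 ≤
      (1 / (X + (2 ^ r : ℕ)) - 1 / (X + (2 ^ (r + 1) : ℕ))) * (800 * n) := by
    intro r _
    have hw0 : 0 ≤ 4 * (1 / (X + ((2 ^ r : ℕ) : ℝ)) - 1 / (X + ((2 * 2 ^ r : ℕ) : ℝ))) := by
      apply mul_nonneg (by norm_num)
      rw [sub_nonneg]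
      apply one_div_le_one_div_of_le (by positivity)
      push_cast
      have : (0 : ℝ) ≤ 2 ^ r := by positivity
      linarith
    calc ∑ p ∈ A.filter (fun p => Nat.log 2 p.2 = r), Ew X (gq F p.1 p.2) p.2
        ≤ ∑ p ∈ A.filter (fun p => Nat.log 2 p.2 = r),
          4 * (1 / (X + ((2 ^ r : ℕ) : ℝ)) - 1 / (X + ((2 * 2 ^ r : ℕ) : ℝ))) * (gq F p.1 p.2 : ℝ) := by
          apply Finset.sum_le_sum
          intro p hp
          rw [Finset.mem_filter, hA, Finset.mem_filter, Finset.mem_product, Finset.mem_Icc] at hp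
          have hp0 : p.2 ≠ 0 := by omega
          have h1 : 2 ^ r ≤ p.2 := by
            rw [← hp.2]; exact Nat.pow_log_le_self 2 hp0
          have h2 : p.2 < 2 * 2 ^ r := by
            have := Nat.lt_pow_succ_log_self (b := 2) (by norm_num) p.2
            rw [hp.2, pow_succ] at this
            omega
          exact Ew_bound hX _ h1 h2
      _ ≤ ∑ p ∈ Ds F n (2 ^ r),
          4 * (1 / (X + ((2 ^ r : ℕ) : ℝ)) - 1 / (X + ((2 * 2 ^ r : ℕ) : ℝ))) * (gq F p.1 p.2 : ℝ) := by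
          apply Finset.sum_le_sum_of_subset_of_nonneg
          · intro p hp
            rw [Finset.mem_filter, hA, Finset.mem_filter, Finset.mem_product, Finset.mem_Icc,
              Finset.mem_range] at hp
            have hp0 : p.2 ≠ 0 := by omega
            have h1 : 2 ^ r ≤ p.2 := by
              rw [← hp.2]; exact Nat.pow_log_le_self 2 hp0
            have h2 : p.2 < 2 * 2 ^ r := by
              have := Nat.lt_pow_succ_log_self (b := 2) (by norm_num) p.2
              rw [hp.2, pow_succ] at this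
              omega
            rw [mem_Ds]
            exact ⟨⟨hp.1.1.1, h1, h2⟩, hp.1.2⟩
          · intro p _ _
            exact mul_nonneg hw0 (Nat.cast_nonneg _)
      _ = 4 * (1 / (X + ((2 ^ r : ℕ) : ℝ)) - 1 / (X + ((2 * 2 ^ r : ℕ) : ℝ))) *
          ((∑ p ∈ Ds F n (2 ^ r), gq F p.1 p.2 : ℕ) : ℝ) := by
          rw [Nat.cast_sum, Finset.mul_sum]
      _ ≤ 4 * (1 / (X + ((2 ^ r : ℕ) : ℝ)) - 1 / (X + ((2 * 2 ^ r : ℕ) : ℝ))) *
          ((200 * n : ℕ) : ℝ) := by
          apply mul_le_mul_of_nonneg_left _ hw0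
          exact_mod_cast gapsum (F := F) n (Nat.one_le_two_pow)
      _ = _ := by
          rw [show 2 * 2 ^ r = 2 ^ (r + 1) by rw [pow_succ]; ring]
          push_cast
          ring
  refine (Finset.sum_le_sum hfib).trans ?_
  rw [← Finset.sum_mul, Finset.sum_range_sub' (fun r : ℕ => 1 / (X + ((2 ^ r : ℕ) : ℝ)))]
  have h1 : 1 / (X + ((2 ^ 0 : ℕ) : ℝ)) - 1 / (X + ((2 ^ (n + 1) : ℕ) : ℝ)) ≤ 1 / X := by
    have h2 : 1 / (X + ((2 ^ 0 : ℕ) : ℝ)) ≤ 1 / X := by
      apply one_div_le_one_div_of_le hX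
      simp
    have h3 : 0 ≤ 1 / (X + ((2 ^ (n + 1) : ℕ) : ℝ)) := by positivity
    linarith
  calc _ ≤ 1 / X * (800 * n) := by
        apply mul_le_mul_of_nonneg_right h1 (by positivity)
    _ = 800 * n / X := by ring

end Pool.Agent.Helper586.RG
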