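import Mathlib

set_option autoImplicit false

namespace Pool.Agent.Helper586.Fpz

variable {α : Type*}

/-- `w` is a product of at most `k` palindromes. -/
def PLe (k : ℕ) (w : List α) : Prop :=
  ∃ L : List (List α), L.length ≤ k ∧ (∀ p ∈ L, p.reverse = p) ∧ L.flatten = w

theorem PLe.mono {k k' : ℕ} {w : List α} (h : PLe k w) (hk : k ≤ k') : PLe k' w := by
  obtain ⟨L, h1, h2, h3⟩ := h
  exact ⟨L, h1.trans hk, h2, h3⟩

theorem PLe.nil (k : ℕ) : PLe k ([] : List α) := ⟨[], by simp, by simp, rfl⟩

theorem PLe.reverse {k : ℕ} {w : List α} (h : PLe k w) : PLe k w.reverse := by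
  obtain ⟨L, h1, h2, rfl⟩ := h
  refine ⟨(L.map List.reverse).reverse, by simpa using h1, ?_, ?_⟩
  · intro p hp
    simp only [List.mem_reverse, List.mem_map] at hp
    obtain ⟨q, hq, rfl⟩ := hp
    rw [h2 q hq, h2 q hq]
  · rw [List.reverse_flatten]

theorem PLe.append {k k' : ℕ} {w w' : List α} (h : PLe k w) (h' : PLe k' w') :
    PLe (k + k') (w ++ w') := by
  obtain ⟨L, h1, h2, rfl⟩ := h
  obtain ⟨L', h1', h2', rfl⟩ := h'
  refine ⟨L ++ L', by simp; omega, ?_, by simp⟩
  intro p hp
  rcases List.mem_append.mp hp with h | h
  · exact h2 p h
  · exact h2' p h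

theorem PLe.single {w : List α} (h : w.reverse = w) : PLe 1 w :=
  ⟨[w], by simp, by simpa using h, by simp⟩

theorem PLe.of_reverse {k : ℕ} {w : List α} (h : PLe k w.reverse) : PLe k w := by
  simpa using h.reverse

/-- Saarela's lemma: the palindromic length of a suffix is bounded by that of the whole word plus
that of the complementary prefix. -/
theorem saarela_aux (N : ℕ) : ∀ (x y : List α) (k1 k2 : ℕ), (x ++ y).length ≤ N →
    PLe k1 x → PLe k2 (x ++ y) → PLe (k1 + k2) y := by
  induction N with
  | zero =>
    intro x y k1 k2 hN _ _
    have : y = [] := by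
      simp only [List.length_append] at hN
      exact List.eq_nil_of_length_eq_zero (by omega)
    subst this
    exact PLe.nil _
  | succ N ih =>
    intro x y k1 k2 hN hx hxy
    rcases eq_or_ne y [] with rfl | hy
    · exact PLe.nil _
    have ihr : ∀ (x y : List α) (k1 k2 : ℕ), (x ++ y).length ≤ N → PLe k1 y → PLe k2 (x ++ y) →
        PLe (k1 + k2) x := by
      intro x y k1 k2 hN hy hxy
      have hlen : (y.reverse ++ x.reverse).length ≤ N := by
        simp only [List.length_append, List.length_reverse] at hN ⊢; omega
      have h2 : PLe k2 (y.reverse ++ x.reverse) := by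
        have := hxy.reverse
        rwa [List.reverse_append] at this
      exact (ih y.reverse x.reverse k1 k2 hlen hy.reverse h2).of_reverse
    have hp : ∀ (s t : List α) (k : ℕ), (s ++ t).length ≤ N + 1 → (s ++ t).reverse = s ++ t →
        PLe k s → PLe (k + 1) t := by
      intro s t k hl hst hs
      rcases eq_or_ne t [] with rfl | ht
      · exact PLe.nil _
      have htl : 0 < t.length := List.length_pos_iff.mpr ht
      rw [List.reverse_append] at hst
      rcases le_total s.length t.length with h | h
      · obtain ⟨z, hz1, hz2⟩ : ∃ z, t.reverse = s ++ z ∧ t = z ++ s.reverse := by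
          rcases List.append_eq_append_iff.mp hst with ⟨z, h1, h2⟩ | ⟨z, h1, h2⟩
          · have : z = [] := by
              have := congrArg List.length h1
              simp only [List.length_append, List.length_reverse] at this
              exact List.eq_nil_of_length_eq_zero (by omega)
            subst this
            exact ⟨[], by simpa using h1.symm, by simpa using h2.symm⟩
          · exact ⟨z, h1, h2⟩
        have hz : z.reverse = z := by
          have h1 : t = z.reverse ++ s.reverse := by
            have := congrArg List.reverse hz1
            simpa using this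
          rw [h1] at hz2
          exact List.append_cancel_right hz2
        rw [hz2, add_comm]
        exact (PLe.single hz).append hs.reverse
      · obtain ⟨z, hz1, hz2⟩ : ∃ z, s = t.reverse ++ z ∧ s.reverse = z ++ t := by
          rcases List.append_eq_append_iff.mp hst with ⟨z, h1, h2⟩ | ⟨z, h1, h2⟩
          · exact ⟨z, h1, h2⟩
          · have : z = [] := by
              have := congrArg List.length h1
              simp only [List.length_append, List.length_reverse] at this
              exact List.eq_nil_of_length_eq_zero (by omega)
            subst this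
            exact ⟨[], by simpa using h1.symm, by simpa using h2.symm⟩
        have hz : z.reverse = z := by
          have h1 : s.reverse = z.reverse ++ t := by
            have := congrArg List.reverse hz1
            simpa using this
          rw [h1] at hz2
          exact List.append_cancel_right hz2
        have hlen : (t.reverse ++ z).length ≤ N := by
          have := congrArg List.length hz1
          simp only [List.length_append] at this hl ⊢
          omega
        have h3 := ihr t.reverse z 1 k hlen (PLe.single hz) (hz1 ▸ hs)
        have := h3.of_reverse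
        rwa [add_comm] at this
    obtain ⟨L, hL1, hL2, hL3⟩ := hxy
    rw [List.flatten_eq_append_iff] at hL3
    rcases hL3 with ⟨as, bs, rfl, rfl, rfl⟩ | ⟨as, bs, c, cs, ds, rfl, rfl, rfl⟩
    · refine ⟨bs, ?_, fun p hp => hL2 p (by simp [hp]), rfl⟩
      simp only [List.length_append] at hL1
      omega
    · have hl : (as.flatten ++ bs).length ≤ N := by
        simp only [List.length_append, List.length_cons] at hN ⊢
        omega
      have h1 : PLe (as.length + k1) bs :=
        ih as.flatten bs as.length k1 hl ⟨as, le_rfl, fun p hp => hL2 p (by simp [hp]), rfl⟩ hx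
      have h2 : PLe (as.length + k1 + 1) (c :: cs) := by
        refine hp bs (c :: cs) _ ?_ (hL2 _ (by simp)) h1
        simp only [List.length_append, List.length_cons] at hN ⊢
        omega
      have h3 : PLe ds.length ds.flatten := ⟨ds, le_rfl, fun p hp => hL2 p (by simp [hp]), rfl⟩
      refine (h2.append h3).mono ?_
      simp only [List.length_append, List.length_cons] at hL1
      omega

theorem saarela {x y : List α} {k1 k2 : ℕ} (hx : PLe k1 x) (hxy : PLe k2 (x ++ y)) :
    PLe (k1 + k2) y :=
  saarela_aux _ x y k1 k2 le_rfl hx hxy

/-- `u[a,b)` is a palindrome. -/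
def pal (u : ℕ → α) (a b : ℕ) : Prop := ∀ x, x < b - a → u (a + x) = u (b - 1 - x)

/-- There is a decomposition of `u[m,n)` into at most `t` nonempty palindromes whose lengths
satisfy `E`. -/
inductive Path (u : ℕ → α) (E : ℕ → Prop) : ℕ → ℕ → ℕ → Prop
  | nil (t m : ℕ) : Path u E t m m
  | snoc {t m n p : ℕ} (h : Path u E t m n) (hnp : n < p) (hpal : pal u n p) (hE : E (p - n)) :
      Path u E (t + 1) m p

theorem Path.le {u : ℕ → α} {E : ℕ → Prop} {t m n : ℕ} (h : Path u E t m n) : m ≤ n := by
  induction h with
  | nil => exact le_rfl
  | snoc _ h1 _ _ ih => omega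

theorem Path.mono {u : ℕ → α} {E : ℕ → Prop} {t m n : ℕ} (h : Path u E t m n) :
    ∀ {s : ℕ}, t ≤ s → Path u E s m n := by
  induction h with
  | nil t m => intro s _; exact Path.nil s m
  | snoc h h1 h2 h3 ih =>
    intro s hs
    obtain ⟨s, rfl⟩ : ∃ s', s = s' + 1 := ⟨s - 1, by omega⟩
    exact Path.snoc (ih (by omega)) h1 h2 h3

/-- The word `u[m,m+n)`. -/
def seg (u : ℕ → α) (m n : ℕ) : List α := (List.range n).map (fun i => u (m + i))

theorem seg_length (u : ℕ → α) (m n : ℕ) : (seg u m n).length = n := by simp [seg]

theorem seg_get (u : ℕ → α) (m n i : ℕ) (hi : i < n) : (seg u m n)[i]? = some (u (m + i)) := by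
  simp [seg, hi]

theorem seg_add (u : ℕ → α) (m n n' : ℕ) : seg u m (n + n') = seg u m n ++ seg u (m + n) n' := by
  simp [seg, List.range_add, Function.comp_def, add_assoc]

theorem seg_pal {u : ℕ → α} {m n : ℕ} (h : (seg u m n).reverse = seg u m n) :
    pal u m (m + n) := by
  intro x hx
  have hx' : x < n := by omega
  have h1 : (seg u m n).reverse[x]? = (seg u m n)[x]? := by rw [h]
  rw [List.getElem?_reverse (by rwa [seg_length]), seg_length, seg_get _ _ _ _ hx',
    seg_get _ _ _ _ (by omega)] at h1
  have h2 := Option.some.inj h1
  rw [← h2]
  congr 1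
  omega

theorem path_of_list {u : ℕ → α} (L : List (List α)) : ∀ (t p m n : ℕ),
    Path u (fun _ => True) t p m → (∀ w ∈ L, w.reverse = w) → L.flatten = seg u m n →
    Path u (fun _ => True) (t + L.length) p (m + n) := by
  induction L with
  | nil =>
    intro t p m n h _ hL
    have : n = 0 := by
      have := congrArg List.length hL
      simpa [seg_length] using this.symm
    subst this
    exact h
  | cons w L ih =>
    intro t p m n h hpal hL
    have hlen : w.length + L.flatten.length = n := by
      have := congrArg List.length hL
      simpa only [List.flatten_cons, List.length_append, seg_length] using this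
    obtain ⟨n', rfl⟩ : ∃ n', n = w.length + n' := ⟨L.flatten.length, hlen.symm⟩
    rw [List.flatten_cons, seg_add] at hL
    obtain ⟨h1, h2⟩ := List.append_inj hL (by rw [seg_length])
    rcases Nat.eq_zero_or_pos w.length with h0 | h0
    · have hw : w = [] := List.eq_nil_of_length_eq_zero h0
      subst hw
      have := ih (t + 1) p m n' (h.mono (by omega)) (fun w hw => hpal w (by simp [hw]))
        (by simpa using h2)
      simpa [add_assoc, add_comm, add_left_comm] using this
    · have hp1 : pal u m (m + w.length) := by
        apply seg_pal
        rw [← h1]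
        exact hpal w (by simp)
      have hsn : Path u (fun _ => True) (t + 1) p (m + w.length) :=
        Path.snoc h (by omega) hp1 trivial
      have := ih (t + 1) p (m + w.length) n' hsn (fun w hw => hpal w (by simp [hw])) h2
      rw [List.length_cons, ← add_assoc m, show t + (L.length + 1) = t + 1 + L.length by omega]
      exact this

/-- If all prefixes are products of at most `K` palindromes, then every factor is a product of at
most `2K` of them. -/
theorem path_of_prefixes {u : ℕ → α} {K : ℕ} (h : ∀ n, PLe K (seg u 0 n)) (m n : ℕ)
    (hmn : m ≤ n) : Path u (fun _ => True) (K + K) m n := by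
  obtain ⟨d, rfl⟩ := Nat.exists_eq_add_of_le hmn
  have h1 := h m
  have h2 := h (m + d)
  rw [seg_add, zero_add] at h2
  obtain ⟨L, hL1, hL2, hL3⟩ := saarela h1 h2
  have := path_of_list L 0 m m d (Path.nil 0 m) hL2 hL3
  exact this.mono (by omega)

end Pool.Agent.Helper586.Fpz
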