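import Mathlib
import Pool.Agent.Helper586.FpzPath

set_option autoImplicit false

namespace Pool.Agent.Helper586.Fpz

variable {α : Type*}

theorem reach_bdd {u : ℕ → α} (N : ℕ → ℕ) (hN : ∀ m n, N m ≤ n → m < n → ¬ pal u m n) (t : ℕ) :
    ∃ B, ∀ n, Path u (fun _ => True) t 0 n → n ≤ B := by
  induction t with
  | zero => exact ⟨0, fun n h => by cases h; exact le_rfl⟩
  | succ t ih =>
    obtain ⟨B, hB⟩ := ih
    refine ⟨∑ m ∈ Finset.range (B+1), N m, ?_⟩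
    intro n h
    cases h with
    | nil => exact Nat.zero_le _
    | snoc h1 h2 h3 h4 =>
      by_contra hc
      push Not at hc
      have hm := hB _ h1
      have := Finset.single_le_sum (f := N) (s := Finset.range (B+1)) (fun _ _ => Nat.zero_le _)
        (Finset.mem_range.mpr (Nat.lt_succ_of_le hm))
      exact hN _ _ (by omega) h2 h3

theorem exists_tail {u : ℕ → α} {K : ℕ} (h : ∀ n, Path u (fun _ => True) K 0 n) :
    ∃ m, ∀ N, ∃ n ≥ N, m < n ∧ pal u m n := by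
  by_contra hc
  push Not at hc
  choose N hN using hc
  obtain ⟨B, hB⟩ := reach_bdd (u := u) N (fun m n h1 h2 h3 => hN m n h1 h2 h3) K
  have := hB (B+1) (h _)
  omega

theorem pal_shift {u : ℕ → α} {m p q : ℕ} (hm : m ≤ p) (h : pal u p q) :
    pal (fun i => u (m + i)) (p - m) (q - m) := by
  intro x hx
  have := h x (by omega)
  show u (m + (p - m + x)) = u (m + (q - m - 1 - x))
  rw [show m + (p - m + x) = p + x by omega, show m + (q - m - 1 - x) = q - 1 - x by omega]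
  exact this

theorem Path.shift {u : ℕ → α} {E : ℕ → Prop} {t p q : ℕ} (h : Path u E t p q) :
    ∀ m, m ≤ p → Path (fun i => u (m + i)) E t (p - m) (q - m) := by
  induction h with
  | nil t p => intro m _; exact Path.nil _ _
  | snoc h1 h2 h3 h4 ih =>
    intro m hm
    have hle := h1.le
    refine Path.snoc (ih m hm) (by omega) (pal_shift (by omega) h3) ?_
    convert h4 using 1
    omega

/-- The standing hypotheses. -/
structure Good (u : ℕ → α) (K : ℕ) : Prop where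
  hpal : ∀ N, ∃ n ≥ N, pal u 0 n
  hnp : ∀ p > 0, ∀ N, ∃ n ≥ N, u (n + p) ≠ u n
  hpath : ∀ m n, m ≤ n → Path u (fun _ => True) K m n

theorem good_tail {u : ℕ → α} {K : ℕ} (hnp : ∀ p > 0, ∀ N, ∃ n ≥ N, u (n + p) ≠ u n)
    (h : ∀ m n, m ≤ n → Path u (fun _ => True) K m n) :
    ∃ v : ℕ → α, Good v K := by
  obtain ⟨m, hm⟩ := exists_tail (fun n => h 0 n (Nat.zero_le _))
  refine ⟨fun i => u (m + i), ?_, ?_, ?_⟩
  · intro N
    obtain ⟨n, hn, hmn, hp⟩ := hm (m + N)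
    refine ⟨n - m, by omega, ?_⟩
    have := pal_shift (m := m) le_rfl hp
    rwa [Nat.sub_self] at this
  · intro p hp N
    obtain ⟨n, hn, hne⟩ := hnp p hp (m + N)
    refine ⟨n - m, by omega, ?_⟩
    show u (m + (n - m + p)) ≠ u (m + (n - m))
    rw [show m + (n - m + p) = n + p by omega, show m + (n - m) = n by omega]
    exact hne
  · intro a b hab
    have := (h (m + a) (m + b) (by omega)).shift m (by omega)
    rwa [Nat.add_sub_cancel_left, Nat.add_sub_cancel_left] at this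

def Agree (u : ℕ → α) (x y l : ℕ) : Prop := ∀ t < l, u (x + t) = u (y + t)

/-- The windows of radius `ρ` around the gaps `x` and `y` agree. -/
def EqW (u : ℕ → α) (ρ x y : ℕ) : Prop :=
  ρ ≤ x ∧ ρ ≤ y ∧ ∀ t < ρ, u (x + t) = u (y + t) ∧ u (x - 1 - t) = u (y - 1 - t)

/-- The window of radius `ρ` around the gap `x` is the reversal of that around `y`. -/
def RvW (u : ℕ → α) (ρ x y : ℕ) : Prop :=
  ρ ≤ x ∧ ρ ≤ y ∧ ∀ t < ρ, u (x + t) = u (y - 1 - t) ∧ u (x - 1 - t) = u (y + t)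

variable {u : ℕ → α} {ρ σ x y z : ℕ}

theorem EqW.refl (h : ρ ≤ x) : EqW u ρ x x := ⟨h, h, fun _ _ => ⟨rfl, rfl⟩⟩

theorem EqW.symm (h : EqW u ρ x y) : EqW u ρ y x :=
  ⟨h.2.1, h.1, fun t ht => ⟨(h.2.2 t ht).1.symm, (h.2.2 t ht).2.symm⟩⟩

theorem EqW.trans (h : EqW u ρ x y) (h' : EqW u ρ y z) : EqW u ρ x z :=
  ⟨h.1, h'.2.1, fun t ht => ⟨(h.2.2 t ht).1.trans (h'.2.2 t ht).1,
    (h.2.2 t ht).2.trans (h'.2.2 t ht).2⟩⟩

theorem EqW.mono (h : EqW u σ x y) (hρ : ρ ≤ σ) : EqW u ρ x y :=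
  ⟨hρ.trans h.1, hρ.trans h.2.1, fun t ht => h.2.2 t (lt_of_lt_of_le ht hρ)⟩

theorem RvW.mono (h : RvW u σ x y) (hρ : ρ ≤ σ) : RvW u ρ x y :=
  ⟨hρ.trans h.1, hρ.trans h.2.1, fun t ht => h.2.2 t (lt_of_lt_of_le ht hρ)⟩

theorem RvW.symm (h : RvW u ρ x y) : RvW u ρ y x :=
  ⟨h.2.1, h.1, fun t ht => ⟨(h.2.2 t ht).2.symm, (h.2.2 t ht).1.symm⟩⟩

theorem RvW.trans_eq (h : RvW u ρ x y) (h' : EqW u ρ y z) : RvW u ρ x z :=
  ⟨h.1, h'.2.1, fun t ht => ⟨(h.2.2 t ht).1.trans (h'.2.2 t ht).2,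
    (h.2.2 t ht).2.trans (h'.2.2 t ht).1⟩⟩

theorem RvW.trans (h : RvW u ρ x y) (h' : RvW u ρ y z) : EqW u ρ x z :=
  ⟨h.1, h'.2.1, fun t ht => ⟨(h.2.2 t ht).1.trans (h'.2.2 t ht).2,
    (h.2.2 t ht).2.trans (h'.2.2 t ht).1⟩⟩

theorem EqW.trans_rv (h : EqW u ρ x y) (h' : RvW u ρ y z) : RvW u ρ x z :=
  ⟨h.1, h'.2.1, fun t ht => ⟨(h.2.2 t ht).1.trans (h'.2.2 t ht).1,
    (h.2.2 t ht).2.trans (h'.2.2 t ht).2⟩⟩

theorem rv_of_pal {n c : ℕ} (hn : pal u 0 n) (h1 : c + ρ ≤ n) (h2 : ρ ≤ c) :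
    RvW u ρ (n - c) c := by
  refine ⟨by omega, h2, fun t ht => ⟨?_, ?_⟩⟩
  · have := hn (n - c + t) (by omega)
    rw [zero_add] at this
    rw [this]
    congr 1
    omega
  · have := hn (n - c - 1 - t) (by omega)
    rw [zero_add] at this
    rw [this]
    congr 1
    omega

theorem Good.exists_rv {K c : ℕ} (hu : Good u K) (h : ρ ≤ c) (N : ℕ) :
    ∃ d ≥ N, RvW u ρ d c := by
  obtain ⟨n, hn, hp⟩ := hu.hpal (c + ρ + N)
  exact ⟨n - c, by omega, rv_of_pal hp (by omega) h⟩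

theorem Good.exists_eq {K c : ℕ} (hu : Good u K) (h : ρ ≤ c) (N : ℕ) :
    ∃ d ≥ N, EqW u ρ d c := by
  obtain ⟨d, _, hd⟩ := hu.exists_rv h 0
  obtain ⟨e, he, hed⟩ := hu.exists_rv hd.1 N
  exact ⟨e, he, hed.trans hd⟩

/-- Factors recur, together with their reversals. -/
theorem Good.rev_recur {K : ℕ} (hu : Good u K) (a l N : ℕ) :
    ∃ b ≥ N, ∀ t < l, u (b + t) = u (a + l - 1 - t) := by
  obtain ⟨n, hn, hp⟩ := hu.hpal (a + l + N)
  refine ⟨n - a - l, by omega, fun t ht => ?_⟩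
  have := hp (n - a - l + t) (by omega)
  rw [zero_add] at this
  rw [this]
  congr 1
  omega

theorem Good.recur {K : ℕ} (hu : Good u K) (a l N : ℕ) :
    ∃ b ≥ N, Agree u b a l := by
  obtain ⟨b, _, hb⟩ := hu.rev_recur a l 0
  obtain ⟨c, hc, hc2⟩ := hu.rev_recur b l N
  refine ⟨c, hc, fun t ht => ?_⟩
  rw [hc2 t ht, show b + l - 1 - t = b + (l - 1 - t) by omega, hb _ (by omega)]
  congr 1
  omega

end Pool.Agent.Helper586.Fpz
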