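import Mathlib

set_option autoImplicit false

namespace Pool.Agent.Helper586.Fpz

variable {β : Type*}

/-- the prefix of length `k` of the list `T` is a palindrome -/
def PalP (T : List β) (k : ℕ) : Prop := k ≤ T.length ∧ ∀ i < k, T[i]? = T[k - 1 - i]?

theorem palP_cons {T : List β} {h : β} {k : ℕ} (hk : PalP (h :: T) (k + 2)) :
    PalP T k ∧ T[k]? = some h := by
  obtain ⟨h1, h2⟩ := hk
  simp only [List.length_cons] at h1
  refine ⟨⟨by omega, ?_⟩, ?_⟩
  · intro i hi
    have h3 := h2 (i + 1) (by omega)
    rw [List.getElem?_cons_succ, show k + 2 - 1 - (i + 1) = (k - 1 - i) + 1 by omega,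
      List.getElem?_cons_succ] at h3
    exact h3
  · have h3 := h2 0 (by omega)
    rw [List.getElem?_cons_zero, show k + 2 - 1 - 0 = k + 1 by omega,
      List.getElem?_cons_succ] at h3
    exact h3.symm

open Classical in
/-- The weight of a list: each palindromic prefix of length `n` contributes `2^(n/2)`. -/
noncomputable def wt (h : List β) : ℕ :=
  ∑ n ∈ Finset.range (h.length + 1), if PalP h n then 2 ^ (n / 2) else 0

open Classical in
/-- The weight of the palindromic prefixes of `h` that are followed by `d`. -/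
noncomputable def wd (d : β) (h : List β) : ℕ :=
  ∑ n ∈ Finset.range (h.length + 1), if PalP h n ∧ h[n]? = some d then 2 ^ (n / 2) else 0

theorem wt_nil : wt ([] : List β) ≤ 1 := by
  classical
  unfold wt
  simp only [List.length_nil, zero_add, Finset.range_one, Finset.sum_singleton]
  split_ifs <;> simp

theorem wt_cons (d : β) (h : List β) : wt (d :: h) ≤ 2 + 2 * wd d h := by
  classical
  unfold wt
  rw [List.length_cons, Finset.sum_range_succ', Finset.sum_range_succ']
  have h1 : (∑ k ∈ Finset.range h.length,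
      if PalP (d :: h) (k + 1 + 1) then 2 ^ ((k + 1 + 1) / 2) else 0) ≤ 2 * wd d h := by
    unfold wd
    rw [Finset.mul_sum]
    refine le_trans (Finset.sum_le_sum (g := fun k => 2 * (if PalP h k ∧ h[k]? = some d then
      2 ^ (k / 2) else 0)) ?_) (Finset.sum_le_sum_of_subset ?_)
    · intro k _
      by_cases hk : PalP (d :: h) (k + 1 + 1)
      · have hk' : PalP h k ∧ h[k]? = some d := palP_cons hk
        rw [if_pos hk, if_pos hk', show (k + 1 + 1) / 2 = k / 2 + 1 by omega, pow_succ, mul_comm]
      · rw [if_neg hk]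
        exact Nat.zero_le _
    · exact Finset.range_mono (Nat.le_succ _)
  have h2 : (if PalP (d :: h) (0 + 1) then 2 ^ ((0 + 1) / 2) else 0) ≤ 1 := by
    split_ifs <;> simp
  have h3 : (if PalP (d :: h) 0 then 2 ^ (0 / 2) else 0) ≤ 1 := by
    split_ifs <;> simp
  omega

theorem wd_add_le {d1 d2 : β} (hne : d1 ≠ d2) (h : List β) : wd d1 h + wd d2 h ≤ wt h := by
  classical
  unfold wd wt
  rw [← Finset.sum_add_distrib]
  apply Finset.sum_le_sum
  intro n _
  by_cases hp : PalP h n
  · rw [if_pos hp]
    by_cases h1 : h[n]? = some d1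
    · rw [if_pos ⟨hp, h1⟩, if_neg]
      · simp
      · rintro ⟨_, h2⟩
        rw [h1] at h2
        exact hne (Option.some.inj h2)
    · rw [if_neg (fun h => h1 h.2), zero_add]
      split_ifs <;> simp
  · rw [if_neg (fun h => hp h.1), if_neg (fun h => hp h.1)]
    simp

theorem wt_choice {d1 d2 : β} (hne : d1 ≠ d2) (h : List β) :
    wt (d1 :: h) ≤ wt h + 2 ∨ wt (d2 :: h) ≤ wt h + 2 := by
  have h1 := wt_cons d1 h
  have h2 := wt_cons d2 h
  have h3 := wd_add_le hne h
  omega

theorem pow_le_wt {h : List β} {n : ℕ} (hp : PalP h n) : 2 ^ (n / 2) ≤ wt h := by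
  classical
  unfold wt
  have := Finset.single_le_sum (f := fun n => if PalP h n then 2 ^ (n / 2) else 0)
    (s := Finset.range (h.length + 1)) (fun _ _ => Nat.zero_le _)
    (Finset.mem_range.mpr (Nat.lt_succ_of_le hp.1))
  simp only [if_pos hp] at this
  exact this

end Pool.Agent.Helper586.Fpz
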