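import Mathlib
import Pool.Agent.Helper586.FpzTail
import Pool.Agent.Helper586.FpzWeight

set_option autoImplicit false

namespace Pool.Agent.Helper586.Fpz

variable {α : Type*}

/-- Consecutive occurrences with return distances `h` (most recent first), the first one at `q`. -/
def Mk (occ : ℕ → Prop) (q : ℕ) : List ℕ → Prop
  | [] => occ q
  | d :: h => Mk occ q h ∧ 0 < d ∧ occ (q + h.sum + d) ∧
      ∀ x, q + h.sum < x → x < q + h.sum + d → ¬ occ x

theorem Mk.last {occ : ℕ → Prop} {q : ℕ} : ∀ {h : List ℕ}, Mk occ q h → occ (q + h.sum)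
  | [], hM => by simpa [Mk] using hM
  | d :: h, hM => by
    have := hM.2.2.1
    rw [List.sum_cons, show q + (d + h.sum) = q + h.sum + d by omega]
    exact this

theorem Mk.drop {occ : ℕ → Prop} {q : ℕ} : ∀ {h : List ℕ} (j : ℕ), Mk occ q h →
    Mk occ q (h.drop j)
  | [], j, hM => by simpa using hM
  | _ :: _, 0, hM => hM
  | _ :: _, j + 1, hM => by simpa using Mk.drop j hM.1

theorem Mk.transfer {occ : ℕ → Prop} {q q2 : ℕ} : ∀ {h : List ℕ}, Mk occ q h →
    (∀ x, q ≤ x → x ≤ q + h.sum → (occ (q2 + (x - q)) ↔ occ x)) → Mk occ q2 h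
  | [], hM, hx => by
    have := (hx q le_rfl (by simp)).mpr hM
    simpa [Mk] using this
  | d :: h, hM, hx => by
    obtain ⟨h1, h2, h3, h4⟩ := hM
    simp only [List.sum_cons] at hx
    refine ⟨Mk.transfer h1 (fun x hx1 hx2 => hx x hx1 (by omega)), h2, ?_, ?_⟩
    · have := (hx (q + h.sum + d) (by omega) (by omega)).mpr h3
      rwa [show q2 + (q + h.sum + d - q) = q2 + h.sum + d by omega] at this
    · intro x hx1 hx2 hocc
      refine h4 (q + (x - q2)) (by omega) (by omega) ?_
      apply (hx _ (by omega) (by omega)).mp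
      rwa [show q2 + (q + (x - q2) - q) = x by omega]

theorem exists_next {occ : ℕ → Prop} (hrec : ∀ N, ∃ o ≥ N, occ o) (e : ℕ) :
    ∃ d, 0 < d ∧ occ (e + d) ∧ ∀ x, e < x → x < e + d → ¬ occ x := by
  classical
  have hex : ∃ d, 0 < d ∧ occ (e + d) := by
    obtain ⟨o, ho, hocc⟩ := hrec (e + 1)
    exact ⟨o - e, by omega, by rwa [show e + (o - e) = o by omega]⟩
  refine ⟨Nat.find hex, (Nat.find_spec hex).1, (Nat.find_spec hex).2, ?_⟩
  intro x h1 h2 h3
  have := Nat.find_min hex (m := x - e) (by omega)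
  exact this ⟨by omega, by rwa [show e + (x - e) = x by omega]⟩

/-- If no left context forces the palindrome `P`, two different return distances are possible. -/
theorem step {u : ℕ → α} {i L k : ℕ} (hkL : k ≤ L)
    (hrec : ∀ N, ∃ o ≥ N, Agree u o i L)
    (hgap : ∀ o o', Agree u o i L → Agree u o' i L → o < o' → o + k < o')
    (hpers : ∀ o Z, Agree u o i L → Z ≤ o →
      ∃ y ≥ Z, Agree u (y - Z) (o - Z) (Z + L - k) ∧ ¬ Agree u y i L)
    {q : ℕ} {h : List ℕ} (hM : Mk (fun x => Agree u x i L) q h) :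
    ∃ q1 d1 q2 d2, d1 ≠ d2 ∧ Mk (fun x => Agree u x i L) q1 (d1 :: h) ∧
      Mk (fun x => Agree u x i L) q2 (d2 :: h) := by
  obtain ⟨d1, hd1, ho1, hn1⟩ := exists_next hrec (q + h.sum)
  obtain ⟨y, hy, hag, hno⟩ := hpers (q + h.sum + d1) (h.sum + d1) ho1 (by omega)
  have hgap1 := hgap _ _ hM.last ho1 (by omega)
  rw [show q + h.sum + d1 - (h.sum + d1) = q by omega] at hag
  have htr : Mk (fun x => Agree u x i L) (y - (h.sum + d1)) h := by
    apply hM.transfer
    intro x hx1 hx2
    have key : ∀ t < L, u (y - (h.sum + d1) + (x - q) + t) = u (x + t) := by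
      intro t ht
      have := hag (x - q + t) (by omega)
      rw [show y - (h.sum + d1) + (x - q) + t = y - (h.sum + d1) + (x - q + t) by omega, this]
      congr 1
      omega
    constructor
    · intro hh t ht
      rw [← key t ht]
      exact hh t ht
    · intro hh t ht
      rw [key t ht]
      exact hh t ht
  obtain ⟨d2, hd2, ho2, hn2⟩ := exists_next hrec (y - (h.sum + d1) + h.sum)
  refine ⟨q, d1, y - (h.sum + d1), d2, ?_, ⟨hM, hd1, ho1, hn1⟩, ⟨htr, hd2, ho2, hn2⟩⟩
  rintro rfl
  apply hno
  rwa [show y - (h.sum + d1) + h.sum + d1 = y by omega] at ho2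

theorem build {u : ℕ → α} {i L k : ℕ} (hkL : k ≤ L)
    (hrec : ∀ N, ∃ o ≥ N, Agree u o i L)
    (hgap : ∀ o o', Agree u o i L → Agree u o' i L → o < o' → o + k < o')
    (hpers : ∀ o Z, Agree u o i L → Z ≤ o →
      ∃ y ≥ Z, Agree u (y - Z) (o - Z) (Z + L - k) ∧ ¬ Agree u y i L) (r : ℕ) :
    ∃ (q : ℕ) (h : List ℕ), h.length = r ∧ Mk (fun x => Agree u x i L) q h ∧
      ∀ j, wt (h.drop j) ≤ 2 * r + 1 := by
  induction r with
  | zero =>
    obtain ⟨o, _, ho⟩ := hrec 0
    exact ⟨o, [], rfl, ho, fun j => by simpa using wt_nil⟩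
  | succ r ih =>
    obtain ⟨q, h, hl, hM, hw⟩ := ih
    obtain ⟨q1, d1, q2, d2, hne, hM1, hM2⟩ := step hkL hrec hgap hpers hM
    have h0 := hw 0
    rw [List.drop_zero] at h0
    rcases wt_choice hne h with hc | hc
    · refine ⟨q1, d1 :: h, by simp [hl], hM1, ?_⟩
      intro j
      cases j with
      | zero => simp only [List.drop_zero]; omega
      | succ j => simp only [List.drop_succ_cons]; have := hw j; omega
    · refine ⟨q2, d2 :: h, by simp [hl], hM2, ?_⟩
      intro j
      cases j with
      | zero => simp only [List.drop_zero]; omega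
      | succ j => simp only [List.drop_succ_cons]; have := hw j; omega

/-- The position of the marker with index `j` (index `0` is the last one). -/
def mpos (q : ℕ) (h : List ℕ) (j : ℕ) : ℕ := q + (h.drop j).sum

theorem mpos_succ {q : ℕ} {h : List ℕ} {j : ℕ} (hj : j < h.length) :
    mpos q h j = mpos q h (j + 1) + h[j] := by
  unfold mpos
  rw [List.drop_eq_getElem_cons hj, List.sum_cons]
  omega

theorem Mk.occ_mpos {occ : ℕ → Prop} {q : ℕ} {h : List ℕ} (hM : Mk occ q h) (j : ℕ) :
    occ (mpos q h j) := (hM.drop j).last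

theorem Mk.succ_lt {occ : ℕ → Prop} {q : ℕ} {h : List ℕ} (hM : Mk occ q h) {j : ℕ}
    (hj : j < h.length) : mpos q h (j + 1) < mpos q h j := by
  have h1 := hM.drop j
  rw [List.drop_eq_getElem_cons hj] at h1
  have := h1.2.1
  rw [mpos_succ hj]
  omega

theorem Mk.lt_of_lt {occ : ℕ → Prop} {q : ℕ} {h : List ℕ} (hM : Mk occ q h) {j : ℕ} :
    ∀ {j' : ℕ}, j < j' → j' ≤ h.length → mpos q h j' < mpos q h j := by
  intro j'
  induction j' with
  | zero => intro h1; omega
  | succ j' ih =>
    intro h1 h2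
    have h3 := hM.succ_lt (j := j') (by omega)
    rcases Nat.lt_or_ge j j' with h4 | h4
    · exact h3.trans (ih h4 (by omega))
    · have : j = j' := by omega
      subst this
      exact h3

theorem Mk.le_of_le {occ : ℕ → Prop} {q : ℕ} {h : List ℕ} (hM : Mk occ q h) {j j' : ℕ}
    (h1 : j ≤ j') (h2 : j' ≤ h.length) : mpos q h j' ≤ mpos q h j := by
  rcases h1.lt_or_eq with h3 | rfl
  · exact (hM.lt_of_lt h3 h2).le
  · exact le_rfl

theorem Mk.lt_of_mpos_lt {occ : ℕ → Prop} {q : ℕ} {h : List ℕ} (hM : Mk occ q h) {j j' : ℕ}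
    (h1 : mpos q h j' < mpos q h j) (h2 : j ≤ h.length) : j < j' := by
  by_contra hc
  have := hM.le_of_le (j := j') (j' := j) (by omega) h2
  omega

theorem Mk.exists_index {occ : ℕ → Prop} {q : ℕ} : ∀ {h : List ℕ}, Mk occ q h → ∀ x,
    q ≤ x → x ≤ q + h.sum → occ x → ∃ j ≤ h.length, x = mpos q h j
  | [], _, x, h1, h2, _ => ⟨0, le_rfl, by simp [mpos] at h2 ⊢; omega⟩
  | d :: h, hM, x, h1, h2, h3 => by
    obtain ⟨hM1, hd, hM2, hM3⟩ := hM
    rw [List.sum_cons] at h2
    rcases Nat.lt_or_ge (q + h.sum) x with h4 | h4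
    · refine ⟨0, Nat.zero_le _, ?_⟩
      have h5 : ¬ x < q + h.sum + d := fun h5 => hM3 x h4 h5 h3
      simp only [mpos, List.drop_zero, List.sum_cons]
      omega
    · obtain ⟨j, hj, hjx⟩ := Mk.exists_index hM1 x h1 h4 h3
      exact ⟨j + 1, by simpa using hj, by simpa [mpos] using hjx⟩

/-- A reflection-invariant range of markers gives a palindromic factor of the word of return
distances. -/
theorem piece_pal {occ : ℕ → Prop} {q : ℕ} {h : List ℕ} (hM : Mk occ q h) {lo hi j1 j0 : ℕ}
    (hj : j1 ≤ j0) (hj0 : j0 ≤ h.length) (hlo : lo ≤ mpos q h j0) (hhi : mpos q h j1 ≤ hi)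
    (hall : ∀ x, lo ≤ x → x ≤ hi → occ x → ∃ j, j1 ≤ j ∧ j ≤ j0 ∧ x = mpos q h j)
    (hrefl : ∀ x, lo ≤ x → x ≤ hi → occ x → occ (lo + hi - x)) :
    PalP (h.drop j1) (j0 - j1) := by
  have hr : ∀ j, j1 ≤ j → j ≤ j0 → ∃ j', j1 ≤ j' ∧ j' ≤ j0 ∧
      mpos q h j' + mpos q h j = lo + hi := by
    intro j h1 h2
    have h3 := hM.le_of_le h1 (h2.trans hj0)
    have h4 := hM.le_of_le h2 hj0
    obtain ⟨j', h5, h6, h7⟩ := hall (lo + hi - mpos q h j) (by omega) (by omega)
      (hrefl _ (by omega) (by omega) (hM.occ_mpos j))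
    exact ⟨j', h5, h6, by omega⟩
  have key : ∀ x, x ≤ j0 - j1 → mpos q h (j1 + x) + mpos q h (j0 - x) = lo + hi := by
    intro x
    induction x with
    | zero =>
      intro _
      obtain ⟨a, ha1, ha2, ha3⟩ := hr j0 hj le_rfl
      obtain ⟨b, hb1, hb2, hb3⟩ := hr j1 le_rfl hj
      have h1 := hM.le_of_le ha1 (ha2.trans hj0)
      have h2 := hM.le_of_le hb2 hj0
      simp only [add_zero, Nat.sub_zero]
      omega
    | succ x ih =>
      intro hx
      have ih' := ih (by omega)
      obtain ⟨a, ha1, ha2, ha3⟩ := hr (j1 + (x + 1)) (by omega) (by omega)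
      obtain ⟨b, hb1, hb2, hb3⟩ := hr (j0 - (x + 1)) (by omega) (by omega)
      have h1 : mpos q h (j1 + (x + 1)) < mpos q h (j1 + x) :=
        hM.lt_of_lt (by omega) (by omega)
      have h2 : mpos q h (j0 - x) < mpos q h (j0 - (x + 1)) :=
        hM.lt_of_lt (by omega) (by omega)
      have h3 : a < j0 - x := hM.lt_of_mpos_lt (by omega) (by omega)
      have h4 : j1 + x < b := hM.lt_of_mpos_lt (by omega) (by omega)
      have h5 := hM.le_of_le (j := a) (j' := j0 - (x + 1)) (by omega) (by omega)
      have h6 := hM.le_of_le (j := j1 + (x + 1)) (j' := b) (by omega) (by omega)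
      omega
  refine ⟨by simp; omega, ?_⟩
  intro x hx
  have k1 := key x (by omega)
  have k2 := key (x + 1) (by omega)
  rw [List.getElem?_drop, List.getElem?_drop, List.getElem?_eq_getElem (by omega),
    List.getElem?_eq_getElem (by omega)]
  congr 1
  have m1 := mpos_succ (q := q) (h := h) (j := j1 + x) (by omega)
  have m2 := mpos_succ (q := q) (h := h) (j := j1 + (j0 - j1 - 1 - x)) (by omega)
  have e1 : j1 + (x + 1) = j1 + x + 1 := by omega
  have e2 : j0 - x = j1 + (j0 - j1 - 1 - x) + 1 := by omega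
  have e3 : j0 - (x + 1) = j1 + (j0 - j1 - 1 - x) := by omega
  rw [e2] at k1
  rw [e1, e3] at k2
  omega

theorem piece_count {occ : ℕ → Prop} {q : ℕ} {h : List ℕ} (hM : Mk occ q h) {C : ℕ}
    (hC : ∀ j m, PalP (h.drop j) m → m + 1 ≤ C) {lo hi : ℕ} (hlo : q ≤ lo)
    (hhi : hi ≤ q + h.sum)
    (hrefl : ∀ x, lo ≤ x → x ≤ hi → occ x → occ (lo + hi - x)) :
    ((Finset.range (h.length + 1)).filter
      (fun j => lo ≤ mpos q h j ∧ mpos q h j ≤ hi)).card ≤ C := by
  classical
  set J := (Finset.range (h.length + 1)).filter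
      (fun j => lo ≤ mpos q h j ∧ mpos q h j ≤ hi) with hJ
  rcases J.eq_empty_or_nonempty with he | hne
  · rw [he]
    simp
  have hmem : ∀ j, j ∈ J ↔ j < h.length + 1 ∧ lo ≤ mpos q h j ∧ mpos q h j ≤ hi := by
    intro j
    rw [hJ, Finset.mem_filter, Finset.mem_range]
  have h1 := (hmem _).mp (J.min'_mem hne)
  have h0 := (hmem _).mp (J.max'_mem hne)
  have hle : J.min' hne ≤ J.max' hne := J.min'_le _ (J.max'_mem hne)
  have hp : PalP (h.drop (J.min' hne)) (J.max' hne - J.min' hne) := by
    refine piece_pal hM hle (by omega) h0.2.1 h1.2.2 ?_ hrefl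
    intro x hx1 hx2 hx3
    obtain ⟨j, hj1, hj2⟩ := hM.exists_index x (by omega) (by omega) hx3
    have : j ∈ J := (hmem j).mpr ⟨by omega, by omega, by omega⟩
    exact ⟨j, J.min'_le _ this, J.le_max' _ this, hj2⟩
  have h3 := hC _ _ hp
  have h4 : J.card ≤ (Finset.Icc (J.min' hne) (J.max' hne)).card := by
    apply Finset.card_le_card
    intro j hj
    exact Finset.mem_Icc.mpr ⟨J.min'_le _ hj, J.le_max' _ hj⟩
  rw [Nat.card_Icc] at h4
  omega

theorem path_count {u : ℕ → α} {i L : ℕ} (hL : 0 < L) (hP : pal u i (i + L)) {q : ℕ}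
    {h : List ℕ} (hM : Mk (fun x => Agree u x i L) q h) {C : ℕ}
    (hC : ∀ j m, PalP (h.drop j) m → m + 1 ≤ C) {t n : ℕ}
    (hpath : Path u (fun _ => True) t q n) (hn : n ≤ q + h.sum + L) :
    ((Finset.range (h.length + 1)).filter (fun j => mpos q h j + L ≤ n)).card ≤
      t * (C + L) := by
  classical
  generalize hq : q = q' at hpath
  induction hpath with
  | nil t m =>
    subst hq
    rw [Finset.card_eq_zero.mpr]
    · exact Nat.zero_le _
    · rw [Finset.filter_eq_empty_iff]
      intro j _ hj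
      unfold mpos at hj
      omega
  | @snoc t m n p h1 hnp hpal _ ih =>
    subst hq
    have hmn := h1.le
    have ih' := ih (by omega) rfl
    have hsub : (Finset.range (h.length + 1)).filter (fun j => mpos q h j + L ≤ p) ⊆
        ((Finset.range (h.length + 1)).filter (fun j => mpos q h j + L ≤ n)) ∪
        (((Finset.range (h.length + 1)).filter
          (fun j => n < mpos q h j + L ∧ mpos q h j < n)) ∪
        ((Finset.range (h.length + 1)).filter
          (fun j => n ≤ mpos q h j ∧ mpos q h j + L ≤ p))) := by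
      intro j hj
      simp only [Finset.mem_union, Finset.mem_filter, Finset.mem_range] at hj ⊢
      omega
    have c2 : ((Finset.range (h.length + 1)).filter
          (fun j => n < mpos q h j + L ∧ mpos q h j < n)).card ≤ L := by
      have : ((Finset.range (h.length + 1)).filter
          (fun j => n < mpos q h j + L ∧ mpos q h j < n)).card ≤
          (Finset.Ico (n - L) n).card := by
        apply Finset.card_le_card_of_injOn (mpos q h)
        · intro j hj
          simp only [Finset.coe_filter, Finset.mem_range, Set.mem_ofPred_eq] at hj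
          simp only [Finset.coe_Ico, Set.mem_Ico]
          omega
        · intro j hj j' hj' hjj
          simp only [Finset.coe_filter, Finset.mem_range, Set.mem_ofPred_eq] at hj hj'
          rcases Nat.lt_trichotomy j j' with h3 | h3 | h3
          · have := hM.lt_of_lt h3 (by omega)
            omega
          · exact h3
          · have := hM.lt_of_lt h3 (by omega)
            omega
      rw [Nat.card_Ico] at this
      omega
    have c3 : ((Finset.range (h.length + 1)).filter
          (fun j => n ≤ mpos q h j ∧ mpos q h j + L ≤ p)).card ≤ C := by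
      rcases Nat.lt_or_ge p (n + L) with hpL | hpL
      · rw [Finset.card_eq_zero.mpr]
        · exact Nat.zero_le _
        · rw [Finset.filter_eq_empty_iff]
          intro j _ hj
          omega
      · refine le_trans (Finset.card_le_card ?_)
          (piece_count hM hC (lo := n) (hi := p - L) (by omega) (by omega) ?_)
        · intro j hj
          simp only [Finset.mem_filter, Finset.mem_range] at hj ⊢
          omega
        · intro x hx1 hx2 hx3 s hs
          have e1 := hpal (p - L - x + s) (by omega)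
          rw [show n + (p - L) - x + s = n + (p - L - x + s) by omega, e1,
            show p - 1 - (p - L - x + s) = x + (L - 1 - s) by omega, hx3 (L - 1 - s) (by omega)]
          have e2 := hP s (by omega)
          rw [e2]
          congr 1
          omega
    have hcard := (Finset.card_le_card hsub).trans
      ((Finset.card_union_le _ _).trans (Nat.add_le_add_left (Finset.card_union_le _ _) _))
    rw [Nat.succ_mul]
    omega

end Pool.Agent.Helper586.Fpz
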