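import Mathlib
import Pool.Agent.Helper586.FpzMark

set_option autoImplicit false

namespace Pool.Agent.Helper586.Fpz

variable {α : Type*}

/-- The marker argument: an unforced palindrome contradicts bounded palindromic length. -/
theorem no_unforced {u : ℕ → α} {K i L k : ℕ} (hL : 0 < L) (hkL : k ≤ L)
    (hP : pal u i (i + L))
    (hpath : ∀ m n, m ≤ n → Path u (fun _ => True) K m n)
    (hrec : ∀ N, ∃ o ≥ N, Agree u o i L)
    (hgap : ∀ o o', Agree u o i L → Agree u o' i L → o < o' → o + k < o')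
    (hpers : ∀ o Z, Agree u o i L → Z ≤ o →
      ∃ y ≥ Z, Agree u (y - Z) (o - Z) (Z + L - k) ∧ ¬ Agree u y i L) : False := by
  obtain ⟨s, hs⟩ : ∃ s, K * (2 * s + 4 + L) < 2 ^ s := by
    refine ⟨2 * (K * (8 + L) + 1), ?_⟩
    set m := K * (8 + L) + 1 with hm
    have h1 : m < 2 ^ m := Nat.lt_two_pow_self
    have h2 : 2 ^ (2 * m) = 2 ^ m * 2 ^ m := by rw [two_mul, pow_add]
    have h3 : m * m ≤ 2 ^ m * 2 ^ m := Nat.mul_le_mul h1.le h1.le
    have h4 : K * (2 * (2 * m) + 4 + L) ≤ K * (8 + L) * m := by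
      have : 2 * (2 * m) + 4 + L ≤ (8 + L) * m := by
        have hm1 : 1 ≤ m := by omega
        have hm2 : L ≤ L * m := Nat.le_mul_of_pos_right _ hm1
        rw [add_mul]
        omega
      calc K * (2 * (2 * m) + 4 + L) ≤ K * ((8 + L) * m) := Nat.mul_le_mul_left _ this
        _ = K * (8 + L) * m := by ring
    have h5 : K * (8 + L) * m < m * m := by nlinarith
    omega
  obtain ⟨q, h, hl, hM, hw⟩ := build hkL hrec hgap hpers (2 ^ s)
  have hC : ∀ j m, PalP (h.drop j) m → m + 1 ≤ 2 * s + 4 := by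
    intro j m hp
    have h1 := (pow_le_wt hp).trans (hw j)
    by_contra hc
    push Not at hc
    have h2 : s + 2 ≤ m / 2 := by omega
    have h3 : 2 ^ (s + 2) ≤ 2 ^ (m / 2) := Nat.pow_le_pow_right (by norm_num) h2
    have h4 : 2 ^ (s + 2) = 4 * 2 ^ s := by rw [pow_add]; ring
    have h5 : 1 ≤ 2 ^ s := Nat.one_le_two_pow
    omega
  have h1 := path_count hL hP hM hC (hpath q (q + h.sum + L) (by omega)) le_rfl
  have h2 : (Finset.range (h.length + 1)).filter (fun j => mpos q h j + L ≤ q + h.sum + L) =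
      Finset.range (h.length + 1) := by
    apply Finset.filter_true_of_mem
    intro j hj
    have := hM.le_of_le (j := 0) (j' := j) (Nat.zero_le _)
      (by simpa [Nat.lt_succ_iff] using hj)
    simp only [mpos, List.drop_zero] at this ⊢
    omega
  rw [h2, Finset.card_range, hl] at h1
  omega

/-- **Lemma B.** Every factor has an occurrence with a left context (its last `k` letters being
hidden) forcing it. -/
theorem lemmaB {u : ℕ → α} {K : ℕ} (hu : Good u K) (a : ℕ) {l k : ℕ} (hkl : k ≤ l) :
    ∃ a' Z, Z ≤ a' ∧ Agree u a' a l ∧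
      ∀ y ≥ Z, Agree u (y - Z) (a' - Z) (Z + l - k) → Agree u y a l := by
  by_contra hcon
  push Not at hcon
  obtain ⟨i, _, hi⟩ := hu.rev_recur a l 0
  have hper : ∃ N, ∀ p, 0 < p → p ≤ k → ∃ x ≥ i, x + p < N ∧ u (x + p) ≠ u x := by
    have h1 : ∀ p : ℕ, ∃ x, 0 < p → x ≥ i ∧ u (x + p) ≠ u x := by
      intro p
      rcases Nat.eq_zero_or_pos p with hp | hp
      · exact ⟨0, fun h => by omega⟩
      · obtain ⟨x, hx1, hx2⟩ := hu.hnp p hp i
        exact ⟨x, fun _ => ⟨hx1, hx2⟩⟩
    choose f hf using h1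
    refine ⟨∑ p ∈ Finset.range (k + 1), (f p + p) + 1, ?_⟩
    intro p hp hpk
    have := Finset.single_le_sum (f := fun p => f p + p) (s := Finset.range (k + 1))
      (fun _ _ => Nat.zero_le _) (Finset.mem_range.mpr (Nat.lt_succ_of_le hpk))
    exact ⟨f p, (hf p hp).1, Nat.lt_succ_of_le this, (hf p hp).2⟩
  obtain ⟨N, hN⟩ := hper
  obtain ⟨n, hn, hp⟩ := hu.hpal (N + 2 * i + l + k + 1)
  -- the palindrome `[i, n - i)`
  obtain ⟨L, hLn⟩ : ∃ L, n = 2 * i + L := ⟨n - 2 * i, by omega⟩
  have hP : pal u i (i + L) := by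
    intro x hx
    have := hp (i + x) (by omega)
    rw [zero_add] at this
    rw [this]
    congr 1
    omega
  have hW : Agree u (i + (L - l)) a l := by
    intro t ht
    have h1 := hP (L - l + t) (by omega)
    rw [show i + (L - l) + t = i + (L - l + t) by omega, h1,
      show i + L - 1 - (L - l + t) = i + (l - 1 - t) by omega, hi _ (by omega)]
    congr 1
    omega
  have hocc : ∀ o, Agree u o i L → Agree u (o + (L - l)) a l := by
    intro o ho t ht
    rw [← hW t ht, show o + (L - l) + t = o + (L - l + t) by omega, ho _ (by omega)]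
    congr 1
    omega
  refine no_unforced (u := u) (K := K) (i := i) (L := L) (k := k) (by omega) (by omega) hP
    hu.hpath (fun N => hu.recur i L N) ?_ ?_
  · intro o o' ho ho' hlt
    by_contra hc
    push Not at hc
    obtain ⟨x, hx1, hx2, hx3⟩ := hN (o' - o) (by omega) (by omega)
    apply hx3
    have e1 := ho' (x - i) (by omega)
    have e2 := ho (x - i + (o' - o)) (by omega)
    rw [show o + (x - i + (o' - o)) = o' + (x - i) by omega,
      show i + (x - i + (o' - o)) = x + (o' - o) by omega] at e2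
    rw [show i + (x - i) = x by omega] at e1
    rw [← e2, e1]
  · intro o Z ho hZ
    obtain ⟨y, hy1, hy2, hy3⟩ := hcon (o + (L - l)) (Z + (L - l)) (by omega) (hocc o ho)
    refine ⟨y - (L - l), by omega, ?_, ?_⟩
    · intro t ht
      have := hy2 t (by omega)
      rw [show y - (Z + (L - l)) = y - (L - l) - Z by omega,
        show o + (L - l) - (Z + (L - l)) = o - Z by omega] at this
      exact this
    · intro hc
      apply hy3
      have := hocc _ hc
      rwa [show y - (L - l) + (L - l) = y by omega] at this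

end Pool.Agent.Helper586.Fpz
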