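import Mathlib
import Pool.Agent.Helper586.FpzLemB

set_option autoImplicit false

namespace Pool.Agent.Helper586.Fpz

variable {α : Type*}

/-- The left context of radius `σ` of the gap `c`, with its last `B` letters hidden, determines
the two-sided window of radius `ρ`. -/
theorem exists_DL {u : ℕ → α} {K : ℕ} (hu : Good u K) {c ρ : ℕ} (h : ρ ≤ c) (B : ℕ) :
    ∃ c' σ, EqW u ρ c' c ∧ ρ ≤ σ ∧ σ ≤ c' ∧
      ∀ y ≥ σ, (∀ t, B ≤ t → t < σ → u (y - 1 - t) = u (c' - 1 - t)) → EqW u ρ y c' := by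
  obtain ⟨c0, hc0, he⟩ := hu.exists_eq h (ρ + B + 1)
  obtain ⟨a', Z, hZ, hag, hfor⟩ := lemmaB hu (c0 - (ρ + B + 1)) (l := ρ + B + 1 + ρ)
    (k := B + ρ) (by omega)
  refine ⟨a' + (ρ + B + 1), Z + (ρ + B + 1), ?_, by omega, by omega, ?_⟩
  · have : EqW u ρ (a' + (ρ + B + 1)) c0 := by
      refine ⟨by omega, he.1, fun t ht => ⟨?_, ?_⟩⟩
      · have := hag (ρ + B + 1 + t) (by omega)
        rw [show a' + (ρ + B + 1) + t = a' + (ρ + B + 1 + t) by omega, this]
        congr 1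
        omega
      · have := hag (ρ + B + 1 - 1 - t) (by omega)
        rw [show a' + (ρ + B + 1) - 1 - t = a' + (ρ + B + 1 - 1 - t) by omega, this]
        congr 1
        omega
    exact this.trans he
  · intro y hy hyt
    have h1 : Agree u (y - (ρ + B + 1)) (c0 - (ρ + B + 1)) (ρ + B + 1 + ρ) := by
      apply hfor (y - (ρ + B + 1)) (by omega)
      intro t ht
      have := hyt (Z + (ρ + B + 1) - 1 - t) (by omega) (by omega)
      rw [show y - (ρ + B + 1) - Z + t = y - 1 - (Z + (ρ + B + 1) - 1 - t) by omega, this]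
      congr 1
      omega
    refine ⟨by omega, by omega, fun t ht => ⟨?_, ?_⟩⟩
    · have e1 := h1 (ρ + B + 1 + t) (by omega)
      have e2 := hag (ρ + B + 1 + t) (by omega)
      rw [show y + t = y - (ρ + B + 1) + (ρ + B + 1 + t) by omega, e1, ← e2]
      congr 1
      omega
    · have e1 := h1 (ρ + B - t) (by omega)
      have e2 := hag (ρ + B - t) (by omega)
      rw [show y - 1 - t = y - (ρ + B + 1) + (ρ + B - t) by omega, e1, ← e2]
      congr 1
      omega

/-- Determination of the window of radius `ρ` around `c`, in both orientations. -/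
structure Det (u : ℕ → α) (c ρ B σ : ℕ) : Prop where
  h1 : ρ ≤ σ
  h2 : σ ≤ c
  dl : ∀ y ≥ σ, (∀ t, B ≤ t → t < σ → u (y - 1 - t) = u (c - 1 - t)) → EqW u ρ y c
  dr : ∀ y ≥ σ, (∀ t, B ≤ t → t < σ → u (y - 1 - t) = u (c + t)) → RvW u ρ y c

theorem exists_Det {u : ℕ → α} {K : ℕ} (hu : Good u K) {c ρ : ℕ} (h : ρ ≤ c) (B : ℕ) :
    ∃ c' σ, EqW u ρ c' c ∧ Det u c' ρ B σ := by
  obtain ⟨c1, σ1, e1, l1, l1', d1⟩ := exists_DL hu h B
  obtain ⟨d, _, rd⟩ := hu.exists_rv l1' 0
  obtain ⟨d', σ2, e2, l2, l2', d2⟩ := exists_DL hu rd.1 B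
  obtain ⟨c2, _, rc⟩ := hu.exists_rv l2' 0
  have hc : EqW u σ1 c2 c1 := ((rc.mono l2).trans_eq e2).trans rd
  refine ⟨c2, σ2, (hc.mono l1).trans e1, l1.trans l2, rc.1, ?_, ?_⟩
  · intro y hy hyt
    have := d1 y (l2.trans hy) (fun t ht1 ht2 => by
      rw [hyt t ht1 (lt_of_lt_of_le ht2 l2)]
      exact (hc.2.2 t ht2).2)
    exact this.trans (hc.mono l1).symm
  · intro y hy hyt
    have := d2 y hy (fun t ht1 ht2 => by
      rw [hyt t ht1 ht2]
      exact (rc.2.2 t ht2).1)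
    exact (this.mono l1).trans_rv ((rc.mono (l1.trans l2)).symm)

theorem Det.congr {u : ℕ → α} {c e ρ B σ : ℕ} (h : Det u c ρ B σ) (he : EqW u σ e c) :
    Det u e ρ B σ := by
  refine ⟨h.h1, he.1, ?_, ?_⟩
  · intro y hy hyt
    have := h.dl y hy (fun t ht1 ht2 => by
      rw [hyt t ht1 ht2]
      exact (he.2.2 t ht2).2)
    exact this.trans (he.mono h.h1).symm
  · intro y hy hyt
    have := h.dr y hy (fun t ht1 ht2 => by
      rw [hyt t ht1 ht2]
      exact (he.2.2 t ht2).1)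
    exact this.trans_eq (he.mono h.h1).symm

/-- Paths of few edges, each either short or very long, starting at (a copy of) `c'` end near
(a copy or a reversed copy of) `c'`. -/
theorem exists_Q {u : ℕ → α} {K : ℕ} (hu : Good u K) (b B : ℕ) (t : ℕ) (htb : t * b ≤ B) :
    ∀ {c ρ : ℕ}, ρ ≤ c → ∃ c' τ, EqW u ρ c' c ∧ ρ ≤ τ ∧ τ ≤ c' ∧
      ∀ p, EqW u τ p c' → ∀ n', Path u (fun l => l ≤ b ∨ τ + B + 1 ≤ l) t p n' →
        ∃ y, n' ≤ y + t * b ∧ y ≤ n' + t * b ∧ (EqW u ρ y c' ∨ RvW u ρ y c') := by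
  induction t with
  | zero =>
    intro c ρ h
    refine ⟨c, ρ, EqW.refl h, le_rfl, h, ?_⟩
    intro p hp n' hpath
    cases hpath
    exact ⟨p, by omega, by omega, Or.inl hp⟩
  | succ t ih =>
    intro c ρ h
    rw [Nat.succ_mul] at htb
    obtain ⟨c1, σ, e1, hdet⟩ := exists_Det hu h B
    obtain ⟨c', τ, e2, l1, l2, hQ⟩ := ih (by omega) hdet.h2
    have hdet' := hdet.congr e2
    refine ⟨c', τ, (e2.mono hdet.h1).trans e1, hdet.h1.trans l1, l2, ?_⟩
    intro p hp n' hpath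
    rw [Nat.succ_mul]
    cases hpath with
    | nil => exact ⟨p, by omega, by omega, Or.inl (hp.mono (hdet.h1.trans l1))⟩
    | @snoc _ _ m _ h1 hnp hpal hE =>
      obtain ⟨y, hy1, hy2, hy3⟩ := hQ p hp m h1
      rcases hE with hE | hE
      · refine ⟨y, by omega, by omega, ?_⟩
        rcases hy3 with hy3 | hy3
        · exact Or.inl (hy3.mono hdet.h1)
        · exact Or.inr (hy3.mono hdet.h1)
      · have key : ∀ s, B ≤ s → s < σ → u (m + n' - y - 1 - s) = u (y + s) := by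
          intro s hs1 hs2
          have := hpal (y + s - m) (by omega)
          rw [show m + (y + s - m) = y + s by omega] at this
          rw [this]
          congr 1
          omega
        refine ⟨m + n' - y, by omega, by omega, ?_⟩
        rcases hy3 with hy3 | hy3
        · refine Or.inr (hdet'.dr _ (by omega) ?_)
          intro s hs1 hs2
          rw [key s hs1 hs2]
          exact (hy3.2.2 s hs2).1
        · refine Or.inl (hdet'.dl _ (by omega) ?_)
          intro s hs1 hs2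
          rw [key s hs1 hs2]
          exact (hy3.2.2 s hs2).1

/-- Copies and reversed copies of the window of radius `ρ` around `c` are far apart. -/
def Sep (u : ℕ → α) (ρ c D : ℕ) : Prop :=
  (∀ y z, EqW u ρ y c → EqW u ρ z c → y < z → y + D < z) ∧
  (∀ y z, RvW u ρ y c → RvW u ρ z c → y < z → y + D < z)

theorem Sep.congr {u : ℕ → α} {ρ c e D : ℕ} (h : Sep u ρ c D) (he : EqW u ρ e c) :
    Sep u ρ e D :=
  ⟨fun y z h1 h2 h3 => h.1 y z (h1.trans he) (h2.trans he) h3,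
    fun y z h1 h2 h3 => h.2 y z (h1.trans_eq he) (h2.trans_eq he) h3⟩

theorem exists_Sep {u : ℕ → α} {K : ℕ} (hu : Good u K) {c ρ : ℕ} (h : ρ ≤ c) (D : ℕ) :
    ∃ c', ρ ≤ c' ∧ EqW u ρ c' c ∧ Sep u c' c' D := by
  have hper : ∃ N, ∀ p, 0 < p → p ≤ D → ∃ x, x + p < N ∧ u (x + p) ≠ u x := by
    have h1 : ∀ p : ℕ, ∃ x, 0 < p → u (x + p) ≠ u x := by
      intro p
      rcases Nat.eq_zero_or_pos p with hp | hp
      · exact ⟨0, fun h => by omega⟩
      · obtain ⟨x, hx1, hx2⟩ := hu.hnp p hp 0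
        exact ⟨x, fun _ => hx2⟩
    choose f hf using h1
    refine ⟨∑ p ∈ Finset.range (D + 1), (f p + p) + 1, ?_⟩
    intro p hp hpk
    have := Finset.single_le_sum (f := fun p => f p + p) (s := Finset.range (D + 1))
      (fun _ _ => Nat.zero_le _) (Finset.mem_range.mpr (Nat.lt_succ_of_le hpk))
    exact ⟨f p, Nat.lt_succ_of_le this, hf p hp⟩
  obtain ⟨N, hN⟩ := hper
  obtain ⟨c', hc', he⟩ := hu.exists_eq h N
  -- value of the word around a copy of `c'`
  have hE : ∀ y, EqW u c' y c' → ∀ s < 2 * c', u (y - c' + s) = u s := by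
    intro y hy s hs
    have hy0 := hy.1
    rcases Nat.lt_or_ge s c' with h1 | h1
    · have := (hy.2.2 (c' - 1 - s) (by omega)).2
      rw [show y - 1 - (c' - 1 - s) = y - c' + s by omega,
        show c' - 1 - (c' - 1 - s) = s by omega] at this
      exact this
    · have := (hy.2.2 (s - c') (by omega)).1
      rw [show y + (s - c') = y - c' + s by omega, show c' + (s - c') = s by omega] at this
      exact this
  have hR : ∀ y, RvW u c' y c' → ∀ s < 2 * c', u (y - c' + s) = u (2 * c' - 1 - s) := by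
    intro y hy s hs
    have hy0 := hy.1
    rcases Nat.lt_or_ge s c' with h1 | h1
    · have := (hy.2.2 (c' - 1 - s) (by omega)).2
      rw [show y - 1 - (c' - 1 - s) = y - c' + s by omega,
        show c' + (c' - 1 - s) = 2 * c' - 1 - s by omega] at this
      exact this
    · have := (hy.2.2 (s - c') (by omega)).1
      rw [show y + (s - c') = y - c' + s by omega,
        show c' - 1 - (s - c') = 2 * c' - 1 - s by omega] at this
      exact this
  refine ⟨c', he.1, he, ?_, ?_⟩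
  · intro y z hy hz hlt
    by_contra hc
    push Not at hc
    obtain ⟨x, hx1, hx2⟩ := hN (z - y) (by omega) (by omega)
    have hy0 := hy.1
    have e1 := hE y hy (x + (z - y)) (by omega)
    have e2 := hE z hz x (by omega)
    rw [show y - c' + (x + (z - y)) = z - c' + x by omega] at e1
    exact hx2 (e1.symm.trans e2)
  · intro y z hy hz hlt
    by_contra hc
    push Not at hc
    obtain ⟨x, hx1, hx2⟩ := hN (z - y) (by omega) (by omega)
    have hy0 := hy.1
    have e1 := hR y hy (2 * c' - 1 - x) (by omega)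
    have e2 := hR z hz (2 * c' - 1 - x - (z - y)) (by omega)
    rw [show z - c' + (2 * c' - 1 - x - (z - y)) = y - c' + (2 * c' - 1 - x) by omega,
      show 2 * c' - 1 - (2 * c' - 1 - x - (z - y)) = x + (z - y) by omega] at e2
    rw [show 2 * c' - 1 - (2 * c' - 1 - x) = x by omega] at e1
    exact hx2 (e2.symm.trans e1)

/-- One level of the construction. -/
structure Lvl (u : ℕ → α) (K c b R ρ τ : ℕ) : Prop where
  hρτ : ρ ≤ τ
  hτc : τ ≤ c
  hsep : Sep u ρ c (12 * (K * b) + 5)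
  hQ : ∀ p, EqW u τ p c → ∀ n', Path u (fun l => l ≤ b ∨ R ≤ l) K p n' →
    ∃ y, n' ≤ y + K * b ∧ y ≤ n' + K * b ∧ (EqW u ρ y c ∨ RvW u ρ y c)

theorem Lvl.congr {u : ℕ → α} {K c e b R ρ τ : ℕ} (h : Lvl u K c b R ρ τ)
    (he : EqW u τ e c) : Lvl u K e b R ρ τ := by
  refine ⟨h.hρτ, he.1, h.hsep.congr (he.mono h.hρτ), ?_⟩
  intro p hp n' hn'
  obtain ⟨y, hy1, hy2, hy3⟩ := h.hQ p (hp.trans he) n' hn'
  refine ⟨y, hy1, hy2, ?_⟩
  rcases hy3 with hy3 | hy3
  · exact Or.inl (hy3.trans (he.mono h.hρτ).symm)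
  · exact Or.inr (hy3.trans_eq (he.mono h.hρτ).symm)

theorem exists_Lvl {u : ℕ → α} {K : ℕ} (hu : Good u K) {c ρ0 : ℕ} (h : ρ0 ≤ c) (b : ℕ) :
    ∃ c' R ρ τ, EqW u ρ0 c' c ∧ ρ0 ≤ τ ∧ Lvl u K c' b R ρ τ := by
  obtain ⟨c1, hc1, e1, hsep⟩ := exists_Sep hu h (12 * (K * b) + 5)
  obtain ⟨c', τ, e2, l1, l2, hQ⟩ := exists_Q hu b (K * b) K le_rfl (c := c1) (ρ := c1) le_rfl
  exact ⟨c', τ + K * b + 1, c1, τ, (e2.mono hc1).trans e1, hc1.trans l1, l1, l2,
    hsep.congr e2, hQ⟩

end Pool.Agent.Helper586.Fpz
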