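import Mathlib
import Pool.Agent.Helper586.FpzDet

set_option autoImplicit false

namespace Pool.Agent.Helper586.Fpz

variable {α : Type*}

/-- One stage of the construction, bundled. -/
structure St (u : ℕ → α) (K : ℕ) where
  c : ℕ
  b : ℕ
  R : ℕ
  ρ : ℕ
  τ : ℕ
  h : Lvl u K c b R ρ τ

theorem exists_seq {u : ℕ → α} {K : ℕ} (hu : Good u K) :
    ∃ s : ℕ → St u K, ∀ i, EqW u (s i).τ (s (i + 1)).c (s i).c ∧ (s i).τ ≤ (s (i + 1)).τ ∧
      (s i).R ≤ (s (i + 1)).b ∧ 5 * (s i).b + 3 ≤ (s (i + 1)).b := by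
  have hnext : ∀ s : St u K, ∃ s' : St u K, EqW u s.τ s'.c s.c ∧ s.τ ≤ s'.τ ∧
      s.R ≤ s'.b ∧ 5 * s.b + 3 ≤ s'.b := by
    intro s
    obtain ⟨c', R, ρ, τ, h1, h2, h3⟩ := exists_Lvl hu s.h.hτc (max s.R (5 * s.b + 3))
    exact ⟨⟨c', max s.R (5 * s.b + 3), R, ρ, τ, h3⟩, h1, h2, le_max_left _ _, le_max_right _ _⟩
  choose f hf using hnext
  obtain ⟨c', R, ρ, τ, h1, h2, h3⟩ := exists_Lvl hu (c := 0) (ρ0 := 0) le_rfl 0
  refine ⟨fun i => f^[i] ⟨c', 0, R, ρ, τ, h3⟩, ?_⟩
  intro i
  simp only [Function.iterate_succ_apply']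
  exact hf _

/-- Positions near a copy (or reversed copy) of the window of radius `ρ` around `c`. -/
def Near (u : ℕ → α) (ρ c w n : ℕ) : Prop :=
  ∃ y, n ≤ y + w ∧ y ≤ n + w ∧ (EqW u ρ y c ∨ RvW u ρ y c)

/-- Every interval of length `5(2w+1)` contains a block of length `2w+1` avoiding `Near`. -/
theorem free_block {u : ℕ → α} {ρ c w : ℕ} (hs : Sep u ρ c (12 * w + 5)) (x : ℕ) :
    ∃ x', x ≤ x' ∧ x' + (2 * w + 1) ≤ x + 5 * (2 * w + 1) ∧
      ∀ n, x' ≤ n → n < x' + (2 * w + 1) → ¬ Near u ρ c w n := by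
  by_contra hcon
  push Not at hcon
  obtain ⟨n0, a0, b0, y0, c0, d0, e0⟩ := hcon x le_rfl (by omega)
  obtain ⟨n1, a1, b1, y1, c1, d1, e1⟩ := hcon (x + 2 * (2 * w + 1)) (by omega) (by omega)
  obtain ⟨n2, a2, b2, y2, c2, d2, e2⟩ := hcon (x + 4 * (2 * w + 1)) (by omega) (by omega)
  rcases e0 with e0 | e0 <;> rcases e1 with e1 | e1 <;> rcases e2 with e2 | e2
  · have := hs.1 y0 y1 e0 e1 (by omega); omega
  · have := hs.1 y0 y1 e0 e1 (by omega); omega
  · have := hs.1 y0 y2 e0 e2 (by omega); omega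
  · have := hs.2 y1 y2 e1 e2 (by omega); omega
  · have := hs.1 y1 y2 e1 e2 (by omega); omega
  · have := hs.2 y0 y2 e0 e2 (by omega); omega
  · have := hs.2 y0 y1 e0 e1 (by omega); omega
  · have := hs.2 y0 y1 e0 e1 (by omega); omega

/-- Pigeonhole over the scale gaps `(b i, R i)`. -/
theorem Path.miss {u : ℕ → α} {b R : ℕ → ℕ}
    (hdisj : ∀ l i j, b i < l → l < R i → b j < l → l < R j → i = j) {t m n : ℕ}
    (h : Path u (fun _ => True) t m n) :
    ∃ S : Finset ℕ, S.card ≤ t ∧ ∀ i, i ∉ S → Path u (fun l => l ≤ b i ∨ R i ≤ l) t m n := by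
  classical
  induction h with
  | nil t m => exact ⟨∅, by simp, fun i _ => Path.nil _ _⟩
  | @snoc t m n p h1 hnp hpal _ ih =>
    obtain ⟨S, hS, hp⟩ := ih
    by_cases hex : ∃ i, b i < p - n ∧ p - n < R i
    · obtain ⟨i, hi1, hi2⟩ := hex
      refine ⟨insert i S, (Finset.card_insert_le _ _).trans (by omega), ?_⟩
      intro j hj
      rw [Finset.mem_insert, not_or] at hj
      refine Path.snoc (hp j hj.2) hnp hpal ?_
      by_contra hc
      push Not at hc
      exact hj.1 (hdisj (p - n) j i hc.1 hc.2 hi1 hi2)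
    · refine ⟨S, by omega, ?_⟩
      intro j hj
      refine Path.snoc (hp j hj) hnp hpal ?_
      by_contra hc
      push Not at hc
      exact hex ⟨j, hc.1, hc.2⟩

theorem Good.false {u : ℕ → α} {K : ℕ} (hu : Good u K) : False := by
  have hK : 1 ≤ K := by
    rcases Nat.eq_zero_or_pos K with hK | hK
    · subst hK
      have := hu.hpath 0 1 (by omega)
      cases this
    · exact hK
  obtain ⟨s, hs⟩ := exists_seq hu
  -- monotonicity
  have hb : ∀ i j, i ≤ j → (s i).b ≤ (s j).b := by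
    intro i j hij
    induction j, hij using Nat.le_induction with
    | base => exact le_rfl
    | succ j _ ih =>
      have := (hs j).2.2.2
      omega
  have hτ : ∀ i j, i ≤ j → (s i).τ ≤ (s j).τ := by
    intro i j hij
    induction j, hij using Nat.le_induction with
    | base => exact le_rfl
    | succ j _ ih => exact ih.trans (hs j).2.1
  have hc : ∀ i j, i ≤ j → EqW u (s i).τ (s j).c (s i).c := by
    intro i j hij
    induction j, hij using Nat.le_induction with
    | base => exact EqW.refl (s i).h.hτc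
    | succ j hij ih => exact ((hs j).1.mono (hτ i j hij)).trans ih
  set c := (s K).c with hcdef
  have hlvl : ∀ i, i ≤ K → Lvl u K c (s i).b (s i).R (s i).ρ (s i).τ :=
    fun i hi => (s i).h.congr (hc i K hi)
  -- selection of a position avoiding all neighbourhoods
  have hsel : ∀ N, N ≤ K → ∀ x, ∃ n, x ≤ n ∧ n < x + 5 * (2 * (K * (s N).b) + 1) ∧
      ∀ i, i ≤ N → ¬ Near u (s i).ρ c (K * (s i).b) n := by
    intro N
    induction N with
    | zero =>
      intro _ x
      obtain ⟨x', h1, h2, h3⟩ := free_block (hlvl 0 (Nat.zero_le _)).hsep x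
      refine ⟨x', h1, by omega, ?_⟩
      intro i hi
      have : i = 0 := by omega
      subst this
      exact h3 x' le_rfl (by omega)
    | succ N ih =>
      intro hN x
      obtain ⟨x', h1, h2, h3⟩ := free_block (hlvl (N + 1) hN).hsep x
      obtain ⟨n, h4, h5, h6⟩ := ih (by omega) x'
      have h7 : K * (5 * (s N).b + 3) ≤ K * (s (N + 1)).b := Nat.mul_le_mul_left _ (hs N).2.2.2
      have h8 : K * (5 * (s N).b + 3) = 5 * (K * (s N).b) + 3 * K := by ring
      refine ⟨n, by omega, by omega, ?_⟩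
      intro i hi
      rcases Nat.lt_or_ge i (N + 1) with h9 | h9
      · exact h6 i (by omega)
      · have : i = N + 1 := by omega
        subst this
        exact h3 n h4 (by omega)
  obtain ⟨n, hn1, _, hn3⟩ := hsel K le_rfl c
  have hpath := hu.hpath c n hn1
  have hdisj : ∀ l i j, (s i).b < l → l < (s i).R → (s j).b < l → l < (s j).R → i = j := by
    intro l i j h1 h2 h3 h4
    rcases Nat.lt_trichotomy i j with h5 | h5 | h5
    · have := (hs i).2.2.1
      have := hb (i + 1) j h5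
      omega
    · exact h5
    · have := (hs j).2.2.1
      have := hb (j + 1) i h5
      omega
  obtain ⟨S, hS, hmiss⟩ := Path.miss (b := fun i => (s i).b) (R := fun i => (s i).R) hdisj hpath
  obtain ⟨i, hi1, hi2⟩ : ∃ i ∈ Finset.range (K + 1), i ∉ S := by
    by_contra hcon
    push Not at hcon
    have := Finset.card_le_card (s := Finset.range (K + 1)) (t := S) hcon
    rw [Finset.card_range] at this
    omega
  have hiK : i ≤ K := by
    have := Finset.mem_range.mp hi1
    omega
  obtain ⟨y, hy1, hy2, hy3⟩ := (hlvl i hiK).hQ c (EqW.refl (hlvl i hiK).hτc) n (hmiss i hi2)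
  exact hn3 i hiK ⟨y, hy1, hy2, hy3⟩

/-- **The Frid–Puzynina–Zamboni conjecture** (for any alphabet): if all prefixes of `u` are
products of at most `K` palindromes, then `u` is ultimately periodic. -/
theorem ultimately_periodic {u : ℕ → α} {K : ℕ} (h : ∀ n, PLe K (seg u 0 n)) :
    ∃ p N : ℕ, 0 < p ∧ ∀ n ≥ N, u (n + p) = u n := by
  by_contra hcon
  push Not at hcon
  obtain ⟨v, hv⟩ := good_tail (u := u) (K := K + K)
    (fun p hp N => by
      obtain ⟨n, hn1, hn2⟩ := hcon p N hp
      exact ⟨n, hn1, hn2⟩)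
    (fun m n hmn => path_of_prefixes h m n hmn)
  exact hv.false

end Pool.Agent.Helper586.Fpz
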