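import Mathlib

set_option autoImplicit false

namespace Pool.Agent.Helper586.RG

variable {α : Type*}

/-- `p` is a palindromic prefix of `w` not occurring in the tail of `w`. -/
def Wit (p w : List α) : Prop := p <+: w ∧ p.reverse = p ∧ ¬ p <:+: w.tail

/-- Richness by recursion: every suffix has a new palindromic prefix. -/
def Rich : List α → Prop
  | [] => True
  | (x :: w) => Rich w ∧ ∃ p, Wit p (x :: w)

theorem Rich.of_append {u w : List α} (h : Rich (u ++ w)) : Rich w := by
  induction u with
  | nil => simpa using h
  | cons x u ih => exact ih h.1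

theorem Wit.ne_nil {p w : List α} (h : Wit p w) : p ≠ [] := by
  rintro rfl
  exact h.2.2 List.nil_infix

theorem pal_prefix_suffix {u p : List α} (hu : u.reverse = u) (hp : p.reverse = p)
    (h : u <+: p) : u <:+ p := by
  have := List.reverse_suffix.mpr h
  rwa [hu, hp] at this

theorem pal_suffix_prefix {u p : List α} (hu : u.reverse = u) (hp : p.reverse = p)
    (h : u <:+ p) : u <+: p := by
  have := List.reverse_prefix.mpr h
  rwa [hu, hp] at this

/-- a palindromic prefix which is strictly shorter than another one occurs in the tail -/
theorem pal_tail {x : α} {w u p : List α} (hu : u.reverse = u) (hp : p.reverse = p)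
    (h1 : u <+: x :: w) (h2 : p <+: x :: w) (h : u.length < p.length) : u <:+: w := by
  have hup : u <+: p := List.prefix_of_prefix_length_le h1 h2 h.le
  have hs := pal_prefix_suffix hu hp hup
  cases p with
  | nil => simp at h
  | cons y p' =>
    rcases List.suffix_cons_iff.mp hs with h' | h'
    · rw [h'] at h; exact absurd h (lt_irrefl _)
    · have : p' <+: w := (List.cons_prefix_cons.mp h2).2
      exact h'.isInfix.trans this.isInfix

/-- the witness is the longest palindromic prefix -/
theorem Wit.longest {p w u : List α} (h : Wit p w) (hu : u <+: w) (hup : u.reverse = u) :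
    u.length ≤ p.length := by
  by_contra hlt
  push Not at hlt
  cases w with
  | nil =>
    rw [List.prefix_nil] at hu
    rw [hu] at hlt
    simp at hlt
  | cons x w => exact h.2.2 (pal_tail h.2.1 hup h.1 hu hlt)

theorem finite_pals (w : List α) :
    {u : List α | u <:+: w ∧ u.reverse = u}.Finite := by
  apply Set.Finite.subset (List.finite_toSet (w.sublists))
  intro u hu
  simp only [Set.mem_ofPred_eq, List.mem_sublists]
  exact hu.1.sublist

theorem pals_cons_subset (x : α) (w : List α) :
    (∃ p, Wit p (x :: w) ∧ {u : List α | u <:+: (x :: w) ∧ u.reverse = u} ⊆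
      insert p {u : List α | u <:+: w ∧ u.reverse = u}) ∨
    {u : List α | u <:+: (x :: w) ∧ u.reverse = u} ⊆ {u : List α | u <:+: w ∧ u.reverse = u} := by
  by_cases h : ∃ p, Wit p (x :: w)
  · left
    obtain ⟨p, hp⟩ := h
    refine ⟨p, hp, ?_⟩
    rintro u ⟨hu1, hu2⟩
    rcases List.infix_cons_iff.mp hu1 with hpre | hinf
    · by_cases hup : u = p
      · exact Or.inl hup
      · right
        refine ⟨?_, hu2⟩
        have hle := hp.longest hpre hu2
        rcases lt_or_eq_of_le hle with hlt | heq
        · exact pal_tail hu2 hp.2.1 hpre hp.1 hlt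
        · exact absurd ((List.prefix_of_prefix_length_le hpre hp.1 hle).eq_of_length heq) hup
    · exact Or.inr ⟨hinf, hu2⟩
  · right
    push Not at h
    rintro u ⟨hu1, hu2⟩
    rcases List.infix_cons_iff.mp hu1 with hpre | hinf
    · refine ⟨?_, hu2⟩
      by_contra hnot
      exact h u ⟨hpre, hu2, hnot⟩
    · exact ⟨hinf, hu2⟩

theorem ncard_le (w : List α) :
    Set.ncard {u : List α | u <:+: w ∧ u.reverse = u} ≤ w.length + 1 := by
  induction w with
  | nil =>
    have : {u : List α | u <:+: [] ∧ u.reverse = u} ⊆ {[]} := by
      rintro u ⟨h1, _⟩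
      rw [List.infix_nil] at h1
      exact h1
    refine (Set.ncard_le_ncard this (Set.finite_singleton _)).trans ?_
    simp
  | cons x w ih =>
    rcases pals_cons_subset x w with ⟨p, _, h⟩ | h
    · refine (Set.ncard_le_ncard h ((finite_pals w).insert p)).trans ?_
      refine (Set.ncard_insert_le _ _).trans ?_
      simp only [List.length_cons]
      omega
    · refine (Set.ncard_le_ncard h (finite_pals w)).trans ?_
      simp only [List.length_cons]
      omega

theorem rich_of_ncard : ∀ {w : List α},
    Set.ncard {u : List α | u <:+: w ∧ u.reverse = u} = w.length + 1 → Rich w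
  | [], _ => trivial
  | x :: w, h => by
    rcases pals_cons_subset x w with ⟨p, hp, hs⟩ | hs
    · refine ⟨rich_of_ncard ?_, p, hp⟩
      have h1 := Set.ncard_le_ncard hs ((finite_pals w).insert p)
      have h2 := Set.ncard_insert_le p {u : List α | u <:+: w ∧ u.reverse = u}
      have h3 := ncard_le w
      simp only [List.length_cons] at h
      omega
    · exfalso
      have h1 := Set.ncard_le_ncard hs (finite_pals w)
      have h3 := ncard_le w
      simp only [List.length_cons] at h
      omega

/-- appending a fresh letter at the end keeps richness -/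
theorem Rich.append_fresh {z : α} : ∀ {w : List α}, Rich w → z ∉ w → Rich (w ++ [z])
  | [], _, _ => ⟨trivial, [z], List.prefix_refl _, rfl, by simp⟩
  | x :: w, h, hz => by
    obtain ⟨h1, p, hp⟩ := h
    have hzw : z ∉ w := fun h => hz (List.mem_cons_of_mem _ h)
    refine ⟨Rich.append_fresh h1 hzw, p, ?_, hp.2.1, ?_⟩
    · exact hp.1.trans (List.prefix_append _ _)
    · have hzp : z ∉ p := fun h => hz (hp.1.subset h)
      have hne := hp.ne_nil
      have h3 := hp.2.2
      simp only [List.tail_cons] at h3
      change ¬ p <:+: w ++ [z]
      rintro ⟨s, t, hst⟩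
      rcases List.eq_nil_or_concat t with rfl | ⟨t', y, rfl⟩
      · rw [List.append_nil] at hst
        rcases List.eq_nil_or_concat p with rfl | ⟨p', y, rfl⟩
        · exact hne rfl
        · rw [List.concat_eq_append, ← List.append_assoc] at hst
          have := (List.append_inj' hst rfl).2
          rw [List.concat_eq_append] at hzp
          apply hzp
          rw [this]; simp
      · rw [List.concat_eq_append, ← List.append_assoc] at hst
        have := (List.append_inj' hst rfl).1
        exact h3 ⟨s, t', this⟩

theorem Rich.map {β : Type*} {f : α → β} (hf : Function.Injective f) : ∀ {w : List α}, Rich w →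
    Rich (w.map f)
  | [], _ => trivial
  | x :: w, h => by
    obtain ⟨h1, p, hp⟩ := h
    refine ⟨Rich.map hf h1, p.map f, ?_, ?_, ?_⟩
    · exact hp.1.map f
    · rw [← List.map_reverse, hp.2.1]
    · change ¬ p.map f <:+: w.map f
      intro h
      obtain ⟨l, hl, hl2⟩ := List.infix_map_iff.mp h
      have : p = l := (List.map_injective_iff.mpr hf) hl2
      rw [← this] at hl
      exact hp.2.2 hl

/-- factor or reversed factor -/
def L (w u : List α) : Prop := u <:+: w ∨ u.reverse <:+: w

theorem L.rev {w u : List α} (h : L w u) : L w u.reverse := by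
  rcases h with h | h
  · right; rwa [List.reverse_reverse]
  · left; exact h

theorem L.sub {w u v : List α} (h : L w u) (hv : v <:+: u) : L w v := by
  rcases h with h | h
  · left; exact hv.trans h
  · right; exact (List.reverse_infix.mpr hv).trans h

theorem L.mono {w w' u : List α} (h : L w u) (hw : w <:+: w') : L w' u := by
  rcases h with h | h
  · left; exact h.trans hw
  · right; exact h.trans hw

theorem finite_L (w : List α) : {u | L w u}.Finite := by
  apply Set.Finite.subset ((List.finite_toSet (w.sublists)).union
    ((List.finite_toSet (w.sublists)).image List.reverse))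
  rintro u (h | h)
  · left
    exact List.mem_sublists.mpr h.sublist
  · right
    exact ⟨u.reverse, List.mem_sublists.mpr h.sublist, List.reverse_reverse u⟩

/-- The key property of rich words: new edges lead to new vertices. -/
theorem newEdge {w t m : List α} {y d : α} (hw : Rich w) (he : w = y :: (m ++ d :: t))
    (hocc : (y :: m) <:+: w.tail ∨ (m.reverse ++ [y]) <:+: w.tail)
    (hne : ¬ (y = d ∧ m.reverse = m)) : (d :: (m.reverse ++ [y])) <:+: w.tail := by
  subst he
  obtain ⟨_, p, hp1, hp2, hp3⟩ := hw
  simp only [List.tail_cons] at hp3 hocc ⊢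
  have hpre : (y :: (m ++ [d])) <+: y :: (m ++ d :: t) := ⟨t, by simp⟩
  have hpre' : (y :: m) <+: y :: (m ++ d :: t) := ⟨d :: t, by simp⟩
  rcases le_or_gt p.length (y :: m).length with hlen | hlen
  · exfalso
    have h1 : p <+: y :: m := List.prefix_of_prefix_length_le hp1 hpre' hlen
    rcases hocc with hocc | hocc
    · exact hp3 (h1.isInfix.trans hocc)
    · have h2 : p <:+ (y :: m).reverse := by
        have := List.reverse_suffix.mpr h1
        rwa [hp2] at this
      rw [List.reverse_cons] at h2
      exact hp3 (h2.isInfix.trans hocc)
  · have h1 : (y :: (m ++ [d])) <+: p :=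
      List.prefix_of_prefix_length_le hpre hp1 (by simp at hlen ⊢; omega)
    have h2 : (d :: (m.reverse ++ [y])) <:+ p := by
      have := List.reverse_suffix.mpr h1
      rw [hp2] at this
      simpa using this
    rcases p with _ | ⟨z, p⟩
    · simp at h2
    · rcases List.suffix_cons_iff.mp h2 with h | h
      · exfalso
        apply hne
        have h3 : y :: (m ++ [d]) = z :: p := by
          apply h1.eq_of_length
          rw [← h]; simp
        rw [← h3] at h
        have h4 := (List.cons.inj h).1
        have h5 := (List.append_inj' (List.cons.inj h).2 rfl).1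
        exact ⟨h4.symm, h5⟩
      · have : p <+: m ++ d :: t := (List.cons_prefix_cons.mp hp1).2
        exact h.isInfix.trans this.isInfix

end Pool.Agent.Helper586.RG
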