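import Pool.Agent.Helper586.GenBasic

set_option autoImplicit false

namespace Pool.Agent.Helper586.RG

variable {α : Type*}

/-- the word `u m v` -/
def ed (m : List α) (u v : α) : List α := u :: (m ++ [v])

theorem ed_rev (m : List α) (u v : α) : (ed m u v).reverse = ed m.reverse v u := by
  simp [ed]

theorem L_cons {h : α} {t e : List α} (he : L (h :: t) e) :
    L t e ∨ e <+: h :: t ∨ e.reverse <+: h :: t := by
  rcases he with he | he
  · rcases List.infix_cons_iff.mp he with h1 | h1
    · right; left; exact h1
    · left; left; exact h1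
  · rcases List.infix_cons_iff.mp he with h1 | h1
    · right; right; exact h1
    · left; right; exact h1

theorem step4 {h : α} {t m : List α} (hr : Rich (h :: t)) {u v u' v' : α}
    (hv : v ≠ v') (hu : u ≠ u') (h1 : ¬ (u = v ∧ m.reverse = m))
    (h2 : ¬ (u = v' ∧ m.reverse = m)) (h3 : ¬ (u' = v ∧ m.reverse = m))
    (e1 : L (h :: t) (ed m u v)) (e2 : L (h :: t) (ed m u v')) (e3 : L (h :: t) (ed m u' v)) :
    L t (ed m u v) := by
  have hlen : ∀ a b c d : α, (ed m a b).length = (ed m c d).length := by
    intro a b c d; simp [ed]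
  have hlen' : ∀ a b c d : α, (ed m a b).length = (ed m c d).reverse.length := by
    intro a b c d; simp [ed]
  rcases L_cons e1 with h0 | h0 | h0
  · exact h0
  · -- `u m v` is a prefix
    have h4 : L t (ed m u v') := by
      rcases L_cons e2 with h5 | h5 | h5
      · exact h5
      · exfalso
        have h6 := (List.prefix_of_prefix_length_le h0 h5 (hlen _ _ _ _).le).eq_of_length
          (hlen _ _ _ _)
        rw [ed, ed] at h6
        have h7 := (List.append_inj' (List.cons.inj h6).2 rfl).2
        exact hv (List.cons.inj h7).1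
      · exfalso
        have h6 := (List.prefix_of_prefix_length_le h0 h5 (hlen' _ _ _ _).le).eq_of_length
          (hlen' _ _ _ _)
        rw [ed_rev, ed, ed] at h6
        have h7 := (List.append_inj' (List.cons.inj h6).2 rfl)
        exact h2 ⟨(List.cons.inj h6).1, h7.1.symm⟩
    obtain ⟨t', ht'⟩ := h0
    have h5 := newEdge (m := m) (y := u) (d := v) (t := t') hr (by rw [← ht', ed]; simp)
      (by
        rw [List.tail_cons]
        rcases h4 with h5 | h5
        · left
          exact List.IsInfix.trans ⟨[], [v'], by simp [ed]⟩ h5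
        · right
          rw [ed_rev] at h5
          exact List.IsInfix.trans ⟨[v'], [], by simp [ed]⟩ h5) h1
    rw [List.tail_cons] at h5
    right
    rw [ed_rev]
    exact h5
  · rw [ed_rev] at h0
    have h4 : L t (ed m u' v) := by
      rcases L_cons e3 with h5 | h5 | h5
      · exact h5
      · exfalso
        have h6 := (List.prefix_of_prefix_length_le h0 h5 (by simp [ed])).eq_of_length
          (by simp [ed])
        rw [ed, ed] at h6
        have h7 := (List.append_inj' (List.cons.inj h6).2 rfl)
        exact h3 ⟨(List.cons.inj h6).1.symm, h7.1⟩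
      · exfalso
        rw [ed_rev] at h5
        have h6 := (List.prefix_of_prefix_length_le h0 h5 (by simp [ed])).eq_of_length
          (by simp [ed])
        rw [ed, ed] at h6
        have h7 := (List.append_inj' (List.cons.inj h6).2 rfl).2
        exact hu (List.cons.inj h7).1
    obtain ⟨t', ht'⟩ := h0
    have h5 := newEdge (m := m.reverse) (y := v) (d := u) (t := t') hr
      (by rw [← ht', ed]; simp)
      (by
        rw [List.tail_cons, List.reverse_reverse]
        rcases h4 with h5 | h5
        · right
          exact List.IsInfix.trans ⟨[u'], [], by simp [ed]⟩ h5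
        · left
          rw [ed_rev] at h5
          exact List.IsInfix.trans ⟨[], [u'], by simp [ed]⟩ h5)
      (by
        rintro ⟨a, b⟩
        rw [List.reverse_reverse] at b
        exact h1 ⟨a.symm, b.symm⟩)
    rw [List.tail_cons, List.reverse_reverse] at h5
    left
    exact h5

theorem cyc4 {m : List α} {x y c d : α} (hxy : x ≠ y) (hcd : c ≠ d)
    (n1 : ¬ (x = c ∧ m.reverse = m)) (n2 : ¬ (x = d ∧ m.reverse = m))
    (n3 : ¬ (y = c ∧ m.reverse = m)) (n4 : ¬ (y = d ∧ m.reverse = m)) :
    ∀ {w : List α}, Rich w → L w (ed m x c) → L w (ed m x d) → L w (ed m y c) →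
      L w (ed m y d) → False
  | [], _, e1, _, _, _ => by
    rcases e1 with e1 | e1
    · rw [List.infix_nil] at e1; simp [ed] at e1
    · rw [List.infix_nil] at e1; simp [ed] at e1
  | h :: t, hr, e1, e2, e3, e4 => by
    refine cyc4 hxy hcd n1 n2 n3 n4 hr.1 (step4 hr hcd hxy n1 n2 n3 e1 e2 e3)
      (step4 hr hcd.symm hxy n2 n1 n4 e2 e1 e4) (step4 hr hcd hxy.symm n3 n4 n1 e3 e4 e1)
      (step4 hr hcd.symm hxy.symm n4 n3 n2 e4 e3 e2)

theorem L_ed_symm {w m : List α} (hm : m.reverse = m) {u v : α} (h : L w (ed m u v)) :
    L w (ed m v u) := by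
  have := h.rev
  rwa [ed_rev, hm] at this

theorem tri {m : List α} (hm : m.reverse = m) {a b c : α} (hab : a ≠ b) (hbc : b ≠ c)
    (hac : a ≠ c) : ∀ {w : List α}, Rich w → L w (ed m a b) → L w (ed m b c) → L w (ed m a c) →
      False
  | [], _, e1, _, _ => by
    rcases e1 with e1 | e1
    · rw [List.infix_nil] at e1; simp [ed] at e1
    · rw [List.infix_nil] at e1; simp [ed] at e1
  | h :: t, hr, e1, e2, e3 => by
    refine tri hm hab hbc hac hr.1 ?_ ?_ ?_
    · exact step4 hr hbc hac (fun h => hab h.1) (fun h => hac h.1) (fun h => hbc h.1.symm) e1 e3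
        (L_ed_symm hm e2)
    · exact step4 hr hac.symm hab.symm (fun h => hbc h.1) (fun h => hab h.1.symm)
        (fun h => hac h.1) e2 (L_ed_symm hm e1) e3
    · exact step4 hr hbc.symm hab (fun h => hac h.1) (fun h => hab h.1) (fun h => hbc h.1)
        e3 e1 e2

/-! ### returns -/

/-- lower bound for the return distance of `q` through the letter `a` -/
def RB (w q : List α) (a : α) (n : ℕ) : Prop :=
  ∀ z, L w z → (q ++ [a]) <+: z → ∀ s, s ≠ [] → (s ++ q) <+: z → n ≤ s.length

/-- `q` is the longest proper palindromic prefix of the palindrome `r` -/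
structure Par (q r : List α) : Prop where
  pq : q.reverse = q
  pr : r.reverse = r
  pre : q <+: r
  ne : q ≠ r
  max : ∀ u, u <+: r → u.reverse = u → u ≠ r → u.length ≤ q.length

theorem lcp (r r' : List α) : r <+: r' ∨ r' <+: r ∨
    ∃ v x y s s', r = v ++ x :: s ∧ r' = v ++ y :: s' ∧ x ≠ y := by
  classical
  induction r generalizing r' with
  | nil => left; exact List.nil_prefix
  | cons a r ih =>
    cases r' with
    | nil => right; left; exact List.nil_prefix
    | cons b r' =>
      by_cases hab : a = b
      · subst hab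
        rcases ih r' with h | h | ⟨v, x, y, s, s', h1, h2, h3⟩
        · left; exact List.cons_prefix_cons.mpr ⟨rfl, h⟩
        · right; left; exact List.cons_prefix_cons.mpr ⟨rfl, h⟩
        · right; right
          exact ⟨a :: v, x, y, s, s', by rw [h1]; rfl, by rw [h2]; rfl, h3⟩
      · right; right
        exact ⟨[], a, b, r, r', rfl, rfl, hab⟩

/-- uniqueness of the child -/
theorem child_unique {w q r r' : List α} (hw : Rich w) (h : Par q r) (h' : Par q r') {b a c : α}
    (hb : (q ++ [b]) <+: r) (hb' : (q ++ [b]) <+: r') (hac : a ≠ c)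
    (h1 : L w (a :: r)) (h2 : L w (c :: r)) (h3 : L w (a :: r')) (h4 : L w (c :: r')) :
    r = r' := by
  by_contra hne
  have hlb : ∀ u, (q ++ [b]) <+: u → q.length < u.length := by
    intro u hu
    have := hu.length_le
    simp at this
    omega
  rcases lcp r r' with h0 | h0 | ⟨v, x, y, s, s', e1, e2, hxy⟩
  · have := h'.max r h0 h.pr hne
    have := hlb r hb
    omega
  · have := h.max r' h0 h'.pr (Ne.symm hne)
    have := hlb r' hb'
    omega
  · have hv : (q ++ [b]) <+: v := by
      have hvr : v <+: r := ⟨x :: s, e1.symm⟩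
      have hvr' : v <+: r' := ⟨y :: s', e2.symm⟩
      rcases le_or_gt (q ++ [b]).length v.length with hl | hl
      · exact List.prefix_of_prefix_length_le hb hvr hl
      · exfalso
        have g1 : (v ++ [x]) <+: q ++ [b] :=
          List.prefix_of_prefix_length_le ⟨s, by rw [e1]; simp⟩ hb (by simp at hl ⊢; omega)
        have g2 : (v ++ [y]) <+: q ++ [b] :=
          List.prefix_of_prefix_length_le ⟨s', by rw [e2]; simp⟩ hb' (by simp at hl ⊢; omega)
        have g3 := (List.prefix_of_prefix_length_le g1 g2 (by simp)).eq_of_length (by simp)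
        have := (List.append_inj' g3 rfl).2
        exact hxy (List.cons.inj this).1
    have hvp : ¬ v.reverse = v := by
      intro hvp
      have h5 := h.max v ⟨x :: s, e1.symm⟩ hvp (by
        intro h6; rw [e1] at h6
        have := congrArg List.length h6
        simp at this)
      have := hlb v hv
      omega
    have k1 : ∀ z : α, L w (z :: r) → L w (ed v z x) := by
      intro z hz
      refine hz.sub ⟨[], s, ?_⟩
      rw [e1, ed]; simp
    have k2 : ∀ z : α, L w (z :: r') → L w (ed v z y) := by
      intro z hz
      refine hz.sub ⟨[], s', ?_⟩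
      rw [e2, ed]; simp
    exact cyc4 hac hxy (fun h => hvp h.2) (fun h => hvp h.2) (fun h => hvp h.2) (fun h => hvp h.2)
      hw (k1 a h1) (k2 a h3) (k1 c h2) (k2 c h4)

/-- a border of a palindrome is a palindrome -/
theorem border_pal {r u : List α} (hr : r.reverse = r) (h1 : u <+: r) (h2 : u <:+ r) :
    u.reverse = u := by
  have h3 : u.reverse <:+ r := by
    have := List.reverse_suffix.mpr h1
    rwa [hr] at this
  exact (List.suffix_of_suffix_length_le h3 h2 (by simp)).eq_of_length (by simp)

theorem Par.shift {q r : List α} (h : Par q r) : ∃ s0, r = s0 ++ q ∧ s0 ≠ [] ∧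
    s0.length + q.length = r.length := by
  obtain ⟨s0, hs0⟩ := pal_prefix_suffix h.pq h.pr h.pre
  refine ⟨s0, hs0.symm, ?_, by rw [← hs0]; simp⟩
  rintro rfl
  exact h.ne (by simpa using hs0)

/-- any two occurrences of `r` are at distance at least `|r| - |q|` -/
theorem Par.ret {w q r : List α} (h : Par q r) (a : α) :
    RB w r a (r.length - q.length) := by
  intro z _ hz s hs hsz
  by_contra hlt
  push Not at hlt
  -- `r` has a border of length `|r| - |s|`
  have hrz : r <+: z := (List.prefix_append r [a]).trans hz
  have hsr : s <+: r := by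
    have h1 : s <+: z := (List.prefix_append s r).trans hsz
    exact List.prefix_of_prefix_length_le h1 hrz (by omega)
  obtain ⟨u, hu⟩ := hsr
  have hu1 : u <:+ r := ⟨s, hu⟩
  have hu2 : u <+: r := by
    have h2 : (s ++ u) <+: s ++ r := by
      rw [hu]
      exact List.prefix_of_prefix_length_le hrz hsz (by simp)
    exact (List.prefix_append_right_inj s).mp h2
  have hpal := border_pal h.pr hu2 hu1
  have hne : u ≠ r := by
    intro h3
    have := congrArg List.length hu
    rw [h3] at this
    simp at this
    exact hs this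
  have h4 := h.max u hu2 hpal hne
  have h5 := congrArg List.length hu
  simp at h5
  have h6 : q.length ≤ r.length := h.pre.length_le
  omega

theorem Par.ret' {w q r : List α} (h : Par q r) {a c : α} {n : ℕ} (hac : a ≠ c)
    (ha : (q ++ [a]) <+: r) (hq : RB w q c n) :
    RB w r c (r.length - q.length + n) := by
  intro z hLz hz s hs hsz
  have h1 := h.ret (w := w) c z hLz hz s hs hsz
  obtain ⟨s0, hs0, hs0ne, hlen⟩ := h.shift
  have hrz : r <+: z := (List.prefix_append r [c]).trans hz
  have hs0z : s0 <+: z := by
    refine List.IsPrefix.trans ⟨q, ?_⟩ hrz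
    exact hs0.symm
  have hsz' : s <+: z := (List.prefix_append s r).trans hsz
  have hle : s0.length ≤ s.length := by omega
  obtain ⟨s1, hs1⟩ := List.prefix_of_prefix_length_le hs0z hsz' hle
  -- `s = s0 ++ s1`
  obtain ⟨z', hz'⟩ := hs0z
  have k1 : (q ++ [c]) <+: z' := by
    have : s0 ++ (q ++ [c]) <+: s0 ++ z' := by
      rw [hz', ← List.append_assoc, ← hs0]
      exact hz
    exact (List.prefix_append_right_inj s0).mp this
  have k2 : (s1 ++ r) <+: z' := by
    have : s0 ++ (s1 ++ r) <+: s0 ++ z' := by
      rw [hz', ← List.append_assoc, hs1]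
      exact hsz
    exact (List.prefix_append_right_inj s0).mp this
  have hs1ne : s1 ≠ [] := by
    rintro rfl
    rw [List.nil_append] at k2
    have k3 : (q ++ [a]) <+: z' := ha.trans k2
    have k4 := (List.prefix_of_prefix_length_le k1 k3 (by simp)).eq_of_length (by simp)
    have := (List.append_inj' k4 rfl).2
    exact hac (List.cons.inj this).1.symm
  have k5 : (s1 ++ q) <+: z' := by
    refine List.IsPrefix.trans ?_ k2
    exact (List.prefix_append_right_inj s1).mpr h.pre
  have hLz' : L w z' := hLz.sub ⟨s0, [], by rw [hz']; simp⟩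
  have k6 := hq z' hLz' k1 s1 hs1ne k5
  have := congrArg List.length hs1
  simp at this
  omega

theorem Par.ge {w q r : List α} (h : Par q r) {a : α} {n : ℕ}
    (ha : (q ++ [a]) <+: r) (hL : L w r) (hq : RB w q a n) : n ≤ r.length - q.length := by
  obtain ⟨s0, hs0, hs0ne, hlen⟩ := h.shift
  have := hq r hL ha s0 hs0ne (by rw [← hs0])
  omega

end Pool.Agent.Helper586.RG
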