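import Pool.Agent.Helper586.GenCount

set_option autoImplicit false

namespace Pool.Agent.Helper586.RG

variable {α : Type*}

/-- bookkeeping set -/
def E (X m x y : ℕ) : Finset (ℕ × ℕ) :=
  ((Finset.range (X + 1)) ×ˢ (Finset.range (X + 1))).filter
    (fun kl => m + kl.1 * x + kl.2 * y ≤ X)

theorem mem_E {X m x y : ℕ} (hx : 1 ≤ x) (hy : 1 ≤ y) (kl : ℕ × ℕ) :
    kl ∈ E X m x y ↔ m + kl.1 * x + kl.2 * y ≤ X := by
  rw [E, Finset.mem_filter, Finset.mem_product, Finset.mem_range, Finset.mem_range]
  constructor
  · exact fun h => h.2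
  · intro h
    have h1 : kl.1 ≤ kl.1 * x := Nat.le_mul_of_pos_right _ hx
    have h2 : kl.2 ≤ kl.2 * y := Nat.le_mul_of_pos_right _ hy
    exact ⟨⟨by omega, by omega⟩, h⟩

theorem E_card_le (X m x y : ℕ) : (E X m x y).card ≤ (X + 1) ^ 2 := by
  refine (Finset.card_filter_le _ _).trans ?_
  rw [Finset.card_product, Finset.card_range, pow_two]

theorem E_mono {X m m' x x' y y' : ℕ} (hx : 1 ≤ x) (hy : 1 ≤ y) (hm : m ≤ m') (hxx : x ≤ x')
    (hyy : y ≤ y') : (E X m' x' y').card ≤ (E X m x y).card := by
  apply Finset.card_le_card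
  intro kl h
  rw [mem_E (hx.trans hxx) (hy.trans hyy)] at h
  rw [mem_E hx hy]
  have h1 : kl.1 * x ≤ kl.1 * x' := Nat.mul_le_mul_left _ hxx
  have h2 : kl.2 * y ≤ kl.2 * y' := Nat.mul_le_mul_left _ hyy
  omega

theorem E_left {X m x y π : ℕ} (hx : 1 ≤ x) (hy : 1 ≤ y) (hπ : x ≤ π) :
    (E X (m + π) π (π + y)).card ≤ ((E X m x y).filter (fun kl => kl.2 < kl.1)).card := by
  have hinj : Function.Injective (fun kl : ℕ × ℕ => (kl.1 + kl.2 + 1, kl.2)) := by
    rintro ⟨a, b⟩ ⟨c, d⟩ h
    simp only [Prod.mk.injEq] at h ⊢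
    omega
  rw [← Finset.card_image_of_injective (E X (m + π) π (π + y)) hinj]
  apply Finset.card_le_card
  intro z hz
  rw [Finset.mem_image] at hz
  obtain ⟨⟨k, l⟩, hkl, rfl⟩ := hz
  rw [mem_E (by omega) (by omega)] at hkl
  rw [Finset.mem_filter, mem_E hx hy]
  simp only at hkl ⊢
  refine ⟨?_, by omega⟩
  have h1 : (k + l + 1) * x ≤ (k + l + 1) * π := Nat.mul_le_mul_left _ hπ
  have h2 : m + π + k * π + l * (π + y) = m + (k + l + 1) * π + l * y := by ring
  omega

theorem E_right {X m x y π : ℕ} (hx : 1 ≤ x) (hy : 1 ≤ y) (hπ : y ≤ π) :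
    (E X (m + π) (π + x) π).card ≤ ((E X m x y).filter (fun kl => kl.1 < kl.2)).card := by
  have hinj : Function.Injective (fun kl : ℕ × ℕ => (kl.1, kl.1 + kl.2 + 1)) := by
    rintro ⟨a, b⟩ ⟨c, d⟩ h
    simp only [Prod.mk.injEq] at h ⊢
    omega
  rw [← Finset.card_image_of_injective (E X (m + π) (π + x) π) hinj]
  apply Finset.card_le_card
  intro z hz
  rw [Finset.mem_image] at hz
  obtain ⟨⟨k, l⟩, hkl, rfl⟩ := hz
  rw [mem_E (by omega) (by omega)] at hkl
  rw [Finset.mem_filter, mem_E hx hy]
  simp only at hkl ⊢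
  refine ⟨?_, by omega⟩
  have h1 : (k + l + 1) * y ≤ (k + l + 1) * π := Nat.mul_le_mul_left _ hπ
  have h2 : m + π + k * (π + x) + l * π = m + (k + l + 1) * π + k * x := by ring
  omega

theorem E_split {X m x y : ℕ} (hx : 1 ≤ x) (hy : 1 ≤ y) (hm : m ≤ X) :
    1 + ((E X m x y).filter (fun kl => kl.2 < kl.1)).card +
      ((E X m x y).filter (fun kl => kl.1 < kl.2)).card ≤ (E X m x y).card := by
  have h0 : ((0, 0) : ℕ × ℕ) ∈ E X m x y := by
    rw [mem_E hx hy]; simpa using hm
  have h1 : ({(0, 0)} : Finset (ℕ × ℕ)) ∪ (E X m x y).filter (fun kl => kl.2 < kl.1) ∪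
      (E X m x y).filter (fun kl => kl.1 < kl.2) ⊆ E X m x y := by
    intro z hz
    rw [Finset.mem_union, Finset.mem_union, Finset.mem_singleton, Finset.mem_filter,
      Finset.mem_filter] at hz
    rcases hz with (rfl | h) | h
    · exact h0
    · exact h.1
    · exact h.1
  refine le_trans (le_of_eq ?_) (Finset.card_le_card h1)
  rw [Finset.card_union_of_disjoint, Finset.card_union_of_disjoint, Finset.card_singleton]
  · rw [Finset.disjoint_singleton_left, Finset.mem_filter]
    simp
  · rw [Finset.disjoint_left]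
    intro z hz hz'
    rw [Finset.mem_union, Finset.mem_singleton, Finset.mem_filter] at hz
    rw [Finset.mem_filter] at hz'
    rcases hz with rfl | h
    · simp at hz'
    · omega

/-- palindromes with prefix `q`, of length at most `X`, with `a p c` in the language -/
def D (w : List α) (X : ℕ) (a c : α) (q : List α) : Set (List α) :=
  {p | p.reverse = p ∧ q <+: p ∧ p.length ≤ X ∧ L w (ed p a c)}

theorem D_finite (w : List α) (X : ℕ) (a c : α) (q : List α) : (D w X a c q).Finite := by
  apply (finite_L w).subset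
  rintro p ⟨_, _, _, h⟩
  exact h.sub ⟨[a], [c], by simp [ed]⟩

/-- children -/
def Ch (w : List α) (X : ℕ) (a c : α) (q : List α) (r : List α) : Prop :=
  Par q r ∧ r.length ≤ X ∧ L w (a :: r) ∧ L w (c :: r)

theorem Par.letter {q r : List α} (h : Par q r) : ∃ b, (q ++ [b]) <+: r := by
  obtain ⟨t, ht⟩ := h.pre
  cases t with
  | nil => exact absurd (by simpa using ht) h.ne
  | cons b t => exact ⟨b, t, by rw [← ht]; simp⟩

theorem D_child {w : List α} {X : ℕ} {a c : α} {q p : List α} (hq : q.reverse = q)
    (hp : p ∈ D w X a c q) (hne : p ≠ q) : ∃ r, Ch w X a c q r ∧ p ∈ D w X a c r := by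
  classical
  obtain ⟨h1, h2, h3, h4⟩ := hp
  have hex : ∃ n, ∃ u, u <+: p ∧ u.reverse = u ∧ q.length < u.length ∧ u.length = n := by
    refine ⟨p.length, p, List.prefix_refl _, h1, ?_, rfl⟩
    rcases lt_or_eq_of_le h2.length_le with h | h
    · exact h
    · exact absurd (h2.eq_of_length h).symm hne
  obtain ⟨u, hu1, hu2, hu3, hu4⟩ := Nat.find_spec hex
  have hmin := fun m (hm : m < Nat.find hex) => Nat.find_min hex hm
  rw [← hu4] at hmin
  have hqu : q <+: u := List.prefix_of_prefix_length_le h2 hu1 hu3.le
  refine ⟨u, ⟨⟨hq, hu2, hqu, ?_, ?_⟩, hu1.length_le.trans h3, ?_, ?_⟩, h1, hu1, h3, h4⟩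
  · rintro rfl; exact lt_irrefl _ hu3
  · intro v hv hvp hvu
    by_contra hlt
    push Not at hlt
    apply hmin v.length
    · rcases lt_or_eq_of_le hv.length_le with h | h
      · exact h
      · exact absurd (hv.eq_of_length h) hvu
    · exact ⟨v, hv.trans hu1, hvp, hlt, rfl⟩
  · obtain ⟨t, ht⟩ := hu1
    refine h4.sub ⟨[], t ++ [c], ?_⟩
    rw [ed, ← ht]; simp
  · obtain ⟨t, ht⟩ := hu1
    refine (L_ed_symm h1 h4).sub ⟨[], t ++ [a], ?_⟩
    rw [ed, ← ht]; simp

theorem edge_of_child {w q r : List α} {x b : α} (hb : (q ++ [b]) <+: r) (h : L w (x :: r)) :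
    L w (ed q x b) := by
  obtain ⟨t, ht⟩ := hb
  refine h.sub ⟨[], t, ?_⟩
  rw [ed, ← ht]; simp

theorem count_aux {w : List α} (hw : Rich w) (X : ℕ) {a c : α} (hac : a ≠ c) :
    ∀ (N : ℕ) (q : List α) (x y : ℕ), X < q.length + N → q.reverse = q → 1 ≤ x → 1 ≤ y →
      RB w q a x → RB w q c y → (D w X a c q).ncard ≤ (E X q.length x y).card := by
  intro N
  induction N with
  | zero =>
    intro q x y hN _ _ _ _ _
    have : D w X a c q = ∅ := by
      rw [Set.eq_empty_iff_forall_notMem]
      rintro p ⟨_, h2, h3, _⟩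
      have := h2.length_le
      omega
    rw [this, Set.ncard_empty]
    exact Nat.zero_le _
  | succ N ih =>
    intro q x y hN hq hx hy ha hc
    by_cases hqX : q.length ≤ X
    swap
    · have : D w X a c q = ∅ := by
        rw [Set.eq_empty_iff_forall_notMem]
        rintro p ⟨_, h2, h3, _⟩
        have := h2.length_le
        omega
      rw [this, Set.ncard_empty]
      exact Nat.zero_le _
    have hlenr : ∀ r, Par q r → q.length < r.length := by
      intro r hr
      obtain ⟨s0, h1, h2, h3⟩ := hr.shift
      have : 0 < s0.length := List.length_pos_iff.mpr h2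
      omega
    by_cases hedge : L w (ed q a c)
    · -- children via `a` or via `c`
      have hA : ∃ S : Set (List α), S.Finite ∧
          (∀ r, Ch w X a c q r → (q ++ [a]) <+: r → D w X a c r ⊆ S) ∧
          S.ncard ≤ ((E X q.length x y).filter (fun kl => kl.2 < kl.1)).card := by
        by_cases hex : ∃ r, Ch w X a c q r ∧ (q ++ [a]) <+: r
        · obtain ⟨r, hr, hra⟩ := hex
          refine ⟨D w X a c r, D_finite _ _ _ _ _, ?_, ?_⟩
          · intro r' hr' hr'a
            rw [child_unique hw hr'.1 hr.1 hr'a hra hac hr'.2.2.1 hr'.2.2.2 hr.2.2.1 hr.2.2.2]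
          · have hlt := hlenr r hr.1
            have hLr : L w r := hr.2.2.1.sub ⟨[a], [], by simp⟩
            have hge := hr.1.ge hra hLr ha
            have h1 := ih r (r.length - q.length) (r.length - q.length + y) (by omega) hr.1.pr
              (by omega) (by omega) (hr.1.ret a) (hr.1.ret' hac hra hc)
            refine h1.trans ?_
            have h2 := E_left (X := X) (m := q.length) hx hy hge
            have h3 : q.length + (r.length - q.length) = r.length := by omega
            rwa [h3] at h2
        · push Not at hex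
          refine ⟨∅, Set.finite_empty, ?_, ?_⟩
          · intro r hr hra
            exact absurd hra (hex r hr)
          · rw [Set.ncard_empty]; exact Nat.zero_le _
      have hC : ∃ S : Set (List α), S.Finite ∧
          (∀ r, Ch w X a c q r → (q ++ [c]) <+: r → D w X a c r ⊆ S) ∧
          S.ncard ≤ ((E X q.length x y).filter (fun kl => kl.1 < kl.2)).card := by
        by_cases hex : ∃ r, Ch w X a c q r ∧ (q ++ [c]) <+: r
        · obtain ⟨r, hr, hrc⟩ := hex
          refine ⟨D w X a c r, D_finite _ _ _ _ _, ?_, ?_⟩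
          · intro r' hr' hr'c
            rw [child_unique hw hr'.1 hr.1 hr'c hrc hac hr'.2.2.1 hr'.2.2.2 hr.2.2.1 hr.2.2.2]
          · have hlt := hlenr r hr.1
            have hLr : L w r := hr.2.2.1.sub ⟨[a], [], by simp⟩
            have hge := hr.1.ge hrc hLr hc
            have h1 := ih r (r.length - q.length + x) (r.length - q.length) (by omega) hr.1.pr
              (by omega) (by omega) (hr.1.ret' hac.symm hrc ha) (hr.1.ret c)
            refine h1.trans ?_
            have h2 := E_right (X := X) (m := q.length) hx hy hge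
            have h3 : q.length + (r.length - q.length) = r.length := by omega
            rwa [h3] at h2
        · push Not at hex
          refine ⟨∅, Set.finite_empty, ?_, ?_⟩
          · intro r hr hra
            exact absurd hra (hex r hr)
          · rw [Set.ncard_empty]; exact Nat.zero_le _
      obtain ⟨SA, hSAf, hSA, hSAc⟩ := hA
      obtain ⟨SC, hSCf, hSC, hSCc⟩ := hC
      have hsub : D w X a c q ⊆ ({q} ∪ SA) ∪ SC := by
        intro p hp
        by_cases hpq : p = q
        · left; left; exact hpq
        · obtain ⟨r, hr, hpr⟩ := D_child hq hp hpq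
          obtain ⟨b, hb⟩ := hr.1.letter
          by_cases hba : b = a
          · left; right
            exact hSA r hr (hba ▸ hb) hpr
          · by_cases hbc : b = c
            · right
              exact hSC r hr (hbc ▸ hb) hpr
            · exfalso
              have e1 := edge_of_child hb hr.2.2.1
              have e2 := edge_of_child hb hr.2.2.2
              exact tri hq (Ne.symm hba) hbc hac hw e1 (L_ed_symm hq e2) hedge
      have h1 := Set.ncard_le_ncard hsub (((Set.finite_singleton q).union hSAf).union hSCf)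
      have h2 := Set.ncard_union_le ({q} ∪ SA) SC
      have h3 := Set.ncard_union_le {q} SA
      rw [Set.ncard_singleton] at h3
      have h4 := E_split (X := X) (m := q.length) hx hy hqX
      omega
    · -- the only child is via a common neighbour
      by_cases hex : ∃ r, Ch w X a c q r
      · obtain ⟨r, hr⟩ := hex
        obtain ⟨b, hb⟩ := hr.1.letter
        have hba : b ≠ a := by
          rintro rfl
          exact hedge (L_ed_symm hq (edge_of_child hb hr.2.2.2))
        have hbc : b ≠ c := by
          rintro rfl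
          exact hedge (edge_of_child hb hr.2.2.1)
        have hsub : D w X a c q ⊆ D w X a c r := by
          intro p hp
          have hpq : p ≠ q := by
            rintro rfl
            exact hedge hp.2.2.2
          obtain ⟨r', hr', hpr'⟩ := D_child hq hp hpq
          obtain ⟨b', hb'⟩ := hr'.1.letter
          have hb'a : b' ≠ a := by
            rintro rfl
            exact hedge (L_ed_symm hq (edge_of_child hb' hr'.2.2.2))
          have hb'c : b' ≠ c := by
            rintro rfl
            exact hedge (edge_of_child hb' hr'.2.2.1)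
          have hbb : b = b' := by
            by_contra hbb
            exact cyc4 (m := q) hac hbb (fun h => hba h.1.symm) (fun h => hb'a h.1.symm)
              (fun h => hbc h.1.symm) (fun h => hb'c h.1.symm) hw
              (edge_of_child hb hr.2.2.1) (edge_of_child hb' hr'.2.2.1)
              (edge_of_child hb hr.2.2.2) (edge_of_child hb' hr'.2.2.2)
          subst hbb
          rw [child_unique hw hr.1 hr'.1 hb hb' hac hr.2.2.1 hr.2.2.2 hr'.2.2.1 hr'.2.2.2]
          exact hpr'
        have hlt := hlenr r hr.1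
        refine (Set.ncard_le_ncard hsub (D_finite _ _ _ _ _)).trans ?_
        have h1 := ih r (r.length - q.length + x) (r.length - q.length + y) (by omega) hr.1.pr
              (by omega) (by omega) (hr.1.ret' hba hb ha) (hr.1.ret' hbc hb hc)
        refine h1.trans (E_mono hx hy hlt.le (by omega) (by omega))
      · push Not at hex
        have : D w X a c q = ∅ := by
          rw [Set.eq_empty_iff_forall_notMem]
          intro p hp
          have hpq : p ≠ q := by
            rintro rfl
            exact hedge hp.2.2.2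
          obtain ⟨r', hr', _⟩ := D_child hq hp hpq
          exact hex r' hr'
        rw [this, Set.ncard_empty]
        exact Nat.zero_le _

theorem count_pair {w : List α} (hw : Rich w) (X : ℕ) {a c : α} (hac : a ≠ c) :
    {p : List α | p.reverse = p ∧ p.length ≤ X ∧ L w (ed p a c)}.ncard ≤ (X + 1) ^ 2 := by
  have hRB : ∀ b : α, RB w [] b 1 := by
    intro b z _ _ s hs _
    exact List.length_pos_iff.mpr hs
  have h := count_aux hw X hac (X + 1) [] 1 1 (by simp) rfl le_rfl le_rfl (hRB a) (hRB c)
  have e : D w X a c [] = {p : List α | p.reverse = p ∧ p.length ≤ X ∧ L w (ed p a c)} := by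
    ext p
    constructor
    · rintro ⟨h1, _, h3, h4⟩; exact ⟨h1, h3, h4⟩
    · rintro ⟨h1, h3, h4⟩; exact ⟨h1, List.nil_prefix, h3, h4⟩
  rw [e] at h
  exact h.trans (E_card_le _ _ _ _)

/-- the special palindromes of `w` -/
def Sp (w : List α) : Set (List α) := {p | p.reverse = p ∧ ∃ a c, a ≠ c ∧ L w (ed p a c)}

theorem count_special [Fintype α] {w : List α} (hw : Rich w) (X : ℕ) :
    {p | p ∈ Sp w ∧ p.length ≤ X}.ncard ≤ (Fintype.card α) ^ 2 * (X + 1) ^ 2 := by
  classical
  have hsub : {p | p ∈ Sp w ∧ p.length ≤ X} ⊆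
      ⋃ ac ∈ (Finset.univ : Finset (α × α)).filter (fun ac => ac.1 ≠ ac.2),
        {p : List α | p.reverse = p ∧ p.length ≤ X ∧ L w (ed p ac.1 ac.2)} := by
    rintro p ⟨⟨h1, a, c, hac, h2⟩, h3⟩
    rw [Set.mem_iUnion₂]
    exact ⟨(a, c), by simpa using hac, h1, h3, h2⟩
  have hfin : ∀ ac ∈ (Finset.univ : Finset (α × α)).filter (fun ac => ac.1 ≠ ac.2),
      {p : List α | p.reverse = p ∧ p.length ≤ X ∧ L w (ed p ac.1 ac.2)}.Finite := by
    intro ac _
    apply (finite_L w).subset
    rintro p ⟨_, _, h⟩
    exact h.sub ⟨[ac.1], [ac.2], by simp [ed]⟩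
  refine (Set.ncard_le_ncard hsub (Set.Finite.biUnion (Finset.finite_toSet _) hfin)).trans ?_
  refine (Finset.set_ncard_biUnion_le _ _).trans ?_
  have : ∀ ac ∈ (Finset.univ : Finset (α × α)).filter (fun ac => ac.1 ≠ ac.2),
      {p : List α | p.reverse = p ∧ p.length ≤ X ∧ L w (ed p ac.1 ac.2)}.ncard ≤
        (X + 1) ^ 2 := by
    intro ac hac
    exact count_pair hw X (by simpa using hac)
  refine (Finset.sum_le_sum this).trans ?_
  rw [Finset.sum_const, smul_eq_mul]
  apply Nat.mul_le_mul_right
  refine (Finset.card_filter_le _ _).trans ?_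
  rw [Finset.card_univ, Fintype.card_prod, pow_two]

end Pool.Agent.Helper586.RG
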