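import Pool.Agent.Helper586.GenCount2

set_option autoImplicit false

namespace Pool.Agent.Helper586.RG

variable {α : Type*}

/-- the prefix of length `k` is a palindrome -/
def PalP (T : List α) (k : ℕ) : Prop := k ≤ T.length ∧ ∀ i < k, T[i]? = T[k - 1 - i]?

theorem palP_iff {T : List α} {k : ℕ} (hk : k ≤ T.length) :
    PalP T k ↔ (T.take k).reverse = T.take k := by
  constructor
  · rintro ⟨_, h⟩
    apply List.ext_getElem?
    intro i
    rcases lt_or_ge i k with hi | hi
    · rw [List.getElem?_reverse (by simp; omega), List.length_take, min_eq_left hk,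
        List.getElem?_take, List.getElem?_take, if_pos hi, if_pos (by omega)]
      exact (h i hi).symm
    · rw [List.getElem?_eq_none (by simp; omega), List.getElem?_eq_none (by simp; omega)]
  · intro h
    refine ⟨hk, ?_⟩
    intro i hi
    have h1 : (T.take k).reverse[i]? = (T.take k)[i]? := by rw [h]
    rw [List.getElem?_reverse (by simp; omega), List.length_take, min_eq_left hk,
        List.getElem?_take, List.getElem?_take, if_pos hi, if_pos (by omega)] at h1
    exact h1.symm

open Classical in
/-- length of the longest palindromic prefix -/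
noncomputable def lp (T : List α) : ℕ := Nat.findGreatest (fun k => PalP T k) T.length

theorem lp_spec (T : List α) : PalP T (lp T) := by
  classical
  have h0 : PalP T 0 := ⟨Nat.zero_le _, fun i hi => absurd hi (Nat.not_lt_zero _)⟩
  exact Nat.findGreatest_spec (P := fun k => PalP T k) (Nat.zero_le _) h0

theorem lp_max {T : List α} {k : ℕ} (h : PalP T k) : k ≤ lp T := by
  classical
  exact Nat.le_findGreatest h.1 h

theorem lp_le (T : List α) : lp T ≤ T.length := (lp_spec T).1

/-- Fine–Wilf type lemma -/
theorem fw {β : Type*} (f : ℕ → β) : ∀ (s g g' n : ℕ), g + g' ≤ s → 1 ≤ g → 1 ≤ g' →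
    (∀ i, i + g < n → f i = f (i + g)) → (∀ i, i + g' < n → f i = f (i + g')) → g + g' ≤ n →
    f (g - 1) = f (g' - 1) := by
  intro s
  induction s with
  | zero => intro g g' n h1 h2; omega
  | succ s ih =>
    intro g g' n hs h1 h2 p1 p2 hn
    rcases lt_trichotomy g g' with h | h | h
    · have p3 : ∀ i, i + (g' - g) < n → f i = f (i + (g' - g)) := by
        intro i hi
        rcases lt_or_ge (i + g') n with h3 | h3
        · rw [p2 i h3, p1 (i + (g' - g)) (by omega)]
          congr 1; omega
        · have h4 : g ≤ i := by omega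
          have e1 := p1 (i - g) (by omega)
          have e2 := p2 (i - g) (by omega)
          rw [show i - g + g = i by omega] at e1
          rw [show i - g + g' = i + (g' - g) by omega] at e2
          rw [← e1, e2]
      have h3 := ih g (g' - g) n (by omega) h1 (by omega) p1 p3 (by omega)
      rw [h3]
      have h4 := p1 (g' - g - 1) (by omega)
      rw [h4]; congr 1; omega
    · rw [h]
    · have p3 : ∀ i, i + (g - g') < n → f i = f (i + (g - g')) := by
        intro i hi
        rcases lt_or_ge (i + g) n with h3 | h3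
        · rw [p1 i h3, p2 (i + (g - g')) (by omega)]
          congr 1; omega
        · have h4 : g' ≤ i := by omega
          have e1 := p2 (i - g') (by omega)
          have e2 := p1 (i - g') (by omega)
          rw [show i - g' + g' = i by omega] at e1
          rw [show i - g' + g = i + (g - g') by omega] at e2
          rw [← e1, e2]
      have h3 := ih (g - g') g' n (by omega) (by omega) h2 p3 p2 (by omega)
      rw [← h3]
      have h4 := p2 (g - g' - 1) (by omega)
      rw [h4]; congr 1; omega

theorem palP_cons {T : List α} {h : α} {k : ℕ} (hk : PalP (h :: T) (k + 2)) :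
    PalP T k ∧ T[k]? = some h := by
  obtain ⟨h1, h2⟩ := hk
  simp only [List.length_cons] at h1
  refine ⟨⟨by omega, ?_⟩, ?_⟩
  · intro i hi
    have h3 := h2 (i + 1) (by omega)
    rw [List.getElem?_cons_succ, show k + 2 - 1 - (i + 1) = (k - 1 - i) + 1 by omega,
      List.getElem?_cons_succ] at h3
    exact h3
  · have h3 := h2 0 (by omega)
    rw [List.getElem?_cons_zero, show k + 2 - 1 - 0 = k + 1 by omega,
      List.getElem?_cons_succ] at h3
    exact h3.symm

theorem palP_cons' {T : List α} {h : α} {k : ℕ} (hk : PalP T k) (hh : T[k]? = some h) :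
    PalP (h :: T) (k + 2) := by
  have hlt : k < T.length := by
    by_contra hge
    rw [List.getElem?_eq_none (by omega)] at hh
    exact absurd hh (by simp)
  refine ⟨by simp; omega, ?_⟩
  intro i hi
  rcases i with _ | i
  · rw [List.getElem?_cons_zero, show k + 2 - 1 - 0 = k + 1 by omega,
      List.getElem?_cons_succ, hh]
  · rw [List.getElem?_cons_succ]
    rcases lt_or_ge i k with h1 | h1
    · rw [show k + 2 - 1 - (i + 1) = (k - 1 - i) + 1 by omega, List.getElem?_cons_succ]
      exact hk.2 i h1
    · have : i = k := by omega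
      subst this
      rw [show i + 2 - 1 - (i + 1) = 0 by omega, List.getElem?_cons_zero, hh]

theorem lp_cons_le (h : α) (T : List α) : lp (h :: T) ≤ lp T + 2 := by
  by_contra hlt
  push Not at hlt
  obtain ⟨k, hk⟩ : ∃ k, lp (h :: T) = k + 2 := ⟨lp (h :: T) - 2, by omega⟩
  have h1 := lp_spec (h :: T)
  rw [hk] at h1
  have := lp_max (palP_cons h1).1
  omega

theorem lp_cons_eq {h : α} {T : List α} (hh : T[lp T]? = some h) : lp (h :: T) = lp T + 2 := by
  apply le_antisymm (lp_cons_le h T)
  exact lp_max (palP_cons' (lp_spec T) hh)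

theorem lp_cons_lt {h : α} {T : List α} (hh : T[lp T]? ≠ some h) : lp (h :: T) ≤ lp T + 1 := by
  by_contra hlt
  push Not at hlt
  have h0 := lp_cons_le h T
  have h1 := lp_spec (h :: T)
  rw [show lp (h :: T) = lp T + 2 by omega] at h1
  exact hh (palP_cons h1).2

theorem lp_cons_pos (h : α) (T : List α) : 1 ≤ lp (h :: T) := by
  apply lp_max
  refine ⟨by simp, ?_⟩
  intro i hi
  have : i = 0 := by omega
  subst this; rfl

/-- structure of a deviation with a small drop -/
theorem small_drop {h : α} {T : List α} {δ : ℕ} (hδ : lp (h :: T) + δ = lp T + 2)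
    (h1 : 1 ≤ δ) (h8 : 8 * δ ≤ lp T) :
    (∀ i, i + δ < lp T → T[i]? = T[i + δ]?) ∧ T[δ - 1]? = some h ∧ T[lp T - δ]? = some h := by
  have hs := lp_spec (h :: T)
  rw [show lp (h :: T) = (lp T - δ) + 2 by omega] at hs
  obtain ⟨hs1, hs2⟩ := palP_cons hs
  have hp := lp_spec T
  refine ⟨?_, ?_, hs2⟩
  · intro i hi
    rw [hp.2 (i + δ) hi, hs1.2 i (by omega)]
    congr 1; omega
  · rw [hp.2 (δ - 1) (by omega), ← hs2]
    congr 1; omega

/-- the longest palindromic prefix as a word -/
noncomputable def lpp (T : List α) : List α := T.take (lp T)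

theorem lpp_len (T : List α) : (lpp T).length = lp T := by
  rw [lpp, List.length_take, min_eq_left (lp_le T)]

theorem lpp_pal (T : List α) : (lpp T).reverse = lpp T := (palP_iff (lp_le T)).mp (lp_spec T)

theorem lpp_pre (T : List α) : lpp T <+: T := List.take_prefix _ _

theorem lpp_new {h : α} {T : List α} (hr : Rich (h :: T)) : ¬ lpp (h :: T) <:+: T := by
  obtain ⟨_, p, hp⟩ := hr
  have h1 := hp.longest (lpp_pre _) (lpp_pal _)
  have h2 : p.length ≤ lp (h :: T) := by
    apply lp_max
    rw [palP_iff hp.1.length_le, List.prefix_iff_eq_take.mp hp.1 |>.symm]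
    exact hp.2.1
  rw [lpp_len] at h1
  have h3 : p = lpp (h :: T) := by
    rw [lpp, ← le_antisymm h2 h1]
    exact List.prefix_iff_eq_take.mp hp.1
  rw [← h3]
  exact hp.2.2

theorem special_of_dev {h a : α} {T : List α} (ha : T[lp T]? = some a) (hne : h ≠ a) :
    lpp T ∈ Sp (h :: T) := by
  refine ⟨lpp_pal T, h, a, hne, Or.inl ?_⟩
  have hlt : lp T < T.length := by
    by_contra hge
    rw [List.getElem?_eq_none (by omega)] at ha
    exact absurd ha (by simp)
  have h1 : lpp T ++ [a] = T.take (lp T + 1) := by
    rw [lpp, List.take_add_one, ha]; rfl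
  rw [ed, h1]
  exact (List.cons_prefix_cons.mpr ⟨rfl, List.take_prefix _ _⟩).isInfix

theorem Sp_mono {w w' p : List α} (h : p ∈ Sp w) (hw : w <:+: w') : p ∈ Sp w' := by
  obtain ⟨h1, a, c, h2, h3⟩ := h
  exact ⟨h1, a, c, h2, h3.mono hw⟩

/-- predicted letter -/
noncomputable def pred (m : ℕ) (T : List α) : Option α := if m = 0 then T[lp T]? else T[m - 1]?

/-- words generated with `N` exceptions in `n` steps -/
inductive Enc (z : α) (M : ℕ) : ℕ → ℕ → ℕ → List α → Prop
  | init : Enc z M 0 0 0 [z]
  | ok {n N m : ℕ} {T : List α} {h : α} : Enc z M n N m T → pred m T = some h →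
      Enc z M (n + 1) N m (h :: T)
  | exc {n N m : ℕ} {T : List α} (h : α) (m' : ℕ) : Enc z M n N m T → m' ≤ M →
      Enc z M (n + 1) (N + 1) m' (h :: T)

/-- the state of the amortised analysis -/
inductive St (T : List α) (Φ R : ℕ) : ℕ → Prop
  | o1 : Φ + 33 * lp T ≤ R → St T Φ R 0
  | o2 (e g j : ℕ) : lp T = j + 2 * e + 2 → 1 ≤ g → 8 * g ≤ j →
      (∀ i, e + 1 ≤ i → i + g < e + 1 + j → T[i]? = T[i + g]?) → T[e]? ≠ T[e + g]? →
      Φ + 32 * e + 32 * lp T ≤ R → St T Φ R 0
  | r (g K : ℕ) : 1 ≤ g → 8 * g ≤ K → (∀ i, i + g < K → T[i]? = T[i + g]?) →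
      T[K]? ≠ T[K - g]? → lp T ≤ K → K < lp T + g → Φ + 32 * lp T ≤ R → St T Φ R g

structure Inv (z : α) (M : ℕ) (T : List α) (i N m : ℕ) (S : Finset (List α)) : Prop where
  len : T.length = i + 1
  enc : Enc z M i N m T
  sub : ∀ P ∈ S, P <:+: T.tail ∧ P ∈ Sp T
  cnt : N + (if m = 0 then 0 else 1) ≤ 2 * S.card + 1
  st : St T (∑ P ∈ S, P.length) (96 * i + 64 + 32 * S.card) m

theorem Inv.step_sub {h : α} {T : List α} {S : Finset (List α)}
    (hs : ∀ P ∈ S, P <:+: T.tail ∧ P ∈ Sp T) : ∀ P ∈ S, P <:+: (h :: T).tail ∧ P ∈ Sp (h :: T) := by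
  intro P hP
  obtain ⟨h1, h2⟩ := hs P hP
  exact ⟨h1.trans (List.tail_suffix T).isInfix, Sp_mono h2 (List.suffix_cons h T).isInfix⟩

/-- inserting the current longest palindromic prefix -/
theorem ins [DecidableEq α] {h a : α} {T : List α} {S : Finset (List α)} (hT : Rich T) (hT0 : T ≠ [])
    (hs : ∀ P ∈ S, P <:+: T.tail ∧ P ∈ Sp T) (ha : T[lp T]? = some a) (hne : h ≠ a) :
    (∀ P ∈ insert (lpp T) S, P <:+: (h :: T).tail ∧ P ∈ Sp (h :: T)) ∧
    (insert (lpp T) S).card = S.card + 1 ∧
    ∑ P ∈ insert (lpp T) S, P.length = ∑ P ∈ S, P.length + lp T := by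
  have hnot : lpp T ∉ S := by
    intro hmem
    cases T with
    | nil => exact hT0 rfl
    | cons x T => exact lpp_new hT (hs _ hmem).1
  refine ⟨?_, Finset.card_insert_of_notMem hnot, ?_⟩
  · intro P hP
    rw [Finset.mem_insert] at hP
    rcases hP with rfl | hP
    · exact ⟨(lpp_pre T).isInfix, special_of_dev ha hne⟩
    · exact Inv.step_sub hs P hP
  · rw [Finset.sum_insert hnot, lpp_len, add_comm]

theorem st_le {T : List α} {Φ R m : ℕ} (h : St T Φ R m) : Φ + 32 * lp T ≤ R := by
  cases h with
  | o1 h => omega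
  | o2 e g j _ _ _ _ _ h => omega
  | r g K _ _ _ _ _ _ h => exact h

theorem Inv.step [DecidableEq α] {z : α} {M : ℕ} {T : List α} {i N m : ℕ} {S : Finset (List α)}
    (hI : Inv z M T i N m S) {h : α} (hr : Rich (h :: T)) (hlt : lp T < T.length)
    (hM : T.length ≤ M) :
    ∃ N' m' S', Inv z M (h :: T) (i + 1) N' m' S' := by
  have hT0 : T ≠ [] := by rintro rfl; simp at hlt
  obtain ⟨a, ha⟩ : ∃ a, T[lp T]? = some a := ⟨T[lp T], List.getElem?_eq_getElem hlt⟩
  have hlen : (h :: T).length = i + 1 + 1 := by rw [List.length_cons, hI.len]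
  have hsub := Inv.step_sub (h := h) hI.sub
  have hpos := lp_cons_pos h T
  have hst := st_le hI.st
  have hpp := lp_spec T
  -- big deviation
  have big : h ≠ a → ∀ δ, lp (h :: T) + δ = lp T + 2 → lp T < 8 * δ →
      ∃ N' m' S', Inv z M (h :: T) (i + 1) N' m' S' := by
    intro hne δ hδ h8
    obtain ⟨h1, h2, h3⟩ := ins hr.1 hT0 hI.sub ha hne
    refine ⟨N + 1, 0, insert (lpp T) S, hlen, hI.enc.exc h 0 (Nat.zero_le _), h1, ?_, ?_⟩
    · rw [h2]
      have := hI.cnt
      split_ifs at this ⊢ <;> omega
    · apply St.o1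
      rw [h2, h3]
      omega
  have hcnt := hI.cnt
  have henc := hI.enc
  -- small deviation in mode 0
  have small : m = 0 → h ≠ a → ∀ δ, lp (h :: T) + δ = lp T + 2 → 8 * δ ≤ lp T → 1 ≤ δ →
      ∑ P ∈ S, P.length + lp T + 32 * lp T ≤ 96 * i + 64 + 32 * S.card + 64 + 32 * δ →
      ∃ N' m' S', Inv z M (h :: T) (i + 1) N' m' S' := by
    intro hm hne δ hδ h8 hδ1 hineq
    obtain ⟨h1, h2, h3⟩ := ins hr.1 hT0 hI.sub ha hne
    obtain ⟨k1, k2, k3⟩ := small_drop hδ hδ1 h8
    refine ⟨N + 1, δ, insert (lpp T) S, hlen, henc.exc h δ (by omega), h1, ?_, ?_⟩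
    · rw [h2]
      rw [hm] at hcnt
      rw [if_pos rfl] at hcnt
      rw [if_neg (by omega)]
      omega
    · rw [h2, h3]
      refine St.r δ (lp T + 1) hδ1 (by omega) ?_ ?_ (by omega) (by omega) (by omega)
      · intro n hn
        rcases n with _ | n
        · rw [List.getElem?_cons_zero, zero_add]
          obtain ⟨d, rfl⟩ : ∃ d, δ = d + 1 := ⟨δ - 1, by omega⟩
          rw [List.getElem?_cons_succ]
          exact k2.symm
        · rw [List.getElem?_cons_succ, show n + 1 + δ = (n + δ) + 1 by ring,
            List.getElem?_cons_succ]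
          exact k1 n (by omega)
      · rw [List.getElem?_cons_succ, ha, show lp T + 1 - δ = (lp T - δ) + 1 by omega,
          List.getElem?_cons_succ, k3]
        intro hh
        exact hne (Option.some.inj hh).symm
  rcases hI.st with h1 | ⟨e, g, j, h1, h2, h3, h4, h5, h6⟩ | ⟨_, K, h1, h2, h3, h4, h5, h6, h7⟩
  · -- mode 0, O1
    by_cases hha : h = a
    · subst hha
      refine ⟨N, 0, S, hlen, henc.ok (by rw [pred, if_pos rfl, ha]), hsub, hcnt, ?_⟩
      apply St.o1
      rw [lp_cons_eq ha]
      omega
    · have h0 := lp_cons_lt (h := h) (T := T) (by rw [ha]; intro hh; exact hha (Option.some.inj hh).symm)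
      obtain ⟨δ, hδ⟩ : ∃ δ, lp (h :: T) + δ = lp T + 2 := ⟨lp T + 2 - lp (h :: T), by omega⟩
      rcases le_or_gt (8 * δ) (lp T) with h8 | h8
      · exact small rfl hha δ hδ h8 (by omega) (by omega)
      · exact big hha δ hδ h8
  · -- mode 0, O2
    by_cases hha : h = a
    · subst hha
      refine ⟨N, 0, S, hlen, henc.ok (by rw [pred, if_pos rfl, ha]), hsub, hcnt, ?_⟩
      refine St.o2 (e + 1) g j (by rw [lp_cons_eq ha]; omega) h2 h3 ?_ ?_
        (by rw [lp_cons_eq ha]; omega)
      · intro n hn1 hn2
        obtain ⟨n, rfl⟩ : ∃ n', n = n' + 1 := ⟨n - 1, by omega⟩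
        rw [List.getElem?_cons_succ, show n + 1 + g = (n + g) + 1 by ring,
            List.getElem?_cons_succ]
        exact h4 n (by omega) (by omega)
      · rw [List.getElem?_cons_succ, show e + 1 + g = (e + g) + 1 by ring,
            List.getElem?_cons_succ]
        exact h5
    · have h0 := lp_cons_lt (h := h) (T := T) (by rw [ha]; intro hh; exact hha (Option.some.inj hh).symm)
      obtain ⟨δ, hδ⟩ : ∃ δ, lp (h :: T) + δ = lp T + 2 := ⟨lp T + 2 - lp (h :: T), by omega⟩
      rcases le_or_gt (8 * δ) (lp T) with h8 | h8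
      · have hlarge : j < g + δ := by
          by_contra hle
          push Not at hle
          obtain ⟨k1, k2, k3⟩ := small_drop hδ (by omega) h8
          have hf := fw (fun n => T[e + 1 + n]?) (g + δ) g δ j le_rfl h2 (by omega)
            (by
              intro n hn
              rw [h4 (e + 1 + n) (by omega) (by omega), add_assoc])
            (by
              intro n hn
              rw [k1 (e + 1 + n) (by omega), add_assoc])
            hle
          apply h5
          rw [k1 e (by omega), show e + δ = e + 1 + (δ - 1) by omega, ← hf]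
          congr 1; omega
        exact small rfl hha δ hδ h8 (by omega) (by omega)
      · exact big hha δ hδ h8
  · -- run mode
    have hgK : m ≤ K := by omega
    have hpred : pred m T = T[m - 1]? := by rw [pred, if_neg (by omega)]
    have hfol : lp T < K → T[lp T]? = T[m - 1]? := by
      intro hk
      have e1 := h3 (lp T - m) (by omega)
      rw [show lp T - m + m = lp T by omega] at e1
      rw [← e1, hpp.2 (lp T - m) (by omega)]
      congr 1; omega
    have hfol2 : lp T = K → T[K - m]? = T[m - 1]? := by
      intro hk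
      rw [hpp.2 (m - 1) (by omega)]
      congr 1; omega
    by_cases hp : T[m - 1]? = some h
    · refine ⟨N, m, S, hlen, henc.ok (by rw [hpred, hp]), hsub, hcnt, ?_⟩
      have hk2 := lp_cons_le h T
      have hper : ∀ n, n + m < K + 1 → (h :: T)[n]? = (h :: T)[n + m]? := by
        intro n hn
        rcases n with _ | n
        · rw [List.getElem?_cons_zero, zero_add]
          obtain ⟨d, rfl⟩ : ∃ d, m = d + 1 := ⟨m - 1, by omega⟩
          rw [List.getElem?_cons_succ]
          exact hp.symm
        · rw [List.getElem?_cons_succ, show n + 1 + m = (n + m) + 1 by ring,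
            List.getElem?_cons_succ]
          exact h3 n (by omega)
      refine St.r m (K + 1) h1 (by omega) hper ?_ ?_ ?_ (by omega)
      · rw [List.getElem?_cons_succ, show K + 1 - m = (K - m) + 1 by omega,
          List.getElem?_cons_succ]
        exact h4
      · rcases lt_or_eq_of_le h5 with hk | hk
        · omega
        · have := lp_cons_lt (h := h) (T := T) (by
            rw [hk]
            intro hh
            apply h4
            rw [hh, hfol2 hk, hp])
          omega
      · rcases lt_or_eq_of_le h5 with hk | hk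
        · have := lp_cons_eq (h := h) (T := T) (by rw [hfol hk, hp])
          omega
        · have hpal : PalP (h :: T) ((K - m) + 2) := by
            apply palP_cons'
            · refine ⟨by omega, ?_⟩
              intro n hn
              rw [h3 n (by omega), hpp.2 (n + m) (by omega)]
              congr 1; omega
            · rw [hfol2 hk, hp]
          have := lp_max hpal
          omega
    · -- exception
      have hbig : h ≠ a → ∃ N' m' S', Inv z M (h :: T) (i + 1) N' m' S' := by
        intro hha
        have h0 := lp_cons_lt (h := h) (T := T)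
          (by rw [ha]; intro hh; exact hha (Option.some.inj hh).symm)
        obtain ⟨δ, hδ⟩ : ∃ δ, lp (h :: T) + δ = lp T + 2 := ⟨lp T + 2 - lp (h :: T), by omega⟩
        rcases le_or_gt (8 * δ) (lp T) with h8 | h8
        · exfalso
          obtain ⟨k1, k2, k3⟩ := small_drop hδ (by omega) h8
          have hf := fw (fun n => T[n]?) (m + δ) m δ (lp T) le_rfl h1 (by omega)
            (fun n hn => h3 n (by omega)) k1 (by omega)
          exact hp (by rw [hf, k2])
        · exact big hha δ hδ h8
      rcases lt_or_eq_of_le h5 with hk | hk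
      · apply hbig
        rintro rfl
        exact hp (by rw [← hfol hk, ha])
      · by_cases hha : h = a
        · subst hha
          refine ⟨N + 1, 0, S, hlen, henc.exc h 0 (Nat.zero_le _), hsub, ?_, ?_⟩
          · rw [if_pos rfl]
            rw [if_neg (by omega)] at hcnt
            omega
          · refine St.o2 0 m K (by rw [lp_cons_eq ha]; omega) h1 h2 ?_ ?_
              (by rw [lp_cons_eq ha]; omega)
            · intro n hn1 hn2
              obtain ⟨n, rfl⟩ : ∃ n', n = n' + 1 := ⟨n - 1, by omega⟩
              rw [List.getElem?_cons_succ, show n + 1 + m = (n + m) + 1 by ring,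
                List.getElem?_cons_succ]
              exact h3 n (by omega)
            · rw [List.getElem?_cons_zero, zero_add]
              obtain ⟨d, hd⟩ : ∃ d, m = d + 1 := ⟨m - 1, by omega⟩
              rw [hd, List.getElem?_cons_succ, show d = m - 1 by omega]
              exact fun hh => hp hh.symm
        · exact hbig hha

end Pool.Agent.Helper586.RG
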