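import Pool.Agent.Helper586.GenEnc

set_option autoImplicit false

namespace Pool.Agent.Helper586.RG

variable {α : Type*}

theorem lp_lt {x z : α} {u : List α} (hz : z ∉ x :: u) : lp (x :: u ++ [z]) < (x :: u ++ [z]).length := by
  rcases lt_or_eq_of_le (lp_le (x :: u ++ [z])) with h | h
  · exact h
  · exfalso
    have h1 := (lp_spec (x :: u ++ [z])).2 0 (by rw [h]; simp)
    rw [h] at h1
    simp at h1
    apply hz
    rw [h1]; simp

theorem run [DecidableEq α] {z : α} {M : ℕ} : ∀ (u : List α), u ≠ [] → Rich (u ++ [z]) → z ∉ u →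
    u.length ≤ M → ∃ N m S, Inv z M (u ++ [z]) u.length N m S
  | [], h, _, _, _ => absurd rfl h
  | [x], _, hr, hz, hM => by
    have hxz : x ≠ z := by rintro rfl; exact hz (by simp)
    refine ⟨1, 0, ∅, by simp, ?_, by simp, by simp, ?_⟩
    · exact Enc.init.exc x 0 (Nat.zero_le _)
    · apply St.o1
      have h1 : lp ([x] ++ [z]) < 2 := lp_lt hz
      simp only [Finset.sum_empty, List.length_cons, List.length_nil]
      omega
  | x :: y :: u, _, hr, hz, hM => by
    have hz' : z ∉ y :: u := fun h => hz (List.mem_cons_of_mem _ h)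
    obtain ⟨N, m, S, hI⟩ := run (M := M) (y :: u) (by simp) hr.1 hz' (by simp at hM ⊢; omega)
    have hlen : (y :: u ++ [z]).length ≤ M := by simp at hM ⊢; omega
    exact hI.step hr (lp_lt hz') hlen

theorem card_bound [Fintype α] [DecidableEq α] {z : α} {M n N m X : ℕ} {T : List α}
    {S : Finset (List α)} (hI : Inv z M T n N m S) (hT : Rich T) (hX : 64 ≤ X) (hn : n ≤ X ^ 3) :
    N ≤ (389 + 520 * (Fintype.card α) ^ 2) * X ^ 2 := by
  set K := (Fintype.card α) ^ 2 with hK
  have h1 := st_le hI.st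
  set S1 := S.filter (fun P => P.length ≤ X) with hS1
  set S2 := S.filter (fun P => ¬ P.length ≤ X) with hS2
  have hcard : S1.card + S2.card = S.card := Finset.card_filter_add_card_filter_not _
  have hc1 : S1.card ≤ K * (X + 1) ^ 2 := by
    refine le_trans ?_ (count_special hT X)
    rw [← Set.ncard_coe_finset]
    apply Set.ncard_le_ncard
    · intro P hP
      rw [Finset.mem_coe, hS1, Finset.mem_filter] at hP
      exact ⟨(hI.sub P hP.1).2, hP.2⟩
    · apply (finite_L T).subset
      rintro p ⟨⟨_, a, c, _, h⟩, _⟩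
      exact h.sub ⟨[a], [c], by simp [ed]⟩
  have hc2 : S2.card * X ≤ ∑ P ∈ S, P.length := by
    calc S2.card * X = ∑ P ∈ S2, X := by rw [Finset.sum_const, smul_eq_mul]
      _ ≤ ∑ P ∈ S2, P.length := by
          apply Finset.sum_le_sum
          intro P hP
          rw [hS2, Finset.mem_filter] at hP
          omega
      _ ≤ ∑ P ∈ S, P.length := Finset.sum_le_sum_of_subset (Finset.filter_subset _ _)
  have hcnt : N ≤ 2 * S.card + 1 := by
    have := hI.cnt
    split_ifs at this <;> omega
  have hX1 : (X + 1) ^ 2 ≤ 4 * X ^ 2 := by nlinarith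
  have hc1' : S1.card ≤ 4 * (K * X ^ 2) := by
    calc S1.card ≤ K * (X + 1) ^ 2 := hc1
      _ ≤ K * (4 * X ^ 2) := Nat.mul_le_mul_left _ hX1
      _ = 4 * (K * X ^ 2) := by ring
  -- `X * |S2| ≤ 192 X^3 + ...`
  have h2 : S2.card * X ≤ 96 * X ^ 3 + 64 + 32 * (S1.card + S2.card) := by omega
  have h3 : S2.card * X ≤ 192 * X ^ 3 + 128 + 64 * S1.card := by
    have : 64 * S2.card ≤ S2.card * X := by rw [mul_comm]; exact Nat.mul_le_mul_left _ hX
    omega
  have h4 : S2.card ≤ 194 * X ^ 2 + 256 * (K * X ^ 2) := by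
    have h5 : S2.card * X ≤ (194 * X ^ 2 + 256 * (K * X ^ 2)) * X := by
      calc S2.card * X ≤ 192 * X ^ 3 + 128 + 64 * S1.card := h3
        _ ≤ 192 * X ^ 3 + 128 + 64 * (4 * (K * X ^ 2)) := by omega
        _ ≤ (194 * X ^ 2 + 256 * (K * X ^ 2)) * X := by
            have e1 : 128 ≤ 2 * X ^ 3 := by
              have : 64 ^ 3 ≤ X ^ 3 := Nat.pow_le_pow_left hX 3
              omega
            have e2 : K * X ^ 2 ≤ K * X ^ 2 * X := Nat.le_mul_of_pos_right _ (by omega)
            nlinarith
    exact Nat.le_of_mul_le_mul_right h5 (by omega)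
  have h6 : 1 ≤ X ^ 2 := Nat.one_le_pow _ _ (by omega)
  nlinarith

/-- counting generated words -/
theorem enc_count [Fintype α] [DecidableEq α] (z : α) (M : ℕ) : ∀ n r : ℕ,
    ∃ F : Finset (ℕ × List α), (∀ N m T, N ≤ r → Enc z M n N m T → (m, T) ∈ F) ∧
      F.card ≤ (1 + n * (Fintype.card α * (M + 1))) ^ r := by
  set K := Fintype.card α * (M + 1) with hK
  intro n
  induction n with
  | zero =>
    intro r
    refine ⟨{(0, [z])}, ?_, ?_⟩
    · intro N m T _ h
      cases h
      simp
    · simp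
  | succ n ih =>
    intro r
    obtain ⟨F, hF, hFc⟩ := ih r
    set G := F.image (fun x : ℕ × List α => (x.1, ((pred x.1 x.2).getD z) :: x.2)) with hG
    have hGc : G.card ≤ (1 + n * K) ^ r := Finset.card_image_le.trans hFc
    have hG1 : ∀ N m T h, N ≤ r → Enc z M n N m T → pred m T = some h → (m, h :: T) ∈ G := by
      intro N m T h hN hE hp
      rw [hG, Finset.mem_image]
      exact ⟨(m, T), hF N m T hN hE, by simp [hp]⟩
    rcases r with _ | s
    · refine ⟨G, ?_, ?_⟩
      · intro N m T hN hE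
        cases hE with
        | ok hE hp => exact hG1 _ _ _ _ hN hE hp
        | exc h m' hE hm => omega
      · simpa using hGc
    · obtain ⟨F', hF', hFc'⟩ := ih s
      set G' := (F' ×ˢ ((Finset.univ : Finset α) ×ˢ Finset.range (M + 1))).image
        (fun x : (ℕ × List α) × α × ℕ => (x.2.2, x.2.1 :: x.1.2)) with hG'
      have hGc' : G'.card ≤ (1 + n * K) ^ s * K := by
        refine Finset.card_image_le.trans ?_
        rw [Finset.card_product, Finset.card_product, Finset.card_univ, Finset.card_range]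
        exact Nat.mul_le_mul_right _ hFc'
      refine ⟨G ∪ G', ?_, ?_⟩
      · intro N m T hN hE
        rw [Finset.mem_union]
        cases hE with
        | ok hE hp => left; exact hG1 _ _ _ _ hN hE hp
        | @exc _ N' m0 T' h m' hE hm =>
          right
          rw [hG', Finset.mem_image]
          refine ⟨((m0, T'), h, m), ?_, rfl⟩
          rw [Finset.mem_product, Finset.mem_product]
          exact ⟨hF' N' m0 T' (by omega) hE, Finset.mem_univ _,
            Finset.mem_range.mpr (Nat.lt_succ_of_le hm)⟩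
      · refine (Finset.card_union_le _ _).trans ?_
        calc G.card + G'.card ≤ (1 + n * K) ^ (s + 1) + (1 + n * K) ^ s * K := by omega
          _ = (1 + n * K) ^ s * (1 + (n + 1) * K) := by ring
          _ ≤ (1 + (n + 1) * K) ^ s * (1 + (n + 1) * K) := by
              apply Nat.mul_le_mul_right
              apply Nat.pow_le_pow_left
              nlinarith
          _ = (1 + (n + 1) * K) ^ (s + 1) := by ring

/-- number of rich words of length `n` -/
noncomputable def cnt (A : Type*) (n : ℕ) : ℕ :=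
  Set.ncard {w : List A | w.length = n ∧
    Set.ncard {u : List A | u <:+: w ∧ u.reverse = u} = w.length + 1}

theorem cnt_le (A : Type*) [Fintype A] (n X : ℕ) (hn : 1 ≤ n) (hX : 64 ≤ X) (hnX : n ≤ X ^ 3) :
    cnt A n ≤ (1 + n * ((Fintype.card A + 1) * (n + 1))) ^
      ((389 + 520 * (Fintype.card A + 1) ^ 2) * X ^ 2) := by
  classical
  obtain ⟨F, hF, hFc⟩ := enc_count (α := Option A) none n n
    ((389 + 520 * (Fintype.card A + 1) ^ 2) * X ^ 2)
  rw [Fintype.card_option] at hFc
  refine le_trans ?_ hFc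
  rw [cnt]
  have hinj : Function.Injective (fun w : List A => w.map some ++ [none]) := by
    intro u v h
    have h1 := (List.append_inj' h rfl).1
    exact (List.map_injective_iff.mpr (Option.some_injective A)) h1
  rw [← Set.ncard_image_of_injective _ hinj]
  have hsub : (fun w : List A => w.map some ++ [none]) '' {w : List A | w.length = n ∧
      Set.ncard {u : List A | u <:+: w ∧ u.reverse = u} = w.length + 1} ⊆
      ((F.image Prod.snd : Finset (List (Option A))) : Set (List (Option A))) := by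
    rintro _ ⟨w, ⟨hw1, hw2⟩, rfl⟩
    have hr : Rich w := rich_of_ncard hw2
    have hz : (none : Option A) ∉ w.map some := by simp
    have hr' : Rich (w.map some ++ [none]) := (hr.map (Option.some_injective A)).append_fresh hz
    have hne : w.map some ≠ [] := by
      intro h
      rw [List.map_eq_nil_iff] at h
      rw [h] at hw1
      simp at hw1
      omega
    obtain ⟨N, m, S, hI⟩ := run (z := none) (M := n) (w.map some) hne hr' hz (by simp [hw1])
    have hlen : (w.map some).length = n := by rw [List.length_map, hw1]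
    rw [hlen] at hI
    have hN := card_bound hI hr' hX hnX
    rw [Fintype.card_option] at hN
    rw [Finset.mem_coe, Finset.mem_image]
    exact ⟨(m, _), hF N m _ hN hI.enc, rfl⟩
  refine (Set.ncard_le_ncard hsub (Finset.finite_toSet _)).trans ?_
  rw [Set.ncard_coe_finset]
  exact Finset.card_image_le

theorem log_cnt_le (A : Type*) [Fintype A] : ∃ C : ℝ, 0 ≤ C ∧ ∀ n : ℕ, 2 ≤ n →
    Real.log (cnt A n) ≤ C * (n : ℝ) ^ ((2 : ℝ) / 3) * Real.log n := by
  set a : ℕ := Fintype.card A + 1 with ha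
  have ha1 : (1 : ℝ) ≤ a := by rw [ha]; push_cast; linarith [Nat.cast_nonneg (α := ℝ) (Fintype.card A)]
  have hl2 : (0 : ℝ) < Real.log 2 := Real.log_pos (by norm_num)
  have hla : 0 ≤ Real.log a := Real.log_nonneg ha1
  refine ⟨((389 + 520 * a ^ 2 : ℕ) : ℝ) * 66 ^ 2 * (Real.log a / Real.log 2 + 4), by positivity, ?_⟩
  intro n hn
  have hn2 : (2 : ℝ) ≤ n := by exact_mod_cast hn
  have hn0 : (0 : ℝ) ≤ n := by linarith
  have hln : Real.log 2 ≤ Real.log n := Real.log_le_log (by norm_num) hn2
  set t : ℝ := (n : ℝ) ^ ((1 : ℝ) / 3) with ht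
  have ht3 : t ^ 3 = n := by
    rw [ht, ← Real.rpow_natCast, ← Real.rpow_mul hn0]; norm_num
  have ht2 : t ^ 2 = (n : ℝ) ^ ((2 : ℝ) / 3) := by
    rw [ht, ← Real.rpow_natCast, ← Real.rpow_mul hn0]; norm_num
  have ht1 : 1 ≤ t := by
    rw [ht]
    exact Real.one_le_rpow (by linarith) (by norm_num)
  set X : ℕ := ⌈t⌉₊ + 64 with hX
  have hXt : (X : ℝ) ≤ 66 * t := by
    have := Nat.ceil_lt_add_one (show (0 : ℝ) ≤ t by linarith)
    rw [hX]; push_cast
    linarith
  have hXt' : t ≤ X := by
    have := Nat.le_ceil t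
    rw [hX]; push_cast
    linarith
  have hnX : n ≤ X ^ 3 := by
    have h1 : t ^ 3 ≤ (X : ℝ) ^ 3 := by gcongr
    rw [ht3] at h1
    exact_mod_cast h1
  have hX2 : ((X ^ 2 : ℕ) : ℝ) ≤ 66 ^ 2 * t ^ 2 := by
    push_cast
    calc (X : ℝ) ^ 2 ≤ (66 * t) ^ 2 := by gcongr
      _ = 66 ^ 2 * t ^ 2 := by ring
  have hmain := cnt_le A n X (by omega) (by omega) hnX
  rw [← ha] at hmain
  set base : ℕ := 1 + n * (a * (n + 1)) with hbase
  have hbase_pos : 0 < base := by omega
  by_cases hc0 : cnt A n = 0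
  · rw [hc0]
    simp only [Nat.cast_zero, Real.log_zero]
    positivity
  have hlogcnt : Real.log (cnt A n) ≤ ((389 + 520 * a ^ 2) * X ^ 2 : ℕ) * Real.log base := by
    have h1 : ((cnt A n : ℕ) : ℝ) ≤ (base : ℝ) ^ ((389 + 520 * a ^ 2) * X ^ 2) := by
      exact_mod_cast hmain
    have h2 := Real.log_le_log (by exact_mod_cast Nat.pos_of_ne_zero hc0) h1
    rwa [Real.log_pow] at h2
  have hlogbase : Real.log base ≤ (Real.log a / Real.log 2 + 4) * Real.log n := by
    have h1 : (base : ℝ) ≤ a * (n : ℝ) ^ 4 := by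
      rw [hbase]; push_cast
      have e1 : (1 : ℝ) ≤ a * 1 := by linarith
      have e2 : (1 : ℝ) + n * (n + 1) ≤ (n : ℝ) ^ 4 := by
        nlinarith [mul_le_mul hn2 hn2 (by norm_num) hn0, sq_nonneg ((n : ℝ) ^ 2 - 4)]
      nlinarith
    have h2 : Real.log base ≤ Real.log (a * (n : ℝ) ^ 4) :=
      Real.log_le_log (by exact_mod_cast hbase_pos) h1
    rw [Real.log_mul (by positivity) (by positivity), Real.log_pow] at h2
    have h3 : Real.log a ≤ Real.log a / Real.log 2 * Real.log n := by
      rw [div_mul_eq_mul_div, le_div_iff₀ hl2]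
      exact mul_le_mul_of_nonneg_left hln hla
    push_cast at h2
    linarith
  have hlb0 : 0 ≤ Real.log (base : ℝ) := Real.log_natCast_nonneg _
  calc Real.log (cnt A n) ≤ ((389 + 520 * a ^ 2) * X ^ 2 : ℕ) * Real.log base := hlogcnt
    _ = ((389 + 520 * a ^ 2 : ℕ) : ℝ) * ((X ^ 2 : ℕ) : ℝ) * Real.log base := by push_cast; ring
    _ ≤ ((389 + 520 * a ^ 2 : ℕ) : ℝ) * (66 ^ 2 * t ^ 2) *
        ((Real.log a / Real.log 2 + 4) * Real.log n) := by gcongr
    _ = _ := by rw [ht2]; ring

end Pool.Agent.Helper586.RG
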