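import Pool.Agent.Helper586.DyadF

set_option autoImplicit false

namespace Pool.Agent.Helper586.RG

variable {α : Type*}

/-- smallest period of a word -/
noncomputable def per (σ : List α) : ℕ := pd (fun t => σ[t]?) σ.length

theorem palP_period {T : List α} {K k : ℕ} (hK : PalP T K) (hk : PalP T k) (hlt : k < K) :
    ∀ t, t + (K - k) < K → T[t]? = T[t + (K - k)]? := by
  intro t ht
  rw [hk.2 t (by omega), hK.2 (t + (K - k)) ht]
  congr 1; omega

theorem palP_sub {T : List α} {K g : ℕ} (hK : PalP T K)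
    (hp : ∀ t, t + g < K → T[t]? = T[t + g]?) : PalP T (K - g) := by
  refine ⟨by have := hK.1; omega, ?_⟩
  intro i hi
  rw [hp i (by omega), hK.2 (i + g) (by omega)]
  congr 1; omega

theorem period_mul {β : Type*} {f : ℕ → β} {n g : ℕ} (hp : ∀ t, t + g < n → f t = f (t + g))
    (j : ℕ) : ∀ t, t + j * g < n → f t = f (t + j * g) := by
  induction j with
  | zero => intro t _; simp
  | succ j ih =>
    intro t ht
    have e : t + (j + 1) * g = t + j * g + g := by ring
    rw [e] at ht ⊢
    rw [ih t (by omega), hp _ ht]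

theorem period_mod {β : Type*} {f : ℕ → β} {n g : ℕ} (hg : 1 ≤ g)
    (hp : ∀ t, t + g < n → f t = f (t + g)) : ∀ t, t < n → f t = f (t % g) := by
  intro t
  induction t using Nat.strong_induction_on with
  | _ t ih =>
    intro ht
    rcases lt_or_ge t g with h | h
    · rw [Nat.mod_eq_of_lt h]
    · have h1 := hp (t - g) (by omega)
      rw [show t - g + g = t by omega] at h1
      rw [← h1, ih (t - g) (by omega) (by omega), Nat.mod_eq_sub_mod h]

theorem period_ext {β : Type*} {f : ℕ → β} {n N0 g p : ℕ} (hg : 1 ≤ g) (hpp : 1 ≤ p)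
    (h1 : ∀ t, t + p < n → f t = f (t + p)) (h2 : ∀ t, t + g < N0 → f t = f (t + g))
    (h : g + p ≤ N0) : ∀ t, t + g < n → f t = f (t + g) := by
  have key : ∀ d, N0 + d ≤ n → ∀ t, t + g < N0 + d → f t = f (t + g) := by
    intro d
    induction d with
    | zero => intro _; simpa using h2
    | succ d ih =>
      intro hd t ht
      have ih := ih (by omega)
      rcases lt_or_ge (t + g) (N0 + d) with h3 | h3
      · exact ih t h3
      · have e0 : t + g = N0 + d := by omega
        have e1 := h1 (N0 + d - p) (by omega)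
        rw [show N0 + d - p + p = t + g by omega] at e1
        have e2 := fw (fun s => f (N0 + d - 1 - s)) (g + p) g p (N0 + d) le_rfl hg hpp
          (fun s hs => by
            have := ih (N0 + d - 1 - (s + g)) (by omega)
            change f (N0 + d - 1 - s) = f (N0 + d - 1 - (s + g))
            rw [this]; congr 1; omega)
          (fun s hs => by
            have := h1 (N0 + d - 1 - (s + p)) (by omega)
            change f (N0 + d - 1 - s) = f (N0 + d - 1 - (s + p))
            rw [this]; congr 1; omega) (by omega)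
        change f (N0 + d - 1 - (g - 1)) = f (N0 + d - 1 - (p - 1)) at e2
        rw [show N0 + d - 1 - (g - 1) = t by omega,
          show N0 + d - 1 - (p - 1) = N0 + d - p by omega] at e2
        rw [e2, e1]
  intro t ht
  rcases le_or_gt N0 n with h3 | h3
  · exact key (n - N0) (by omega) t (by omega)
  · exact h2 t (by omega)

theorem palP_full {σ : List α} (h : σ.reverse = σ) : PalP σ σ.length := by
  rw [palP_iff le_rfl, List.take_length, h]

theorem par_of_per {σ : List α} (hσ : σ.reverse = σ) {k0 j : ℕ} (hlen : σ.length = k0 + (j + 1) * per σ)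
    (hk : per σ ≤ k0) : Par (σ.take k0) (σ.take (k0 + per σ)) := by
  have hπ : 1 ≤ per σ := pd_pos _ _
  have hper : ∀ t, t + per σ < σ.length → σ[t]? = σ[t + per σ]? := pd_spec (fun t => σ[t]?) σ.length
  have hfull := palP_full hσ
  have e0 : k0 + (j + 1) * per σ = k0 + per σ + j * per σ := by ring
  have P0 : PalP σ k0 := by
    have := palP_sub hfull (period_mul hper (j + 1))
    rwa [hlen, Nat.add_sub_cancel] at this
  have P1 : PalP σ (k0 + per σ) := by
    have := palP_sub hfull (period_mul hper j)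
    rwa [hlen, e0, Nat.add_sub_cancel] at this
  have hle1 : k0 + per σ ≤ σ.length := P1.1
  refine ⟨(palP_iff P0.1).mp P0, (palP_iff P1.1).mp P1, ?_, ?_, ?_⟩
  · exact (List.take_prefix_take_left (by omega))
  · intro h
    have := congrArg List.length h
    rw [List.length_take, List.length_take, min_eq_left P0.1, min_eq_left P1.1] at this
    omega
  · intro u hu1 hu2 hu3
    rw [List.length_take, min_eq_left P0.1]
    by_contra hlt
    push Not at hlt
    have hul : u.length ≤ k0 + per σ := by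
      have := hu1.length_le
      rwa [List.length_take, min_eq_left P1.1] at this
    have hue : u = σ.take u.length :=
      List.prefix_iff_eq_take.mp (hu1.trans (List.take_prefix _ _))
    have hune : u.length ≠ k0 + per σ := by
      intro h
      rw [h] at hue
      exact hu3 hue
    have P2 : PalP σ u.length := by
      rw [palP_iff (by omega), ← hue]
      exact hu2
    have hp2 := palP_period P1 P2 (by omega)
    have hp3 := period_ext (f := fun t => σ[t]?) (g := k0 + per σ - u.length) (p := per σ)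
      (n := σ.length) (N0 := k0 + per σ) (by omega) hπ hper hp2 (by omega)
    have : per σ ≤ k0 + per σ - u.length := pd_le (by omega) hp3
    omega

/-- address of a special palindrome in a run -/
def Rel (w σ : List α) (x : List α × α × α × α × ℕ) : Prop :=
  ∃ k0, x.1 = σ.take k0 ∧ Par (σ.take k0) (σ.take (k0 + per σ)) ∧
    (σ.take k0 ++ [x.2.2.2.1]) <+: σ.take (k0 + per σ) ∧ x.2.1 ≠ x.2.2.1 ∧
    L w (x.2.1 :: σ.take (k0 + per σ)) ∧ L w (x.2.2.1 :: σ.take (k0 + per σ)) ∧
    σ.length = k0 + (x.2.2.2.2 + 1) * per σ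

theorem Rel.uniq {w : List α} (hw : Rich w) {σ σ' : List α} {x : List α × α × α × α × ℕ}
    (h : Rel w σ x) (h' : Rel w σ' x) : σ = σ' := by
  obtain ⟨p0, a, c, b, j⟩ := x
  obtain ⟨k0, h1, h2, h3, h4, h5, h6, h7⟩ := h
  obtain ⟨k0', h1', h2', h3', h4', h5', h6', h7'⟩ := h'
  simp only at h1 h3 h4 h5 h6 h7 h1' h3' h4' h5' h6' h7'
  have hπ : 1 ≤ per σ := pd_pos _ _
  have hπ' : 1 ≤ per σ' := pd_pos _ _
  have hq : k0 + per σ ≤ σ.length := by rw [h7]; nlinarith
  have hq' : k0' + per σ' ≤ σ'.length := by rw [h7']; nlinarith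
  have hk : k0 = k0' := by
    have := congrArg List.length (h1.symm.trans h1')
    rw [List.length_take, List.length_take, min_eq_left (by omega), min_eq_left (by omega)] at this
    exact this
  subst hk
  have e1 : σ.take k0 = σ'.take k0 := h1.symm.trans h1'
  rw [← e1] at h2' h3'
  have e2 := child_unique hw h2 h2' h3 h3' h4 h5 h6 h5' h6'
  have e3 : per σ = per σ' := by
    have := congrArg List.length e2
    rw [List.length_take, List.length_take, min_eq_left (by omega), min_eq_left (by omega)] at this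
    omega
  have e4 : σ.length = σ'.length := by rw [h7, h7', e3]
  have hper : ∀ t, t + per σ < σ.length → σ[t]? = σ[t + per σ]? := pd_spec (fun t => σ[t]?) σ.length
  have hper' : ∀ t, t + per σ' < σ'.length → σ'[t]? = σ'[t + per σ']? :=
    pd_spec (fun t => σ'[t]?) σ'.length
  apply List.ext_getElem?
  intro t
  rcases lt_or_ge t σ.length with ht | ht
  · have f1 : σ[t]? = σ[t % per σ]? := period_mod hπ hper t ht
    have f2 : σ'[t]? = σ'[t % per σ']? := period_mod hπ' hper' t (by omega)
    rw [← e3] at f2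
    have hmod : t % per σ < per σ := Nat.mod_lt _ (by omega)
    have f3 : (σ.take (k0 + per σ))[t % per σ]? = σ[t % per σ]? := by
      rw [List.getElem?_take, if_pos (by omega)]
    have f4 : (σ'.take (k0 + per σ'))[t % per σ]? = σ'[t % per σ]? := by
      rw [List.getElem?_take, if_pos (by omega)]
    rw [f1, f2, ← f3, ← f4, e2]
  · rw [List.getElem?_eq_none ht, List.getElem?_eq_none (by omega)]

theorem sp_finite (w : List α) : (Sp w).Finite := by
  apply (finite_L w).subset
  rintro p ⟨_, a, c, _, h⟩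
  exact h.sub ⟨[a], [c], by simp [ed]⟩

theorem exists_rel {w σ : List α} (hσ : σ ∈ Sp w) (h2 : 2 * per σ ≤ σ.length) {G Y : ℕ}
    (hG : per σ ≤ G) (hG4 : G < 4 * per σ) (hY : σ.length ≤ Y) :
    ∃ x, Rel w σ x ∧ x.1 ∈ Sp w ∧ x.1.length ≤ 2 * G ∧ x.2.2.2.2 ≤ 4 * Y / G := by
  obtain ⟨hpal, a, c, hac, hL⟩ := hσ
  have hπ : 1 ≤ per σ := pd_pos _ _
  obtain ⟨j, hj⟩ : ∃ j, σ.length / per σ = j + 2 := by
    have : 2 ≤ σ.length / per σ := by rw [Nat.le_div_iff_mul_le hπ]; exact h2
    exact ⟨σ.length / per σ - 2, by omega⟩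
  have hdm := Nat.div_add_mod σ.length (per σ)
  rw [hj] at hdm
  have hr : σ.length % per σ < per σ := Nat.mod_lt _ hπ
  set r := σ.length % per σ
  have hlen : σ.length = (per σ + r) + (j + 1) * per σ := by rw [← hdm]; ring
  have hpar := par_of_per hpal hlen (by omega)
  obtain ⟨b, hb⟩ := hpar.letter
  have hqlen : per σ + r + per σ ≤ σ.length := by rw [hlen]; nlinarith
  set q1 := σ.take (per σ + r + per σ) with hq1
  have hL1 : L w (a :: q1) := by
    refine hL.sub ⟨[], σ.drop (per σ + r + per σ) ++ [c], ?_⟩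
    rw [List.nil_append, ed, List.cons_append, ← List.append_assoc, hq1, List.take_append_drop]
  have hL2 : L w (c :: q1) := by
    refine (L_ed_symm hpal hL).sub ⟨[], σ.drop (per σ + r + per σ) ++ [a], ?_⟩
    rw [List.nil_append, ed, List.cons_append, ← List.append_assoc, hq1, List.take_append_drop]
  refine ⟨(σ.take (per σ + r), a, c, b, j), ⟨per σ + r, rfl, hpar, hb, hac, hL1, hL2, hlen⟩, ?_, ?_, ?_⟩
  · refine ⟨hpar.pq, ?_⟩
    by_cases hab : a = b
    · exact ⟨c, b, by rintro rfl; exact hac hab, edge_of_child hb hL2⟩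
    · exact ⟨a, b, hab, edge_of_child hb hL1⟩
  · simp only [List.length_take]
    omega
  · simp only
    rw [Nat.le_div_iff_mul_le (by omega)]
    have h3 : j * per σ ≤ Y := by
      have : j * per σ ≤ (j + 1) * per σ := Nat.mul_le_mul_right _ (by omega)
      omega
    calc j * G ≤ j * (4 * per σ) := Nat.mul_le_mul_left _ hG4.le
      _ = 4 * (j * per σ) := by ring
      _ ≤ 4 * Y := Nat.mul_le_mul_left _ h3

theorem count_class [Fintype α] {w : List α} (hw : Rich w) (G Y : ℕ) :
    {σ | σ ∈ Sp w ∧ per σ ≤ G ∧ G < 4 * per σ ∧ σ.length ≤ Y}.ncard ≤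
      (Fintype.card α) ^ 2 * (2 * G + 1) ^ 2 +
      (Fintype.card α) ^ 2 * (2 * G + 1) ^ 2 * ((Fintype.card α) ^ 3 * (4 * Y / G + 1)) := by
  classical
  have hsub : {σ | σ ∈ Sp w ∧ per σ ≤ G ∧ G < 4 * per σ ∧ σ.length ≤ Y} ⊆
      {σ | σ ∈ Sp w ∧ σ.length ≤ 2 * G} ∪
      {σ | (σ ∈ Sp w ∧ 2 * per σ ≤ σ.length) ∧ per σ ≤ G ∧ G < 4 * per σ ∧ σ.length ≤ Y} := by
    rintro σ ⟨h1, h2, h3, h4⟩
    rcases le_or_gt (2 * per σ) σ.length with h | h
    · right; exact ⟨⟨h1, h⟩, h2, h3, h4⟩
    · left; exact ⟨h1, by omega⟩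
  have hf1 : {σ | σ ∈ Sp w ∧ σ.length ≤ 2 * G}.Finite := (sp_finite w).subset (fun x hx => hx.1)
  have hf2 : {σ | (σ ∈ Sp w ∧ 2 * per σ ≤ σ.length) ∧ per σ ≤ G ∧ G < 4 * per σ ∧
      σ.length ≤ Y}.Finite := (sp_finite w).subset (fun x hx => hx.1.1)
  refine (Set.ncard_le_ncard hsub (hf1.union hf2)).trans ?_
  refine (Set.ncard_union_le _ _).trans ?_
  apply Nat.add_le_add (count_special hw (2 * G))
  set P0 := hf1.toFinset with hP0
  set XX : Finset (List α × α × α × α × ℕ) := P0 ×ˢ ((Finset.univ : Finset α) ×ˢ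
    ((Finset.univ : Finset α) ×ˢ ((Finset.univ : Finset α) ×ˢ Finset.range (4 * Y / G + 1)))) with hXX
  have hex : ∀ σ ∈ {σ | (σ ∈ Sp w ∧ 2 * per σ ≤ σ.length) ∧ per σ ≤ G ∧ G < 4 * per σ ∧
      σ.length ≤ Y}, ∃ x, Rel w σ x ∧ x ∈ XX := by
    rintro σ ⟨⟨h1, h2⟩, h3, h4, h5⟩
    obtain ⟨x, hx1, hx2, hx3, hx4⟩ := exists_rel h1 h2 h3 h4 h5
    refine ⟨x, hx1, ?_⟩
    rw [hXX, Finset.mem_product, Finset.mem_product, Finset.mem_product, Finset.mem_product,
      Finset.mem_range, hP0, Set.Finite.mem_toFinset]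
    exact ⟨⟨hx2, hx3⟩, Finset.mem_univ _, Finset.mem_univ _, Finset.mem_univ _, by omega⟩
  rcases Set.eq_empty_or_nonempty {σ | (σ ∈ Sp w ∧ 2 * per σ ≤ σ.length) ∧ per σ ≤ G ∧
      G < 4 * per σ ∧ σ.length ≤ Y} with he | ⟨σ0, hσ0⟩
  · rw [he, Set.ncard_empty]; exact Nat.zero_le _
  have : Nonempty (List α × α × α × α × ℕ) := ⟨(hex σ0 hσ0).choose⟩
  choose! f hf using hex
  have hcard : XX.card ≤ (Fintype.card α) ^ 2 * (2 * G + 1) ^ 2 *
      ((Fintype.card α) ^ 3 * (4 * Y / G + 1)) := by
    rw [hXX, Finset.card_product, Finset.card_product, Finset.card_product, Finset.card_product,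
      Finset.card_range, Finset.card_univ]
    have h1 : P0.card ≤ (Fintype.card α) ^ 2 * (2 * G + 1) ^ 2 := by
      rw [← Set.ncard_coe_finset, hP0, Set.Finite.coe_toFinset]
      exact count_special hw (2 * G)
    calc _ ≤ (Fintype.card α) ^ 2 * (2 * G + 1) ^ 2 * (Fintype.card α * (Fintype.card α *
          (Fintype.card α * (4 * Y / G + 1)))) := Nat.mul_le_mul_right _ h1
      _ = _ := by ring
  refine le_trans ?_ hcard
  rw [← Set.ncard_coe_finset]
  apply Set.ncard_le_ncard_of_injOn f
  · intro σ hσ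
    exact (hf σ hσ).2
  · intro σ hσ σ' hσ' he
    have h1 := (hf σ hσ).1
    have h2 := (hf σ' hσ').1
    rw [← he] at h2
    exact h1.uniq hw h2

end Pool.Agent.Helper586.RG
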