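import Pool.Agent.Helper586.DyadSum
import Pool.Agent.Helper586.PerCount

set_option autoImplicit false

namespace Pool.Agent.Helper586.RG

variable {α : Type*}

theorem pd_le_succ {β : Type*} (f : ℕ → β) (l : ℕ) : pd f l ≤ l + 1 :=
  pd_le (by omega) (fun t ht => by omega)

theorem Ew_pos {X : ℝ} (hX : 0 < X) {g : ℕ} (hg : 1 ≤ g) (l : ℕ) : 0 < Ew X g l := by
  have : (0 : ℝ) < g := by exact_mod_cast hg
  rw [Ew]; positivity

theorem Ew_le_one {X : ℝ} (hX : 0 < X) {g l : ℕ} (hg : g ≤ l + 1) : Ew X g l ≤ 1 := by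
  have h1 : (g : ℝ) ≤ l + 1 := by exact_mod_cast hg
  have hl : (0 : ℝ) ≤ l := Nat.cast_nonneg l
  have hg0 : (0 : ℝ) ≤ g := Nat.cast_nonneg g
  rw [Ew, div_le_one (by positivity)]
  calc (g : ℝ) * (l + 1) * X ≤ (X + l + 1) * (X + l + 1) * (X + l + 1) := by
        gcongr <;> linarith
    _ = (X + l + 1) ^ 3 := by ring

theorem log_Ew {X : ℝ} (hX : 0 < X) {g l : ℕ} (hg : 1 ≤ g) (hgl : g ≤ l + 1) :
    - Real.log (Ew X g l) ≤ 2 * ((l + 1) / X) + 2 * Real.log (1 + X / g) := by
  have h1 : (g : ℝ) ≤ l + 1 := by exact_mod_cast hgl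
  have hl : (0 : ℝ) ≤ l := Nat.cast_nonneg l
  have hg0 : (0 : ℝ) < g := by exact_mod_cast hg
  have hE := Ew_pos hX hg l
  have h2 : (Ew X g l)⁻¹ ≤ (1 + (l + 1) / X) ^ 2 * (1 + X / g) ^ 2 := by
    rw [Ew, inv_div, div_le_iff₀ (by positivity)]
    have e1 : (1 + ((l : ℝ) + 1) / X) ^ 2 * (1 + X / g) ^ 2 * (g * (l + 1) * X) =
        (X + l + 1) ^ 2 * ((g + X) ^ 2 * (l + 1) / (X * g)) := by
      field_simp
      ring
    rw [e1, pow_succ]
    apply mul_le_mul_of_nonneg_left _ (by positivity)
    rw [le_div_iff₀ (by positivity)]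
    have h3 : 0 ≤ X * X * ((l : ℝ) + 1 - g) := mul_nonneg (by positivity) (by linarith)
    have h4 : 0 ≤ (g : ℝ) * X * (l + 1) := by positivity
    have h5 : 0 ≤ (g : ℝ) * g * (l + 1) := by positivity
    nlinarith
  have h3 : Real.log ((Ew X g l)⁻¹) ≤ Real.log ((1 + (l + 1) / X) ^ 2 * (1 + X / g) ^ 2) :=
    Real.log_le_log (by positivity) h2
  rw [Real.log_inv, Real.log_mul (by positivity) (by positivity), Real.log_pow, Real.log_pow] at h3
  have h4 : Real.log (1 + ((l : ℝ) + 1) / X) ≤ ((l : ℝ) + 1) / X := by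
    have := Real.log_le_sub_one_of_pos (show (0 : ℝ) < 1 + ((l : ℝ) + 1) / X by positivity)
    linarith
  push_cast at h3
  linarith

/-- weight of an exceptional letter -/
noncomputable def Et (X : ℝ) (T : List α) (h : α) : ℝ :=
  Ew X (pd (fun t => T[t]?) (lp (h :: T) - 2)) (lp (h :: T) - 2)

theorem Et_pos {X : ℝ} (hX : 0 < X) (T : List α) (h : α) : 0 < Et X T h :=
  Ew_pos hX (pd_pos _ _) _

theorem Et_le_one {X : ℝ} (hX : 0 < X) (T : List α) (h : α) : Et X T h ≤ 1 :=
  Ew_le_one hX (pd_le_succ _ _)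

/-- the constant -/
noncomputable def c0 (α : Type*) [Fintype α] : ℝ := 1 / (2 * Fintype.card α)

section mode
variable [DecidableEq α]

/-- the next mode -/
noncomputable def nm (m : ℕ) (T : List α) (h : α) : ℕ :=
  if m = 0 then
    (if T[lp T]? = some h then 0 else
      if 8 * (lp T + 2 - lp (h :: T)) ≤ lp T then lp T + 2 - lp (h :: T) else 0)
  else (if T[m - 1]? = some h then m else 0)

/-- the mode after reading a word -/
noncomputable def mode : List α → ℕ
  | [] => 0
  | h :: T => nm (mode T) T h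

variable [Fintype α]

/-- weight of an unpredicted letter -/
noncomputable def qq (X : ℝ) (m : ℕ) (T : List α) (h : α) : ℝ :=
  if m ≠ 0 ∧ T[lp T]? = some h then c0 α * (m / (X + m)) else c0 α * Et X T h

/-- probability of a letter -/
noncomputable def pr (X : ℝ) (m : ℕ) (T : List α) (h : α) : ℝ :=
  if pred m T = some h then 1 - ∑ h' ∈ Finset.univ.erase h, qq X m T h' else qq X m T h

/-- probability of a word -/
noncomputable def mu (X : ℝ) : List α → ℝ
  | [] => 1
  | h :: T => mu X T * pr X (mode T) T h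

theorem card_pos' (h : α) : (0 : ℝ) < Fintype.card α := by
  exact_mod_cast Fintype.card_pos_iff.mpr ⟨h⟩

theorem c0_pos (h : α) : 0 < c0 α := by
  have := card_pos' h
  rw [c0]; positivity

theorem c0_le (h : α) : 2 * c0 α ≤ 1 := by
  have h1 : (1 : ℝ) ≤ Fintype.card α := by exact_mod_cast Fintype.card_pos_iff.mpr ⟨h⟩
  rw [c0, mul_one_div, div_le_one (by positivity)]
  linarith

theorem neg_log_c0 : - Real.log (c0 α) = Real.log (2 * Fintype.card α) := by
  rw [c0, one_div, Real.log_inv, neg_neg]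

theorem qq_pos {X : ℝ} (hX : 0 < X) (m : ℕ) (T : List α) (h : α) : 0 < qq X m T h := by
  have h1 := c0_pos h
  rw [qq]
  split_ifs with h2
  · have : (0 : ℝ) < m := by exact_mod_cast Nat.pos_of_ne_zero h2.1
    positivity
  · exact mul_pos h1 (Et_pos hX T h)

theorem qq_le {X : ℝ} (hX : 0 < X) (m : ℕ) (T : List α) (h : α) : qq X m T h ≤ c0 α := by
  have h1 := c0_pos h
  rw [qq]
  split_ifs with h2
  · have h3 : (0 : ℝ) ≤ m := Nat.cast_nonneg m
    have : (m : ℝ) / (X + m) ≤ 1 := by
      rw [div_le_one (by positivity)]; linarith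
    nlinarith
  · have := Et_le_one hX T h
    nlinarith

theorem sum_qq_le {X : ℝ} (hX : 0 < X) (m : ℕ) (T : List α) (s : Finset α) :
    ∑ h ∈ s, qq X m T h ≤ 1 / 2 := by
  rcases s.eq_empty_or_nonempty with rfl | ⟨h0, _⟩
  · simp
  · have h1 : ∑ h ∈ s, qq X m T h ≤ ∑ h ∈ (Finset.univ : Finset α), qq X m T h :=
      Finset.sum_le_sum_of_subset_of_nonneg (Finset.subset_univ _)
        (fun h _ _ => (qq_pos hX m T h).le)
    refine h1.trans ((Finset.sum_le_sum (fun h _ => qq_le hX m T h)).trans ?_)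
    rw [Finset.sum_const, Finset.card_univ, nsmul_eq_mul, c0]
    have := card_pos' h0
    apply le_of_eq
    field_simp

theorem pr_pos {X : ℝ} (hX : 0 < X) (m : ℕ) (T : List α) (h : α) : 0 < pr X m T h := by
  rw [pr]
  split_ifs with h1
  · have := sum_qq_le hX m T (Finset.univ.erase h)
    linarith
  · exact qq_pos hX m T h

theorem mu_pos {X : ℝ} (hX : 0 < X) : ∀ T : List α, 0 < mu X T
  | [] => by rw [mu]; norm_num
  | h :: T => by rw [mu]; exact mul_pos (mu_pos hX T) (pr_pos hX _ T h)

theorem sum_pr_le {X : ℝ} (hX : 0 < X) (m : ℕ) (T : List α) :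
    ∑ h : α, pr X m T h ≤ 1 := by
  by_cases h0 : ∃ h0, pred m T = some h0
  · obtain ⟨h0, hp⟩ := h0
    rw [← Finset.add_sum_erase _ _ (Finset.mem_univ h0)]
    have e1 : pr X m T h0 = 1 - ∑ h' ∈ Finset.univ.erase h0, qq X m T h' := by
      rw [pr, if_pos hp]
    have e2 : ∑ h ∈ Finset.univ.erase h0, pr X m T h = ∑ h ∈ Finset.univ.erase h0, qq X m T h := by
      apply Finset.sum_congr rfl
      intro h hh
      rw [pr, if_neg]
      rw [hp]
      intro he
      exact (Finset.ne_of_mem_erase hh) (Option.some.inj he).symm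
    rw [e1, e2]
    linarith
  · push Not at h0
    have e2 : ∑ h : α, pr X m T h = ∑ h : α, qq X m T h := by
      apply Finset.sum_congr rfl
      intro h _
      rw [pr, if_neg (h0 h)]
    rw [e2]
    have := sum_qq_le hX m T Finset.univ
    linarith

theorem kraft {X : ℝ} (hX : 0 < X) : ∀ (n : ℕ) (F : Finset (List α)), (∀ T ∈ F, T.length = n) →
    ∑ T ∈ F, mu X T ≤ 1 := by
  intro n
  induction n with
  | zero =>
    intro F hF
    have h1 : F ⊆ {[]} := by
      intro T hT
      rw [Finset.mem_singleton]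
      exact List.length_eq_zero_iff.mp (hF T hT)
    refine (Finset.sum_le_sum_of_subset_of_nonneg h1 (fun T _ _ => (mu_pos hX T).le)).trans ?_
    rw [Finset.sum_singleton, mu]
  | succ n ih =>
    intro F hF
    set F' := F.image List.tail with hF'
    have hF'len : ∀ T ∈ F', T.length = n := by
      intro T hT
      rw [hF', Finset.mem_image] at hT
      obtain ⟨T', hT', rfl⟩ := hT
      rw [List.length_tail, hF T' hT', Nat.add_sub_cancel]
    have hinj : Function.Injective (fun x : List α × α => x.2 :: x.1) := by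
      rintro ⟨a, b⟩ ⟨c, d⟩ h
      simp only [List.cons.injEq] at h
      exact Prod.ext h.2 h.1
    have hsub : F ⊆ (F' ×ˢ (Finset.univ : Finset α)).image (fun x : List α × α => x.2 :: x.1) := by
      intro T hT
      rcases T with _ | ⟨h, T⟩
      · have := hF [] hT
        simp at this
      · rw [Finset.mem_image]
        refine ⟨(T, h), ?_, rfl⟩
        rw [Finset.mem_product]
        refine ⟨?_, Finset.mem_univ _⟩
        rw [hF', Finset.mem_image]
        exact ⟨h :: T, hT, rfl⟩
    refine (Finset.sum_le_sum_of_subset_of_nonneg hsub (fun T _ _ => (mu_pos hX T).le)).trans ?_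
    rw [Finset.sum_image (fun x _ y _ h => hinj h), Finset.sum_product]
    refine le_trans (Finset.sum_le_sum ?_) (ih F' hF'len)
    intro T _
    change ∑ h : α, mu X T * pr X (mode T) T h ≤ mu X T
    rw [← Finset.mul_sum]
    have h1 := sum_pr_le hX (mode T) T
    have h2 := mu_pos hX T
    nlinarith

/-! ### costs of single steps -/

theorem cost_pred {X : ℝ} (hX : 0 < X) {m : ℕ} {T : List α} {h : α} (hp : pred m T = some h) :
    - Real.log (pr X m T h) ≤ ∑ h' ∈ Finset.univ.erase h, 2 * qq X m T h' := by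
  rw [pr, if_pos hp, ← Finset.mul_sum]
  have h1 := sum_qq_le hX m T (Finset.univ.erase h)
  have h2 : 0 ≤ ∑ h' ∈ Finset.univ.erase h, qq X m T h' :=
    Finset.sum_nonneg (fun h _ => (qq_pos hX m T h).le)
  set s := ∑ h' ∈ Finset.univ.erase h, qq X m T h' with hs
  have h3 := Real.one_sub_inv_le_log_of_pos (show 0 < 1 - s by linarith)
  have h4 : (1 - s)⁻¹ ≤ 1 + 2 * s := by
    rw [inv_le_iff_one_le_mul₀ (by linarith)]
    nlinarith
  linarith

theorem cost_ok {X : ℝ} (hX : 0 < X) {m : ℕ} {T : List α} {h a : α} (hp : pred m T = some h)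
    (ha : T[lp T]? = some a) (hm : m = 0 ∨ h = a ∨ m + lp (h :: T) ≤ lp T + 2) :
    - Real.log (pr X m T h) ≤ ∑ h' ∈ Finset.univ.erase h, Et X T h' +
      ((lp T : ℝ) + 2 - lp (h :: T)) / X := by
  have hc1 := c0_le h
  have hc2 := c0_pos h
  have hlp : ((lp (h :: T) : ℕ) : ℝ) ≤ lp T + 2 := by exact_mod_cast lp_cons_le h T
  have hdrop : 0 ≤ ((lp T : ℝ) + 2 - lp (h :: T)) / X := div_nonneg (by linarith) hX.le
  refine (cost_pred hX hp).trans ?_
  have h1 : ∀ h' ∈ Finset.univ.erase h, 2 * qq X m T h' ≤ Et X T h' +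
      (if m ≠ 0 ∧ a = h' then ((m : ℝ) / X) else 0) := by
    intro h' _
    have hE := Et_pos hX T h'
    rw [qq]
    by_cases h2 : m ≠ 0 ∧ T[lp T]? = some h'
    · rw [if_pos h2]
      have h3 : a = h' := by
        have := h2.2
        rw [ha] at this
        exact Option.some.inj this
      rw [if_pos ⟨h2.1, h3⟩]
      have hm0 : (0 : ℝ) ≤ m := Nat.cast_nonneg m
      have h4 : (m : ℝ) / (X + m) ≤ m / X := by
        apply div_le_div_of_nonneg_left hm0 hX
        linarith
      have h5 : 0 ≤ (m : ℝ) / (X + m) := by positivity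
      nlinarith
    · rw [if_neg h2]
      have h3 : ¬ (m ≠ 0 ∧ a = h') := by
        rintro ⟨h4, h5⟩
        exact h2 ⟨h4, by rw [ha, h5]⟩
      rw [if_neg h3]
      nlinarith
  refine (Finset.sum_le_sum h1).trans ?_
  rw [Finset.sum_add_distrib]
  have h2 : ∑ h' ∈ Finset.univ.erase h, (if m ≠ 0 ∧ a = h' then ((m : ℝ) / X) else 0) ≤
      ((lp T : ℝ) + 2 - lp (h :: T)) / X := by
    by_cases hm0 : m = 0
    · have : ∀ h' ∈ Finset.univ.erase h, (if m ≠ 0 ∧ a = h' then ((m : ℝ) / X) else 0) = 0 := by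
        intro h' _
        rw [if_neg (fun h => h.1 hm0)]
      rw [Finset.sum_congr rfl this, Finset.sum_const_zero]
      exact hdrop
    · by_cases hha : h = a
      · have : ∀ h' ∈ Finset.univ.erase h, (if m ≠ 0 ∧ a = h' then ((m : ℝ) / X) else 0) = 0 := by
          intro h' hh'
          rw [if_neg]
          rintro ⟨_, h4⟩
          exact (Finset.ne_of_mem_erase hh') (by rw [hha, h4])
        rw [Finset.sum_congr rfl this, Finset.sum_const_zero]
        exact hdrop
      · have h3 : m + lp (h :: T) ≤ lp T + 2 := by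
          rcases hm with h3 | h3 | h3
          · exact absurd h3 hm0
          · exact absurd h3 hha
          · exact h3
        have h4 : (m : ℝ) + lp (h :: T) ≤ lp T + 2 := by exact_mod_cast h3
        calc ∑ h' ∈ Finset.univ.erase h, (if m ≠ 0 ∧ a = h' then ((m : ℝ) / X) else 0)
            ≤ ∑ h' ∈ Finset.univ.erase h, (if a = h' then ((m : ℝ) / X) else 0) := by
              apply Finset.sum_le_sum
              intro h' _
              by_cases h5 : a = h'
              · rw [if_pos h5, if_pos ⟨hm0, h5⟩]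
              · rw [if_neg h5, if_neg (fun h => h5 h.2)]
          _ ≤ ∑ h' : α, (if a = h' then ((m : ℝ) / X) else 0) := by
              apply Finset.sum_le_sum_of_subset_of_nonneg (Finset.subset_univ _)
              intro h' _ _
              split_ifs <;> positivity
          _ = (m : ℝ) / X := by simp
          _ ≤ ((lp T : ℝ) + 2 - lp (h :: T)) / X := by
              apply div_le_div_of_nonneg_right _ hX.le
              linarith
  linarith

theorem cost_exc {X : ℝ} (hX : 0 < X) {m : ℕ} {T : List α} {h : α} (hp : pred m T ≠ some h)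
    (hm : m = 0 ∨ T[lp T]? ≠ some h) :
    - Real.log (pr X m T h) ≤ Real.log (2 * Fintype.card α) +
      2 * (((lp (h :: T) - 2 : ℕ) + 1) / X) +
      2 * Real.log (1 + X / pd (fun t => T[t]?) (lp (h :: T) - 2)) := by
  rw [pr, if_neg hp, qq, if_neg (by rintro ⟨h1, h2⟩; rcases hm with h3 | h3
                                    · exact h1 h3
                                    · exact h3 h2),
    Real.log_mul (c0_pos h).ne' (Et_pos hX T h).ne', Et]
  have h1 := log_Ew hX (g := pd (fun t => T[t]?) (lp (h :: T) - 2)) (l := lp (h :: T) - 2)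
    (pd_pos _ _) (pd_le_succ _ _)
  have h2 := neg_log_c0 (α := α)
  linarith

theorem cost_end {X : ℝ} (hX : 0 < X) {m : ℕ} {T : List α} {h : α} (hp : pred m T ≠ some h)
    (hm : m ≠ 0) (hh : T[lp T]? = some h) :
    - Real.log (pr X m T h) = Real.log (2 * Fintype.card α) + Real.log (1 + X / m) := by
  have hm0 : (0 : ℝ) < m := by exact_mod_cast Nat.pos_of_ne_zero hm
  rw [pr, if_neg hp, qq, if_pos ⟨hm, hh⟩, Real.log_mul (c0_pos h).ne' (by positivity), neg_add,
    neg_log_c0]
  congr 1
  rw [← Real.log_inv]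
  congr 1
  field_simp
  ring

end mode

end Pool.Agent.Helper586.RG
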