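import Pool.Agent.Helper586.KraftUnused

set_option autoImplicit false

namespace Pool.Agent.Helper586.RG

variable {α : Type*}

theorem pal_form {Q : List α} (hp : Q.reverse = Q) (h2 : 2 ≤ Q.length) :
    ∃ h, Q = h :: (core Q ++ [h]) := by
  rcases Q with _ | ⟨h, R⟩
  · simp at h2
  · rcases List.eq_nil_or_concat R with rfl | ⟨R', y, rfl⟩
    · simp at h2
    · rw [List.concat_eq_append] at hp h2 ⊢
      have hc : core (h :: (R' ++ [y])) = R' := by
        rw [core]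
        simp
      refine ⟨h, ?_⟩
      rw [hc]
      have e : (h :: (R' ++ [y])).reverse = y :: (R'.reverse ++ [h]) := by simp
      rw [e] at hp
      rw [(List.cons.inj hp).1]

theorem fiber_card [Fintype α] [DecidableEq α] (S' : Finset (List α))
    (hS : ∀ Q ∈ S', Q.reverse = Q ∧ Q ≠ []) (Z : Finset (List α)) (hZ : ∀ Q ∈ S', core Q ∈ Z) :
    S'.card ≤ Z.card * (2 * Fintype.card α) := by
  have h1 : (Z ×ˢ (((Finset.univ : Finset α).image some) ×ˢ (Finset.univ : Finset Bool))).card =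
      Z.card * (2 * Fintype.card α) := by
    rw [Finset.card_product, Finset.card_product, Finset.card_image_of_injective _
      (Option.some_injective α), Finset.card_univ, Finset.card_univ, Fintype.card_bool]
    ring
  rw [← h1]
  apply Finset.card_le_card_of_injOn (fun Q => (core Q, Q.head?, decide (Q.length ≤ 1)))
  · intro Q hQ
    rw [Finset.mem_coe] at hQ
    rw [Finset.mem_coe, Finset.mem_product, Finset.mem_product]
    refine ⟨hZ Q hQ, ?_, Finset.mem_univ _⟩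
    obtain ⟨_, h3⟩ := hS Q hQ
    rcases Q with _ | ⟨h, R⟩
    · exact absurd rfl h3
    · simp
  · intro Q hQ Q' hQ' he
    rw [Finset.mem_coe] at hQ hQ'
    obtain ⟨h2, h3⟩ := hS Q hQ
    obtain ⟨h2', h3'⟩ := hS Q' hQ'
    simp only [Prod.mk.injEq, decide_eq_decide] at he
    obtain ⟨e1, e2, e3⟩ := he
    rcases le_or_gt Q.length 1 with h4 | h4
    · have h4' := e3.mp h4
      rcases Q with _ | ⟨h, R⟩
      · exact absurd rfl h3
      rcases Q' with _ | ⟨h', R'⟩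
      · exact absurd rfl h3'
      have hR : R = [] := by
        rw [List.length_cons] at h4
        exact List.length_eq_zero_iff.mp (by omega)
      have hR' : R' = [] := by
        rw [List.length_cons] at h4'
        exact List.length_eq_zero_iff.mp (by omega)
      subst hR
      subst hR'
      simp at e2
      rw [e2]
    · have h4' : 2 ≤ Q'.length := by
        by_contra hlt
        have := e3.mpr (by omega)
        omega
      obtain ⟨h, hq⟩ := pal_form h2 h4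
      obtain ⟨h', hq'⟩ := pal_form h2' h4'
      have e4 : Q.head? = some h := by rw [hq]; rfl
      have e5 : Q'.head? = some h' := by rw [hq']; rfl
      rw [e4, e5] at e2
      rw [hq, hq', e1, Option.some.inj e2]

theorem class_bound [Fintype α] {w : List α} (hw : Rich w) (ha : 1 ≤ Fintype.card α) {k v : ℕ}
    (hv : v ≤ k) :
    {σ | σ ∈ Sp w ∧ per σ ≤ 4 ^ (k - v) ∧ 4 ^ (k - v) < 4 * per σ ∧
      σ.length ≤ 4 ^ k * 2 ^ v}.ncard * 2 ^ v ≤ 54 * (Fintype.card α) ^ 5 * 16 ^ k := by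
  obtain ⟨d, rfl⟩ : ∃ d, k = v + d := ⟨k - v, by omega⟩
  rw [Nat.add_sub_cancel_left]
  have h1 := count_class hw (4 ^ d) (4 ^ (v + d) * 2 ^ v)
  have hdiv : 4 * (4 ^ (v + d) * 2 ^ v) / 4 ^ d = 4 * 8 ^ v := by
    have e : 4 * (4 ^ (v + d) * 2 ^ v) = 4 * 8 ^ v * 4 ^ d := by
      rw [pow_add, show (8 : ℕ) = 4 * 2 by norm_num, mul_pow]
      ring
    rw [e]
    exact Nat.mul_div_cancel _ (by positivity)
  rw [hdiv] at h1
  set a := Fintype.card α
  set G := 4 ^ d with hG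
  have hG1 : 1 ≤ G := Nat.one_le_pow _ _ (by norm_num)
  have hG2 : (2 * G + 1) ^ 2 ≤ 9 * G ^ 2 := by nlinarith
  have h8 : 1 ≤ 8 ^ v := Nat.one_le_pow _ _ (by norm_num)
  have ha2 : a ^ 2 ≤ a ^ 5 := Nat.pow_le_pow_right ha (by norm_num)
  have hGG : G ^ 2 = 16 ^ d := by
    rw [hG, ← pow_mul, mul_comm d 2, pow_mul]
    norm_num
  have h2 : {σ | σ ∈ Sp w ∧ per σ ≤ G ∧ G < 4 * per σ ∧
      σ.length ≤ 4 ^ (v + d) * 2 ^ v}.ncard ≤ 54 * a ^ 5 * (16 ^ d * 8 ^ v) := by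
    refine h1.trans ?_
    calc a ^ 2 * (2 * G + 1) ^ 2 + a ^ 2 * (2 * G + 1) ^ 2 * (a ^ 3 * (4 * 8 ^ v + 1))
        ≤ a ^ 5 * (9 * G ^ 2) * 8 ^ v + a ^ 2 * (9 * G ^ 2) * (a ^ 3 * (4 * 8 ^ v + 8 ^ v)) := by
          apply Nat.add_le_add
          · calc a ^ 2 * (2 * G + 1) ^ 2 ≤ a ^ 5 * (9 * G ^ 2) := Nat.mul_le_mul ha2 hG2
              _ ≤ a ^ 5 * (9 * G ^ 2) * 8 ^ v := Nat.le_mul_of_pos_right _ h8
          · apply Nat.mul_le_mul (Nat.mul_le_mul_left _ hG2)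
            apply Nat.mul_le_mul_left
            omega
      _ = 54 * a ^ 5 * (16 ^ d * 8 ^ v) := by rw [← hGG]; ring
  calc _ ≤ 54 * a ^ 5 * (16 ^ d * 8 ^ v) * 2 ^ v := Nat.mul_le_mul_right _ h2
    _ = 54 * a ^ 5 * 16 ^ (v + d) := by
      rw [pow_add, show (16 : ℕ) ^ v = 8 ^ v * 2 ^ v by rw [← mul_pow]; norm_num]
      ring

/-- the period class of a palindrome -/
noncomputable def vv (k : ℕ) (Q : List α) : ℕ := k - Nat.clog 4 (per (core Q))

theorem core_len (Q : List α) : (core Q).length ≤ Q.length := by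
  rw [core, List.length_take, List.length_drop]
  omega

theorem vv_le (k : ℕ) (Q : List α) : vv k Q ≤ k := Nat.sub_le _ _

theorem clog_lt {p : ℕ} (hp : 1 ≤ p) : 4 ^ (Nat.clog 4 p) < 4 * p := by
  rcases Nat.eq_zero_or_pos (Nat.clog 4 p) with h | h
  · rw [h]; omega
  · have hp1 : 1 < p := by
      by_contra hle
      have : p = 1 := by omega
      rw [this] at h
      simp at h
    have := Nat.pow_pred_clog_lt_self (b := 4) (by norm_num) hp1
    obtain ⟨c, hc⟩ : ∃ c, Nat.clog 4 p = c + 1 := ⟨Nat.clog 4 p - 1, by omega⟩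
    rw [hc] at this ⊢
    rw [Nat.pred_succ] at this
    rw [pow_succ]
    omega

theorem vv_class {k : ℕ} {Q : List α} (hQ : Q.length ≤ 4 ^ k * 2 ^ (vv k Q)) :
    per (core Q) ≤ 4 ^ (k - vv k Q) ∧ 4 ^ (k - vv k Q) < 4 * per (core Q) := by
  have hp : 1 ≤ per (core Q) := pd_pos _ _
  have h1 := Nat.le_pow_clog (b := 4) (by norm_num) (per (core Q))
  have h2 := clog_lt hp
  rcases le_or_gt (Nat.clog 4 (per (core Q))) k with h | h
  · have e : k - vv k Q = Nat.clog 4 (per (core Q)) := by rw [vv]; omega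
    rw [e]
    exact ⟨h1, h2⟩
  · exfalso
    have e : vv k Q = 0 := by rw [vv]; omega
    rw [e, pow_zero, mul_one] at hQ
    have h3 : per (core Q) ≤ 4 ^ k := by
      have hcl := core_len Q
      rcases Nat.eq_zero_or_pos (core Q).length with h4 | h4
      · rw [per, h4, pd_zero]
        exact Nat.one_le_pow _ _ (by norm_num)
      · have : per (core Q) ≤ (core Q).length := pd_le_len h4
        omega
    have h4 := (Nat.clog_le_iff_le_pow (b := 4) (by norm_num)).mpr h3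
    omega

theorem log4_le : Real.log 4 ≤ 2 := by
  have h := Real.log_two_lt_d9
  rw [show (4 : ℝ) = 2 ^ 2 by norm_num, Real.log_pow]
  push_cast
  linarith

theorem vv_log (k : ℕ) (Q : List α) :
    Real.log (1 + (4 : ℝ) ^ k / per (core Q)) ≤ 2 * ((vv k Q : ℝ) + 2) := by
  have hp : 1 ≤ per (core Q) := pd_pos _ _
  have hp' : (0 : ℝ) < per (core Q) := by exact_mod_cast hp
  have key : 1 + (4 : ℝ) ^ k / per (core Q) ≤ 4 ^ (vv k Q + 2) := by
    rcases le_or_gt (Nat.clog 4 (per (core Q))) k with h | h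
    · have h2 := clog_lt hp
      have e : k = vv k Q + Nat.clog 4 (per (core Q)) := by rw [vv]; omega
      have h3 : (4 : ℕ) ^ k ≤ 4 ^ (vv k Q + 1) * per (core Q) := by
        calc (4 : ℕ) ^ k = 4 ^ (vv k Q) * 4 ^ (Nat.clog 4 (per (core Q))) := by
              rw [← pow_add, ← e]
          _ ≤ 4 ^ (vv k Q) * (4 * per (core Q)) := Nat.mul_le_mul_left _ h2.le
          _ = 4 ^ (vv k Q + 1) * per (core Q) := by rw [pow_succ]; ring
      have h4 : (4 : ℝ) ^ k ≤ 4 ^ (vv k Q + 1) * per (core Q) := by exact_mod_cast h3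
      have h5 : (4 : ℝ) ^ k / per (core Q) ≤ 4 ^ (vv k Q + 1) := by
        rw [div_le_iff₀ hp']; exact h4
      have h6 : (1 : ℝ) ≤ 4 ^ (vv k Q + 1) := one_le_pow₀ (by norm_num)
      calc 1 + (4 : ℝ) ^ k / per (core Q) ≤ 4 ^ (vv k Q + 1) + 4 ^ (vv k Q + 1) := by linarith
        _ ≤ 4 ^ (vv k Q + 2) := by
          rw [show vv k Q + 2 = (vv k Q + 1) + 1 by ring, pow_succ _ (vv k Q + 1)]
          linarith
    · have h3 : 4 ^ k < per (core Q) := by
        by_contra hle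
        push Not at hle
        have := (Nat.clog_le_iff_le_pow (b := 4) (by norm_num)).mpr hle
        omega
      have h4 : (4 : ℝ) ^ k ≤ per (core Q) := by exact_mod_cast h3.le
      have h5 : (4 : ℝ) ^ k / per (core Q) ≤ 1 := by
        rw [div_le_one hp']; exact h4
      have h6 : (1 : ℝ) ≤ 4 ^ (vv k Q + 1) := one_le_pow₀ (by norm_num)
      rw [show vv k Q + 2 = (vv k Q + 1) + 1 by ring, pow_succ _ (vv k Q + 1)]
      linarith
  have h1 := Real.log_le_log (by positivity) key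
  rw [Real.log_pow] at h1
  have h2 := log4_le
  refine h1.trans ?_
  push_cast
  have h3 : (0 : ℝ) ≤ (vv k Q : ℝ) + 2 := by positivity
  nlinarith

theorem sum_six (n : ℕ) : ∑ v ∈ Finset.range n, ((v : ℝ) + 2) / 2 ^ v = 6 - (2 * n + 6) / 2 ^ n := by
  induction n with
  | zero => norm_num
  | succ n ih =>
    rw [Finset.sum_range_succ, ih, pow_succ]
    push_cast
    field_simp
    ring

theorem V_bound [Fintype α] [DecidableEq α] {w : List α} (hw : Rich w)
    (ha : 1 ≤ Fintype.card α) (k : ℕ) (S' : Finset (List α))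
    (hS : ∀ Q ∈ S', Q.reverse = Q ∧ Q ≠ [] ∧ core Q ∈ Sp w) :
    (∑ Q ∈ S', ((vv k Q : ℝ) + 2)) * 4 ^ k ≤ 2 * ∑ Q ∈ S', (Q.length : ℝ) +
      648 * (Fintype.card α : ℝ) ^ 6 * 64 ^ k := by
  set a := Fintype.card α
  set SA := S'.filter (fun Q => 4 ^ k * 2 ^ (vv k Q) < Q.length) with hSA
  set SB := S'.filter (fun Q => ¬ 4 ^ k * 2 ^ (vv k Q) < Q.length) with hSB
  rw [← Finset.sum_filter_add_sum_filter_not S' (fun Q => 4 ^ k * 2 ^ (vv k Q) < Q.length), add_mul]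
  have hA : (∑ Q ∈ SA, ((vv k Q : ℝ) + 2)) * 4 ^ k ≤ 2 * ∑ Q ∈ S', (Q.length : ℝ) := by
    calc (∑ Q ∈ SA, ((vv k Q : ℝ) + 2)) * 4 ^ k = ∑ Q ∈ SA, ((vv k Q : ℝ) + 2) * 4 ^ k := by
          rw [Finset.sum_mul]
      _ ≤ ∑ Q ∈ SA, 2 * (Q.length : ℝ) := by
          apply Finset.sum_le_sum
          intro Q hQ
          rw [hSA, Finset.mem_filter] at hQ
          have h1 : ((4 : ℝ) ^ k * 2 ^ (vv k Q)) ≤ Q.length := by exact_mod_cast hQ.2.le
          have h2 : (vv k Q : ℝ) + 1 ≤ 2 ^ (vv k Q) := by exact_mod_cast Nat.lt_two_pow_self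
          have h3 : (0 : ℝ) ≤ vv k Q := Nat.cast_nonneg _
          have h4 : (0 : ℝ) < 4 ^ k := by positivity
          calc ((vv k Q : ℝ) + 2) * 4 ^ k ≤ (2 * 2 ^ (vv k Q)) * 4 ^ k := by
                apply mul_le_mul_of_nonneg_right _ h4.le
                linarith
            _ = 2 * (4 ^ k * 2 ^ (vv k Q)) := by ring
            _ ≤ 2 * Q.length := by linarith
      _ ≤ ∑ Q ∈ S', 2 * (Q.length : ℝ) := by
          apply Finset.sum_le_sum_of_subset_of_nonneg (Finset.filter_subset _ _)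
          intro Q _ _
          positivity
      _ = 2 * ∑ Q ∈ S', (Q.length : ℝ) := by rw [Finset.mul_sum]
  have hB : ∑ Q ∈ SB, ((vv k Q : ℝ) + 2) ≤ 648 * (a : ℝ) ^ 6 * 16 ^ k := by
    have hmaps : ∀ Q ∈ SB, vv k Q ∈ Finset.range (k + 1) := by
      intro Q _
      rw [Finset.mem_range]
      have := vv_le k Q
      omega
    rw [← Finset.sum_fiberwise_of_maps_to hmaps]
    have hfib : ∀ v ∈ Finset.range (k + 1), ∑ Q ∈ SB.filter (fun Q => vv k Q = v),
        ((vv k Q : ℝ) + 2) ≤ (((v : ℝ) + 2) / 2 ^ v) * (108 * (a : ℝ) ^ 6 * 16 ^ k) := by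
      intro v hv
      rw [Finset.mem_range] at hv
      set Sv := SB.filter (fun Q => vv k Q = v) with hSv
      have hfin : {σ | σ ∈ Sp w ∧ per σ ≤ 4 ^ (k - v) ∧ 4 ^ (k - v) < 4 * per σ ∧
          σ.length ≤ 4 ^ k * 2 ^ v}.Finite := (sp_finite w).subset (fun x hx => hx.1)
      have hcard : Sv.card ≤ hfin.toFinset.card * (2 * a) := by
        apply fiber_card
        · intro Q hQ
          rw [hSv, Finset.mem_filter, hSB, Finset.mem_filter] at hQ
          have := hS Q hQ.1.1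
          exact ⟨this.1, this.2.1⟩
        · intro Q hQ
          rw [hSv, Finset.mem_filter, hSB, Finset.mem_filter] at hQ
          have h1 := hS Q hQ.1.1
          have h2 : Q.length ≤ 4 ^ k * 2 ^ (vv k Q) := by
            have := hQ.1.2
            omega
          have h3 := vv_class h2
          rw [hQ.2] at h2 h3
          rw [Set.Finite.mem_toFinset]
          exact ⟨h1.2.2, h3.1, h3.2, (core_len Q).trans h2⟩
      have hcb := class_bound hw ha (k := k) (v := v) (by omega)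
      rw [Set.ncard_eq_toFinset_card _ hfin] at hcb
      have h5 : Sv.card * 2 ^ v ≤ 108 * a ^ 6 * 16 ^ k := by
        calc Sv.card * 2 ^ v ≤ hfin.toFinset.card * (2 * a) * 2 ^ v := Nat.mul_le_mul_right _ hcard
          _ = (hfin.toFinset.card * 2 ^ v) * (2 * a) := by ring
          _ ≤ (54 * a ^ 5 * 16 ^ k) * (2 * a) := Nat.mul_le_mul_right _ hcb
          _ = 108 * a ^ 6 * 16 ^ k := by ring
      have h6 : (Sv.card : ℝ) * 2 ^ v ≤ 108 * (a : ℝ) ^ 6 * 16 ^ k := by exact_mod_cast h5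
      have h7 : ∑ Q ∈ Sv, ((vv k Q : ℝ) + 2) = Sv.card * ((v : ℝ) + 2) := by
        rw [← nsmul_eq_mul]
        apply Finset.sum_eq_card_nsmul
        intro Q hQ
        rw [hSv, Finset.mem_filter] at hQ
        rw [hQ.2]
      rw [h7, div_mul_eq_mul_div, le_div_iff₀ (by positivity)]
      calc (Sv.card : ℝ) * ((v : ℝ) + 2) * 2 ^ v = ((v : ℝ) + 2) * (Sv.card * 2 ^ v) := by ring
        _ ≤ ((v : ℝ) + 2) * (108 * (a : ℝ) ^ 6 * 16 ^ k) :=
          mul_le_mul_of_nonneg_left h6 (by positivity)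
    refine (Finset.sum_le_sum hfib).trans ?_
    rw [← Finset.sum_mul, sum_six]
    have h8 : (6 : ℝ) - (2 * ((k + 1 : ℕ) : ℝ) + 6) / 2 ^ (k + 1) ≤ 6 := by
      have : (0 : ℝ) ≤ (2 * ((k + 1 : ℕ) : ℝ) + 6) / 2 ^ (k + 1) := by positivity
      linarith
    calc _ ≤ 6 * (108 * (a : ℝ) ^ 6 * 16 ^ k) :=
          mul_le_mul_of_nonneg_right h8 (by positivity)
      _ = 648 * (a : ℝ) ^ 6 * 16 ^ k := by ring
  have hB' : (∑ Q ∈ SB, ((vv k Q : ℝ) + 2)) * 4 ^ k ≤ 648 * (a : ℝ) ^ 6 * 64 ^ k := by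
    calc (∑ Q ∈ SB, ((vv k Q : ℝ) + 2)) * 4 ^ k ≤ 648 * (a : ℝ) ^ 6 * 16 ^ k * 4 ^ k :=
          mul_le_mul_of_nonneg_right hB (by positivity)
      _ = 648 * (a : ℝ) ^ 6 * 64 ^ k := by
        rw [mul_assoc, ← mul_pow]
        norm_num
  linarith

/-- the constant of the upper bound -/
noncomputable def CC (a : ℝ) : ℝ := (2 * a + 800) + 4 + ((2 * a + 8) * (1936 * a ^ 6) + 320) + (4 * a + 8)

theorem ar_UU {X a n E u : ℝ} (hX : 256 ≤ X) (ha : 1 ≤ a) (hn : n ≤ X ^ 3)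
    (hE0 : 0 ≤ E) (hE : E ≤ 1 / X ^ 2) (hu : u ≤ (n + 1) * (a * E) + 800 * n / X) :
    u ≤ (2 * a + 800) * X ^ 2 := by
  have hX0 : 0 < X := by linarith
  have hX3 : (1 : ℝ) ≤ X ^ 3 := one_le_pow₀ (by linarith)
  have h1 : (n + 1) * (a * E) ≤ (X ^ 3 + X ^ 3) * (a * (1 / X ^ 2)) := by
    apply mul_le_mul (by linarith) (mul_le_mul_of_nonneg_left hE (by linarith))
      (mul_nonneg (by linarith) hE0) (by positivity)
  have h2 : (X ^ 3 + X ^ 3) * (a * (1 / X ^ 2)) = 2 * a * X := by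
    field_simp
    ring
  have h3 : 800 * n / X ≤ 800 * X ^ 2 := by
    rw [div_le_iff₀ hX0]
    calc 800 * n ≤ 800 * X ^ 3 := by linarith
      _ = 800 * X ^ 2 * X := by ring
  have h5 : X ≤ X ^ 2 := by
    calc X = X * 1 := by ring
      _ ≤ X * X := mul_le_mul_of_nonneg_left (by linarith) hX0.le
      _ = X ^ 2 := by ring
  have h4 : 2 * a * X ≤ 2 * a * X ^ 2 := mul_le_mul_of_nonneg_left h5 (by linarith)
  have h6 : (2 * a + 800) * X ^ 2 = 2 * a * X ^ 2 + 800 * X ^ 2 := by ring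
  linarith

theorem ar_V {X a n V Lq s : ℝ} (hX : 256 ≤ X) (ha : 1 ≤ a) (hn : n ≤ X ^ 3)
    (hV : V * X ≤ 2 * Lq + 648 * a ^ 6 * X ^ 3) (hL : Lq ≤ 96 * n + 64 + 33 * s)
    (hs0 : 0 ≤ s) (h2s : 2 * s ≤ V) : V ≤ 1936 * a ^ 6 * X ^ 2 := by
  have hX0 : 0 < X := by linarith
  have hX3 : (1 : ℝ) ≤ X ^ 3 := one_le_pow₀ (by linarith)
  have h1 : V * (X - 33) ≤ (320 + 648 * a ^ 6) * X ^ 3 := by
    have e1 : V * (X - 33) = V * X - 33 * V := by ring
    have e2 : (320 + 648 * a ^ 6) * X ^ 3 = 320 * X ^ 3 + 648 * a ^ 6 * X ^ 3 := by ring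
    rw [e1, e2]
    linarith
  have hV0 : 0 ≤ V := by linarith
  have h2 : V * (X / 2) ≤ V * (X - 33) := mul_le_mul_of_nonneg_left (by linarith) hV0
  have h3 : V * X ≤ ((640 + 1296 * a ^ 6) * X ^ 2) * X := by
    calc V * X = 2 * (V * (X / 2)) := by ring
      _ ≤ 2 * ((320 + 648 * a ^ 6) * X ^ 3) := by linarith
      _ = ((640 + 1296 * a ^ 6) * X ^ 2) * X := by ring
  have h4 := le_of_mul_le_mul_right h3 hX0
  refine h4.trans ?_
  apply mul_le_mul_of_nonneg_right _ (by positivity)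
  have : (1 : ℝ) ≤ a ^ 6 := one_le_pow₀ ha
  linarith

theorem ar_kap {X a n V Lq s K lg : ℝ} (hX : 256 ≤ X) (ha : 1 ≤ a) (hn : n ≤ X ^ 3)
    (hL : Lq ≤ 96 * n + 64 + 33 * s) (hs0 : 0 ≤ s) (h2s : 2 * s ≤ V)
    (hVb : V ≤ 1936 * a ^ 6 * X ^ 2) (hlg : lg ≤ 2 * a)
    (hK : K ≤ 2 * lg * s + 2 * (Lq / X) + 6 * V) :
    K ≤ ((2 * a + 8) * (1936 * a ^ 6) + 320) * X ^ 2 := by
  have hX0 : 0 < X := by linarith
  have hXX : 1 ≤ X ^ 2 := one_le_pow₀ (by linarith)
  have hV0 : 0 ≤ V := by linarith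
  have hLX : Lq / X ≤ 96 * X ^ 2 + 64 + V := by
    rw [div_le_iff₀ hX0]
    have e1 : (96 * X ^ 2 + 64 + V) * X = 96 * X ^ 3 + 64 * X + V * X := by ring
    have e2 : V * 17 ≤ V * X := mul_le_mul_of_nonneg_left (by linarith) hV0
    rw [e1]
    linarith
  have h1 : 2 * lg * s ≤ 2 * a * V := by
    calc 2 * lg * s = lg * (2 * s) := by ring
      _ ≤ (2 * a) * (2 * s) := mul_le_mul_of_nonneg_right hlg (by linarith)
      _ ≤ (2 * a) * V := mul_le_mul_of_nonneg_left h2s (by linarith)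
  have h2 : (2 * a + 8) * V ≤ (2 * a + 8) * (1936 * a ^ 6 * X ^ 2) :=
    mul_le_mul_of_nonneg_left hVb (by linarith)
  have h3 : ((2 * a + 8) * (1936 * a ^ 6) + 320) * X ^ 2 =
      (2 * a + 8) * (1936 * a ^ 6 * X ^ 2) + 320 * X ^ 2 := by ring
  have h4 : (2 * a + 8) * V = 2 * a * V + 8 * V := by ring
  rw [h3]
  linarith

theorem ar_E {X : ℝ} (hX0 : 0 < X) : Ew X 1 0 ≤ 1 / X ^ 2 := by
  rw [Ew, div_le_div_iff₀ (by positivity) (by positivity)]
  have h : X ^ 3 ≤ (X + 1) ^ 3 := by gcongr; linarith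
  calc ((1 : ℕ) : ℝ) * (((0 : ℕ) : ℝ) + 1) * X * X ^ 2 = X ^ 3 := by push_cast; ring
    _ ≤ (X + 1) ^ 3 := h
    _ = 1 * (X + ((0 : ℕ) : ℝ) + 1) ^ 3 := by push_cast; ring

theorem ar_kz {X a lg : ℝ} (hX : 256 ≤ X) (ha : 1 ≤ a) (hlg : lg ≤ 2 * a) :
    2 * (lg + 2 / X + 2 * Real.log (1 + X)) ≤ (4 * a + 8) * X ^ 2 := by
  have hX0 : 0 < X := by linarith
  have hXX : 1 ≤ X ^ 2 := one_le_pow₀ (by linarith)
  have h1 : Real.log (1 + X) ≤ X := by
    have := Real.log_le_sub_one_of_pos (show (0 : ℝ) < 1 + X by linarith)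
    linarith
  have h2 : 2 / X ≤ 1 := by rw [div_le_one hX0]; linarith
  have h3 : a * 1 ≤ a * X ^ 2 := mul_le_mul_of_nonneg_left hXX (by linarith)
  have h5 : X ≤ X ^ 2 := by
    calc X = X * 1 := by ring
      _ ≤ X * X := mul_le_mul_of_nonneg_left (by linarith) hX0.le
      _ = X ^ 2 := by ring
  have h6 : (4 * a + 8) * X ^ 2 = 4 * (a * X ^ 2) + 8 * X ^ 2 := by ring
  linarith

theorem ar_len {X n l w : ℝ} (hX : 256 ≤ X) (hn : n ≤ X ^ 3) (hl : 0 ≤ l) (hw : w = n + 1) :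
    (2 * w - l) / X ≤ 4 * X ^ 2 := by
  have hX0 : 0 < X := by linarith
  have hX3 : (1 : ℝ) ≤ X ^ 3 := one_le_pow₀ (by linarith)
  rw [div_le_iff₀ hX0, hw]
  have : 4 * X ^ 2 * X = 4 * X ^ 3 := by ring
  rw [this]
  linarith

theorem total_cost [Fintype α] [DecidableEq α] {W : List α} {n m k : ℕ} {S S' : Finset (List α)}
    (hk : 4 ≤ k) (hn : n ≤ 64 ^ k) (hW : Rich W)
    (hI : Inv2 ((4 : ℝ) ^ k) (kz α ((4 : ℝ) ^ k)) W n m S S')
    (x0 : α) : - Real.log (mu ((4 : ℝ) ^ k) W) ≤ CC (Fintype.card α) * 16 ^ k := by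
  have hXbig : 256 ≤ (4 : ℝ) ^ k := by
    calc (256 : ℝ) = 4 ^ 4 := by norm_num
      _ ≤ 4 ^ k := pow_le_pow_right₀ (by norm_num) hk
  have hX0 : 0 < (4 : ℝ) ^ k := by linarith
  have hcard1 : 1 ≤ Fintype.card α := Fintype.card_pos_iff.mpr ⟨x0⟩
  have ha1 : (1 : ℝ) ≤ Fintype.card α := by exact_mod_cast hcard1
  have hX2 : (16 : ℝ) ^ k = ((4 : ℝ) ^ k) ^ 2 := by
    rw [← pow_mul, mul_comm k 2, pow_mul]; norm_num
  have hX3 : (64 : ℝ) ^ k = ((4 : ℝ) ^ k) ^ 3 := by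
    rw [← pow_mul, mul_comm k 3, pow_mul]; norm_num
  have hnX : (n : ℝ) ≤ ((4 : ℝ) ^ k) ^ 3 := by rw [← hX3]; exact_mod_cast hn
  have hcost := hI.cost
  have hrs := rs_nonneg x0 hX0 m
  have hUU := ar_UU hXbig ha1 hnX (Ew_pos hX0 le_rfl 0).le (ar_E hX0) (UU_bound hX0 hI.len)
  have hV := V_bound hW hcard1 k S' (fun Q hQ => (hI.sub' Q hQ).2)
  rw [hX3] at hV
  have hs0 : (0 : ℝ) ≤ (S'.card : ℝ) := Nat.cast_nonneg _
  have h2s : 2 * (S'.card : ℝ) ≤ ∑ Q ∈ S', ((vv k Q : ℝ) + 2) := by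
    calc 2 * (S'.card : ℝ) = ∑ Q ∈ S', (2 : ℝ) := by rw [Finset.sum_const, nsmul_eq_mul]; ring
      _ ≤ ∑ Q ∈ S', ((vv k Q : ℝ) + 2) := by
          apply Finset.sum_le_sum
          intro Q _
          have : (0 : ℝ) ≤ vv k Q := Nat.cast_nonneg _
          linarith
  have hL : ∑ Q ∈ S', (Q.length : ℝ) ≤ 96 * n + 64 + 33 * S'.card := by
    have h1 := hI.sum
    have h2 := st2_le hI.st
    have h3 := hI.card
    have h4 : ∑ Q ∈ S', Q.length ≤ 96 * n + 64 + 33 * S'.card := by omega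
    exact_mod_cast h4
  have hVb := ar_V hXbig ha1 hnX hV hL hs0 h2s
  have hkap : ∑ Q ∈ S', kap ((4 : ℝ) ^ k) Q ≤ 2 * Real.log (2 * Fintype.card α) * S'.card +
      2 * ((∑ Q ∈ S', (Q.length : ℝ)) / (4 : ℝ) ^ k) + 6 * ∑ Q ∈ S', ((vv k Q : ℝ) + 2) := by
    have h1 : ∀ Q ∈ S', kap ((4 : ℝ) ^ k) Q ≤ 2 * Real.log (2 * Fintype.card α) +
        2 * ((Q.length : ℝ) / (4 : ℝ) ^ k) + 6 * ((vv k Q : ℝ) + 2) := by
      intro Q _
      have := vv_log k Q
      rw [kap]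
      linarith
    refine (Finset.sum_le_sum h1).trans ?_
    rw [Finset.sum_add_distrib, Finset.sum_add_distrib, Finset.sum_const, ← Finset.mul_sum,
      ← Finset.mul_sum, ← Finset.sum_div, nsmul_eq_mul]
    apply le_of_eq
    ring
  have hlog2a : Real.log (2 * Fintype.card α) ≤ 2 * (Fintype.card α : ℝ) := by
    have := Real.log_le_sub_one_of_pos (show (0 : ℝ) < 2 * (Fintype.card α : ℝ) by linarith)
    linarith
  have hkap3 := ar_kap hXbig ha1 hnX hL hs0 h2s hVb hlog2a hkap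
  have hlen := ar_len (l := (lp W : ℝ)) (w := (W.length : ℝ)) hXbig hnX (Nat.cast_nonneg _)
    (by rw [hI.len]; push_cast; ring)
  have hkz : kz α ((4 : ℝ) ^ k) ≤ (4 * (Fintype.card α : ℝ) + 8) * ((4 : ℝ) ^ k) ^ 2 :=
    ar_kz hXbig ha1 hlog2a
  rw [hX2, CC]
  linarith

theorem log_cnt_X (A : Type*) [Fintype A] {n k : ℕ} (hn1 : 1 ≤ n) (hk : 4 ≤ k) (hn : n ≤ 64 ^ k) :
    Real.log (cnt A n) ≤ CC (Fintype.card A + 1 : ℕ) * 16 ^ k := by
  classical
  have hX : (0 : ℝ) < (4 : ℝ) ^ k := by positivity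
  by_cases hc0 : cnt A n = 0
  · rw [hc0, Nat.cast_zero, Real.log_zero, CC]
    positivity
  set C : ℝ := CC (Fintype.card A + 1 : ℕ) * 16 ^ k with hC
  have hinj : Function.Injective (fun w : List A => w.map some ++ [none]) := by
    intro u v h
    have h1 := (List.append_inj' h rfl).1
    exact (List.map_injective_iff.mpr (Option.some_injective A)) h1
  set R : Set (List (Option A)) := (fun w : List A => w.map some ++ [none]) '' {w : List A | w.length = n ∧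
      Set.ncard {u : List A | u <:+: w ∧ u.reverse = u} = w.length + 1} with hR
  have hRfin : R.Finite := by
    apply Set.Finite.image
    exact (List.finite_length_eq A n).subset (fun w hw => hw.1)
  have hRcard : hRfin.toFinset.card = cnt A n := by
    rw [cnt, ← Set.ncard_image_of_injective _ hinj, ← Set.ncard_coe_finset,
      Set.Finite.coe_toFinset]
  have hmain : ∀ T ∈ hRfin.toFinset, T.length = n + 1 ∧ Real.exp (- C) ≤ mu ((4 : ℝ) ^ k) T := by
    intro T hT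
    rw [Set.Finite.mem_toFinset, hR] at hT
    obtain ⟨w, ⟨hw1, hw2⟩, rfl⟩ := hT
    refine ⟨by simp [hw1], ?_⟩
    have hr : Rich w := rich_of_ncard hw2
    have hz : (none : Option A) ∉ w.map some := by simp
    have hr' : Rich (w.map some ++ [none]) := (hr.map (Option.some_injective A)).append_fresh hz
    have hne : w.map some ≠ [] := by
      intro h
      rw [List.map_eq_nil_iff] at h
      rw [h] at hw1
      simp at hw1
      omega
    obtain ⟨m, S, S', hI⟩ := run2 hX (w.map some) hne hr' hz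
    have hlen : (w.map some).length = n := by rw [List.length_map, hw1]
    rw [hlen] at hI
    have h1 := total_cost hk hn hr' hI none
    rw [Fintype.card_option] at h1
    have h2 : - C ≤ Real.log (mu ((4 : ℝ) ^ k) (w.map some ++ [none])) := by
      rw [hC]; linarith
    calc Real.exp (- C) ≤ Real.exp (Real.log (mu ((4 : ℝ) ^ k) (w.map some ++ [none]))) :=
          Real.exp_le_exp.mpr h2
      _ = _ := Real.exp_log (mu_pos hX _)
  have hk1 := kraft hX (n + 1) hRfin.toFinset (fun T hT => (hmain T hT).1)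
  have hk2 : (cnt A n : ℝ) * Real.exp (- C) ≤ 1 := by
    refine le_trans ?_ hk1
    rw [← hRcard, ← nsmul_eq_mul]
    exact Finset.card_nsmul_le_sum _ _ _ (fun T hT => (hmain T hT).2)
  have hk3 : (cnt A n : ℝ) ≤ Real.exp C := by
    rw [Real.exp_neg, ← div_eq_mul_inv, div_le_one (Real.exp_pos _)] at hk2
    exact hk2
  have h4 := Real.log_le_log (by exact_mod_cast Nat.pos_of_ne_zero hc0) hk3
  rwa [Real.log_exp] at h4

theorem log_cnt_le' (A : Type*) [Fintype A] : ∃ C : ℝ, 0 ≤ C ∧ ∀ n : ℕ, 1 ≤ n →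
    Real.log (cnt A n) ≤ C * (n : ℝ) ^ ((2 : ℝ) / 3) := by
  have hCC : 0 ≤ CC (Fintype.card A + 1 : ℕ) := by rw [CC]; positivity
  refine ⟨CC (Fintype.card A + 1 : ℕ) * 65536, by positivity, ?_⟩
  intro n hn
  have hn1 : (1 : ℝ) ≤ n := by exact_mod_cast hn
  have hn0 : (0 : ℝ) ≤ n := by linarith
  set t : ℝ := (n : ℝ) ^ ((1 : ℝ) / 3) with ht
  have ht3 : t ^ 3 = n := by
    rw [ht, ← Real.rpow_natCast, ← Real.rpow_mul hn0]; norm_num
  have ht2 : t ^ 2 = (n : ℝ) ^ ((2 : ℝ) / 3) := by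
    rw [ht, ← Real.rpow_natCast, ← Real.rpow_mul hn0]; norm_num
  have ht1 : 1 ≤ t := by
    rw [ht]
    exact Real.one_le_rpow hn1 (by norm_num)
  have ht21 : 1 ≤ t ^ 2 := one_le_pow₀ ht1
  rcases le_or_gt n (64 ^ 4) with h | h
  · refine (log_cnt_X A hn le_rfl h).trans ?_
    rw [← ht2]
    calc CC (Fintype.card A + 1 : ℕ) * 16 ^ 4 = CC (Fintype.card A + 1 : ℕ) * 65536 * 1 := by
          norm_num
      _ ≤ CC (Fintype.card A + 1 : ℕ) * 65536 * t ^ 2 :=
          mul_le_mul_of_nonneg_left ht21 (by positivity)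
  · set k := Nat.clog 64 n with hk
    have hk4 : 4 < k := by
      by_contra hle
      push Not at hle
      have := (Nat.clog_le_iff_le_pow (b := 64) (by norm_num)).mp hle
      omega
    have h1 : n ≤ 64 ^ k := Nat.le_pow_clog (by norm_num) n
    have h2 := Nat.pow_pred_clog_lt_self (b := 64) (by norm_num) (x := n) (by omega)
    rw [← hk] at h2
    obtain ⟨c, hc⟩ : ∃ c, k = c + 1 := ⟨k - 1, by omega⟩
    rw [hc, Nat.pred_succ] at h2
    refine (log_cnt_X A hn hk4.le h1).trans ?_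
    rw [← ht2, hc]
    have h3 : (64 : ℝ) ^ c ≤ n := by exact_mod_cast h2.le
    have h4 : (4 : ℝ) ^ c ≤ t := by
      have h5 : ((4 : ℝ) ^ c) ^ 3 ≤ t ^ 3 := by
        rw [ht3, ← pow_mul, mul_comm c 3, pow_mul]
        norm_num
        exact h3
      exact le_of_pow_le_pow_left₀ (by norm_num) (by linarith) h5
    have h5 : (16 : ℝ) ^ c ≤ t ^ 2 := by
      have : ((4 : ℝ) ^ c) ^ 2 ≤ t ^ 2 := by gcongr
      rw [← pow_mul, mul_comm c 2, pow_mul] at this
      norm_num at this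
      exact this
    calc CC (Fintype.card A + 1 : ℕ) * 16 ^ (c + 1) = CC (Fintype.card A + 1 : ℕ) * 16 * 16 ^ c := by
          rw [pow_succ]; ring
      _ ≤ CC (Fintype.card A + 1 : ℕ) * 65536 * t ^ 2 := by
          apply mul_le_mul _ h5 (by positivity) (by positivity)
          apply mul_le_mul_of_nonneg_left (by norm_num) hCC

end Pool.Agent.Helper586.RG
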