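import Pool.Agent.Helper586.Kraft

set_option autoImplicit false

namespace Pool.Agent.Helper586.RG

variable {α : Type*}

/-- the core of a palindrome -/
def core (Q : List α) : List α := (Q.drop 1).take (Q.length - 2)

theorem core_lpp (h : α) (T : List α) : core (lpp (h :: T)) = T.take (lp (h :: T) - 2) := by
  rw [core, lpp_len, lpp]
  obtain ⟨k, hk⟩ : ∃ k, lp (h :: T) = k + 1 :=
    ⟨lp (h :: T) - 1, by have := lp_cons_pos h T; omega⟩
  rw [hk, List.take_succ_cons, List.drop_succ_cons, List.drop_zero, List.take_take]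
  congr 1; omega

theorem per_core (h : α) (T : List α) :
    per (core (lpp (h :: T))) = pd (fun t => T[t]?) (lp (h :: T) - 2) := by
  rw [core_lpp, per]
  have hl : (T.take (lp (h :: T) - 2)).length = lp (h :: T) - 2 := by
    rw [List.length_take, min_eq_left]
    have := lp_le (h :: T)
    rw [List.length_cons] at this
    omega
  rw [hl]
  apply pd_congr
  intro t ht
  simp only [List.getElem?_take, if_pos ht]

theorem core_special {h a : α} {T : List α} (ha : T[lp T]? = some a) (hne : h ≠ a) :
    core (lpp (h :: T)) ∈ Sp (h :: T) := by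
  rw [core_lpp]
  have hpos := lp_cons_pos h T
  have hlt : lp T < T.length := by
    by_contra hge
    rw [List.getElem?_eq_none (by omega)] at ha
    exact absurd ha (by simp)
  rcases lt_or_ge (lp (h :: T)) 2 with h1 | h1
  · rcases T with _ | ⟨x, T⟩
    · simp at hlt
    · have h2 : lp (h :: x :: T) - 2 = 0 := by omega
      rw [h2, List.take_zero]
      refine ⟨rfl, h, x, ?_, Or.inl ?_⟩
      · rintro rfl
        have : PalP (h :: h :: T) (0 + 2) := by
          apply palP_cons'
          · exact ⟨Nat.zero_le _, fun i hi => absurd hi (Nat.not_lt_zero _)⟩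
          · rfl
        have := lp_max this
        omega
      · exact List.IsPrefix.isInfix ⟨T, by simp [ed]⟩
  · obtain ⟨k, hk⟩ : ∃ k, lp (h :: T) = k + 2 := ⟨lp (h :: T) - 2, by omega⟩
    have h2 := lp_spec (h :: T)
    rw [hk] at h2
    obtain ⟨h3, h4⟩ := palP_cons h2
    have h5 : k < lp T := by
      rcases lt_or_eq_of_le (lp_max h3) with h6 | h6
      · exact h6
      · exfalso
        rw [h6, ha] at h4
        exact hne (Option.some.inj h4).symm
    rw [hk, Nat.add_sub_cancel]
    have hpal : (T.take k).reverse = T.take k := (palP_iff h3.1).mp h3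
    refine ⟨hpal, h, a, hne, ?_⟩
    -- `h σ` is a suffix of `lpp T`
    have e1 : T.take k ++ [h] = T.take (k + 1) := by
      rw [List.take_add_one, h4]; rfl
    have e2 : (T.take k ++ [h]) <+: lpp T := by
      rw [e1, lpp]
      exact List.take_prefix_take_left (by omega)
    have e3 : (h :: T.take k) <:+ lpp T := by
      have := List.reverse_suffix.mpr e2
      rw [lpp_pal, List.reverse_append, hpal] at this
      simpa using this
    have e4 : lpp T ++ [a] = T.take (lp T + 1) := by
      rw [lpp, List.take_add_one, ha]; rfl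
    left
    have e5 : ed (T.take k) h a <:+ lpp T ++ [a] := by
      obtain ⟨s, hs⟩ := e3
      refine ⟨s, ?_⟩
      rw [← hs, ed]; simp
    rw [e4] at e5
    exact (e5.isInfix.trans (List.take_prefix _ _).isInfix).trans (List.suffix_cons h T).isInfix

/-- the state of the amortised analysis, with minimality of the period -/
inductive St2 (T : List α) (Φ R : ℕ) : ℕ → Prop
  | o1 : Φ + 33 * lp T ≤ R → St2 T Φ R 0
  | o2 (e g j : ℕ) : lp T = j + 2 * e + 2 → 1 ≤ g → 8 * g ≤ j →
      (∀ i, e + 1 ≤ i → i + g < e + 1 + j → T[i]? = T[i + g]?) → T[e]? ≠ T[e + g]? →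
      Φ + 32 * e + 32 * lp T ≤ R → St2 T Φ R 0
  | r (g K : ℕ) : 1 ≤ g → 8 * g ≤ K → (∀ i, i + g < K → T[i]? = T[i + g]?) →
      (∀ g', 1 ≤ g' → g' < g → ∃ i, i + g' < K ∧ T[i]? ≠ T[i + g']?) →
      T[K]? ≠ T[K - g]? → lp T ≤ K → K < lp T + g → Φ + 32 * lp T ≤ R → St2 T Φ R g

theorem st2_le {T : List α} {Φ R m : ℕ} (h : St2 T Φ R m) : Φ + 32 * lp T ≤ R := by
  cases h with
  | o1 h => omega
  | o2 e g j _ _ _ _ _ h => omega
  | r g K _ _ _ _ _ _ _ h => exact h

variable [DecidableEq α] [Fintype α]

/-- cost of an inserted palindrome -/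
noncomputable def kap (X : ℝ) (Q : List α) : ℝ :=
  2 * Real.log (2 * Fintype.card α) + 2 * (Q.length / X) + 3 * Real.log (1 + X / per (core Q))

/-- reserve -/
noncomputable def rs (α : Type*) [Fintype α] (X : ℝ) (m : ℕ) : ℝ :=
  if m = 0 then 0 else Real.log (2 * Fintype.card α) + Real.log (1 + X / m)

/-- unused cost -/
noncomputable def UU (X : ℝ) : List α → ℝ
  | [] => 0
  | h :: T => UU X T + ∑ h' ∈ Finset.univ.erase h, Et X T h'

structure Inv2 (X k0 : ℝ) (T : List α) (i m : ℕ) (S S' : Finset (List α)) : Prop where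
  len : T.length = i + 1
  md : mode T = m
  sub : ∀ P ∈ S, P <:+: T.tail ∧ P ∈ Sp T
  sub' : ∀ Q ∈ S', Q <:+: T ∧ Q.reverse = Q ∧ Q ≠ [] ∧ core Q ∈ Sp T
  card : S'.card = S.card
  sum : ∑ Q ∈ S', Q.length ≤ ∑ P ∈ S, P.length + S'.card
  cost : - Real.log (mu X T) + rs α X m ≤ UU X T + (2 * T.length - lp T) / X +
    ∑ Q ∈ S', kap X Q + k0
  st : St2 T (∑ P ∈ S, P.length) (96 * i + 64 + 32 * S.card) m

omit [DecidableEq α] in
theorem log2card_nonneg (h : α) : 0 ≤ Real.log (2 * Fintype.card α) := by
  apply Real.log_nonneg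
  have h1 : (1 : ℝ) ≤ Fintype.card α := by exact_mod_cast Fintype.card_pos_iff.mpr ⟨h⟩
  linarith

omit [DecidableEq α] in
theorem rs_nonneg (h : α) {X : ℝ} (hX : 0 < X) (m : ℕ) : 0 ≤ rs α X m := by
  rw [rs]
  split_ifs with h1
  · exact le_rfl
  · apply add_nonneg (log2card_nonneg h)
    apply Real.log_nonneg
    have : 0 ≤ X / (m : ℝ) := by positivity
    linarith

theorem nm_ok {m : ℕ} {T : List α} {h : α} (hp : pred m T = some h) : nm m T h = m := by
  rw [pred] at hp
  rw [nm]
  by_cases hm : m = 0
  · rw [if_pos hm] at hp ⊢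
    rw [if_pos hp, hm]
  · rw [if_neg hm] at hp ⊢
    rw [if_pos hp]

theorem step_sub' {h : α} {T : List α} {S' : Finset (List α)}
    (hs : ∀ Q ∈ S', Q <:+: T ∧ Q.reverse = Q ∧ Q ≠ [] ∧ core Q ∈ Sp T) :
    ∀ Q ∈ S', Q <:+: (h :: T) ∧ Q.reverse = Q ∧ Q ≠ [] ∧ core Q ∈ Sp (h :: T) := by
  intro Q hQ
  obtain ⟨h1, h2, h3, h4⟩ := hs Q hQ
  exact ⟨h1.trans (List.suffix_cons h T).isInfix, h2, h3, Sp_mono h4 (List.suffix_cons h T).isInfix⟩

theorem log_mu_cons {X : ℝ} (hX : 0 < X) (h : α) (T : List α) :
    Real.log (mu X (h :: T)) = Real.log (mu X T) + Real.log (pr X (mode T) T h) := by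
  rw [mu, Real.log_mul (mu_pos hX T).ne' (pr_pos hX _ T h).ne']

theorem UU_mono {X : ℝ} (hX : 0 < X) (h : α) (T : List α) : UU X T ≤ UU X (h :: T) := by
  rw [UU]
  have : 0 ≤ ∑ h' ∈ Finset.univ.erase h, Et X T h' :=
    Finset.sum_nonneg (fun h _ => (Et_pos hX T h).le)
  linarith

theorem len_mono {X : ℝ} (hX : 0 < X) (h : α) (T : List α) :
    (2 * (T.length : ℝ) - lp T) / X ≤ (2 * ((h :: T).length : ℝ) - lp (h :: T)) / X := by
  apply div_le_div_of_nonneg_right _ hX.le
  have h1 : ((lp (h :: T) : ℕ) : ℝ) ≤ lp T + 2 := by exact_mod_cast lp_cons_le h T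
  rw [List.length_cons]
  push_cast
  linarith

theorem Inv2.of_ok {X k0 : ℝ} (hX : 0 < X) {T : List α} {i m : ℕ} {S S' : Finset (List α)}
    (hI : Inv2 X k0 T i m S S') {h a : α} (hp : pred m T = some h)
    (ha : T[lp T]? = some a) (hm : m = 0 ∨ h = a ∨ m + lp (h :: T) ≤ lp T + 2)
    (hst : St2 (h :: T) (∑ P ∈ S, P.length) (96 * (i + 1) + 64 + 32 * S.card) m) :
    Inv2 X k0 (h :: T) (i + 1) m S S' := by
  refine ⟨by rw [List.length_cons, hI.len], by rw [mode, hI.md, nm_ok hp], Inv.step_sub hI.sub,
    step_sub' hI.sub', hI.card, hI.sum, ?_, hst⟩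
  have h1 := cost_ok hX hp ha hm
  have h2 := hI.cost
  rw [log_mu_cons hX, hI.md, UU]
  have h3 : (2 * ((h :: T).length : ℝ) - lp (h :: T)) / X =
      (2 * (T.length : ℝ) - lp T) / X + ((lp T : ℝ) + 2 - lp (h :: T)) / X := by
    rw [← add_div, List.length_cons]
    push_cast
    congr 1
    ring
  rw [h3]
  linarith

theorem Inv2.of_end {X k0 : ℝ} (hX : 0 < X) {T : List α} {i m : ℕ} {S S' : Finset (List α)}
    (hI : Inv2 X k0 T i m S S') {h : α} (hp : pred m T ≠ some h) (hm : m ≠ 0)
    (ha : T[lp T]? = some h)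
    (hst : St2 (h :: T) (∑ P ∈ S, P.length) (96 * (i + 1) + 64 + 32 * S.card) 0) :
    Inv2 X k0 (h :: T) (i + 1) 0 S S' := by
  refine ⟨by rw [List.length_cons, hI.len], ?_, Inv.step_sub hI.sub,
    step_sub' hI.sub', hI.card, hI.sum, ?_, hst⟩
  · rw [mode, hI.md, nm, if_neg hm, if_neg]
    rw [pred, if_neg hm] at hp
    exact hp
  · have h1 := cost_end hX hp hm ha
    have h2 := hI.cost
    have h3 := UU_mono hX h T
    have h4 := len_mono hX h T
    rw [log_mu_cons hX, hI.md]
    rw [rs, if_neg hm] at h2
    rw [rs, if_pos rfl]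
    linarith

theorem Inv2.of_exc {X k0 : ℝ} (hX : 0 < X) {T : List α} {i m m' : ℕ} {S S' : Finset (List α)}
    (hI : Inv2 X k0 T i m S S') {h a : α} (hr : Rich (h :: T)) (hp : pred m T ≠ some h)
    (ha : T[lp T]? = some a) (hne : h ≠ a) (hnm : nm m T h = m')
    (hm' : m' ≠ 0 → pd (fun t => T[t]?) (lp (h :: T) - 2) ≤ m')
    (hst : St2 (h :: T) (∑ P ∈ S, P.length + lp T) (96 * (i + 1) + 64 + 32 * (S.card + 1)) m') :
    Inv2 X k0 (h :: T) (i + 1) m' (insert (lpp T) S) (insert (lpp (h :: T)) S') := by
  have hT0 : T ≠ [] := by rintro rfl; simp at ha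
  obtain ⟨h1, h2, h3⟩ := ins hr.1 hT0 hI.sub ha hne
  have hnew : lpp (h :: T) ∉ S' := by
    intro hmem
    exact lpp_new hr (hI.sub' _ hmem).1
  have hpos := lp_cons_pos h T
  have hlt : lp (h :: T) ≤ lp T + 1 := by
    apply lp_cons_lt
    rw [ha]
    intro hh
    exact hne (Option.some.inj hh).symm
  have hc' : (insert (lpp (h :: T)) S').card = S'.card + 1 := Finset.card_insert_of_notMem hnew
  refine ⟨by rw [List.length_cons, hI.len], by rw [mode, hI.md, hnm], h1, ?_, ?_, ?_, ?_, ?_⟩
  · intro Q hQ
    rw [Finset.mem_insert] at hQ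
    rcases hQ with rfl | hQ
    · refine ⟨(lpp_pre _).isInfix, lpp_pal _, ?_, core_special ha hne⟩
      intro h0
      have := congrArg List.length h0
      rw [lpp_len, List.length_nil] at this
      omega
    · exact step_sub' hI.sub' Q hQ
  · rw [hc', h2, hI.card]
  · rw [hc', Finset.sum_insert hnew, h3, lpp_len]
    have := hI.sum
    omega
  · rw [Finset.sum_insert hnew]
    have hcost := cost_exc hX hp (Or.inr (by
      rw [ha]; intro hh; exact hne (Option.some.inj hh).symm))
    have h4 := hI.cost
    have h5 := UU_mono hX h T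
    have h6 := len_mono hX h T
    have h7 := rs_nonneg h hX m
    have h8 := log2card_nonneg h
    rw [log_mu_cons hX, hI.md, kap, per_core, lpp_len]
    set p := pd (fun t => T[t]?) (lp (h :: T) - 2) with hpdef
    have hp1 : (1 : ℝ) ≤ p := by exact_mod_cast pd_pos _ _
    have h9 : ((((lp (h :: T) - 2 : ℕ) : ℝ) + 1) / X) ≤ (lp (h :: T) : ℝ) / X := by
      apply div_le_div_of_nonneg_right _ hX.le
      have : lp (h :: T) - 2 + 1 ≤ lp (h :: T) := by omega
      exact_mod_cast this
    have h10 : 0 ≤ Real.log (1 + X / p) := by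
      apply Real.log_nonneg
      have : 0 ≤ X / (p : ℝ) := by positivity
      linarith
    have h11 : rs α X m' ≤ Real.log (2 * Fintype.card α) + Real.log (1 + X / p) := by
      rw [rs]
      split_ifs with h12
      · linarith
      · have h13 : (p : ℝ) ≤ m' := by exact_mod_cast hm' h12
        have h14 : Real.log (1 + X / m') ≤ Real.log (1 + X / p) := by
          have hm0 : (0 : ℝ) < m' := by linarith
          apply Real.log_le_log (by positivity)
          have : X / (m' : ℝ) ≤ X / p := div_le_div_of_nonneg_left hX.le (by linarith) h13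
          linarith
        linarith
    linarith
  · rw [h2, h3]
    exact hst

theorem nm_big {m : ℕ} {T : List α} {h a : α} (hp : pred m T ≠ some h)
    (hb : lp T < 8 * (lp T + 2 - lp (h :: T))) : nm m T h = 0 := by
  rw [nm]
  by_cases hm : m = 0
  · rw [pred, if_pos hm] at hp
    rw [if_pos hm, if_neg hp, if_neg (by omega)]
  · rw [pred, if_neg hm] at hp
    rw [if_neg hm, if_neg hp]

theorem Inv2.step {X k0 : ℝ} (hX : 0 < X) {T : List α} {i m : ℕ} {S S' : Finset (List α)}
    (hI : Inv2 X k0 T i m S S') {h : α} (hr : Rich (h :: T)) (hlt : lp T < T.length) :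
    ∃ m1 S1 S1', Inv2 X k0 (h :: T) (i + 1) m1 S1 S1' := by
  obtain ⟨a, ha⟩ : ∃ a, T[lp T]? = some a := ⟨T[lp T], List.getElem?_eq_getElem hlt⟩
  have hpos := lp_cons_pos h T
  have hst := st2_le hI.st
  have hpp := lp_spec T
  -- big deviation
  have big : h ≠ a → pred m T ≠ some h → ∀ δ, lp (h :: T) + δ = lp T + 2 → lp T < 8 * δ →
      ∃ m1 S1 S1', Inv2 X k0 (h :: T) (i + 1) m1 S1 S1' := by
    intro hne hp δ hδ h8
    refine ⟨0, _, _, hI.of_exc hX hr hp ha hne (nm_big (a := a) hp (by omega))
      (fun h => absurd rfl h) ?_⟩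
    apply St2.o1
    omega
  -- small deviation in mode 0
  have small : m = 0 → h ≠ a → ∀ δ, lp (h :: T) + δ = lp T + 2 → 8 * δ ≤ lp T → 1 ≤ δ →
      ∑ P ∈ S, P.length + lp T + 32 * lp T ≤ 96 * i + 64 + 32 * S.card + 64 + 32 * δ →
      ∃ m1 S1 S1', Inv2 X k0 (h :: T) (i + 1) m1 S1 S1' := by
    intro hm hne δ hδ h8 hδ1 hineq
    obtain ⟨k1, k2, k3⟩ := small_drop hδ hδ1 h8
    have hha : T[lp T]? ≠ some h := by
      rw [ha]; intro hh; exact hne (Option.some.inj hh).symm
    have hp : pred m T ≠ some h := by rw [pred, if_pos hm]; exact hha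
    have hnm : nm m T h = δ := by
      rw [nm, if_pos hm, if_neg hha, if_pos (by omega)]
      omega
    refine ⟨δ, _, _, hI.of_exc hX hr hp ha hne hnm ?_ ?_⟩
    · intro _
      rw [show lp (h :: T) - 2 = lp T - δ by omega]
      exact pd_le hδ1 (fun t ht => k1 t (by omega))
    · refine St2.r δ (lp T + 1) hδ1 (by omega) ?_ ?_ ?_ (by omega) (by omega) (by omega)
      · intro n hn
        rcases n with _ | n
        · rw [List.getElem?_cons_zero, zero_add]
          obtain ⟨d, rfl⟩ : ∃ d, δ = d + 1 := ⟨δ - 1, by omega⟩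
          rw [List.getElem?_cons_succ]
          exact k2.symm
        · rw [List.getElem?_cons_succ, show n + 1 + δ = (n + δ) + 1 by ring,
            List.getElem?_cons_succ]
          exact k1 n (by omega)
      · intro g' hg1 hg2
        by_contra hcon
        push Not at hcon
        have q1 : ∀ t, t + g' < lp T → T[t]? = T[t + g']? := by
          intro t ht
          have := hcon (t + 1) (by omega)
          rw [List.getElem?_cons_succ, show t + 1 + g' = (t + g') + 1 by ring,
            List.getElem?_cons_succ] at this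
          exact this
        have q2 : T[g' - 1]? = some h := by
          have := hcon 0 (by omega)
          obtain ⟨d, rfl⟩ : ∃ d, g' = d + 1 := ⟨g' - 1, by omega⟩
          rw [List.getElem?_cons_zero, zero_add, List.getElem?_cons_succ] at this
          exact this.symm
        have q3 : T[lp T - g']? = some h := by
          rw [← q2, hpp.2 (g' - 1) (by omega)]
          congr 1; omega
        have q4 := lp_max (palP_cons' (palP_sub hpp q1) q3)
        omega
      · rw [List.getElem?_cons_succ, ha, show lp T + 1 - δ = (lp T - δ) + 1 by omega,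
          List.getElem?_cons_succ, k3]
        intro hh
        exact hne (Option.some.inj hh).symm
  have hpne : m = 0 → h ≠ a → pred m T ≠ some h := by
    intro hm hne
    rw [pred, if_pos hm, ha]
    intro hh
    exact hne (Option.some.inj hh).symm
  rcases hI.st with h1 | ⟨e, g, j, h1, h2, h3, h4, h5, h6⟩ | ⟨_, K, h1, h2, h3, hmin, h4, h5, h6, h7⟩
  · -- mode 0, O1
    by_cases hha : h = a
    · subst hha
      refine ⟨0, S, S', hI.of_ok hX (by rw [pred, if_pos rfl, ha]) ha (Or.inl rfl) ?_⟩
      apply St2.o1
      rw [lp_cons_eq ha]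
      omega
    · have h0 := lp_cons_lt (h := h) (T := T) (by rw [ha]; intro hh; exact hha (Option.some.inj hh).symm)
      obtain ⟨δ, hδ⟩ : ∃ δ, lp (h :: T) + δ = lp T + 2 := ⟨lp T + 2 - lp (h :: T), by omega⟩
      rcases le_or_gt (8 * δ) (lp T) with h8 | h8
      · exact small rfl hha δ hδ h8 (by omega) (by omega)
      · exact big hha (hpne rfl hha) δ hδ h8
  · -- mode 0, O2
    by_cases hha : h = a
    · subst hha
      refine ⟨0, S, S', hI.of_ok hX (by rw [pred, if_pos rfl, ha]) ha (Or.inl rfl) ?_⟩
      refine St2.o2 (e + 1) g j (by rw [lp_cons_eq ha]; omega) h2 h3 ?_ ?_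
        (by rw [lp_cons_eq ha]; omega)
      · intro n hn1 hn2
        obtain ⟨n, rfl⟩ : ∃ n', n = n' + 1 := ⟨n - 1, by omega⟩
        rw [List.getElem?_cons_succ, show n + 1 + g = (n + g) + 1 by ring,
            List.getElem?_cons_succ]
        exact h4 n (by omega) (by omega)
      · rw [List.getElem?_cons_succ, show e + 1 + g = (e + g) + 1 by ring,
            List.getElem?_cons_succ]
        exact h5
    · have h0 := lp_cons_lt (h := h) (T := T) (by rw [ha]; intro hh; exact hha (Option.some.inj hh).symm)
      obtain ⟨δ, hδ⟩ : ∃ δ, lp (h :: T) + δ = lp T + 2 := ⟨lp T + 2 - lp (h :: T), by omega⟩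
      rcases le_or_gt (8 * δ) (lp T) with h8 | h8
      · have hlarge : j < g + δ := by
          by_contra hle
          push Not at hle
          obtain ⟨k1, k2, k3⟩ := small_drop hδ (by omega) h8
          have hf := fw (fun n => T[e + 1 + n]?) (g + δ) g δ j le_rfl h2 (by omega)
            (by
              intro n hn
              rw [h4 (e + 1 + n) (by omega) (by omega), add_assoc])
            (by
              intro n hn
              rw [k1 (e + 1 + n) (by omega), add_assoc])
            hle
          apply h5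
          rw [k1 e (by omega), show e + δ = e + 1 + (δ - 1) by omega, ← hf]
          congr 1; omega
        exact small rfl hha δ hδ h8 (by omega) (by omega)
      · exact big hha (hpne rfl hha) δ hδ h8
  · -- run mode
    have hgK : m ≤ K := by omega
    have hpred : pred m T = T[m - 1]? := by rw [pred, if_neg (by omega)]
    have hfol : lp T < K → T[lp T]? = T[m - 1]? := by
      intro hk
      have e1 := h3 (lp T - m) (by omega)
      rw [show lp T - m + m = lp T by omega] at e1
      rw [← e1, hpp.2 (lp T - m) (by omega)]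
      congr 1; omega
    have hfol2 : lp T = K → T[K - m]? = T[m - 1]? := by
      intro hk
      rw [hpp.2 (m - 1) (by omega)]
      congr 1; omega
    by_cases hp : T[m - 1]? = some h
    · have hcond : m = 0 ∨ h = a ∨ m + lp (h :: T) ≤ lp T + 2 := by
        right
        rcases lt_or_eq_of_le h5 with hk | hk
        · left
          have := hfol hk
          rw [ha, hp] at this
          exact (Option.some.inj this).symm
        · by_cases hha : h = a
          · left; exact hha
          · right
            by_contra hcon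
            push Not at hcon
            obtain ⟨k, hk2⟩ : ∃ k, lp (h :: T) = k + 2 := ⟨lp (h :: T) - 2, by omega⟩
            have e1 := lp_spec (h :: T)
            rw [hk2] at e1
            obtain ⟨e2, e3⟩ := palP_cons e1
            have e4 : k < lp T := by
              rcases lt_or_eq_of_le (lp_max e2) with h6 | h6
              · exact h6
              · exfalso
                rw [h6, ha] at e3
                exact hha (Option.some.inj e3).symm
            have e5 := palP_period hpp e2 e4
            obtain ⟨t, ht1, ht2⟩ := hmin (lp T - k) (by omega) (by omega)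
            exact ht2 (e5 t (by omega))
      refine ⟨m, S, S', hI.of_ok hX (by rw [hpred, hp]) ha hcond ?_⟩
      have hk2 := lp_cons_le h T
      have hper : ∀ n, n + m < K + 1 → (h :: T)[n]? = (h :: T)[n + m]? := by
        intro n hn
        rcases n with _ | n
        · rw [List.getElem?_cons_zero, zero_add]
          obtain ⟨d, rfl⟩ : ∃ d, m = d + 1 := ⟨m - 1, by omega⟩
          rw [List.getElem?_cons_succ]
          exact hp.symm
        · rw [List.getElem?_cons_succ, show n + 1 + m = (n + m) + 1 by ring,
            List.getElem?_cons_succ]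
          exact h3 n (by omega)
      refine St2.r m (K + 1) h1 (by omega) hper ?_ ?_ ?_ ?_ (by omega)
      · intro g' hg1 hg2
        obtain ⟨t, ht1, ht2⟩ := hmin g' hg1 hg2
        refine ⟨t + 1, by omega, ?_⟩
        rw [List.getElem?_cons_succ, show t + 1 + g' = (t + g') + 1 by ring,
            List.getElem?_cons_succ]
        exact ht2
      · rw [List.getElem?_cons_succ, show K + 1 - m = (K - m) + 1 by omega,
          List.getElem?_cons_succ]
        exact h4
      · rcases lt_or_eq_of_le h5 with hk | hk
        · omega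
        · have := lp_cons_lt (h := h) (T := T) (by
            rw [hk]
            intro hh
            apply h4
            rw [hh, hfol2 hk, hp])
          omega
      · rcases lt_or_eq_of_le h5 with hk | hk
        · have := lp_cons_eq (h := h) (T := T) (by rw [hfol hk, hp])
          omega
        · have hpal : PalP (h :: T) ((K - m) + 2) := by
            apply palP_cons'
            · refine ⟨by omega, ?_⟩
              intro n hn
              rw [h3 n (by omega), hpp.2 (n + m) (by omega)]
              congr 1; omega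
            · rw [hfol2 hk, hp]
          have := lp_max hpal
          omega
    · -- exception
      have hpn : pred m T ≠ some h := by rw [hpred]; exact hp
      have hbig : h ≠ a → ∃ m1 S1 S1', Inv2 X k0 (h :: T) (i + 1) m1 S1 S1' := by
        intro hha
        have h0 := lp_cons_lt (h := h) (T := T)
          (by rw [ha]; intro hh; exact hha (Option.some.inj hh).symm)
        obtain ⟨δ, hδ⟩ : ∃ δ, lp (h :: T) + δ = lp T + 2 := ⟨lp T + 2 - lp (h :: T), by omega⟩
        rcases le_or_gt (8 * δ) (lp T) with h8 | h8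
        · exfalso
          obtain ⟨k1, k2, k3⟩ := small_drop hδ (by omega) h8
          have hf := fw (fun n => T[n]?) (m + δ) m δ (lp T) le_rfl h1 (by omega)
            (fun n hn => h3 n (by omega)) k1 (by omega)
          exact hp (by rw [hf, k2])
        · exact big hha hpn δ hδ h8
      rcases lt_or_eq_of_le h5 with hk | hk
      · apply hbig
        rintro rfl
        exact hp (by rw [← hfol hk, ha])
      · by_cases hha : h = a
        · subst hha
          refine ⟨0, S, S', hI.of_end hX hpn (by omega) ha ?_⟩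
          · refine St2.o2 0 m K (by rw [lp_cons_eq ha]; omega) h1 h2 ?_ ?_
              (by rw [lp_cons_eq ha]; omega)
            · intro n hn1 hn2
              obtain ⟨n, rfl⟩ : ∃ n', n = n' + 1 := ⟨n - 1, by omega⟩
              rw [List.getElem?_cons_succ, show n + 1 + m = (n + m) + 1 by ring,
                List.getElem?_cons_succ]
              exact h3 n (by omega)
            · rw [List.getElem?_cons_zero, zero_add]
              obtain ⟨d, hd⟩ : ∃ d, m = d + 1 := ⟨m - 1, by omega⟩
              rw [hd, List.getElem?_cons_succ, show d = m - 1 by omega]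
              exact fun hh => hp hh.symm
        · exact hbig hha

end Pool.Agent.Helper586.RG
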