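import Pool.Agent.Helper586.KraftInv
import Pool.Agent.Helper586.GenUpper

set_option autoImplicit false

namespace Pool.Agent.Helper586.RG

variable {α : Type*} [DecidableEq α] [Fintype α]

/-- initial cost -/
noncomputable def kz (α : Type*) [Fintype α] (X : ℝ) : ℝ :=
  2 * (Real.log (2 * Fintype.card α) + 2 / X + 2 * Real.log (1 + X))

omit [DecidableEq α] [Fintype α] in
theorem lp_nil : lp ([] : List α) = 0 := Nat.le_zero.mp (lp_le [])

omit [DecidableEq α] [Fintype α] in
theorem lp_single (z : α) : lp [z] = 1 :=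
  le_antisymm (by simpa using lp_le [z]) (lp_cons_pos z [])

theorem cost_zero {X : ℝ} (hX : 0 < X) {T : List α} {h : α} (hp : pred 0 T ≠ some h)
    (hlp : lp (h :: T) = 1) :
    - Real.log (pr X 0 T h) ≤ Real.log (2 * Fintype.card α) + 2 / X + 2 * Real.log (1 + X) := by
  have h1 := cost_exc hX hp (Or.inl rfl)
  rw [hlp, show (1 - 2 : ℕ) = 0 by rfl, pd_zero] at h1
  simp only [Nat.cast_zero, Nat.cast_one, div_one, zero_add] at h1
  rw [mul_one_div] at h1
  exact h1

theorem run2 {X : ℝ} (hX : 0 < X) {z : α} : ∀ (u : List α), u ≠ [] → Rich (u ++ [z]) → z ∉ u →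
    ∃ m S S', Inv2 X (kz α X) (u ++ [z]) u.length m S S'
  | [], h, _, _ => absurd rfl h
  | [x], _, hr, hz => by
    have hxz : x ≠ z := by rintro rfl; exact hz (by simp)
    have hlt : lp ([x] ++ [z]) < 2 := lp_lt hz
    change lp [x, z] < 2 at hlt
    have hpos : 1 ≤ lp [x, z] := lp_cons_pos x [z]
    have hlp : lp [x, z] = 1 := by omega
    have hp0 : pred 0 ([] : List α) ≠ some z := by
      rw [pred, if_pos rfl]; simp
    have hp1 : pred 0 [z] ≠ some x := by
      rw [pred, if_pos rfl, lp_single]; simp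
    have hm0 : mode [z] = 0 := by
      rw [mode, mode]
      exact nm_big (a := z) hp0 (by rw [lp_nil, lp_single]; norm_num)
    have hm1 : mode [x, z] = 0 := by
      rw [mode, hm0]
      exact nm_big (a := x) hp1 (by rw [lp_single, hlp]; norm_num)
    refine ⟨0, ∅, ∅, by simp, hm1, by simp, by simp, rfl, by simp, ?_, ?_⟩
    · change - Real.log (mu X [x, z]) + _ ≤ _
      rw [log_mu_cons hX, hm0, log_mu_cons hX, mode, mu, Real.log_one, rs, if_pos rfl]
      have h1 := cost_zero hX hp0 (lp_single z)
      have h2 := cost_zero hX hp1 hlp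
      have h3 : UU X ([] : List α) ≤ UU X [x, z] := (UU_mono hX z []).trans (UU_mono hX x [z])
      rw [UU] at h3
      have h4 : 0 ≤ (2 * (([x, z] : List α).length : ℝ) - lp [x, z]) / X := by
        rw [hlp]
        apply div_nonneg _ hX.le
        norm_num
      have h5 : ([x] ++ [z] : List α) = [x, z] := rfl
      rw [h5, Finset.sum_empty, kz]
      linarith
    · apply St2.o1
      have h5 : lp ([x] ++ [z]) = 1 := hlp
      rw [h5]
      simp only [Finset.sum_empty, List.length_cons, List.length_nil, Finset.card_empty]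
      omega
  | x :: y :: u, _, hr, hz => by
    have hz' : z ∉ y :: u := fun h => hz (List.mem_cons_of_mem _ h)
    obtain ⟨m, S, S', hI⟩ := run2 hX (y :: u) (by simp) hr.1 hz'
    exact hI.step hX hr (lp_lt hz')

/-- unused cost of one step -/
theorem unused_step {X : ℝ} (hX : 0 < X) {W P T : List α} {h : α} {j : ℕ}
    (hW : W = P ++ h :: T) (hT : T.length = j + 1) {F : ℕ → Option α}
    (hF : F = fun t => W.reverse[t]?) [DecidablePred (DD F j)] :
    ∑ h' ∈ Finset.univ.erase h, Et X T h' ≤ Fintype.card α * Ew X 1 0 +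
      ∑ l ∈ (Finset.Icc 1 j).filter (DD F j), Ew X (gq F j l) l := by
  have hrev : W.reverse = T.reverse ++ (h :: P.reverse) := by
    rw [hW]; simp
  have hFt : ∀ t, t ≤ j → F t = T[j - t]? := by
    intro t ht
    rw [hF]
    simp only
    rw [hrev, List.getElem?_append_left (by simp; omega), List.getElem?_reverse (by omega), hT]
    congr 1
  have hFj : F (j + 1) = some h := by
    rw [hF]
    simp only
    rw [hrev, List.getElem?_append_right (by simp; omega)]
    simp [hT]
  set A := (Finset.univ.erase h).filter (fun h' => lp (h' :: T) - 2 = 0) with hA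
  set B := (Finset.univ.erase h).filter (fun h' => ¬ lp (h' :: T) - 2 = 0) with hB
  rw [← Finset.sum_filter_add_sum_filter_not (Finset.univ.erase h)
    (fun h' => lp (h' :: T) - 2 = 0)]
  apply add_le_add
  · have h1 : ∀ h' ∈ A, Et X T h' ≤ Ew X 1 0 := by
      intro h' hh'
      rw [hA, Finset.mem_filter] at hh'
      rw [Et, hh'.2, pd_zero]
    refine (Finset.sum_le_card_nsmul A _ _ h1).trans ?_
    rw [nsmul_eq_mul]
    apply mul_le_mul_of_nonneg_right _ (Ew_pos hX le_rfl 0).le
    have : A.card ≤ Fintype.card α := by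
      rw [← Finset.card_univ]
      exact Finset.card_le_card (Finset.subset_univ _)
    exact_mod_cast this
  · have hk : ∀ h' ∈ B, (1 ≤ lp (h' :: T) - 2 ∧ PalP T (lp (h' :: T) - 2) ∧
        T[lp (h' :: T) - 2]? = some h') ∧ h' ≠ h := by
      intro h' hh'
      rw [hB, Finset.mem_filter] at hh'
      have h2 : lp (h' :: T) = (lp (h' :: T) - 2) + 2 := by omega
      have h3 := lp_spec (h' :: T)
      rw [h2] at h3
      exact ⟨⟨by omega, palP_cons h3⟩, Finset.ne_of_mem_erase hh'.1⟩
    have hgq : ∀ l, l ≤ j → gq F j l = pd (fun t => T[t]?) l := by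
      intro l hl
      rw [gq]
      apply pd_congr
      intro t ht
      change F (j - t) = T[t]?
      rw [hFt _ (by omega)]
      congr 1; omega
    have hlt : ∀ h' ∈ B, lp (h' :: T) - 2 ≤ j := by
      intro h' hh'
      have h4 := (hk h' hh').1.2.2
      by_contra hge
      rw [List.getElem?_eq_none (by omega)] at h4
      exact absurd h4 (by simp)
    have e1 : ∑ h' ∈ B, Et X T h' = ∑ h' ∈ B, Ew X (gq F j (lp (h' :: T) - 2)) (lp (h' :: T) - 2) := by
      apply Finset.sum_congr rfl
      intro h' hh'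
      rw [Et, hgq _ (hlt h' hh')]
    have hinj : ∀ x ∈ B, ∀ y ∈ B, lp (x :: T) - 2 = lp (y :: T) - 2 → x = y := by
      intro x hx y hy hxy
      have h1 := (hk x hx).1.2.2
      have h2 := (hk y hy).1.2.2
      rw [hxy, h2] at h1
      exact (Option.some.inj h1).symm
    have e2 : ∑ h' ∈ B, Ew X (gq F j (lp (h' :: T) - 2)) (lp (h' :: T) - 2) =
        ∑ l ∈ B.image (fun h' => lp (h' :: T) - 2), Ew X (gq F j l) l := by
      rw [Finset.sum_image hinj]
    have e3 : ∑ h' ∈ B, Et X T h' ≤
        ∑ l ∈ (Finset.Icc 1 j).filter (DD F j), Ew X (gq F j l) l := by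
      rw [e1, e2]
      apply Finset.sum_le_sum_of_subset_of_nonneg
      · intro l hl
        rw [Finset.mem_image] at hl
        obtain ⟨h', hh', rfl⟩ := hl
        obtain ⟨⟨h1, h2, h3⟩, h4⟩ := hk h' hh'
        have h5 := hlt h' hh'
        rw [Finset.mem_filter, Finset.mem_Icc]
        refine ⟨⟨h1, h5⟩, ⟨by omega, ?_⟩, h5, ?_⟩
        · intro t ht
          rw [hFt _ (by omega), hFt _ (by omega)]
          rw [show j - (j - t) = t by omega, h2.2 t ht]
          congr 1; omega
        · rw [hFj, hFt _ (by omega), show j - (j - (lp (h' :: T) - 2)) = lp (h' :: T) - 2 by omega,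
            h3]
          intro hh
          exact h4 (Option.some.inj hh).symm
      · intro l _ _
        exact (Ew_pos hX (pd_pos _ _) _).le
    exact e3

open Classical in
theorem UU_le {X : ℝ} (hX : 0 < X) {W : List α} {F : ℕ → Option α}
    (hF : F = fun t => W.reverse[t]?) : ∀ (T P : List α) (j : ℕ), W = P ++ T →
    T.length = j + 1 →
    UU X T ≤ Fintype.card α * Ew X 1 0 + ∑ i ∈ Finset.range j, (Fintype.card α * Ew X 1 0 +
      ∑ l ∈ (Finset.Icc 1 i).filter (DD F i), Ew X (gq F i l) l)
  | [], P, j, _, h => by simp at h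
  | [x], P, j, hW, h => by
    have hj : j = 0 := by simpa using h.symm
    subst hj
    rw [Finset.range_zero, Finset.sum_empty, add_zero, UU, UU, zero_add]
    have h1 : ∀ h' ∈ Finset.univ.erase x, Et X [] h' ≤ Ew X 1 0 := by
      intro h' _
      rw [Et, lp_single, show (1 - 2 : ℕ) = 0 by rfl, pd_zero]
    refine (Finset.sum_le_card_nsmul _ _ _ h1).trans ?_
    rw [nsmul_eq_mul]
    apply mul_le_mul_of_nonneg_right _ (Ew_pos hX le_rfl 0).le
    have : (Finset.univ.erase x).card ≤ Fintype.card α := by
      rw [← Finset.card_univ]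
      exact Finset.card_le_card (Finset.subset_univ _)
    exact_mod_cast this
  | h :: y :: T, P, j, hW, hlen => by
    obtain ⟨j, rfl⟩ : ∃ j', j = j' + 1 := ⟨T.length, by simpa using hlen.symm⟩
    have hlen' : (y :: T).length = j + 1 := by simpa using hlen
    have ih := UU_le hX hF (y :: T) (P ++ [h]) j (by rw [hW]; simp) hlen'
    have hs := unused_step hX hW hlen' hF
    rw [UU, Finset.sum_range_succ]
    linarith

theorem UU_bound {X : ℝ} (hX : 0 < X) {W : List α} {n : ℕ} (hW : W.length = n + 1) :
    UU X W ≤ (n + 1) * (Fintype.card α * Ew X 1 0) + 800 * n / X := by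
  classical
  have h1 := UU_le hX (W := W) rfl W [] n (by simp) hW
  rw [Finset.sum_add_distrib, Finset.sum_const, Finset.card_range, nsmul_eq_mul] at h1
  have h2 := Ew_sum (F := fun t => W.reverse[t]?) hX n
  linarith

end Pool.Agent.Helper586.RG
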