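import Pool.Agent.Helper586.RichCount

set_option autoImplicit false

open Filter

namespace Pool.Agent.Helper586.RW

/-- the number of rich binary words of length `n` -/
noncomputable def R (n : ℕ) : ℕ := Set.ncard {w : List (Fin 2) | w.length = n ∧
            Set.ncard {u : List (Fin 2) | u <:+: w ∧ u.reverse = u} = w.length + 1}

theorem card_le_sum (F : Finset (List (Fin 2))) (N : ℕ)
    (hF : ∀ V ∈ F, Rich V ∧ V.length ≤ N) : F.card ≤ ∑ n ∈ Finset.range (N + 1), R n := by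
  have h1 : F.card = ∑ n ∈ Finset.range (N + 1), (F.filter (fun V => V.length = n)).card := by
    apply Finset.card_eq_sum_card_fiberwise
    intro V hV
    have := (hF V hV).2
    simp only [Finset.coe_range, Set.mem_Iio]
    omega
  rw [h1]
  apply Finset.sum_le_sum
  intro n _
  rw [R, ← Set.ncard_coe_finset]
  apply Set.ncard_le_ncard
  · intro V hV
    simp only [Finset.coe_filter, Set.mem_ofPred_eq] at hV
    exact ⟨hV.2, (hF V hV.1).1.ncard⟩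
  · exact (List.finite_length_eq (Fin 2) n).subset (fun w hw => hw.1)

theorem pow_mono {n N : ℕ} (hn : 1 ≤ n) (h : n ≤ N) :
    (n : ℝ) ^ Real.sqrt (n : ℝ) ≤ (N : ℝ) ^ Real.sqrt (N : ℝ) := by
  have h1 : (1 : ℝ) ≤ n := by exact_mod_cast hn
  have h2 : (n : ℝ) ≤ N := by exact_mod_cast h
  calc (n : ℝ) ^ Real.sqrt (n : ℝ) ≤ (N : ℝ) ^ Real.sqrt (n : ℝ) :=
        Real.rpow_le_rpow (by linarith) h2 (Real.sqrt_nonneg _)
    _ ≤ (N : ℝ) ^ Real.sqrt (N : ℝ) :=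
        Real.rpow_le_rpow_of_exponent_le (by linarith) (Real.sqrt_le_sqrt h2)

theorem growth {g : ℕ → ℝ} (hg : Tendsto g atTop atTop)
    (hθ : (fun n : ℕ => ((R n : ℕ) : ℝ)) =O[atTop]
        (fun n : ℕ => ((n : ℝ) / g n) ^ Real.sqrt (n : ℝ))) :
    ∃ C : ℝ, 1 ≤ C ∧ ∀ n N : ℕ, n ≤ N → 1 ≤ N → (R n : ℝ) ≤ C * (N : ℝ) ^ Real.sqrt (N : ℝ) := by
  obtain ⟨c, hc⟩ := hθ.bound
  have h1 : ∀ᶠ n in atTop, (1 : ℝ) ≤ g n := hg.eventually_ge_atTop 1
  have h2 : ∀ᶠ n : ℕ in atTop, 1 ≤ n := eventually_ge_atTop 1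
  obtain ⟨n0, hn0⟩ := eventually_atTop.mp (hc.and (h1.and h2))
  refine ⟨|c| + (∑ m ∈ Finset.range n0, (R m : ℝ)) + 1, ?_, ?_⟩
  · have : 0 ≤ ∑ m ∈ Finset.range n0, (R m : ℝ) := Finset.sum_nonneg (fun _ _ => Nat.cast_nonneg _)
    have := abs_nonneg c
    linarith
  · intro n N hnN hN
    have hS : 0 ≤ ∑ m ∈ Finset.range n0, (R m : ℝ) := Finset.sum_nonneg (fun _ _ => Nat.cast_nonneg _)
    have hcc := abs_nonneg c
    have hN1 : (1 : ℝ) ≤ (N : ℝ) ^ Real.sqrt (N : ℝ) :=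
      Real.one_le_rpow (by exact_mod_cast hN) (Real.sqrt_nonneg _)
    by_cases hn : n < n0
    · have h3 : (R n : ℝ) ≤ ∑ m ∈ Finset.range n0, (R m : ℝ) :=
        Finset.single_le_sum (f := fun m => (R m : ℝ)) (fun _ _ => Nat.cast_nonneg _)
          (Finset.mem_range.mpr hn)
      nlinarith
    · obtain ⟨hb, hg1, hn1⟩ := hn0 n (by omega)
      have hn1' : (1 : ℝ) ≤ n := by exact_mod_cast hn1
      have h4 : ‖((n : ℝ) / g n) ^ Real.sqrt (n : ℝ)‖ ≤ (N : ℝ) ^ Real.sqrt (N : ℝ) := by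
        have h5 : 0 ≤ (n : ℝ) / g n := div_nonneg (by linarith) (by linarith)
        rw [Real.norm_of_nonneg (Real.rpow_nonneg h5 _)]
        have h6 : (n : ℝ) / g n ≤ n := div_le_self (by linarith) hg1
        exact (Real.rpow_le_rpow h5 h6 (Real.sqrt_nonneg _)).trans (pow_mono hn1 hnN)
      have h7 : (R n : ℝ) ≤ |c| * ‖((n : ℝ) / g n) ^ Real.sqrt (n : ℝ)‖ := by
        have h8 : ‖(R n : ℝ)‖ = R n := Real.norm_of_nonneg (Nat.cast_nonneg _)
        rw [h8] at hb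
        exact hb.trans (mul_le_mul_of_nonneg_right (le_abs_self c) (norm_nonneg _))
      have h9 : |c| * ‖((n : ℝ) / g n) ^ Real.sqrt (n : ℝ)‖ ≤ |c| * (N : ℝ) ^ Real.sqrt (N : ℝ) :=
        mul_le_mul_of_nonneg_left h4 hcc
      nlinarith

theorem log_bound {C : ℝ} (hC : 1 ≤ C)
    (h : ∀ n N : ℕ, n ≤ N → 1 ≤ N → (R n : ℝ) ≤ C * (N : ℝ) ^ Real.sqrt (N : ℝ))
    (P r : ℕ) (hr : 1 ≤ r) (K : ℕ → ℕ) (N : ℕ) (hN : 1 ≤ N) (hbd : bd P r K P ≤ N) :
    (∑ j ∈ Finset.range P, (K j : ℝ)) * Real.log r ≤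
      Real.log C + Real.log (N + 1) + Real.sqrt N * Real.log N := by
  obtain ⟨F, hF, hcard⟩ := family P r hr K P le_rfl
  have h1 : F.card ≤ ∑ n ∈ Finset.range (N + 1), R n := by
    apply card_le_sum
    intro V hV
    obtain ⟨h2, h3⟩ := hF V hV
    refine ⟨h2.rich, ?_⟩
    rw [Nat.sub_self, Nat.zero_mul, Nat.add_zero] at h3
    omega
  have h2 : (F.card : ℝ) ≤ ∑ n ∈ Finset.range (N + 1), (R n : ℝ) := by exact_mod_cast h1
  have h3 : ∑ n ∈ Finset.range (N + 1), (R n : ℝ) ≤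
      ∑ n ∈ Finset.range (N + 1), C * (N : ℝ) ^ Real.sqrt (N : ℝ) := by
    apply Finset.sum_le_sum
    intro n hn
    exact h n N (by simpa [Nat.lt_succ_iff] using hn) hN
  rw [Finset.sum_const, Finset.card_range, nsmul_eq_mul] at h3
  have h4 : (r : ℝ) ^ (∑ j ∈ Finset.range P, K j) ≤ ((N + 1 : ℕ) : ℝ) * (C * (N : ℝ) ^ Real.sqrt (N : ℝ)) := by
    have : (F.card : ℝ) = (r : ℝ) ^ (∑ j ∈ Finset.range P, K j) := by rw [hcard]; push_cast; rfl
    rw [← this]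
    exact h2.trans h3
  have hr0 : (0 : ℝ) < r := by exact_mod_cast hr
  have hN0 : (0 : ℝ) < N := by exact_mod_cast hN
  have h5 := Real.log_le_log (by positivity) h4
  rw [Real.log_pow, Real.log_mul (by positivity) (by positivity),
    Real.log_mul (by positivity) (by positivity), Real.log_rpow hN0] at h5
  push_cast at h5
  linarith

theorem harmonic_large : ∃ P : ℕ, (2500 : ℝ) ≤ ∑ i ∈ Finset.range P, 1 / ((i : ℝ) + 2) := by
  have h := Real.tendsto_sum_range_one_div_nat_succ_atTop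
  obtain ⟨n, hn⟩ := (h.eventually_ge_atTop 2501).exists
  refine ⟨n, ?_⟩
  have h1 : ∀ n : ℕ, ∑ i ∈ Finset.range n, 1 / ((i : ℝ) + 2) + 1 =
      ∑ i ∈ Finset.range (n + 1), 1 / ((i : ℝ) + 1) := by
    intro n
    rw [Finset.sum_range_succ']
    simp only [Nat.cast_add, Nat.cast_one, Nat.cast_zero, zero_add, div_one]
    congr 1
    apply Finset.sum_congr rfl
    intro i _
    congr 1
    ring
  have h2 := h1 n
  rw [Finset.sum_range_succ] at h2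
  have h3 : (0 : ℝ) ≤ 1 / ((n : ℝ) + 1) := by positivity
  linarith

theorem fin_arith {y Q q lN lN1 lC ly sN : ℝ} (hQ : 1 ≤ Q) (hy : 2 ≤ y) (hq : 50 ≤ q)
    (hmain : y ^ 2 * Q * (q * q) * ly ≤ lC + lN1 + sN * lN) (hlogN5 : lN ≤ 5 * ly)
    (hlogN1 : lN1 ≤ 1 + lN) (hlogN0 : 0 ≤ lN) (hsN : 1 ≤ sN) (hlC : lC + 1 ≤ ly) (hly : 1 ≤ ly)
    (hsq : sN ≤ 4 * y ^ 2 * Q * q) : False := by
  have h1 : lC + lN1 + sN * lN ≤ ly + 2 * (sN * lN) := by nlinarith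
  have h2 : sN * lN ≤ (4 * y ^ 2 * Q * q) * (5 * ly) :=
    mul_le_mul hsq hlogN5 hlogN0 (by positivity)
  have hT : 1 ≤ y ^ 2 * Q * q := by
    have a1 : 1 ≤ y ^ 2 := one_le_pow₀ (by linarith)
    have a2 : 1 ≤ y ^ 2 * Q := by nlinarith
    nlinarith
  set T := y ^ 2 * Q * q with hTdef
  have e1 : y ^ 2 * Q * (q * q) * ly = q * (T * ly) := by rw [hTdef]; ring
  have e2 : (4 * y ^ 2 * Q * q) * (5 * ly) = 20 * (T * ly) := by rw [hTdef]; ring
  rw [e1] at hmain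
  rw [e2] at h2
  have hTl : ly ≤ T * ly := by nlinarith
  have h3 : 50 * (T * ly) ≤ q * (T * ly) := by
    apply mul_le_mul_of_nonneg_right hq
    nlinarith
  nlinarith

theorem contra {C : ℝ} (hC : 1 ≤ C)
    (h : ∀ n N : ℕ, n ≤ N → 1 ≤ N → (R n : ℝ) ≤ C * (N : ℝ) ^ Real.sqrt (N : ℝ)) : False := by
  obtain ⟨P, hP⟩ := harmonic_large
  set Q : ℕ := (P + 1).factorial with hQ
  have hQ1 : 1 ≤ Q := Nat.factorial_pos _
  set hh : ℝ := ∑ i ∈ Finset.range P, 1 / ((i : ℝ) + 2) with hhdef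
  have hQr : (1 : ℝ) ≤ Q := by exact_mod_cast hQ1
  -- choose y
  have hlog : Tendsto (fun n : ℕ => Real.log (n : ℝ)) atTop atTop :=
    Real.tendsto_log_atTop.comp tendsto_natCast_atTop_atTop
  obtain ⟨y, hy1, hy2, hy3, hy4⟩ := ((hlog.eventually_ge_atTop (Real.log (16 * (Q : ℝ) ^ 2 * hh))).and
    ((hlog.eventually_ge_atTop (Real.log C + 1)).and
      ((eventually_ge_atTop ((3 * P + 2) + 4 * P * Q * (2 * P + 1))).and
        (eventually_ge_atTop 2)))).exists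
  set K : ℕ → ℕ := fun j => y ^ 2 * (Q / (P - j + 1)) with hK
  have hdvd : ∀ j, j < P → (P - j + 1) ∣ Q := by
    intro j hj
    exact Nat.dvd_factorial (by omega) (by omega)
  have hKr : ∀ j ∈ Finset.range P, (K j : ℝ) = (y : ℝ) ^ 2 * Q * (1 / ((P - j + 1 : ℕ) : ℝ)) := by
    intro j hj
    have hj' := Finset.mem_range.mp hj
    simp only [hK]
    rw [Nat.cast_mul, Nat.cast_div (hdvd j hj') (by positivity)]
    push_cast
    ring
  have hsum : ∑ j ∈ Finset.range P, (1 / ((P - j + 1 : ℕ) : ℝ)) = hh := by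
    rw [hhdef, ← Finset.sum_range_reflect]
    apply Finset.sum_congr rfl
    intro j hj
    have hj' := Finset.mem_range.mp hj
    have : P - (P - 1 - j) + 1 = j + 2 := by omega
    rw [this]
    push_cast
    rfl
  have hKsum : ∑ j ∈ Finset.range P, (K j : ℝ) = (y : ℝ) ^ 2 * Q * hh := by
    rw [Finset.sum_congr rfl hKr, ← Finset.mul_sum, hsum]
  have hy2r : (2 : ℝ) ≤ y := by exact_mod_cast hy4
  -- bound on K j
  have hKle : ∀ j, K j ≤ y ^ 2 * Q := fun j => Nat.mul_le_mul_left _ (Nat.div_le_self _ _)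
  have hKge : ∀ j, j < P → y ≤ K j ∧ 2 ≤ K j := by
    intro j hj
    have h1 : 1 ≤ Q / (P - j + 1) :=
      Nat.div_pos (Nat.le_of_dvd hQ1 (hdvd j hj)) (by omega)
    have h2 : y ^ 2 ≤ K j := Nat.le_mul_of_pos_right _ h1
    have h3 : y ≤ y ^ 2 := by nlinarith
    exact ⟨h3.trans h2, by omega⟩
  have hcD : ∀ j, j < P → cD y (K j) ≤ 15 * (K j) ^ 2 := by
    intro j hj
    obtain ⟨h1, h2⟩ := hKge j hj
    rw [cD]
    have h3 : 2 + y + K j ≤ 3 * K j := by omega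
    have h4 : y + K j ≤ 2 * K j := by omega
    calc 2 * (2 + y + K j) * (y + K j) + (2 + y + K j) * y
        ≤ 2 * (3 * K j) * (2 * K j) + (3 * K j) * K j := by gcongr
      _ = 15 * (K j) ^ 2 := by ring
  have hcE : ∀ j, j < P → cE (P * y + P + 1) y (K j) ≤ 4 * (P * y + P + 1) * (y ^ 2 * Q) := by
    intro j hj
    obtain ⟨h1, h2⟩ := hKge j hj
    rw [cE]
    have h4 : y + K j ≤ 2 * (y ^ 2 * Q) := by have := hKle j; omega
    calc 2 * (P * y + P + 1) * (y + K j) ≤ 2 * (P * y + P + 1) * (2 * (y ^ 2 * Q)) := by gcongr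
      _ = 4 * (P * y + P + 1) * (y ^ 2 * Q) := by ring
  -- N
  set N := bd P y K P with hN
  have hNle : (N : ℝ) ≤ 16 * (y : ℝ) ^ 4 * Q ^ 2 * hh := by
    have e1 : (N : ℝ) = ((P * y + 2 + P : ℕ) : ℝ) + P + ∑ j ∈ Finset.range P,
        ((cE (P * y + P + 1) y (K j) : ℝ) + ((P - j + 1 : ℕ) : ℝ) * (cD y (K j) : ℝ)) := by
      rw [hN, bd]; push_cast; rfl
    have e2 : ∀ j ∈ Finset.range P,
        ((cE (P * y + P + 1) y (K j) : ℝ) + ((P - j + 1 : ℕ) : ℝ) * (cD y (K j) : ℝ)) ≤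
        4 * ((P : ℝ) * y + P + 1) * ((y : ℝ) ^ 2 * Q) +
          15 * ((y : ℝ) ^ 4 * Q ^ 2) * (1 / ((P - j + 1 : ℕ) : ℝ)) := by
      intro j hj
      have hj' := Finset.mem_range.mp hj
      have h1 : (cE (P * y + P + 1) y (K j) : ℝ) ≤ 4 * ((P : ℝ) * y + P + 1) * ((y : ℝ) ^ 2 * Q) := by
        exact_mod_cast hcE j hj'
      have h2 : (cD y (K j) : ℝ) ≤ 15 * (K j : ℝ) ^ 2 := by exact_mod_cast hcD j hj'
      have hpos : (0 : ℝ) < ((P - j + 1 : ℕ) : ℝ) := by positivity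
      have h3 : ((P - j + 1 : ℕ) : ℝ) * (cD y (K j) : ℝ) ≤
          ((P - j + 1 : ℕ) : ℝ) * (15 * (K j : ℝ) ^ 2) := mul_le_mul_of_nonneg_left h2 hpos.le
      rw [hKr j hj] at h3
      have e3 : ((P - j + 1 : ℕ) : ℝ) * (15 * ((y : ℝ) ^ 2 * Q * (1 / ((P - j + 1 : ℕ) : ℝ))) ^ 2) =
          15 * ((y : ℝ) ^ 4 * Q ^ 2) * (1 / ((P - j + 1 : ℕ) : ℝ)) := by
        field_simp
      rw [e3] at h3
      linarith
    have e4 := Finset.sum_le_sum e2
    have e5 : ∑ j ∈ Finset.range P, (4 * ((P : ℝ) * y + P + 1) * ((y : ℝ) ^ 2 * Q) +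
          15 * ((y : ℝ) ^ 4 * Q ^ 2) * (1 / ((P - j + 1 : ℕ) : ℝ))) =
          (P : ℝ) * (4 * ((P : ℝ) * y + P + 1) * ((y : ℝ) ^ 2 * Q)) +
          15 * ((y : ℝ) ^ 4 * Q ^ 2) * hh := by
      rw [Finset.sum_add_distrib, Finset.sum_const, Finset.card_range, nsmul_eq_mul,
        ← Finset.mul_sum, hsum]
    rw [e5] at e4
    have hy3r : ((3 * P + 2 : ℝ) + 4 * P * Q * (2 * P + 1)) ≤ y := by exact_mod_cast hy3
    have hPr : (0 : ℝ) ≤ P := Nat.cast_nonneg _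
    have hyy : (1 : ℝ) ≤ y := by linarith
    have h10 : ((P * y + 2 + P : ℕ) : ℝ) + P ≤ (3 * P + 2) * (y : ℝ) ^ 3 := by
      push_cast
      have a1 : (y : ℝ) ≤ (y : ℝ) ^ 3 := by
        calc (y : ℝ) = (y : ℝ) ^ 1 := by ring
          _ ≤ (y : ℝ) ^ 3 := pow_le_pow_right₀ hyy (by norm_num)
      have a2 : (1 : ℝ) ≤ (y : ℝ) ^ 3 := one_le_pow₀ hyy
      nlinarith
    have h11 : (P : ℝ) * (4 * ((P : ℝ) * y + P + 1) * ((y : ℝ) ^ 2 * Q)) ≤
        4 * P * Q * (2 * P + 1) * (y : ℝ) ^ 3 := by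
      have a3 : (P : ℝ) * y + P + 1 ≤ (2 * P + 1) * y := by nlinarith
      calc (P : ℝ) * (4 * ((P : ℝ) * y + P + 1) * ((y : ℝ) ^ 2 * Q))
          ≤ (P : ℝ) * (4 * ((2 * P + 1) * y) * ((y : ℝ) ^ 2 * Q)) := by gcongr
        _ = 4 * P * Q * (2 * P + 1) * (y : ℝ) ^ 3 := by ring
    have h12 : ((3 * P + 2 : ℝ) + 4 * P * Q * (2 * P + 1)) * (y : ℝ) ^ 3 ≤ (y : ℝ) ^ 4 * Q ^ 2 * hh := by
      have a4 : (1 : ℝ) ≤ (Q : ℝ) ^ 2 * hh := by nlinarith
      calc ((3 * P + 2 : ℝ) + 4 * P * Q * (2 * P + 1)) * (y : ℝ) ^ 3 ≤ y * (y : ℝ) ^ 3 := by gcongr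
        _ = (y : ℝ) ^ 4 * 1 := by ring
        _ ≤ (y : ℝ) ^ 4 * ((Q : ℝ) ^ 2 * hh) := by gcongr
        _ = (y : ℝ) ^ 4 * Q ^ 2 * hh := by ring
    rw [e1]
    nlinarith
  have hN1 : 1 ≤ N := by rw [hN, bd]; omega
  have hmain := log_bound hC h P y (by omega) K N hN1 le_rfl
  rw [hKsum] at hmain
  -- analysis
  have hN1r : (1 : ℝ) ≤ N := by exact_mod_cast hN1
  set q := Real.sqrt hh with hq
  have hhpos : (0 : ℝ) ≤ hh := by linarith
  have hqq : q * q = hh := Real.mul_self_sqrt hhpos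
  have hq50 : (50 : ℝ) ≤ q := by
    rw [hq]
    apply Real.le_sqrt_of_sq_le
    linarith
  have hy0 : (0 : ℝ) < y := by linarith
  have hsq : Real.sqrt N ≤ 4 * (y : ℝ) ^ 2 * Q * q := by
    apply Real.sqrt_le_iff.mpr
    constructor
    · positivity
    · calc (N : ℝ) ≤ 16 * (y : ℝ) ^ 4 * Q ^ 2 * hh := hNle
        _ = (4 * (y : ℝ) ^ 2 * Q * q) ^ 2 := by rw [← hqq]; ring
  have hlogN : Real.log N ≤ Real.log (16 * (Q : ℝ) ^ 2 * hh) + 4 * Real.log y := by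
    have h1 : Real.log N ≤ Real.log (16 * (y : ℝ) ^ 4 * Q ^ 2 * hh) :=
      Real.log_le_log (by linarith) hNle
    have e : 16 * (y : ℝ) ^ 4 * Q ^ 2 * hh = (16 * (Q : ℝ) ^ 2 * hh) * (y : ℝ) ^ 4 := by ring
    have hne : 16 * (Q : ℝ) ^ 2 * hh ≠ 0 := by positivity
    rw [e, Real.log_mul hne (by positivity), Real.log_pow] at h1
    push_cast at h1
    exact h1
  have hlogN5 : Real.log N ≤ 5 * Real.log y := by linarith
  have hlogN1 : Real.log (N + 1) ≤ 1 + Real.log N := by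
    have h1 : Real.log (N + 1) ≤ Real.log (2 * N) := Real.log_le_log (by linarith) (by linarith)
    rw [Real.log_mul (by norm_num) (by linarith)] at h1
    have := Real.log_two_lt_d9
    linarith
  have hlogN0 : 0 ≤ Real.log N := Real.log_nonneg hN1r
  have hsN : 1 ≤ Real.sqrt N := Real.one_le_sqrt.mpr hN1r
  have hlogC : 0 ≤ Real.log C := Real.log_nonneg hC
  have hly : 1 ≤ Real.log y := by linarith
  rw [← hqq] at hmain
  exact fin_arith hQr hy2r hq50 hmain hlogN5 hlogN1 hlogN0 hsN hy2 hly hsq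

end Pool.Agent.Helper586.RW
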