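import Mathlib

set_option autoImplicit false

namespace Pool.Agent.Helper586.RW

/-- `p` is a palindromic prefix of `w` not occurring in the tail of `w`. -/
def Wit (p w : List (Fin 2)) : Prop := p <+: w ∧ p.reverse = p ∧ ¬ p <:+: w.tail

/-- Richness by recursion: every suffix has a new palindromic prefix. -/
def Rich : List (Fin 2) → Prop
  | [] => True
  | (x :: w) => Rich w ∧ ∃ p, Wit p (x :: w)

theorem Rich.of_append {u w : List (Fin 2)} (h : Rich (u ++ w)) : Rich w := by
  induction u with
  | nil => simpa using h
  | cons x u ih => exact ih h.1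

theorem Wit.ne_nil {p w : List (Fin 2)} (h : Wit p w) : p ≠ [] := by
  rintro rfl
  exact h.2.2 List.nil_infix

theorem pal_prefix_suffix {u p : List (Fin 2)} (hu : u.reverse = u) (hp : p.reverse = p)
    (h : u <+: p) : u <:+ p := by
  have := List.reverse_suffix.mpr h
  rwa [hu, hp] at this

theorem set_cons {x : Fin 2} {w p : List (Fin 2)} (h : Wit p (x :: w)) :
    {u : List (Fin 2) | u <:+: (x :: w) ∧ u.reverse = u} =
      insert p {u : List (Fin 2) | u <:+: w ∧ u.reverse = u} := by
  obtain ⟨h1, h2, h3⟩ := h
  simp only [List.tail_cons] at h3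
  ext u
  simp only [Set.mem_ofPred_eq, Set.mem_insert_iff]
  constructor
  · rintro ⟨hu1, hu2⟩
    rcases List.infix_cons_iff.mp hu1 with hpre | hinf
    · by_cases hup : u = p
      · exact Or.inl hup
      · right
        refine ⟨?_, hu2⟩
        rcases List.prefix_or_prefix_of_prefix hpre h1 with h | h
        · have hs := pal_prefix_suffix hu2 h2 h
          cases p with
          | nil => exact absurd List.nil_infix h3
          | cons y p' =>
            rcases List.suffix_cons_iff.mp hs with h' | h'
            · exact absurd h' hup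
            · have : p' <+: w := (List.cons_prefix_cons.mp h1).2
              exact h'.isInfix.trans this.isInfix
        · exfalso
          have hs := pal_prefix_suffix h2 hu2 h
          cases u with
          | nil =>
            rw [List.prefix_nil] at h
            exact hup h.symm
          | cons y u' =>
            rcases List.suffix_cons_iff.mp hs with h' | h'
            · exact hup h'.symm
            · have : u' <+: w := (List.cons_prefix_cons.mp hpre).2
              exact h3 (h'.isInfix.trans this.isInfix)
    · exact Or.inr ⟨hinf, hu2⟩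
  · rintro (rfl | ⟨hu1, hu2⟩)
    · exact ⟨h1.isInfix, h2⟩
    · exact ⟨hu1.trans (List.suffix_cons x w).isInfix, hu2⟩

theorem finite_pals (w : List (Fin 2)) :
    {u : List (Fin 2) | u <:+: w ∧ u.reverse = u}.Finite := by
  apply Set.Finite.subset (List.finite_toSet (w.sublists))
  intro u hu
  simp only [Set.mem_ofPred_eq, List.mem_sublists]
  exact hu.1.sublist

theorem Rich.ncard {w : List (Fin 2)} (h : Rich w) :
    Set.ncard {u : List (Fin 2) | u <:+: w ∧ u.reverse = u} = w.length + 1 := by
  induction w with
  | nil =>
    have : {u : List (Fin 2) | u <:+: [] ∧ u.reverse = u} = {[]} := by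
      ext u
      simp only [List.infix_nil, Set.mem_ofPred_eq, Set.mem_singleton_iff]
      constructor
      · exact fun h => h.1
      · rintro rfl; simp
    rw [this]
    simp
  | cons x w ih =>
    obtain ⟨hw, p, hp⟩ := h
    rw [set_cons hp, Set.ncard_insert_of_notMem _ (finite_pals w), ih hw]
    · simp
    · intro hmem
      exact hp.2.2 hmem.1

theorem mirror1 {p w : List (Fin 2)} {y : Fin 2} (hw : Wit p w) (h : p ++ [y] <+: w) :
    Wit (y :: (p ++ [y])) (y :: w) := by
  obtain ⟨h1, h2, h3⟩ := hw
  refine ⟨?_, ?_, ?_⟩
  · exact (List.cons_prefix_cons.mpr ⟨rfl, h⟩)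
  · simp [h2]
  · simp only [List.tail_cons]
    rintro ⟨s, t, hst⟩
    apply h3
    cases s with
    | nil =>
      refine ⟨[], y :: t, ?_⟩
      rw [← hst]; simp
    | cons a s =>
      refine ⟨s ++ [y], y :: t, ?_⟩
      rw [← hst]; simp

theorem mirror (z : List (Fin 2)) : ∀ {p w : List (Fin 2)}, Rich w → Wit p w → p ++ z <+: w →
    Rich (z.reverse ++ w) ∧ Wit (z.reverse ++ p ++ z) (z.reverse ++ w) := by
  induction z with
  | nil =>
    intro p w hr hw _
    simpa using ⟨hr, hw⟩
  | cons y z ih =>
    intro p w hr hw hpre
    have h1 : p ++ [y] <+: w := by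
      refine List.IsPrefix.trans ?_ hpre
      exact ⟨z, by simp⟩
    have h2 := mirror1 hw h1
    have h3 : Rich (y :: w) := ⟨hr, _, h2⟩
    have h4 : (y :: (p ++ [y])) ++ z <+: y :: w := by
      have : (y :: (p ++ [y])) ++ z = y :: (p ++ y :: z) := by simp
      rw [this]
      exact List.cons_prefix_cons.mpr ⟨rfl, hpre⟩
    have h5 := ih h3 h2 h4
    have e1 : (y :: z).reverse ++ w = z.reverse ++ y :: w := by simp
    have e2 : (y :: z).reverse ++ p ++ y :: z = z.reverse ++ (y :: (p ++ [y])) ++ z := by simp
    rw [e1, e2]
    exact h5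

/-- the factor `y x^t y` -/
def pat (x y : Fin 2) (t : ℕ) : List (Fin 2) := y :: (List.replicate t x ++ [y])

theorem pat_rev (x y : Fin 2) (t : ℕ) : (pat x y t).reverse = pat x y t := by
  simp [pat]

theorem pat_self {x y : Fin 2} (hxy : x ≠ y) {t j : ℕ} {w : List (Fin 2)} :
    pat x y t <:+: List.replicate j x ++ w ↔ pat x y t <:+: w := by
  induction j with
  | zero => simp
  | succ j ih =>
    rw [List.replicate_succ, List.cons_append, List.infix_cons_iff]
    constructor
    · rintro (h | h)
      · exfalso
        have := (List.cons_prefix_cons.mp h).1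
        exact hxy this.symm
      · exact ih.mp h
    · intro h
      exact Or.inr (ih.mpr h)

theorem pat_other {x y : Fin 2} (hxy : x ≠ y) {t k : ℕ} (ht : 1 ≤ t) {w : List (Fin 2)}
    (h : pat x y t <:+: List.replicate k y ++ w) :
    (List.replicate t x ++ [y] <+: w) ∨ pat x y t <:+: w := by
  induction k with
  | zero => exact Or.inr (by simpa using h)
  | succ k ih =>
    rw [List.replicate_succ, List.cons_append, List.infix_cons_iff] at h
    rcases h with h | h
    · have h' := (List.cons_prefix_cons.mp h).2
      cases k with
      | zero => exact Or.inl (by simpa using h')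
      | succ k =>
        exfalso
        obtain ⟨t, rfl⟩ : ∃ t', t = t' + 1 := ⟨t - 1, by omega⟩
        rw [List.replicate_succ, List.replicate_succ, List.cons_append, List.cons_append] at h'
        exact hxy (List.cons_prefix_cons.mp h').1
    · exact ih h

theorem run_eq {x y : Fin 2} (hxy : x ≠ y) : ∀ {t j : ℕ} {w v : List (Fin 2)},
    List.replicate t x ++ y :: v = List.replicate j x ++ y :: w → t = j ∧ v = w
  | 0, 0, w, v, h => by simpa using h
  | 0, j + 1, w, v, h => by
      exfalso
      rw [List.replicate_succ, List.cons_append] at h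
      simp only [List.replicate_zero, List.nil_append] at h
      exact hxy (List.cons.inj h).1.symm
  | t + 1, 0, w, v, h => by
      exfalso
      rw [List.replicate_succ, List.cons_append] at h
      simp only [List.replicate_zero, List.nil_append] at h
      exact hxy (List.cons.inj h).1
  | t + 1, j + 1, w, v, h => by
      rw [List.replicate_succ, List.cons_append, List.replicate_succ, List.cons_append] at h
      have := run_eq hxy (List.cons.inj h).2
      exact ⟨by omega, this.2⟩

theorem run_prefix {x y : Fin 2} (hxy : x ≠ y) {t j : ℕ} {w : List (Fin 2)}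
    (h : List.replicate t x ++ [y] <+: List.replicate j x ++ y :: w) : t = j := by
  obtain ⟨s, hs⟩ := h
  have : List.replicate t x ++ y :: s = List.replicate j x ++ y :: w := by
    rw [← hs]; simp
  exact (run_eq hxy this).1

/-- `w` avoids the factor `y x^t y` -/
def Av (x y : Fin 2) (t : ℕ) (w : List (Fin 2)) : Prop := ¬ pat x y t <:+: w

theorem Av.self {x y : Fin 2} (hxy : x ≠ y) {t : ℕ} (j : ℕ) {w : List (Fin 2)}
    (h : Av x y t w) : Av x y t (List.replicate j x ++ w) := fun h' => h ((pat_self hxy).mp h')

theorem Av.other {x y : Fin 2} (hxy : x ≠ y) {t : ℕ} (ht : 1 ≤ t) (k j : ℕ) (hj : t ≠ j)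
    {w : List (Fin 2)} (h : Av x y t (y :: w)) :
    Av x y t (List.replicate k y ++ (List.replicate j x ++ y :: w)) := by
  intro h'
  rcases pat_other hxy ht h' with h1 | h1
  · exact hj (run_prefix hxy h1)
  · exact h ((pat_self hxy).mp h1)

theorem Av.of_append {x y : Fin 2} {t : ℕ} {u w : List (Fin 2)} (h : Av x y t (u ++ w)) :
    Av x y t w := fun h' => h (h'.trans (List.suffix_append u w).isInfix)

end Pool.Agent.Helper586.RW
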