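import Pool.Agent.Helper586.RichPlus

set_option autoImplicit false

namespace Pool.Agent.Helper586.RW

def blk (s : ℕ) (l : List ℕ) : List (Fin 2) := l.flatMap (fun k => A s ++ B k)

theorem blk_append (s : ℕ) (l l' : List ℕ) : blk s (l ++ l') = blk s l ++ blk s l' := by
  simp [blk]

theorem blk_cons (s k : ℕ) (l : List ℕ) : blk s (k :: l) = A s ++ (B k ++ blk s l) := by
  simp [blk]

theorem zz_rev (s : ℕ) (ts : List ℕ) : (zz s ts).reverse = blk s ts.reverse := by
  induction ts with
  | nil => rfl
  | cons t ts ih => rw [zz_rev_cons, List.reverse_cons, blk_append, ih, blk_cons]; simp [blk]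

theorem A_zz (s M : ℕ) (ts : List ℕ) : A s ++ (zz s ts ++ B M) = blk s (ts ++ [M]) := by
  induction ts with
  | nil => simp [zz_nil, blk]
  | cons t ts ih => rw [zz_cons, List.cons_append, blk_cons, ← ih]; simp

theorem G_blk (s M t : ℕ) (ts : List ℕ) (X : List (Fin 2)) :
    G s (t :: ts) ++ (B M ++ X) = blk s ((ts.reverse ++ t :: ts) ++ [M]) ++ X := by
  have e : (ts.reverse ++ t :: ts) ++ [M] = ts.reverse ++ t :: (ts ++ [M]) := by simp
  rw [e, blk_append, blk_cons, ← A_zz, ← zz_rev, G_cons]
  simp

theorem blk_inj {s M : ℕ} (hs : 1 ≤ s) : ∀ (l l' : List ℕ) (X X' : List (Fin 2)),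
    (∀ u ∈ l, u < M) → (∀ u ∈ l', u < M) →
    blk s (l ++ [M]) ++ X = blk s (l' ++ [M]) ++ X' → l = l' ∧ X = X' := by
  obtain ⟨s, rfl⟩ : ∃ s', s = s' + 1 := ⟨s - 1, by omega⟩
  have aux : ∀ {k : ℕ} {X Y : List (Fin 2)}, k < M → B M ++ X = B k ++ 0 :: Y → False := by
    intro k X Y hk h
    obtain ⟨j, rfl⟩ := Nat.exists_eq_add_of_lt hk
    have e2 : B (k + j + 1) = B k ++ B (j + 1) := by
      rw [B, B, B, add_assoc k j 1, List.replicate_add]
    rw [e2, List.append_assoc] at h
    have h2 := List.append_cancel_left h
    rw [B_succ] at h2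
    exact absurd (List.cons.inj h2).1 (by decide)
  intro l
  induction l with
  | nil =>
    intro l' X X' _ hl' h
    cases l' with
    | nil =>
      refine ⟨rfl, ?_⟩
      exact List.append_cancel_left h
    | cons k l' =>
      exfalso
      rw [List.nil_append, List.cons_append, blk_cons, blk_cons, List.append_assoc,
        List.append_assoc, List.append_assoc, List.append_assoc] at h
      have h2 := List.append_cancel_left h
      have : blk (s + 1) (l' ++ [M]) ++ X' = 0 :: ((blk (s + 1) (l' ++ [M]) ++ X').tail) := by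
        cases l' with
        | nil => rw [List.nil_append, blk_cons, A_succ]; rfl
        | cons k' l' => rw [List.cons_append, blk_cons, A_succ]; rfl
      rw [this] at h2
      exact aux (hl' k (by simp)) h2
  | cons k l ih =>
    intro l' X X' hl hl' h
    have hhead : ∀ (l : List ℕ) (X : List (Fin 2)), ∃ Y, blk (s + 1) (l ++ [M]) ++ X = 0 :: Y := by
      intro l X
      cases l with
      | nil => rw [List.nil_append, blk_cons, A_succ]; exact ⟨_, rfl⟩
      | cons k' l' => rw [List.cons_append, blk_cons, A_succ]; exact ⟨_, rfl⟩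
    cases l' with
    | nil =>
      exfalso
      rw [List.nil_append, List.cons_append, blk_cons, blk_cons, List.append_assoc,
        List.append_assoc, List.append_assoc, List.append_assoc] at h
      have h2 := List.append_cancel_left h
      obtain ⟨Y, hY⟩ := hhead l X
      rw [hY] at h2
      exact aux (hl k (by simp)) h2.symm
    | cons k' l' =>
      rw [List.cons_append, List.cons_append, blk_cons, blk_cons, List.append_assoc,
        List.append_assoc, List.append_assoc, List.append_assoc] at h
      have h2 := List.append_cancel_left h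
      obtain ⟨Y, hY⟩ := hhead l X
      obtain ⟨Y', hY'⟩ := hhead l' X'
      rw [hY, hY'] at h2
      obtain ⟨hk, hYY⟩ := run_eq one_ne_zero2 h2
      have h3 : blk (s + 1) (l ++ [M]) ++ X = blk (s + 1) (l' ++ [M]) ++ X' := by
        rw [hY, hY', hYY]
      obtain ⟨h4, h5⟩ := ih l' X X' (fun u hu => hl u (by simp [hu]))
        (fun u hu => hl' u (by simp [hu])) h3
      exact ⟨by rw [hk, h4], h5⟩

theorem st_inj {M c : ℕ} : ∀ (gs gs' : List (List ℕ)) (W W' : List (Fin 2)),
    gs.length = gs'.length → gs.length < c → (∀ ts ∈ gs, ts ≠ []) → (∀ ts ∈ gs', ts ≠ []) →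
    (∀ ts ∈ gs, ∀ u ∈ ts, u < M) → (∀ ts ∈ gs', ∀ u ∈ ts, u < M) →
    st M c gs W = st M c gs' W' → gs = gs' ∧ W = W' := by
  intro gs
  induction gs with
  | nil =>
    intro gs' W W' hlen _ _ _ _ _ h
    have : gs' = [] := List.length_eq_zero_iff.mp (by simpa using hlen.symm)
    subst this
    exact ⟨rfl, h⟩
  | cons ts gs ih =>
    intro gs' W W' hlen hc hne hne' hlt hlt' h
    cases gs' with
    | nil => simp at hlen
    | cons ts' gs' =>
      have hlen' : gs.length = gs'.length := by simpa using hlen
      simp only [st] at h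
      rw [← hlen'] at h
      cases ts with
      | nil => exact absurd rfl (hne [] (by simp))
      | cons t ts =>
        cases ts' with
        | nil => exact absurd rfl (hne' [] (by simp))
        | cons t' ts' =>
          rw [G_blk, G_blk] at h
          have hs : 1 ≤ c - (gs.length + 1) := by
            simp only [List.length_cons] at hc
            omega
          have hl1 : ∀ u ∈ ts.reverse ++ t :: ts, u < M := by
            intro u hu
            apply hlt (t :: ts) (by simp)
            simp at hu ⊢
            tauto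
          have hl2 : ∀ u ∈ ts'.reverse ++ t' :: ts', u < M := by
            intro u hu
            apply hlt' (t' :: ts') (by simp)
            simp at hu ⊢
            tauto
          obtain ⟨h1, h2⟩ := blk_inj hs _ _ _ _ hl1 hl2 h
          have hl3 : ts.reverse.length = ts'.reverse.length := by
            have := congrArg List.length h1
            simp only [List.length_append, List.length_reverse, List.length_cons] at this ⊢
            omega
          obtain ⟨_, h3⟩ := List.append_inj h1 hl3
          obtain ⟨h4, h5⟩ := ih gs' W W' hlen' (by simp only [List.length_cons] at hc; omega)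
            (fun t ht => hne t (by simp [ht])) (fun t ht => hne' t (by simp [ht]))
            (fun t ht => hlt t (by simp [ht])) (fun t ht => hlt' t (by simp [ht])) h2
          exact ⟨by rw [h3, h4], h5⟩

/-- labels of group `g` -/
def grp {r K : ℕ} (f : Fin K → Fin r) (g : Fin r) : List ℕ :=
  (2 + g.val) :: (((List.finRange K).filter (fun t => f t = g)).map (fun t => 2 + r + t.val))

def gsf {r K : ℕ} (f : Fin K → Fin r) : List (List ℕ) := (List.finRange r).map (grp f)

theorem gsf_length {r K : ℕ} (f : Fin K → Fin r) : (gsf f).length = r := by simp [gsf]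

theorem gsf_ne {r K : ℕ} (f : Fin K → Fin r) : ∀ ts ∈ gsf f, ts ≠ [] := by
  intro ts hts
  simp only [gsf, List.mem_map] at hts
  obtain ⟨g, _, rfl⟩ := hts
  simp [grp]

theorem mem_grp {r K : ℕ} (f : Fin K → Fin r) (g : Fin r) (u : ℕ) :
    u ∈ grp f g ↔ u = 2 + g.val ∨ ∃ t : Fin K, f t = g ∧ 2 + r + t.val = u := by
  simp [grp]

theorem gsf_ge {r K : ℕ} (f : Fin K → Fin r) : ∀ ts ∈ gsf f, ∀ u ∈ ts, 2 ≤ u := by
  intro ts hts u hu
  simp only [gsf, List.mem_map] at hts
  obtain ⟨g, _, rfl⟩ := hts
  rw [mem_grp] at hu
  rcases hu with rfl | ⟨t, _, rfl⟩ <;> omega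

theorem gsf_lt {r K : ℕ} (f : Fin K → Fin r) : ∀ ts ∈ gsf f, ∀ u ∈ ts, u < 2 + r + K := by
  intro ts hts u hu
  simp only [gsf, List.mem_map] at hts
  obtain ⟨g, _, rfl⟩ := hts
  rw [mem_grp] at hu
  rcases hu with rfl | ⟨t, _, rfl⟩
  · have := g.isLt; omega
  · have := t.isLt; omega

theorem gsf_inc {r K : ℕ} (f : Fin K → Fin r) : ∀ ts ∈ gsf f, ts.Pairwise (· < ·) := by
  intro ts hts
  simp only [gsf, List.mem_map] at hts
  obtain ⟨g, _, rfl⟩ := hts
  rw [grp, List.pairwise_cons]
  constructor
  · intro u hu
    simp only [List.mem_map] at hu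
    obtain ⟨t, _, rfl⟩ := hu
    have := g.isLt
    omega
  · rw [List.pairwise_map]
    refine List.Pairwise.imp ?_ (List.Pairwise.filter _ (List.pairwise_lt_finRange K))
    intro a b hab
    have : a.val < b.val := hab
    omega

theorem gsf_dis {r K : ℕ} (f : Fin K → Fin r) : (gsf f).Pairwise List.Disjoint := by
  rw [gsf, List.pairwise_map]
  refine List.Pairwise.imp ?_ (List.pairwise_lt_finRange r)
  intro a b hab u hu hu'
  rw [mem_grp] at hu hu'
  have ha := a.isLt
  have hb := b.isLt
  have hab' : a.val < b.val := hab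
  rcases hu with rfl | ⟨t, ht, rfl⟩
  · rcases hu' with h | ⟨t', _, h⟩ <;> omega
  · rcases hu' with h | ⟨t', ht', h⟩
    · omega
    · have : t = t' := by apply Fin.ext; omega
      rw [this, ht'] at ht
      omega

theorem gsf_inj {r K : ℕ} {f f' : Fin K → Fin r} (h : gsf f = gsf f') : f = f' := by
  funext t
  have h1 : grp f (f t) = grp f' (f t) := by
    have := List.map_inj_left.mp h
    exact this (f t) (List.mem_finRange _)
  have h2 : 2 + r + t.val ∈ grp f (f t) := by rw [mem_grp]; exact Or.inr ⟨t, rfl, rfl⟩
  rw [h1, mem_grp] at h2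
  rcases h2 with h2 | ⟨t', ht', h2⟩
  · have := (f t).isLt; omega
  · have : t' = t := by apply Fin.ext; omega
    rw [this] at ht'
    exact ht'.symm

theorem sum_filter_length {r K : ℕ} (f : Fin K → Fin r) (l : List (Fin K)) :
    ((List.finRange r).map (fun g => (l.filter (fun t => f t = g)).length)).sum = l.length := by
  induction l with
  | nil => simp
  | cons a l ih =>
    have : ∀ g : Fin r, ((a :: l).filter (fun t => f t = g)).length =
        (if f a = g then 1 else 0) + (l.filter (fun t => f t = g)).length := by
      intro g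
      by_cases h : f a = g
      · simp [h]; omega
      · simp [h]
    simp only [this]
    rw [List.sum_map_add, ih]
    have h2 : ((List.finRange r).map (fun g => if f a = g then 1 else 0)).sum = 1 := by
      rw [← List.ofFn_eq_map, List.sum_ofFn]
      simp
    rw [h2]
    simp; omega

theorem gsf_total {r K : ℕ} (f : Fin K → Fin r) : ((gsf f).map List.length).sum = r + K := by
  rw [gsf, List.map_map]
  have : (List.length ∘ grp f) = fun g => 1 + ((List.finRange K).filter (fun t => f t = g)).length := by
    funext g
    simp [grp]; omega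
  rw [this, List.sum_map_add, sum_filter_length]
  simp

def ones (w : List (Fin 2)) : ℕ := w.count 1

theorem ones_append (u v : List (Fin 2)) : ones (u ++ v) = ones u + ones v := by simp [ones]
theorem ones_A (n : ℕ) : ones (A n) = 0 := by simp [ones, A, List.count_replicate]
theorem ones_B (n : ℕ) : ones (B n) = n := by simp [ones, B]
theorem ones_rev (u : List (Fin 2)) : ones u.reverse = ones u := by simp [ones]

theorem ones_phi (w : List (Fin 2)) : ones (phi w) = ones w := by
  induction w with
  | nil => rfl
  | cons x w ih =>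
    rcases fin2 x with rfl | rfl
    · rw [phi_zero]; simp only [ones, List.count_cons] at ih ⊢; omega
    · rw [phi_one]; simp only [ones, List.count_cons] at ih ⊢; simp [ih]

theorem len_phi (w : List (Fin 2)) : (phi w).length = w.length + ones w := by
  induction w with
  | nil => rfl
  | cons x w ih =>
    rcases fin2 x with rfl | rfl
    · rw [phi_zero]; simp only [ones, List.count_cons, List.length_cons] at ih ⊢; simp; omega
    · rw [phi_one]; simp only [ones, List.count_cons, List.length_cons] at ih ⊢; simp; omega

theorem ones_plus (w : List (Fin 2)) : ones (plus w) = ones w := by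
  rw [plus]; have := ones_phi w
  simp only [ones, List.count_cons] at this ⊢; simp [this]

theorem len_plus (w : List (Fin 2)) : (plus w).length = 1 + w.length + ones w := by
  rw [plus, List.length_cons, len_phi]; omega

theorem ones_zz (s : ℕ) (ts : List ℕ) : ones (zz s ts) = ts.sum := by
  induction ts with
  | nil => rfl
  | cons t ts ih => rw [zz_cons, ones_append, ones_append, ones_A, ones_B, ih]; simp

theorem len_zz (s : ℕ) (ts : List ℕ) : (zz s ts).length = ts.sum + s * ts.length := by
  induction ts with
  | nil => rfl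
  | cons t ts ih =>
    rw [zz_cons, List.length_append, List.length_append, ih]
    simp [A, B]; ring

theorem ones_G (s t : ℕ) (ts : List ℕ) : ones (G s (t :: ts)) ≤ 2 * (t :: ts).sum := by
  rw [G_cons]
  simp only [ones_append, ones_rev, ones_zz, ones_A, ones_B, List.sum_cons]
  omega

theorem len_G (s t : ℕ) (ts : List ℕ) :
    (G s (t :: ts)).length ≤ 2 * (t :: ts).sum + 2 * s * (t :: ts).length := by
  rw [G_cons]
  simp only [List.length_append, List.length_reverse, len_zz, List.length_replicate,
    List.sum_cons, List.length_cons]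
  nlinarith

theorem sum_le_of_lt {M : ℕ} (ts : List ℕ) (h : ∀ u ∈ ts, u < M) : ts.sum ≤ M * ts.length := by
  induction ts with
  | nil => simp
  | cons t ts ih =>
    have h1 := h t (by simp)
    have h2 := ih (fun u hu => h u (by simp [hu]))
    simp only [List.sum_cons, List.length_cons]
    nlinarith

theorem st_cost {M c : ℕ} (gs : List (List ℕ)) (W : List (Fin 2)) (hne : ∀ ts ∈ gs, ts ≠ [])
    (hlt : ∀ ts ∈ gs, ∀ u ∈ ts, u < M) :
    ones (st M c gs W) ≤ ones W + (2 * M * (gs.map List.length).sum + M * gs.length) ∧
    (st M c gs W).length ≤ W.length + (2 * M * (gs.map List.length).sum + M * gs.length)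
      + 2 * c * (gs.map List.length).sum := by
  induction gs with
  | nil => simp [st]
  | cons ts gs ih =>
    obtain ⟨ih1, ih2⟩ := ih (fun t ht => hne t (by simp [ht])) (fun t ht => hlt t (by simp [ht]))
    cases ts with
    | nil => exact absurd rfl (hne [] (by simp))
    | cons t ts =>
      have hsum := sum_le_of_lt (t :: ts) (hlt (t :: ts) (by simp))
      set s := c - (gs.length + 1) with hs
      have hsc : s ≤ c := Nat.sub_le _ _
      have h1 := ones_G s t ts
      have h2 := len_G s t ts
      have h3 : 2 * s * (t :: ts).length ≤ 2 * c * (t :: ts).length :=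
        Nat.mul_le_mul_right _ (Nat.mul_le_mul_left _ hsc)
      simp only [st, ones_append, ones_B, List.length_append, List.length_replicate,
        List.map_cons, List.sum_cons] at *
      have e : ((t :: ts) :: gs).length = gs.length + 1 := rfl
      rw [e, ← hs]
      generalize (t :: ts).length = L at *
      constructor
      · nlinarith
      · nlinarith

/-- cost of stage `j` -/
def cD (r K : ℕ) : ℕ := 2 * (2 + r + K) * (r + K) + (2 + r + K) * r
def cE (c r K : ℕ) : ℕ := 2 * c * (r + K)

def bd (P r : ℕ) (K : ℕ → ℕ) (k : ℕ) : ℕ :=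
  (P * r + 2 + P) + k + ∑ j ∈ Finset.range k,
    (cE (P * r + P + 1) r (K j) + (P - j + 1) * cD r (K j))

theorem start_SI (c lo : ℕ) (hc : 1 ≤ c) : SI c lo (A c ++ [1]) := by
  have hR : ∀ c, Rich (A c ++ [1]) := by
    intro c
    induction c with
    | zero => exact ⟨trivial, [1], List.prefix_refl _, rfl, by simp⟩
    | succ c ih =>
      refine ⟨ih, A (c + 1), List.prefix_append _ _, A_rev _, ?_⟩
      change ¬ A (c + 1) <:+: A c ++ [1]
      intro h
      have h1 := h.length_le
      have h2 : A (c + 1) = A c ++ [1] := by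
        apply List.IsInfix.eq_of_length h
        simp
      have := congrArg ones h2
      rw [ones_append, ones_A, ones_A] at this
      simp [ones] at this
  refine ⟨hR c, ⟨A c, ⟨List.prefix_append _ _, A_rev _, ?_⟩, List.prefix_refl _⟩, ⟨[], rfl⟩, ?_, ?_⟩
  · obtain ⟨c, rfl⟩ : ∃ s', c = s' + 1 := ⟨c - 1, by omega⟩
    change ¬ A (c + 1) <:+: A c ++ [1]
    intro h
    have h2 : A (c + 1) = A c ++ [1] := by
      apply List.IsInfix.eq_of_length h
      simp
    have := congrArg ones h2
    rw [ones_append, ones_A, ones_A] at this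
    simp [ones] at this
  · intro s _ _ h
    have h1 := h.sublist.count_le 1
    rw [pat] at h1
    simp [List.count_replicate, List.count_append] at h1
  · intro h
    have h1 := h.sublist.count_le 1
    simp [List.count_replicate, List.count_append] at h1

theorem family (P r : ℕ) (hr : 1 ≤ r) (K : ℕ → ℕ) : ∀ k, k ≤ P →
    ∃ F : Finset (List (Fin 2)),
      (∀ V ∈ F, SI ((P - k) * r + k + 1) k V ∧ V.length + (P - k) * ones V ≤ bd P r K k) ∧
      F.card = r ^ (∑ j ∈ Finset.range k, K j) := by
  intro k
  induction k with
  | zero =>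
    intro _
    refine ⟨{A (P * r + 1) ++ [1]}, ?_, by simp⟩
    intro V hV
    rw [Finset.mem_singleton] at hV
    subst hV
    refine ⟨?_, ?_⟩
    · simpa using start_SI (P * r + 1) 0 (by omega)
    · rw [ones_append, ones_A]
      simp [bd, ones]
  | succ k ih =>
    intro hk
    obtain ⟨F, hF, hcard⟩ := ih (by omega)
    set c := (P - k) * r + k + 1 with hc
    set M := 2 + r + K k with hM
    have hPk : 1 ≤ P - k := by omega
    have hrc : r ≤ (P - k) * r := Nat.le_mul_of_pos_left r hPk
    have hlen : r < c := by omega
    let φ : List (Fin 2) × (Fin (K k) → Fin r) → List (Fin 2) :=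
      fun x => plus (st M c (gsf x.2) x.1)
    have hinj : Set.InjOn φ (↑(F ×ˢ (Finset.univ : Finset (Fin (K k) → Fin r)))) := by
      rintro ⟨V, f⟩ _ ⟨V', f'⟩ _ h
      have h1 := plus_inj h
      obtain ⟨h2, h3⟩ := st_inj (gsf f) (gsf f') V V' (by rw [gsf_length, gsf_length])
        (by rw [gsf_length]; exact hlen) (gsf_ne f) (gsf_ne f') (gsf_lt f) (gsf_lt f') h1
      rw [gsf_inj h2, h3]
    refine ⟨(F ×ˢ Finset.univ).image φ, ?_, ?_⟩
    · intro V' hV'
      rw [Finset.mem_image] at hV'
      obtain ⟨⟨V, f⟩, hmem, rfl⟩ := hV'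
      rw [Finset.mem_product] at hmem
      obtain ⟨hSI, hbd⟩ := hF V hmem.1
      have hinv := hSI.start (M := M) (by omega) (by omega)
      have hst := st_inv (by omega) hinv (gsf f) (gsf_ne f) (gsf_ge f) (gsf_lt f) (gsf_inc f)
        (gsf_dis f) (by rw [gsf_length]; omega)
      rw [gsf_length] at hst
      have hpl := hst.plus
      have ec : c - r + 1 = (P - (k + 1)) * r + (k + 1) + 1 := by
        have : (P - k) * r = (P - (k + 1)) * r + r := by
          have : P - k = (P - (k + 1)) + 1 := by omega
          rw [this]; ring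
        omega
      rw [ec] at hpl
      refine ⟨hpl, ?_⟩
      obtain ⟨hc1, hc2⟩ := st_cost (M := M) (c := c) (gsf f) V (gsf_ne f) (gsf_lt f)
      rw [gsf_total, gsf_length] at hc1 hc2
      change (plus (st M c (gsf f) V)).length + (P - (k + 1)) * ones (plus (st M c (gsf f) V)) ≤ _
      rw [len_plus, ones_plus]
      set S := st M c (gsf f) V with hS
      have e1 : P - k = (P - (k + 1)) + 1 := by omega
      set Q := P - (k + 1) with hQ
      have hbd' : bd P r K (k + 1) = bd P r K k + 1 +
          (cE (P * r + P + 1) r (K k) + (P - k + 1) * cD r (K k)) := by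
        rw [bd, bd, Finset.sum_range_succ]; ring
      rw [hbd']
      have hD : 2 * M * (r + K k) + M * r = cD r (K k) := by rw [cD, hM]
      have hcc : c ≤ P * r + P + 1 := by
        have : (P - k) * r ≤ P * r := Nat.mul_le_mul_right _ (Nat.sub_le _ _)
        omega
      have hE : 2 * c * (r + K k) ≤ cE (P * r + P + 1) r (K k) := by
        rw [cE]
        exact Nat.mul_le_mul_right _ (Nat.mul_le_mul_left _ hcc)
      rw [hD] at hc1 hc2
      rw [e1] at hbd ⊢
      have h5 : (Q + 1) * ones S ≤ (Q + 1) * (ones V + cD r (K k)) := Nat.mul_le_mul_left _ hc1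
      nlinarith
    · rw [Finset.card_image_of_injOn hinj, Finset.card_product, hcard, Finset.card_univ,
        Fintype.card_fun, Fintype.card_fin, Fintype.card_fin, Finset.sum_range_succ, pow_add]

end Pool.Agent.Helper586.RW
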