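import Pool.Agent.Helper586.RichGlue
import Pool.Agent.Helper586.RichCount

set_option autoImplicit false

namespace Pool.Agent.Helper586.RW

def zeros (w : List (Fin 2)) : ℕ := w.count 0

theorem zeros_append (u v : List (Fin 2)) : zeros (u ++ v) = zeros u + zeros v := by simp [zeros]
theorem zeros_A (n : ℕ) : zeros (A n) = n := by simp [zeros, A]
theorem zeros_B (n : ℕ) : zeros (B n) = 0 := by simp [zeros, B, List.count_replicate]
theorem zeros_nil : zeros [] = 0 := rfl
theorem zeros_c0 (w : List (Fin 2)) : zeros (0 :: w) = zeros w + 1 := by simp [zeros]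
theorem zeros_c1 (w : List (Fin 2)) : zeros (1 :: w) = zeros w := by simp [zeros]
theorem ones_nil : ones [] = 0 := rfl
theorem ones_c0 (w : List (Fin 2)) : ones (0 :: w) = ones w := by simp [ones]
theorem ones_c1 (w : List (Fin 2)) : ones (1 :: w) = ones w + 1 := by simp [ones]

theorem zeros_phi (w : List (Fin 2)) : zeros (phi w) = zeros w + ones w := by
  induction w with
  | nil => rfl
  | cons x w ih =>
    rcases fin2 x with rfl | rfl
    · rw [phi_zero, zeros_c0, zeros_c0, ones_c0, ih]; ring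
    · rw [phi_one, zeros_c1, zeros_c0, zeros_c1, ones_c1, ih]; ring

theorem zeros_sw (w : List (Fin 2)) : zeros (sw w) = ones w ∧ ones (sw w) = zeros w := by
  induction w with
  | nil => exact ⟨rfl, rfl⟩
  | cons x w ih =>
    rcases fin2 x with rfl | rfl
    · rw [sw_cons]
      have e : ((0 : Fin 2) + 1) = 1 := rfl
      rw [e, zeros_c1, ones_c1, zeros_c0, ones_c0, ih.1, ih.2]; exact ⟨rfl, rfl⟩
    · rw [sw_cons]
      have e : ((1 : Fin 2) + 1) = 0 := rfl
      rw [e, zeros_c0, ones_c0, zeros_c1, ones_c1, ih.1, ih.2]; exact ⟨rfl, rfl⟩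

theorem len_zo (w : List (Fin 2)) : w.length = zeros w + ones w := by
  induction w with
  | nil => rfl
  | cons x w ih =>
    rcases fin2 x with rfl | rfl
    · rw [zeros_c0, ones_c0, List.length_cons, ih]; ring
    · rw [zeros_c1, ones_c1, List.length_cons, ih]; ring

/-- weighted length -/
def cost (p q : ℕ) (w : List (Fin 2)) : ℕ := p * zeros w + q * ones w

theorem cost_N {x y m p q : ℕ} {W' W : List (Fin 2)} (_h' : Cl x m W') (h : Cl m y W) :
    cost p q (N m W' W) + (p + q) * m = cost (p + q) q W' + cost p (p + q) W + (p + q) := by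
  obtain ⟨W1, hW1⟩ := h.pre
  have hz : zeros (N m W' W) = zeros W' + (2 + zeros W1 + ones W1) := by
    rw [hW1, N_eq, zeros_append, zeros_c0, zeros_c0, zeros_phi, plusB, (zeros_sw _).1, ones_plus,
      (zeros_sw _).2]
    ring
  have ho : ones (N m W' W) = (1 + ones W' + zeros W') + ones W1 := by
    rw [hW1, N_eq, ones_append, ones_c0, ones_c0, ones_phi, plusB, (zeros_sw _).2, plus, zeros_c0,
      zeros_phi, (zeros_sw _).1, (zeros_sw _).2]
    ring
  have hzW : zeros W = 1 + zeros W1 := by rw [hW1, zeros_append, zeros_B, zeros_c0]; ring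
  have hoW : ones W = m + ones W1 := by rw [hW1, ones_append, ones_B, ones_c0]
  rw [cost, cost, cost, hz, ho, hzW, hoW]
  ring

theorem cl_base0 {x y : ℕ} (hx : 1 ≤ x) (hy : 1 ≤ y) : Cl x y (B x ++ A y) := by
  obtain ⟨x, rfl⟩ : ∃ x', x = x' + 1 := ⟨x - 1, by omega⟩
  obtain ⟨y, rfl⟩ : ∃ x', y = x' + 1 := ⟨y - 1, by omega⟩
  have hcount : ∀ s t : List (Fin 2), B (x + 1) ++ A (y + 1) = s ++ (B (x + 1) ++ t) →
      ones s = 0 ∧ ones t = 0 := by
    intro s t h
    have h1 := congrArg ones h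
    rw [ones_append, ones_append, ones_append, ones_B, ones_A] at h1
    omega
  have hcount0 : ∀ s t : List (Fin 2), B (x + 1) ++ A (y + 1) = s ++ (A (y + 1) ++ t) →
      zeros s = 0 ∧ zeros t = 0 := by
    intro s t h
    have h1 := congrArg zeros h
    rw [zeros_append, zeros_append, zeros_append, zeros_B, zeros_A] at h1
    omega
  refine ⟨?_, ⟨A y, rfl⟩, ⟨B x, ?_⟩, ?_, ?_⟩
  · have h0 : ∀ j, Rich (A j) ∧ (1 ≤ j → Wit (A j) (A j)) := by
      intro j
      have hw : ∀ j, 1 ≤ j → Wit (A j) (A j) := by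
        intro j hj
        obtain ⟨j, rfl⟩ : ∃ x', j = x' + 1 := ⟨j - 1, by omega⟩
        refine ⟨List.prefix_refl _, A_rev _, ?_⟩
        change ¬ A (j + 1) <:+: A j
        intro h
        have := h.length_le
        simp [A] at this
      induction j with
      | zero => exact ⟨trivial, fun h => absurd h (by decide)⟩
      | succ j ih => exact ⟨⟨ih.1, _, hw (j + 1) (by omega)⟩, hw (j + 1)⟩
    have h1 : ∀ j, Rich (B j ++ A (y + 1)) := by
      intro j
      induction j with
      | zero => exact (h0 (y + 1)).1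
      | succ j ih =>
        refine ⟨ih, B (j + 1), List.prefix_append _ _, B_rev _, ?_⟩
        change ¬ B (j + 1) <:+: B j ++ A (y + 1)
        intro h
        have h1 := h.sublist.count_le 1
        simp [B, A, List.count_replicate, List.count_append] at h1
    exact h1 _
  · have : B (x + 1) = B x ++ [1] := by rw [B, List.replicate_succ']
    rw [this]; simp
  · intro s t h
    cases s with
    | nil => rfl
    | cons z s =>
      exfalso
      have h1 := (hcount (z :: s) t h).1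
      have hz : z = 1 := by
        rw [B_succ, List.cons_append] at h
        exact (List.cons.inj h).1.symm
      rw [hz, ones_c1] at h1
      omega
  · intro s t h
    rcases List.eq_nil_or_concat t with rfl | ⟨t, z, rfl⟩
    · rfl
    · exfalso
      have h1 := (hcount0 s (t.concat z) h).2
      have hz : z = 0 := by
        have e : A (y + 1) = A y ++ [0] := by rw [A, List.replicate_succ']
        rw [List.concat_eq_append] at h
        conv_lhs at h => rw [e]
        rw [← List.append_assoc, ← List.append_assoc, ← List.append_assoc] at h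
        exact (List.cons.inj (List.append_inj_right' h rfl)).1.symm
      rw [hz, List.concat_eq_append, zeros_append, zeros_c0] at h1
      omega

theorem cost_base0 (p q x y : ℕ) : cost p q (B x ++ A y) = q * x + p * y := by
  rw [cost, zeros_append, ones_append, zeros_A, zeros_B, ones_A, ones_B]; ring

/-- the second base word `1^x 0 1 0^y` -/
theorem base1 {x y : ℕ} (hx : 2 ≤ x) (hy : 2 ≤ y) :
    ∃ V, Cl x y V ∧ (∀ p q, cost p q V = q * x + p * y + (p + q)) ∧ V ≠ B x ++ A y := by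
  obtain ⟨x, rfl⟩ : ∃ x', x = x' + 1 := ⟨x - 1, by omega⟩
  obtain ⟨y, rfl⟩ : ∃ x', y = x' + 1 := ⟨y - 1, by omega⟩
  have h1 : Cl x 1 (B x ++ A 1) := cl_base0 (by omega) le_rfl
  have h2 : Cl 1 y (B 1 ++ A y) := cl_base0 le_rfl (by omega)
  have h3 := h1.glue (by omega) le_rfl (by omega) h2
  have hcost : ∀ p q, cost p q (N 1 (B x ++ A 1) (B 1 ++ A y)) =
      q * (x + 1) + p * (y + 1) + (p + q) := by
    intro p q
    have h4 := cost_N (p := p) (q := q) h1 h2
    rw [cost_base0, cost_base0] at h4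
    nlinarith
  refine ⟨_, h3, hcost, ?_⟩
  intro h
  have h5 := hcost 1 1
  rw [h, cost_base0] at h5
  omega

def Lf (X : ℕ) : ℕ → ℕ → ℕ → ℕ
  | 0, _, _ => 1
  | (f + 1), p, q => if p + q ≤ X then Lf X f (p + q) q + Lf X f p (p + q) else 1

theorem fam_leaf {X p q : ℕ} (hp : p ≤ X) (hq : q ≤ X) {x y : ℕ}
    (hx : 2 ≤ x) (hy : 2 ≤ y) :
    ∃ F : Finset (List (Fin 2)), (∀ W ∈ F, Cl x y W ∧
      cost p q W + 3 * X ≤ q * x + p * y + 5 * X * 1) ∧ F.card = 2 ^ 1 := by
  obtain ⟨V, h1, h2, h3⟩ := base1 hx hy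
  refine ⟨{B x ++ A y, V}, ?_, ?_⟩
  · intro W hW
    rw [Finset.mem_insert, Finset.mem_singleton] at hW
    rcases hW with rfl | rfl
    · refine ⟨cl_base0 (by omega) (by omega), ?_⟩
      rw [cost_base0]; omega
    · refine ⟨h1, ?_⟩
      rw [h2]; omega
  · rw [Finset.card_pair (Ne.symm h3)]; rfl

theorem fam (X : ℕ) : ∀ f p q, 1 ≤ p → 1 ≤ q → p ≤ X → q ≤ X → X < p + q + f →
    ∀ x y, (X - p) / q + 2 ≤ x → (X - q) / p + 2 ≤ y →
    ∃ F : Finset (List (Fin 2)), (∀ W ∈ F, Cl x y W ∧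
      cost p q W + 3 * X ≤ q * x + p * y + 5 * X * Lf X f p q) ∧ F.card = 2 ^ Lf X f p q := by
  intro f
  induction f with
  | zero =>
    intro p q _ _ hpX hqX _ x y hx hy
    exact fam_leaf hpX hqX (le_trans (Nat.le_add_left 2 _) hx) (le_trans (Nat.le_add_left 2 _) hy)
  | succ f ih =>
    intro p q hp hq hpX hqX hf x y hx hy
    have hx2 : 2 ≤ x := le_trans (Nat.le_add_left 2 _) hx
    have hy2 : 2 ≤ y := le_trans (Nat.le_add_left 2 _) hy
    by_cases hpq : p + q ≤ X
    · rw [Lf, if_pos hpq]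
      obtain ⟨m, hm⟩ : ∃ m, m = X / (p + q) + 2 := ⟨_, rfl⟩
      have hm0 : 2 ≤ m := hm ▸ Nat.le_add_left 2 _
      have hdiv1 : (X - p) / q = (X - (p + q)) / q + 1 := by
        have : X - p = (X - (p + q)) + q := by omega
        rw [this, Nat.add_div_right _ (by omega)]
      have hdiv2 : (X - q) / p = (X - (p + q)) / p + 1 := by
        have : X - q = (X - (p + q)) + p := by omega
        rw [this, Nat.add_div_right _ (by omega)]
      obtain ⟨x, rfl⟩ : ∃ x', x = x' + 1 := ⟨x - 1, by omega⟩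
      obtain ⟨y, rfl⟩ : ∃ x', y = x' + 1 := ⟨y - 1, by omega⟩
      rw [hdiv1] at hx
      rw [hdiv2] at hy
      have hx' : (X - (p + q)) / q + 2 ≤ x := by
        generalize (X - (p + q)) / q = u at hx ⊢
        omega
      have hy' : (X - (p + q)) / p + 2 ≤ y := by
        generalize (X - (p + q)) / p = u at hy ⊢
        omega
      have hm1 : (X - q) / (p + q) + 2 ≤ m := by
        have : (X - q) / (p + q) ≤ X / (p + q) := Nat.div_le_div_right (Nat.sub_le _ _)
        rw [hm]
        exact Nat.add_le_add_right this 2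
      have hm2 : (X - p) / (p + q) + 2 ≤ m := by
        have : (X - p) / (p + q) ≤ X / (p + q) := Nat.div_le_div_right (Nat.sub_le _ _)
        rw [hm]
        exact Nat.add_le_add_right this 2
      obtain ⟨F1, hF1, hc1⟩ := ih (p + q) q (by omega) hq hpq hqX (by omega) x m hx' hm1
      obtain ⟨F2, hF2, hc2⟩ := ih p (p + q) hp (by omega) hpX hpq (by omega) m y hm2 hy'
      have hinj : Set.InjOn (fun z : List (Fin 2) × List (Fin 2) => N m z.1 z.2)
          (↑(F1 ×ˢ F2)) := by
        rintro ⟨a, b⟩ hab ⟨c, d⟩ hcd h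
        rw [Finset.mem_coe, Finset.mem_product] at hab hcd
        obtain ⟨e1, e2⟩ := N_inj (le_trans (by decide) hm0) (hF1 a hab.1).1 (hF2 b hab.2).1 (hF1 c hcd.1).1
          (hF2 d hcd.2).1 h
        rw [Prod.mk.injEq]
        exact ⟨e1, e2⟩
      refine ⟨(F1 ×ˢ F2).image (fun z => N m z.1 z.2), ?_, ?_⟩
      · intro W hW
        rw [Finset.mem_image] at hW
        obtain ⟨⟨a, b⟩, hab, rfl⟩ := hW
        rw [Finset.mem_product] at hab
        obtain ⟨ha1, ha2⟩ := hF1 a hab.1
        obtain ⟨hb1, hb2⟩ := hF2 b hab.2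
        refine ⟨ha1.glue (le_trans (le_trans (by decide) (Nat.le_add_left 2 _)) hx')
          (le_trans (by decide) hm0) (le_trans (le_trans (by decide) (Nat.le_add_left 2 _)) hy') hb1, ?_⟩
        have hcost := cost_N (p := p) (q := q) ha1 hb1
        have hmX : (p + q) * m ≤ 3 * X := by
          have h1 := Nat.mul_div_le X (p + q)
          have h2 : (p + q) * 2 ≤ 2 * X := by omega
          rw [hm, mul_add]; exact (Nat.add_le_add h1 h2).trans (by omega)
        simp only
        nlinarith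
      · rw [Finset.card_image_of_injOn hinj, Finset.card_product, hc1, hc2, pow_add]
    · rw [Lf, if_neg hpq]
      exact fam_leaf hpX hqX hx2 hy2

/-- coprime pairs -/
def S (X p q : ℕ) : Finset (ℕ × ℕ) :=
  ((Finset.Ioc 0 X) ×ˢ (Finset.Ioc 0 X)).filter
    (fun ij => Nat.Coprime ij.1 ij.2 ∧ ij.1 * p + ij.2 * q ≤ X)

theorem mem_S {X p q : ℕ} (hp : 1 ≤ p) (hq : 1 ≤ q) (ij : ℕ × ℕ) :
    ij ∈ S X p q ↔ 1 ≤ ij.1 ∧ 1 ≤ ij.2 ∧ Nat.Coprime ij.1 ij.2 ∧ ij.1 * p + ij.2 * q ≤ X := by
  rw [S, Finset.mem_filter, Finset.mem_product, Finset.mem_Ioc, Finset.mem_Ioc]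
  constructor
  · rintro ⟨⟨⟨h1, _⟩, h2, _⟩, h3, h4⟩
    exact ⟨h1, h2, h3, h4⟩
  · rintro ⟨h1, h2, h3, h4⟩
    have h5 : ij.1 ≤ ij.1 * p := Nat.le_mul_of_pos_right _ (by omega)
    have h6 : ij.2 ≤ ij.2 * q := Nat.le_mul_of_pos_right _ (by omega)
    exact ⟨⟨⟨h1, by omega⟩, h2, by omega⟩, h3, h4⟩

theorem S_empty {X p q : ℕ} (hp : 1 ≤ p) (hq : 1 ≤ q) (h : X < p + q) : S X p q = ∅ := by
  rw [Finset.eq_empty_iff_forall_notMem]
  rintro ⟨i, j⟩ hij
  rw [mem_S hp hq] at hij
  obtain ⟨h1, h2, _, h4⟩ := hij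
  simp only at h1 h2 h4
  have : p ≤ i * p := Nat.le_mul_of_pos_left _ h1
  have : q ≤ j * q := Nat.le_mul_of_pos_left _ h2
  omega

theorem S_rec {X p q : ℕ} (hp : 1 ≤ p) (hq : 1 ≤ q) (h : p + q ≤ X) :
    (S X p q).card = 1 + (S X (p + q) q).card + (S X p (p + q)).card := by
  have e : S X p q = insert (1, 1) ((S X (p + q) q).image (fun ij => (ij.1, ij.1 + ij.2)) ∪
      (S X p (p + q)).image (fun ij => (ij.1 + ij.2, ij.2))) := by
    ext ⟨i, j⟩
    rw [Finset.mem_insert, Finset.mem_union, Finset.mem_image, Finset.mem_image, mem_S hp hq]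
    simp only [Prod.mk.injEq, Prod.exists]
    constructor
    · rintro ⟨h1, h2, h3, h4⟩
      rcases lt_trichotomy i j with hij | rfl | hij
      · right; left
        obtain ⟨d, rfl⟩ := Nat.exists_eq_add_of_lt hij
        refine ⟨i, d + 1, ?_, rfl, by ring⟩
        rw [mem_S (by omega) hq]
        refine ⟨h1, by simp, ?_, ?_⟩
        · simp only
          have : i + d + 1 = (d + 1) + i := by ring
          rw [this] at h3
          exact (Nat.coprime_add_self_right).mp h3
        · simp only; nlinarith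
      · left
        have : i = 1 := by simpa [Nat.Coprime] using h3
        exact ⟨this, this⟩
      · right; right
        obtain ⟨d, rfl⟩ := Nat.exists_eq_add_of_lt hij
        refine ⟨d + 1, j, ?_, by ring, rfl⟩
        rw [mem_S hp (by omega)]
        refine ⟨by simp, h2, ?_, ?_⟩
        · simp only
          have : j + d + 1 = (d + 1) + j := by ring
          rw [this] at h3
          exact (Nat.coprime_add_self_left).mp h3
        · simp only; nlinarith
    · rintro (⟨rfl, rfl⟩ | ⟨a, b, hab, rfl, rfl⟩ | ⟨a, b, hab, rfl, rfl⟩)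
      · exact ⟨le_rfl, le_rfl, by simp, by omega⟩
      · rw [mem_S (by omega) hq] at hab
        obtain ⟨h1, h2, h3, h4⟩ := hab
        simp only at h1 h2 h3 h4
        refine ⟨h1, by omega, ?_, by nlinarith⟩
        rw [add_comm a b]
        exact (Nat.coprime_add_self_right).mpr h3
      · rw [mem_S hp (by omega)] at hab
        obtain ⟨h1, h2, h3, h4⟩ := hab
        simp only at h1 h2 h3 h4
        exact ⟨by omega, h2, (Nat.coprime_add_self_left).mpr h3, by nlinarith⟩
  rw [e, Finset.card_insert_of_notMem, Finset.card_union_of_disjoint, Finset.card_image_of_injOn,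
    Finset.card_image_of_injOn]
  · ring
  · rintro ⟨a, b⟩ _ ⟨c, d⟩ _ h
    simp only [Prod.mk.injEq] at h ⊢
    omega
  · rintro ⟨a, b⟩ _ ⟨c, d⟩ _ h
    simp only [Prod.mk.injEq] at h ⊢
    omega
  · rw [Finset.disjoint_left]
    rintro ⟨i, j⟩ h1 h2
    rw [Finset.mem_image] at h1 h2
    obtain ⟨⟨a, b⟩, h3, h4⟩ := h1
    obtain ⟨⟨c, d⟩, h5, h6⟩ := h2
    rw [mem_S (by omega) hq] at h3
    rw [mem_S hp (by omega)] at h5
    obtain ⟨h31, h32, _, _⟩ := h3
    obtain ⟨h51, h52, _, _⟩ := h5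
    simp only [Prod.mk.injEq] at h31 h32 h51 h52 h4 h6
    omega
  · intro h1
    rw [Finset.mem_union, Finset.mem_image, Finset.mem_image] at h1
    rcases h1 with ⟨⟨a, b⟩, h3, h4⟩ | ⟨⟨c, d⟩, h5, h6⟩
    · rw [mem_S (by omega) hq] at h3
      obtain ⟨h31, h32, _, _⟩ := h3
      simp only [Prod.mk.injEq] at h31 h32 h4
      omega
    · rw [mem_S hp (by omega)] at h5
      obtain ⟨h51, h52, _, _⟩ := h5
      simp only [Prod.mk.injEq] at h51 h52 h6
      omega

theorem Lf_eq (X : ℕ) : ∀ f p q, 1 ≤ p → 1 ≤ q → X < p + q + f →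
    Lf X f p q = (S X p q).card + 1 := by
  intro f
  induction f with
  | zero => intro p q hp hq h; rw [S_empty hp hq (by omega)]; rfl
  | succ f ih =>
    intro p q hp hq h
    by_cases hpq : p + q ≤ X
    · rw [Lf, if_pos hpq, S_rec hp hq hpq, ih (p + q) q (by omega) hq (by omega),
        ih p (p + q) hp (by omega) (by omega)]
      ring
    · rw [Lf, if_neg hpq, S_empty hp hq (by omega)]; rfl

theorem S_le (X : ℕ) : (S X 1 1).card ≤ X ^ 2 := by
  rw [S]
  refine (Finset.card_filter_le _ _).trans ?_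
  rw [Finset.card_product, Nat.card_Ioc]
  simp [pow_two]

theorem sum_sq (N : ℕ) (hN : 2 ≤ N) :
    ∑ d ∈ Finset.Icc 2 N, (1 : ℝ) / (d : ℝ) ^ 2 ≤ 3 / 4 - 1 / N := by
  induction N, hN using Nat.le_induction with
  | base => norm_num
  | succ N hN ih =>
    rw [Finset.sum_Icc_succ_top (by omega)]
    have hN' : (2 : ℝ) ≤ N := by exact_mod_cast hN
    have h1 : (1 : ℝ) / ((N + 1 : ℕ) : ℝ) ^ 2 ≤ 1 / N - 1 / ((N + 1 : ℕ) : ℝ) := by
      push_cast
      rw [div_sub_div _ _ (by positivity) (by positivity), div_le_div_iff₀ (by positivity) (by positivity)]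
      nlinarith
    linarith

theorem coprime_count (Y : ℕ) :
    Y ^ 2 ≤ 4 * (((Finset.Ioc 0 Y) ×ˢ (Finset.Ioc 0 Y)).filter
      (fun ij => Nat.Coprime ij.1 ij.2)).card := by
  set T := (Finset.Ioc 0 Y) ×ˢ (Finset.Ioc 0 Y) with hT
  have hTc : T.card = Y ^ 2 := by
    rw [hT, Finset.card_product, Nat.card_Ioc]; simp [pow_two]
  have hsub : T.filter (fun ij => ¬ Nat.Coprime ij.1 ij.2) ⊆
      (Finset.Icc 2 Y).biUnion (fun d => ((Finset.Ioc 0 Y).filter (fun i => d ∣ i)) ×ˢ
        ((Finset.Ioc 0 Y).filter (fun i => d ∣ i))) := by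
    rintro ⟨i, j⟩ hij
    rw [Finset.mem_filter, hT, Finset.mem_product, Finset.mem_Ioc, Finset.mem_Ioc] at hij
    obtain ⟨⟨⟨h1, h2⟩, h3, h4⟩, h5⟩ := hij
    simp only at h1 h2 h3 h4 h5
    rw [Finset.mem_biUnion]
    refine ⟨Nat.gcd i j, ?_, ?_⟩
    · rw [Finset.mem_Icc]
      have h6 : 0 < Nat.gcd i j := Nat.gcd_pos_of_pos_left _ h1
      have h7 : Nat.gcd i j ≤ i := Nat.gcd_le_left _ h1
      have h8 : Nat.gcd i j ≠ 1 := h5
      omega
    · rw [Finset.mem_product, Finset.mem_filter, Finset.mem_filter, Finset.mem_Ioc, Finset.mem_Ioc]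
      exact ⟨⟨⟨h1, h2⟩, Nat.gcd_dvd_left _ _⟩, ⟨h3, h4⟩, Nat.gcd_dvd_right _ _⟩
  have hcard := (Finset.card_le_card hsub).trans Finset.card_biUnion_le
  have hcard2 : (T.filter (fun ij => ¬ Nat.Coprime ij.1 ij.2)).card ≤
      ∑ d ∈ Finset.Icc 2 Y, (Y / d) ^ 2 := by
    refine hcard.trans (le_of_eq ?_)
    apply Finset.sum_congr rfl
    intro d _
    rw [Finset.card_product, Nat.Ioc_filter_dvd_card_eq_div, pow_two]
  have hsum : 4 * ∑ d ∈ Finset.Icc 2 Y, (Y / d) ^ 2 ≤ 3 * Y ^ 2 := by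
    by_cases hY : 2 ≤ Y
    · have h1 : ((∑ d ∈ Finset.Icc 2 Y, (Y / d) ^ 2 : ℕ) : ℝ) ≤
          (Y : ℝ) ^ 2 * ∑ d ∈ Finset.Icc 2 Y, (1 : ℝ) / (d : ℝ) ^ 2 := by
        push_cast
        rw [Finset.mul_sum]
        apply Finset.sum_le_sum
        intro d hd
        have hd' : (0 : ℝ) < d := by
          have := (Finset.mem_Icc.mp hd).1
          exact_mod_cast (by omega : 0 < d)
        have h2 : ((Y / d : ℕ) : ℝ) ≤ (Y : ℝ) / d := Nat.cast_div_le
        calc ((Y / d : ℕ) : ℝ) ^ 2 ≤ ((Y : ℝ) / d) ^ 2 := by gcongr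
          _ = (Y : ℝ) ^ 2 * (1 / (d : ℝ) ^ 2) := by field_simp
      have h3 := sum_sq Y hY
      have h4 : (0 : ℝ) ≤ 1 / (Y : ℝ) := by positivity
      have h5 : ((∑ d ∈ Finset.Icc 2 Y, (Y / d) ^ 2 : ℕ) : ℝ) ≤ (Y : ℝ) ^ 2 * (3 / 4) := by
        refine h1.trans ?_
        gcongr
        linarith
      have h6 : ((4 * ∑ d ∈ Finset.Icc 2 Y, (Y / d) ^ 2 : ℕ) : ℝ) ≤ ((3 * Y ^ 2 : ℕ) : ℝ) := by
        push_cast at h5 ⊢
        linarith
      exact_mod_cast h6
    · rw [Finset.Icc_eq_empty (by omega)]; simp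
  have hsplit := Finset.card_filter_add_card_filter_not (s := T) (fun ij => Nat.Coprime ij.1 ij.2)
  omega

theorem S_ge (X : ℕ) : (X / 2) ^ 2 ≤ 4 * (S X 1 1).card := by
  refine (coprime_count (X / 2)).trans ?_
  apply Nat.mul_le_mul_left
  apply Finset.card_le_card
  rintro ⟨i, j⟩ hij
  rw [Finset.mem_filter, Finset.mem_product, Finset.mem_Ioc, Finset.mem_Ioc] at hij
  rw [mem_S le_rfl le_rfl]
  obtain ⟨⟨⟨h1, h2⟩, h3, h4⟩, h5⟩ := hij
  simp only at h1 h2 h3 h4 h5
  exact ⟨h1, h3, h5, by simp only; omega⟩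

theorem pad_rich {x y : ℕ} {V : List (Fin 2)} (h : Cl x y V) (j : ℕ) : Rich (B j ++ V) := by
  induction j with
  | zero => exact h.rich
  | succ i ih =>
    obtain ⟨V', hV'⟩ := h.pre
    refine ⟨ih, B (i + 1 + x), ?_, B_rev _, ?_⟩
    · refine ⟨0 :: V', ?_⟩
      rw [hV']
      have : B (i + 1 + x) = B (i + 1) ++ B x := by rw [B, B, B, List.replicate_add]
      rw [this]
      change _ = B (i + 1) ++ (B x ++ 0 :: V')
      simp only [List.append_assoc]
    · change ¬ B (i + 1 + x) <:+: B i ++ V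
      rintro ⟨s, t, hst⟩
      have e : B (i + 1 + x) = B (i + 1) ++ B x := by rw [B, B, B, List.replicate_add]
      rw [e] at hst
      have hst' : B i ++ V = (s ++ B (i + 1)) ++ (B x ++ t) := by
        rw [← hst]; simp only [List.append_assoc]
      rcases List.append_eq_append_iff.mp hst' with ⟨c, h1, h2⟩ | ⟨c, h1, h2⟩
      · have hc := h.u1 c t h2
        have := congrArg List.length h1
        rw [hc] at this
        simp [B] at this
        omega
      · have := congrArg List.length h1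
        simp [B] at this
        omega

end Pool.Agent.Helper586.RW
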