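import Pool.Agent.Helper586.RichPlus

set_option autoImplicit false

namespace Pool.Agent.Helper586.RW

/-- letter exchange -/
def sw (w : List (Fin 2)) : List (Fin 2) := w.map (fun x => x + 1)

theorem sw_sw (w : List (Fin 2)) : sw (sw w) = w := by
  rw [sw, sw, List.map_map]
  conv_rhs => rw [← List.map_id w]
  apply List.map_congr_left
  intro x _
  rcases fin2 x with rfl | rfl <;> rfl

theorem sw_append (u v : List (Fin 2)) : sw (u ++ v) = sw u ++ sw v := by simp [sw]
theorem sw_cons (x : Fin 2) (v : List (Fin 2)) : sw (x :: v) = (x + 1) :: sw v := rfl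
theorem sw_nil : sw [] = [] := rfl
theorem sw_rev (u : List (Fin 2)) : sw u.reverse = (sw u).reverse := by simp [sw]
theorem sw_A (n : ℕ) : sw (A n) = B n := by simp [sw, A, B]
theorem sw_B (n : ℕ) : sw (B n) = A n := by
  have := sw_sw (A n)
  rw [sw_A] at this
  exact this
theorem sw_len (u : List (Fin 2)) : (sw u).length = u.length := by simp [sw]

theorem sw_infix {u v : List (Fin 2)} (h : u <:+: v) : sw u <:+: sw v := by
  obtain ⟨s, t, rfl⟩ := h
  exact ⟨sw s, sw t, by simp [sw_append]⟩

theorem sw_infix_iff {u v : List (Fin 2)} : sw u <:+: sw v ↔ u <:+: v :=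
  ⟨fun h => by have := sw_infix h; rwa [sw_sw, sw_sw] at this, sw_infix⟩

theorem rich_sw {w : List (Fin 2)} (h : Rich w) : Rich (sw w) := by
  induction w with
  | nil => exact h
  | cons x w ih =>
    obtain ⟨hw, p, h1, h2, h3⟩ := h
    refine ⟨ih hw, sw p, ?_, ?_, ?_⟩
    · obtain ⟨t, ht⟩ := h1
      exact ⟨sw t, by rw [← sw_append, ht]; rfl⟩
    · rw [← sw_rev, h2]
    · change ¬ sw p <:+: sw w
      rw [sw_infix_iff]
      exact h3

/-- gluing along `Q` -/
theorem glue {Q W2 : List (Fin 2)} : ∀ {W1 : List (Fin 2)}, Rich (W1 ++ Q) → Rich (Q ++ W2) →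
    (∀ s t, W1 ++ Q = s ++ (Q ++ t) → t = []) →
    (∀ p : List (Fin 2), p.reverse = p → p <:+: W1 ++ Q → p <:+: Q ++ W2 → p <:+: Q) →
    Rich (W1 ++ (Q ++ W2)) := by
  intro W1
  induction W1 with
  | nil => intro _ h2 _ _; exact h2
  | cons x u ih =>
    intro h1 h2 hQ hpal
    obtain ⟨hu, p, hp1, hp2, hp3⟩ := h1
    change ¬ p <:+: u ++ Q at hp3
    change p <+: x :: (u ++ Q) at hp1
    have ih' := ih hu h2 (fun s t h => hQ (x :: s) t (by rw [List.cons_append, h]; rfl))
      (fun p h3 h4 h5 => hpal p h3 (h4.trans (List.suffix_cons x (u ++ Q)).isInfix) h5)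
    refine ⟨ih', p, ?_, hp2, ?_⟩
    · refine hp1.trans ?_
      refine ⟨W2, ?_⟩
      simp
    · change ¬ p <:+: u ++ (Q ++ W2)
      rintro ⟨s, t, hst⟩
      rw [List.append_assoc] at hst
      rcases List.append_eq_append_iff.mp hst with ⟨α, h3, h4⟩ | ⟨s', h3, h4⟩
      · -- u = s ++ α, p ++ t = α ++ (Q ++ W2)
        rw [← List.append_assoc] at h4
        rcases List.append_eq_append_iff.mp h4 with ⟨β, h5, h6⟩ | ⟨β, h5, h6⟩
        · -- α ++ Q = p ++ β
          apply hp3
          refine ⟨s, β, ?_⟩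
          rw [h3, List.append_assoc, List.append_assoc, h5]
        · -- p = α ++ Q ++ β, W2 = β ++ t
          obtain ⟨t', ht'⟩ := hp1
          have h7 : (x :: u) ++ Q = α ++ (Q ++ (β ++ t')) := by
            rw [List.cons_append, ← ht', h5]; simp
          have h8 := hQ α (β ++ t') h7
          have hβ : β = [] := (List.append_eq_nil_iff.mp h8).1
          apply hp3
          refine ⟨s, [], ?_⟩
          rw [h3, h5, hβ]; simp
      · -- s = u ++ s', Q ++ W2 = s' ++ (p ++ t)
        apply hp3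
        have h5 : p <:+: Q ++ W2 := ⟨s', t, by rw [h4]; simp⟩
        have h6 : p <:+: (x :: u) ++ Q := hp1.isInfix
        exact (hpal p hp2 h6 h5).trans (List.suffix_append u Q).isInfix

/-- `(01)^m` -/
def alt : ℕ → List (Fin 2)
  | 0 => []
  | (m + 1) => 0 :: 1 :: alt m

theorem alt_len (m : ℕ) : (alt m).length = 2 * m := by
  induction m with
  | zero => rfl
  | succ m ih => simp [alt, ih]; ring

theorem alt_add (i j : ℕ) : alt (i + j) = alt i ++ alt j := by
  induction i with
  | zero => simp [alt]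
  | succ i ih =>
    have : i + 1 + j = (i + j) + 1 := by ring
    rw [this, alt, ih]; rfl

theorem sw_alt (j : ℕ) : sw (alt j) ++ [1] = 1 :: alt j := by
  induction j with
  | zero => rfl
  | succ j ih =>
    rw [alt, sw_cons, sw_cons, List.cons_append, List.cons_append, ih]
    rfl

theorem phi_B (j : ℕ) : phi (B j) ++ [1] = 1 :: alt j := by
  induction j with
  | zero => rfl
  | succ j ih => rw [B_succ, phi_one, List.cons_append, List.cons_append, ih]; rfl

theorem phi_B' (j : ℕ) : phi (B j) = sw (alt j) := by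
  have h := (phi_B j).trans (sw_alt j).symm
  exact List.append_cancel_right h

theorem plus_alt (m : ℕ) (w : List (Fin 2)) : plus (B m ++ 0 :: w) = alt m ++ 0 :: 0 :: phi w := by
  induction m with
  | zero => simp [plus, phi_zero, alt]
  | succ m ih => rw [B_succ, List.cons_append, plus_one, ih]; rfl

/-- `1 ↦ 1`, `0 ↦ 01`, preceded by `1` -/
def plusB (w : List (Fin 2)) : List (Fin 2) := sw (plus (sw w))

theorem rich_plusB {w : List (Fin 2)} (h : Rich w) : Rich (plusB w) := rich_sw (rich_plus (rich_sw h))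

theorem no00_plusB (w : List (Fin 2)) : ¬ [0, 0] <:+: plusB w := by
  intro h
  have h2 := sw_infix h
  rw [plusB, sw_sw] at h2
  exact nobb_plus _ h2

theorem one_alt_plus {j : ℕ} {w : List (Fin 2)} (h : 1 :: alt j <:+: plus w) : B (j + 1) <:+: w := by
  rw [← phi_B] at h
  have := core_factor (r := B j) (by
    cases j with
    | zero => exact Or.inl rfl
    | succ j => exact Or.inr ⟨B j, rfl⟩) h
  rwa [B, ← List.replicate_succ'] at this

theorem alt_zero_plusB {j : ℕ} {w : List (Fin 2)} (h : alt j ++ [0] <:+: plusB w) :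
    A (j + 1) <:+: w := by
  have h2 := sw_infix h
  rw [plusB, sw_sw, sw_append] at h2
  have e : sw (alt j) ++ sw [0] = 1 :: alt j := sw_alt j
  rw [e] at h2
  have h3 := sw_infix (one_alt_plus h2)
  rwa [sw_sw, sw_B] at h3

theorem decode0' : ∀ {w X Z : List (Fin 2)}, 0 :: phi w = X ++ 0 :: Z →
    ∃ u v, w = u ++ v ∧ X ++ [0] = 0 :: phi u ∧ Z = phi v
  | w, [], Z, h => ⟨[], w, rfl, rfl, by simpa using (List.cons.inj h).2.symm⟩
  | [], (x :: X), Z, h => by
      exfalso
      have := (List.cons.inj h).2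
      simp [phi_nil] at this
  | (y :: w), (x :: X), Z, h => by
      have h' := (List.cons.inj h).2
      have hx : x = 0 := (List.cons.inj h).1.symm
      rcases fin2 y with rfl | rfl
      · rw [phi_zero] at h'
        obtain ⟨u, v, h1, h2, h3⟩ := decode0' h'
        refine ⟨0 :: u, v, by rw [h1]; rfl, ?_, h3⟩
        rw [List.cons_append, h2, hx, phi_zero]
      · rw [phi_one] at h'
        cases X with
        | nil => exact absurd (List.cons.inj h').1 (by decide)
        | cons z X =>
          obtain ⟨u, v, h1, h2, h3⟩ := decode0' (List.cons.inj h').2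
          have hz : z = 1 := (List.cons.inj h').1.symm
          refine ⟨1 :: u, v, by rw [h1]; rfl, ?_, h3⟩
          rw [List.cons_append, List.cons_append, h2, hx, hz, phi_one]

/-- the class of words with a longest run of ones at the left end (only there) and a longest run of
zeros at the right end (only there) -/
structure Cl (x y : ℕ) (W : List (Fin 2)) : Prop where
  rich : Rich W
  pre : ∃ W', W = B x ++ 0 :: W'
  suf : ∃ W', W = W' ++ 1 :: A y
  u1 : ∀ s t, W = s ++ (B x ++ t) → s = []
  u0 : ∀ s t, W = s ++ (A y ++ t) → t = []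

theorem run0_plus {y : ℕ} {W : List (Fin 2)} (h : ∀ s t, W = s ++ (A y ++ t) → t = []) :
    ∀ s t, plus W = s ++ (A (y + 1) ++ t) → t = [] := by
  intro s t hst
  rw [A_succ, List.cons_append] at hst
  obtain ⟨u, v, h1, h2⟩ := decode0 hst
  have h3 : phi (A y) ++ t = phi v := by rw [phi_A, h2]
  obtain ⟨v', h4, h5⟩ := phi_prefix_inj h3
  have h6 := h u v' (by rw [h1, h4])
  rw [h5, h6]; rfl

theorem run0_plus' {y : ℕ} {W : List (Fin 2)} (h : ∀ s t, W = s ++ (A y ++ t) → s = []) :
    ∀ s t, plus W = s ++ (A (y + 1) ++ t) → s = [] := by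
  intro s t hst
  rw [A_succ, List.cons_append] at hst
  obtain ⟨u, v, h1, h2, h2'⟩ := decode0' hst
  have h3 : phi (A y) ++ t = phi v := by rw [phi_A, h2']
  obtain ⟨v', h4, h5⟩ := phi_prefix_inj h3
  have h6 := h u v' (by rw [h1, h4])
  rw [h6, phi_nil] at h2
  have := congrArg List.length h2
  simp at this
  exact this

theorem sw_eq {u v : List (Fin 2)} (h : sw u = v) : u = sw v := by rw [← h, sw_sw]

theorem run1_plusB {x : ℕ} {W : List (Fin 2)} (h : ∀ s t, W = s ++ (B x ++ t) → s = []) :
    ∀ s t, plusB W = s ++ (B (x + 1) ++ t) → s = [] := by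
  intro s t hst
  rw [plusB] at hst
  have h1 := sw_eq hst
  rw [sw_append, sw_append, sw_B] at h1
  have h2 := run0_plus' (y := x) (W := sw W) (by
    intro s t h3
    have h4 := sw_eq h3
    rw [sw_append, sw_append, sw_A] at h4
    have h5 := h _ _ h4
    have := congrArg sw h5
    rwa [sw_sw] at this) _ _ h1
  have := congrArg sw h2
  rwa [sw_sw] at this

theorem alt_plusB {m : ℕ} {W : List (Fin 2)} (hm : 1 ≤ m)
    (h : ∀ s t, W = s ++ (A m ++ t) → t = []) :
    ∀ s t, plusB W = s ++ (alt m ++ t) → t = [] := by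
  intro s t hst
  rw [plusB] at hst
  have h1 := sw_eq hst
  rw [sw_append, sw_append, ← phi_B'] at h1
  obtain ⟨m, rfl⟩ : ∃ m', m = m' + 1 := ⟨m - 1, by omega⟩
  rw [B_succ, phi_one, List.cons_append, List.cons_append] at h1
  obtain ⟨u, v, h2, h3⟩ := decode1 h1
  have h4 := (List.cons.inj h3).2
  obtain ⟨v', h5, h6⟩ := phi_prefix_inj h4
  have h7 := sw_eq h2
  rw [h5, sw_append, sw_cons, sw_append, sw_B] at h7
  have h8 := h (sw u) (sw v') h7
  have h9 : v' = [] := by
    have := congrArg sw h8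
    rwa [sw_sw] at this
  rw [h9, phi_nil] at h6
  have := congrArg sw h6
  rwa [sw_sw] at this

theorem alternating (p : List (Fin 2)) (h0 : ¬ [0, 0] <:+: p) (h1 : ¬ [1, 1] <:+: p) :
    ∃ j, p = alt j ∨ p = alt j ++ [0] ∨ p = 1 :: alt j ∨ p = 1 :: (alt j ++ [0]) := by
  induction p with
  | nil => exact ⟨0, Or.inl rfl⟩
  | cons x p ih =>
    obtain ⟨j, hj⟩ := ih (fun h => h0 (h.trans (List.suffix_cons x p).isInfix))
      (fun h => h1 (h.trans (List.suffix_cons x p).isInfix))
    rcases fin2 x with rfl | rfl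
    · rcases hj with rfl | rfl | rfl | rfl
      · cases j with
        | zero => exact ⟨0, Or.inr (Or.inl rfl)⟩
        | succ j => exact absurd ⟨[], 1 :: alt j, rfl⟩ h0
      · cases j with
        | zero => exact absurd ⟨[], [], rfl⟩ h0
        | succ j => exact absurd ⟨[], 1 :: (alt j ++ [0]), rfl⟩ h0
      · exact ⟨j + 1, Or.inl rfl⟩
      · exact ⟨j + 1, Or.inr (Or.inl rfl)⟩
    · rcases hj with rfl | rfl | rfl | rfl
      · exact ⟨j, Or.inr (Or.inr (Or.inl rfl))⟩
      · exact ⟨j, Or.inr (Or.inr (Or.inr rfl))⟩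
      · exact absurd ⟨[], alt j, rfl⟩ h1
      · exact absurd ⟨[], alt j ++ [0], rfl⟩ h1

theorem alt_last (j : ℕ) : ∃ r, alt (j + 1) = r ++ [1] := by
  induction j with
  | zero => exact ⟨[0], rfl⟩
  | succ j ih =>
    obtain ⟨r, hr⟩ := ih
    exact ⟨0 :: 1 :: r, by rw [alt, hr]; rfl⟩

theorem pal_common {x y m : ℕ} {W' W : List (Fin 2)} (h' : Cl x m W') (h : Cl m y W)
    (p : List (Fin 2)) (hp : p.reverse = p) (hp1 : p <:+: plusB W') (hp2 : p <:+: plus W) :
    p <:+: alt m := by
  obtain ⟨j, hj⟩ := alternating p (fun h => no00_plusB _ (h.trans hp1))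
    (fun h => nobb_plus _ (h.trans hp2))
  rcases hj with rfl | rfl | rfl | rfl
  · cases j with
    | zero => exact List.nil_infix
    | succ j =>
      exfalso
      obtain ⟨r, hr⟩ := alt_last j
      rw [hr, List.reverse_append] at hp
      have e : alt (j + 1) = 0 :: 1 :: alt j := rfl
      rw [← hr, e] at hp
      exact absurd (List.cons.inj hp).1 (by decide)
  · obtain ⟨s, t, hst⟩ := alt_zero_plusB hp1
    have hjm : j < m := by
      by_contra hcon
      obtain ⟨i, rfl⟩ := Nat.exists_eq_add_of_le (not_lt.mp hcon)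
      have e : A (m + i + 1) = A m ++ A (i + 1) := by
        rw [A, A, A, add_assoc, List.replicate_add]
      have := h'.u0 s (A (i + 1) ++ t) (by rw [← hst, e]; simp only [List.append_assoc])
      rw [A_succ] at this
      simp at this
    obtain ⟨i, rfl⟩ := Nat.exists_eq_add_of_lt hjm
    refine ⟨[], 1 :: alt i, ?_⟩
    rw [add_assoc, alt_add]
    simp [alt]
  · obtain ⟨s, t, hst⟩ := one_alt_plus hp2
    have hjm : j < m := by
      by_contra hcon
      obtain ⟨i, rfl⟩ := Nat.exists_eq_add_of_le (not_lt.mp hcon)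
      have e : B (m + i + 1) = B (i + 1) ++ B m := by
        have : m + i + 1 = (i + 1) + m := by ring
        rw [this, B, B, B, List.replicate_add]
      have := h.u1 (s ++ B (i + 1)) t (by rw [← hst, e]; simp only [List.append_assoc])
      rw [B_succ] at this
      simp at this
    obtain ⟨i, rfl⟩ := Nat.exists_eq_add_of_lt hjm
    refine ⟨[0], alt i, ?_⟩
    have : j + i + 1 = (j + i) + 1 := rfl
    rw [this, alt, alt_add]
    simp
  · exfalso
    have e : (1 :: (alt j ++ [0])).reverse = 0 :: (alt j).reverse ++ [1] := by simp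
    rw [e] at hp
    exact absurd (List.cons.inj hp).1 (by decide)

theorem Cl.plusB_eq {x m : ℕ} {W' : List (Fin 2)} (h' : Cl x m W') :
    ∃ W1, plusB W' = (W1 ++ [1]) ++ alt m := by
  obtain ⟨W'', hW''⟩ := h'.suf
  refine ⟨sw (0 :: phi (sw W'')), ?_⟩
  have e1 : phi (0 :: B m) ++ [1] = 0 :: (phi (B m) ++ [1]) := by rw [phi_zero]; rfl
  rw [plusB, hW'', sw_append, sw_cons]
  have e2 : ((1 : Fin 2) + 1) = 0 := rfl
  rw [e2, sw_A, plus, phi_append, phi_zero, phi_B', ← List.cons_append, sw_append, sw_cons,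
    sw_cons, sw_sw]
  have e3 : ((0 : Fin 2) + 1) = 1 := rfl
  rw [e3]
  simp

/-- the glued word -/
def N (m : ℕ) (W' W : List (Fin 2)) : List (Fin 2) := plusB W' ++ (plus W).drop (2 * m)

theorem N_eq {m : ℕ} (W' W1 : List (Fin 2)) :
    N m W' (B m ++ 0 :: W1) = plusB W' ++ 0 :: 0 :: phi W1 := by
  rw [N, plus_alt, ← alt_len m, List.drop_left]

theorem Cl.glue {x y m : ℕ} {W' W : List (Fin 2)} (hx : 1 ≤ x) (hm : 1 ≤ m) (hy : 1 ≤ y)
    (h' : Cl x m W') (h : Cl m y W) : Cl (x + 1) (y + 1) (N m W' W) := by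
  obtain ⟨W1, hW1⟩ := h.pre
  obtain ⟨V, hV⟩ := h'.plusB_eq
  have hpW : plus W = alt m ++ 0 :: 0 :: phi W1 := by rw [hW1, plus_alt]
  have hN : N m W' W = plusB W' ++ 0 :: 0 :: phi W1 := by rw [hW1, N_eq]
  have hN2 : N m W' W = (V ++ [1]) ++ plus W := by rw [hN, hV, hpW]; simp
  have hrichB := rich_plusB h'.rich
  have hrich := rich_plus h.rich
  refine ⟨?_, ?_, ?_, ?_, ?_⟩
  · rw [hN2, hpW]
    apply RW.glue
    · rw [← hV]; exact hrichB
    · rw [← hpW]; exact hrich
    · intro s t hst
      rw [← hV] at hst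
      exact alt_plusB hm h'.u0 s t hst
    · intro p hp h1 h2
      rw [← hV] at h1
      rw [← hpW] at h2
      exact pal_common h' h p hp h1 h2
  · obtain ⟨X, hX⟩ := h'.pre
    rw [hN, hX, plusB, sw_append, sw_cons, sw_B]
    have e3 : ((0 : Fin 2) + 1) = 1 := rfl
    rw [e3, plus, phi_append, phi_A, phi_one, ← List.cons_append, ← A_succ, sw_append, sw_A,
      sw_cons]
    exact ⟨_, by rw [List.append_assoc]; rfl⟩
  · obtain ⟨X, hX⟩ := h.suf
    rw [hN2]
    refine ⟨(V ++ [1]) ++ 0 :: phi X, ?_⟩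
    rw [hX, plus, phi_append, phi_one, phi_A, A_succ]
    simp
  · intro s t hst
    rw [hN] at hst
    rcases List.append_eq_append_iff.mp hst with ⟨c, h1, h2⟩ | ⟨c, h1, h2⟩
    · -- s = plusB W' ++ c, 0::0::.. = c ++ (B (x+1) ++ t)
      exfalso
      have h3 : [1, 1] <:+: plus W := by
        rw [hpW, h2]
        obtain ⟨x, rfl⟩ : ∃ x', x = x' + 1 := ⟨x - 1, by omega⟩
        refine ⟨alt m ++ c, B x ++ t, ?_⟩
        rw [B_succ, B_succ]; simp
      exact nobb_plus _ h3
    · -- plusB W' = s ++ c, B (x+1) ++ t = c ++ 0 :: 0 :: ..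
      rcases List.append_eq_append_iff.mp h2 with ⟨d, h3, h4⟩ | ⟨d, h3, h4⟩
      · -- c = B (x+1) ++ d
        exact run1_plusB h'.u1 s d (by rw [h1, h3])
      · -- B (x+1) = c ++ d, 0 :: 0 :: .. = d ++ t
        cases d with
        | nil =>
          have : c = B (x + 1) := by simpa using h3.symm
          exact run1_plusB h'.u1 s [] (by rw [h1, this]; simp)
        | cons z d =>
          exfalso
          have hz : z = 0 := (List.cons.inj h4).1.symm
          have : z ∈ B (x + 1) := by rw [h3]; simp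
          rw [B, List.mem_replicate] at this
          rw [hz] at this
          exact absurd this.2 (by decide)
  · intro s t hst
    rw [hN2] at hst
    rcases List.append_eq_append_iff.mp hst with ⟨c, h1, h2⟩ | ⟨c, h1, h2⟩
    · -- s = V ++ [1] ++ c ; plus W = c ++ (A (y+1) ++ t)
      exact run0_plus h.u0 c t h2
    · -- V ++ [1] = s ++ c ; A (y+1) ++ t = c ++ plus W
      rcases List.eq_nil_or_concat c with rfl | ⟨c', z, rfl⟩
      · exact run0_plus h.u0 [] t (by simpa using h2.symm)
      · exfalso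
        have hz : z = 1 := by
          rw [List.concat_eq_append, ← List.append_assoc] at h1
          have := List.append_inj_right' h1 rfl
          exact (List.cons.inj this).1.symm
        rw [List.concat_eq_append] at h1 h2
        rcases List.append_eq_append_iff.mp h2 with ⟨d, h3, h4⟩ | ⟨d, h3, h4⟩
        · -- c' ++ [z] = A (y+1) ++ d
          have h5 : [0, 0] <:+: plusB W' := by
            obtain ⟨y, rfl⟩ : ∃ x', y = x' + 1 := ⟨y - 1, by omega⟩
            rw [hV, h1, h3]
            refine ⟨s, A y ++ d ++ alt m, ?_⟩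
            rw [A_succ, A_succ]; simp
          exact no00_plusB _ h5
        · -- A (y+1) = (c' ++ [z]) ++ d
          have : z ∈ A (y + 1) := by rw [h3]; simp
          rw [A, List.mem_replicate] at this
          rw [hz] at this
          exact absurd this.2 (by decide)

theorem N_inj {x y m : ℕ} {W' W V' V : List (Fin 2)} (hm : 1 ≤ m)
    (h1 : Cl x m W') (h2 : Cl m y W) (h3 : Cl x m V') (h4 : Cl m y V)
    (h : N m W' W = N m V' V) : W' = V' ∧ W = V := by
  obtain ⟨W1, hW1⟩ := h2.pre
  obtain ⟨V1, hV1⟩ := h4.pre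
  have key : ∀ {W' V' : List (Fin 2)} {X Y c : List (Fin 2)}, Cl x m V' →
      plusB V' = plusB W' ++ c → (0 : Fin 2) :: 0 :: X = c ++ 0 :: 0 :: Y → c = [] := by
    intro W' V' X Y c hV' hc1 hc2
    cases c with
    | nil => rfl
    | cons z c =>
      exfalso
      have hz : z = 0 := (List.cons.inj hc2).1.symm
      have hc3 := (List.cons.inj hc2).2
      subst hz
      cases c with
      | nil =>
        obtain ⟨Z, hZ⟩ := hV'.plusB_eq
        obtain ⟨m, rfl⟩ : ∃ x', m = x' + 1 := ⟨m - 1, by omega⟩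
        obtain ⟨r, hr⟩ := alt_last m
        rw [hZ, hr, ← List.append_assoc] at hc1
        have := List.append_inj_right' hc1 rfl
        exact absurd (List.cons.inj this).1 (by decide)
      | cons z c =>
        have hz : z = 0 := (List.cons.inj hc3).1.symm
        subst hz
        apply no00_plusB V'
        rw [hc1]
        exact ⟨plusB W', c, by simp⟩
  rw [hW1, hV1, N_eq, N_eq] at h
  have hB : plusB W' = plusB V' ∧ phi W1 = phi V1 := by
    rcases List.append_eq_append_iff.mp h with ⟨c, e1, e2⟩ | ⟨c, e1, e2⟩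
    · have hc := key h3 e1 e2
      subst hc
      refine ⟨by simpa using e1.symm, ?_⟩
      exact (List.cons.inj (List.cons.inj e2).2).2
    · have hc := key h1 e1 e2
      subst hc
      refine ⟨by simpa using e1, ?_⟩
      exact ((List.cons.inj (List.cons.inj e2).2).2).symm
  refine ⟨?_, ?_⟩
  · have e := congrArg sw hB.1
    rw [plusB, plusB, sw_sw, sw_sw] at e
    have e2 := congrArg sw (plus_inj e)
    rwa [sw_sw, sw_sw] at e2
  · rw [hW1, hV1, phi_inj hB.2]

end Pool.Agent.Helper586.RW
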