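import Pool.Agent.Helper586.RichBasic

set_option autoImplicit false

namespace Pool.Agent.Helper586.RW

abbrev A (n : ℕ) : List (Fin 2) := List.replicate n 0
abbrev B (n : ℕ) : List (Fin 2) := List.replicate n 1

theorem A_succ (n : ℕ) : A (n + 1) = 0 :: A n := rfl
theorem B_succ (n : ℕ) : B (n + 1) = 1 :: B n := rfl
theorem A_rev (n : ℕ) : (A n).reverse = A n := by simp [A]
theorem B_rev (n : ℕ) : (B n).reverse = B n := by simp [B]

theorem rep_prefix {x : Fin 2} {i j : ℕ} (h : i ≤ j) (w : List (Fin 2)) :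
    List.replicate i x <+: List.replicate j x ++ w := by
  obtain ⟨k, rfl⟩ := Nat.exists_eq_add_of_le h
  rw [List.replicate_add, List.append_assoc]
  exact List.prefix_append _ _

/-- `zz s [t1,...,tk] = b^t1 a^s ... b^tk a^s` -/
def zz (s : ℕ) (ts : List ℕ) : List (Fin 2) := ts.flatMap (fun t => B t ++ A s)

theorem zz_nil (s : ℕ) : zz s [] = [] := rfl
theorem zz_cons (s t : ℕ) (ts : List ℕ) : zz s (t :: ts) = B t ++ (A s ++ zz s ts) := by
  simp [zz]

theorem zz_rev_cons (s t : ℕ) (ts : List ℕ) :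
    (zz s (t :: ts)).reverse = (zz s ts).reverse ++ (A s ++ B t) := by
  rw [zz_cons]; simp [A, B]

/-- the palindromic group -/
def G (s : ℕ) : List ℕ → List (Fin 2)
  | [] => A s
  | (t :: ts) => (zz s ts).reverse ++ ((A s ++ (B t ++ A s)) ++ zz s ts)

theorem G_cons (s t : ℕ) (ts : List ℕ) :
    G s (t :: ts) = (zz s ts).reverse ++ ((A s ++ (B t ++ A s)) ++ zz s ts) := rfl

def hd (M : ℕ) : List ℕ → ℕ
  | [] => M
  | (t :: _) => t

theorem hd_prefix {s M j : ℕ} (ts : List ℕ) (W0 : List (Fin 2)) (hj : j ≤ hd M ts) :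
    B j <+: zz s ts ++ (B M ++ W0) := by
  cases ts with
  | nil => exact rep_prefix hj _
  | cons t ts =>
    rw [zz_cons, List.append_assoc]
    exact rep_prefix hj _

theorem zero_ne_one2 : (0 : Fin 2) ≠ 1 := by decide
theorem one_ne_zero2 : (1 : Fin 2) ≠ 0 := by decide

theorem av1_lw {s M t : ℕ} {W0 : List (Fin 2)} (hs : 1 ≤ s) (ht : 1 ≤ t) (htM : t ≠ M)
    (h0 : ∃ W', W0 = 0 :: W') (h : Av 1 0 t W0) (ts : List ℕ) (hts : t ∉ ts) :
    Av 1 0 t (A s ++ (zz s ts ++ (B M ++ W0))) := by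
  obtain ⟨s, rfl⟩ : ∃ s', s = s' + 1 := ⟨s - 1, by omega⟩
  induction ts with
  | nil =>
    obtain ⟨W', rfl⟩ := h0
    rw [zz_nil, List.nil_append]
    exact Av.other one_ne_zero2 ht _ _ htM h
  | cons u ts ih =>
    have hu : t ≠ u := fun e => hts (by simp [e])
    have hts' : t ∉ ts := fun e => hts (by simp [e])
    have := ih hts'
    rw [zz_cons, List.append_assoc, List.append_assoc]
    rw [A_succ, List.cons_append] at this ⊢
    exact Av.other one_ne_zero2 ht (s + 1) u hu this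

theorem zz_head {s M : ℕ} (ts : List ℕ) (hM : 1 ≤ M) (hts : ∀ t ∈ ts, 1 ≤ t)
    (W0 : List (Fin 2)) : ∃ W', zz s ts ++ (B M ++ W0) = 1 :: W' := by
  cases ts with
  | nil =>
    obtain ⟨M, rfl⟩ : ∃ s', M = s' + 1 := ⟨M - 1, by omega⟩
    exact ⟨_, rfl⟩
  | cons t ts =>
    have := hts t (by simp)
    obtain ⟨t, rfl⟩ : ∃ s', t = s' + 1 := ⟨t - 1, by omega⟩
    rw [zz_cons]
    exact ⟨_, rfl⟩

theorem av0_lw {s s' M : ℕ} {W0 : List (Fin 2)} (hs : 1 ≤ s') (hss : s' ≠ s) (hM : 1 ≤ M)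
    (h : Av 0 1 s' (B M ++ W0)) (ts : List ℕ) (hts : ∀ t ∈ ts, 1 ≤ t) :
    Av 0 1 s' (A s ++ (zz s ts ++ (B M ++ W0))) := by
  apply Av.self zero_ne_one2
  induction ts with
  | nil => exact h
  | cons u ts ih =>
    have hts' : ∀ t ∈ ts, 1 ≤ t := fun t ht => hts t (by simp [ht])
    have h2 := ih hts'
    rw [zz_cons, List.append_assoc, List.append_assoc]
    obtain ⟨W', hW'⟩ := zz_head (s := s) ts hM hts' W0
    rw [hW'] at h2 ⊢
    exact Av.other zero_ne_one2 hs u s hss h2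

theorem av1_zr {s t : ℕ} (hs : 1 ≤ s) (ht : 1 ≤ t) (ts : List ℕ) (hts : t ∉ ts) :
    ∀ {X : List (Fin 2)}, (∃ X', X = 0 :: X') → Av 1 0 t X → Av 1 0 t ((zz s ts).reverse ++ X) := by
  obtain ⟨s, rfl⟩ : ∃ s', s = s' + 1 := ⟨s - 1, by omega⟩
  induction ts with
  | nil => intro X _ h; simpa [zz_nil] using h
  | cons u ts ih =>
    intro X hX h
    have hu : t ≠ u := fun e => hts (by simp [e])
    have hts' : t ∉ ts := fun e => hts (by simp [e])
    obtain ⟨X', rfl⟩ := hX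
    rw [zz_rev_cons, List.append_assoc, List.append_assoc]
    exact ih hts' ⟨_, rfl⟩ (Av.other one_ne_zero2 ht (s + 1) u hu h)

theorem av0_zr {s s' : ℕ} (hs : 1 ≤ s') (hss : s' ≠ s) (ts : List ℕ) (hts : ∀ t ∈ ts, 1 ≤ t) :
    ∀ {X : List (Fin 2)}, (∃ X', X = A s ++ 1 :: X') → Av 0 1 s' X →
      Av 0 1 s' ((zz s ts).reverse ++ X) := by
  induction ts with
  | nil => intro X _ h; simpa [zz_nil] using h
  | cons u ts ih =>
    intro X hX h
    have hu : 1 ≤ u := hts u (by simp)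
    have hts' : ∀ t ∈ ts, 1 ≤ t := fun t ht => hts t (by simp [ht])
    rw [zz_rev_cons, List.append_assoc]
    obtain ⟨u, rfl⟩ : ∃ s', u = s' + 1 := ⟨u - 1, by omega⟩
    apply ih hts'
    · rw [List.append_assoc]
      exact ⟨_, rfl⟩
    · obtain ⟨X', rfl⟩ := hX
      rw [List.append_assoc]
      apply Av.self zero_ne_one2
      have h1 : Av 0 1 s' (1 :: X') := h.of_append
      exact Av.other zero_ne_one2 hs _ _ hss h1

theorem wit_pat {x y : Fin 2} (hxy : x ≠ y) {t : ℕ} {w : List (Fin 2)}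
    (h : Av x y t (y :: w)) :
    Wit (pat x y t) (y :: (List.replicate t x ++ y :: w)) := by
  refine ⟨?_, pat_rev _ _ _, ?_⟩
  · rw [pat]
    apply List.cons_prefix_cons.mpr ⟨rfl, ?_⟩
    exact ⟨w, by simp⟩
  · rw [List.tail_cons]
    intro h'
    exact h ((pat_self hxy).mp h')

/-- building the left part of a group -/
theorem labels {s M : ℕ} {W0 : List (Fin 2)} (hs : 1 ≤ s)
    (hW0 : ∃ W', W0 = 0 :: W')
    (hbase : ∀ j, 1 ≤ j → j ≤ M → Rich (B j ++ (A s ++ (B M ++ W0))))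
    (ts : List ℕ) (hpos : ∀ t ∈ ts, 1 ≤ t) (hlt : ∀ t ∈ ts, t < M)
    (hinc : ts.Pairwise (· < ·)) (hav : ∀ t ∈ ts, Av 1 0 t W0) :
    (∀ t ts', ts = t :: ts' →
      Wit (A s ++ (B t ++ A s)) (A s ++ (zz s ts ++ (B M ++ W0)))) ∧
    (∀ j, 1 ≤ j → j ≤ hd M ts → Rich (B j ++ (A s ++ (zz s ts ++ (B M ++ W0))))) := by
  induction ts with
  | nil =>
    refine ⟨fun t ts' h => by simp at h, ?_⟩
    intro j h1 h2
    exact hbase j h1 h2
  | cons t ts ih =>
    have hpos' : ∀ t ∈ ts, 1 ≤ t := fun t ht => hpos t (by simp [ht])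
    have hlt' : ∀ t ∈ ts, t < M := fun t ht => hlt t (by simp [ht])
    have hav' : ∀ t ∈ ts, Av 1 0 t W0 := fun t ht => hav t (by simp [ht])
    rw [List.pairwise_cons] at hinc
    obtain ⟨_, ihR⟩ := ih hpos' hlt' hinc.2 hav'
    have ht1 : 1 ≤ t := hpos t (by simp)
    have htM : t < M := hlt t (by simp)
    have hthd : t < hd M ts := by
      cases ts with
      | nil => exact htM
      | cons u us => exact hinc.1 u (by simp)
    have hR1 := ihR t ht1 hthd.le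
    have hnot : t ∉ ts := fun e => lt_irrefl _ (hinc.1 t e)
    have hAv := av1_lw hs ht1 htM.ne hW0 (hav t (by simp)) ts hnot
    obtain ⟨s, rfl⟩ : ∃ s', s = s' + 1 := ⟨s - 1, by omega⟩
    set Y := zz (s + 1) ts ++ (B M ++ W0) with hY
    have hWpat : Wit (pat 1 0 t) (0 :: (B t ++ (A (s + 1) ++ Y))) := by
      have := wit_pat (x := 1) (y := 0) one_ne_zero2 (t := t) (w := A s ++ Y) hAv
      exact this
    have hR2 : Rich (0 :: (B t ++ (A (s + 1) ++ Y))) := ⟨hR1, _, hWpat⟩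
    have hpre : pat 1 0 t ++ A s <+: 0 :: (B t ++ (A (s + 1) ++ Y)) := by
      rw [pat]
      refine List.cons_prefix_cons.mpr ⟨rfl, ?_⟩
      refine ⟨Y, ?_⟩
      simp [A_succ]
    have hm := mirror (A s) hR2 hWpat hpre
    rw [A_rev] at hm
    have e1 : A s ++ (0 :: (B t ++ (A (s + 1) ++ Y))) =
        A (s + 1) ++ (zz (s + 1) (t :: ts) ++ (B M ++ W0)) := by
      rw [zz_cons, hY]
      have : A (s + 1) = A s ++ [0] := by rw [A, List.replicate_succ']
      simp [this]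
    have e2 : A s ++ pat 1 0 t ++ A s = A (s + 1) ++ (B t ++ A (s + 1)) := by
      rw [pat]
      have h1 : A (s + 1) = A s ++ [0] := by rw [A, List.replicate_succ']
      have h2 : A (s + 1) = [0] ++ A s := rfl
      conv_rhs => rw [h1]
      have : A s ++ [0] ++ (List.replicate t 1 ++ (A s ++ [0])) =
        A s ++ ([0] ++ (List.replicate t 1 ++ (A s ++ [0]))) := by simp
      rw [this, ← h1, h2]
      simp
    rw [e1, e2] at hm
    obtain ⟨hR3, hW3⟩ := hm
    refine ⟨?_, ?_⟩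
    · intro t' ts' he
      have : t = t' := (List.cons.inj he).1
      subst this
      exact hW3
    · intro j hj1 hj2
      have hj2' : j ≤ t := hj2
      have hpre2 : (A (s + 1) ++ (B t ++ A (s + 1))) ++ B j <+:
          A (s + 1) ++ (zz (s + 1) (t :: ts) ++ (B M ++ W0)) := by
        rw [zz_cons]
        have : A (s + 1) ++ (B t ++ (A (s + 1) ++ zz (s + 1) ts) ++ (B M ++ W0)) =
          (A (s + 1) ++ (B t ++ A (s + 1))) ++ (zz (s + 1) ts ++ (B M ++ W0)) := by simp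
        rw [this]
        exact (List.prefix_append_right_inj _).mpr (hd_prefix ts W0 (by omega))
      have hm2 := mirror (B j) hR3 hW3 hpre2
      rw [B_rev] at hm2
      exact hm2.1

theorem G_len_pos {s : ℕ} (t : ℕ) (ts : List ℕ) (U : List (Fin 2)) :
    G s (t :: ts) ++ U = (zz s ts).reverse ++ (A s ++ (B t ++ (A s ++ (zz s ts ++ U)))) := by
  rw [G_cons]; simp

theorem zr_head {s : ℕ} (ts : List ℕ) (hts : ∀ t ∈ ts, 1 ≤ t) :
    ∀ {X : List (Fin 2)}, (∃ X', X = A s ++ 1 :: X') →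
      ∃ X', (zz s ts).reverse ++ X = A s ++ 1 :: X' := by
  induction ts with
  | nil => intro X h; simpa [zz_nil] using h
  | cons u ts ih =>
    intro X hX
    have hu : 1 ≤ u := hts u (by simp)
    have hts' : ∀ t ∈ ts, 1 ≤ t := fun t ht => hts t (by simp [ht])
    rw [zz_rev_cons, List.append_assoc, List.append_assoc]
    obtain ⟨u, rfl⟩ : ∃ s', u = s' + 1 := ⟨u - 1, by omega⟩
    exact ih hts' ⟨_, rfl⟩

/-- invariant during a stage -/
structure Inv (M c lo : ℕ) (used : ℕ → Prop) (W : List (Fin 2)) : Prop where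
  rich : Rich (B M ++ W)
  wit : ∃ p, Wit p (B M ++ W) ∧ p ++ A (c - 1) <+: B M ++ W
  wit2 : ∃ q, Wit q W ∧ q ++ [1] <+: W
  head : ∃ W', W = A c ++ 1 :: W'
  av0 : ∀ s, lo < s → s < c → Av 0 1 s W
  av1 : ∀ t, 2 ≤ t → t < M → ¬ used t → Av 1 0 t W

theorem G_pal (s t : ℕ) (ts : List ℕ) : (G s (t :: ts)).reverse = G s (t :: ts) := by
  rw [G_cons]
  simp [A, B]

theorem group_step {M c lo : ℕ} {used : ℕ → Prop} {W : List (Fin 2)} (hM : 2 ≤ M)
    (hc : lo + 1 < c) (h : Inv M c lo used W) (t : ℕ) (ts : List ℕ)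
    (hge : ∀ u ∈ t :: ts, 2 ≤ u) (hlt : ∀ u ∈ t :: ts, u < M)
    (hinc : (t :: ts).Pairwise (· < ·)) (hused : ∀ u ∈ t :: ts, ¬ used u) :
    Inv M (c - 1) lo (fun u => used u ∨ u ∈ t :: ts) (G (c - 1) (t :: ts) ++ (B M ++ W)) := by
  obtain ⟨hr, ⟨p, hp, hppre⟩, _, ⟨W', hW'⟩, hav0, hav1⟩ := h
  set s := c - 1 with hs
  have hs1 : 1 ≤ s := by omega
  have hsc : c = s + 1 := by omega
  have hW0 : ∃ W', W = 0 :: W' := by rw [hW', hsc, A_succ]; exact ⟨_, rfl⟩
  -- Av 0 for B M ++ W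
  have hav0' : ∀ s', lo < s' → s' < c → Av 0 1 s' (B M ++ W) := by
    intro s' h1 h2
    have h3 := hav0 s' h1 h2
    rw [hW'] at h3 ⊢
    have h4 : Av 0 1 s' (1 :: W') := h3.of_append
    exact Av.other zero_ne_one2 (by omega) _ _ (by omega) h4
  -- step 1
  have hm1 := mirror (A s) hr hp hppre
  rw [A_rev] at hm1
  obtain ⟨hR1, hW1⟩ := hm1
  -- step 2
  obtain ⟨M', hM'⟩ : ∃ M', M = M' + 1 := ⟨M - 1, by omega⟩
  have hWp : Wit (pat 0 1 s) (1 :: (A s ++ (B M ++ W))) := by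
    have h1 : Av 0 1 s (B M ++ W) := hav0' s (by omega) (by omega)
    rw [hM', B_succ] at h1 ⊢
    exact wit_pat zero_ne_one2 h1
  have hR2 : Rich (1 :: (A s ++ (B M ++ W))) := ⟨hR1, _, hWp⟩
  have hbase : ∀ j, 1 ≤ j → j ≤ M → Rich (B j ++ (A s ++ (B M ++ W))) := by
    intro j hj1 hj2
    obtain ⟨j, rfl⟩ : ∃ j', j = j' + 1 := ⟨j - 1, by omega⟩
    have hpre : pat 0 1 s ++ B j <+: 1 :: (A s ++ (B M ++ W)) := by
      rw [pat, List.cons_append]
      refine List.cons_prefix_cons.mpr ⟨rfl, ?_⟩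
      rw [List.append_assoc]
      apply (List.prefix_append_right_inj _).mpr
      have : [1] ++ B j = B (j + 1) := rfl
      rw [this]
      exact rep_prefix hj2 _
    have hm := (mirror (B j) hR2 hWp hpre).1
    rw [B_rev] at hm
    have e : B (j + 1) ++ (A s ++ (B M ++ W)) = B j ++ 1 :: (A s ++ (B M ++ W)) := by
      have : B (j + 1) = B j ++ [1] := by rw [B, List.replicate_succ']
      rw [this]; simp
    rw [e]
    exact hm
  have hpos : ∀ u ∈ t :: ts, 1 ≤ u := fun u hu => by have := hge u hu; omega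
  have hpos' : ∀ u ∈ ts, 1 ≤ u := fun u hu => hpos u (by simp [hu])
  have havW : ∀ u ∈ t :: ts, Av 1 0 u W := fun u hu => hav1 u (hge u hu) (hlt u hu) (hused u hu)
  obtain ⟨hlw, hlr⟩ := labels (M := M) hs1 hW0 hbase (t :: ts) hpos hlt hinc havW
  have hW3 := hlw t ts rfl
  have hR3 : Rich (A s ++ (zz s (t :: ts) ++ (B M ++ W))) :=
    (hlr 1 le_rfl (hpos t (by simp))).of_append
  -- step 4 : mirror
  have hpre4 : (A s ++ (B t ++ A s)) ++ zz s ts <+: A s ++ (zz s (t :: ts) ++ (B M ++ W)) := by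
    rw [zz_cons]
    refine ⟨B M ++ W, ?_⟩
    simp
  have hm4 := mirror (zz s ts) hR3 hW3 hpre4
  have e4 : (zz s ts).reverse ++ (A s ++ (zz s (t :: ts) ++ (B M ++ W))) =
      G s (t :: ts) ++ (B M ++ W) := by
    rw [G_cons, zz_cons]; simp
  have e4' : (zz s ts).reverse ++ (A s ++ (B t ++ A s)) ++ zz s ts = G s (t :: ts) := by
    rw [G_cons]; simp
  rw [e4, e4'] at hm4
  obtain ⟨hR4, hW4⟩ := hm4
  -- step 5
  have hpre5 : G s (t :: ts) ++ B M <+: G s (t :: ts) ++ (B M ++ W) := ⟨W, by simp⟩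
  have hm5 := mirror (B M) hR4 hW4 hpre5
  rw [B_rev] at hm5
  obtain ⟨hR5, hW5⟩ := hm5
  refine ⟨hR5, ⟨_, hW5, ?_⟩, ⟨_, hW4, ?_⟩, ?_, ?_, ?_⟩
  · have e : B M ++ (G s (t :: ts) ++ (B M ++ W)) = (B M ++ G s (t :: ts) ++ B M) ++ W := by simp
    rw [e]
    apply (List.prefix_append_right_inj _).mpr
    rw [hW']
    exact rep_prefix (by omega) _
  · apply (List.prefix_append_right_inj _).mpr
    rw [hM', B_succ]
    exact ⟨B M' ++ W, rfl⟩
  · rw [G_len_pos]
    apply zr_head ts hpos'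
    obtain ⟨t', ht'⟩ : ∃ t', t = t' + 1 := ⟨t - 1, by have := hpos t (by simp); omega⟩
    rw [ht', B_succ]
    exact ⟨_, rfl⟩
  · intro s' h1 h2
    rw [G_len_pos]
    have hinner := av0_lw (M := M) (W0 := W) (s := s) (s' := s') (by omega) (by omega) (by omega)
      (hav0' s' h1 (by omega)) (t :: ts) hpos
    rw [zz_cons, List.append_assoc, List.append_assoc] at hinner
    refine av0_zr (by omega) (by omega) ts hpos' ?_ hinner
    obtain ⟨t', ht'⟩ : ∃ t', t = t' + 1 := ⟨t - 1, by have := hpos t (by simp); omega⟩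
    rw [ht', B_succ]
    exact ⟨_, rfl⟩
  · intro u hu1 hu2 hu3
    have hu4 : ¬ used u := fun e => hu3 (Or.inl e)
    have hu5 : u ∉ t :: ts := fun e => hu3 (Or.inr e)
    have hu6 : u ∉ ts := fun e => hu5 (by simp [e])
    rw [G_len_pos]
    have hinner := av1_lw (s := s) (M := M) hs1 (by omega) hu2.ne hW0 (hav1 u hu1 hu2 hu4)
      (t :: ts) hu5
    rw [zz_cons, List.append_assoc, List.append_assoc] at hinner
    refine av1_zr hs1 (by omega) ts hu6 ?_ hinner
    obtain ⟨s', hs'⟩ : ∃ s', s = s' + 1 := ⟨s - 1, by omega⟩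
    rw [hs', A_succ]
    exact ⟨_, rfl⟩

end Pool.Agent.Helper586.RW
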