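import Pool.Agent.Helper586.RichGroup

set_option autoImplicit false

namespace Pool.Agent.Helper586.RW

/-- `0 ↦ 0`, `1 ↦ 10` -/
def phi (w : List (Fin 2)) : List (Fin 2) := w.flatMap (fun x => if x = 0 then [0] else [1, 0])

def plus (w : List (Fin 2)) : List (Fin 2) := 0 :: phi w

theorem phi_nil : phi [] = [] := rfl
theorem phi_zero (w : List (Fin 2)) : phi (0 :: w) = 0 :: phi w := by simp [phi]
theorem phi_one (w : List (Fin 2)) : phi (1 :: w) = 1 :: 0 :: phi w := by simp [phi]
theorem phi_append (u v : List (Fin 2)) : phi (u ++ v) = phi u ++ phi v := by simp [phi]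
theorem plus_zero (w : List (Fin 2)) : plus (0 :: w) = 0 :: plus w := by simp [plus, phi_zero]
theorem plus_one (w : List (Fin 2)) : plus (1 :: w) = 0 :: 1 :: plus w := by
  simp [plus, phi_one]

theorem fin2 (x : Fin 2) : x = 0 ∨ x = 1 := by
  fin_cases x <;> simp

theorem phi_A (n : ℕ) : phi (A n) = A n := by
  induction n with
  | zero => rfl
  | succ n ih => rw [A_succ, phi_zero, ih]

theorem phi_prefix_inj : ∀ {p v Y : List (Fin 2)}, phi p ++ Y = phi v → ∃ v', v = p ++ v' ∧ Y = phi v'
  | [], v, Y, h => ⟨v, rfl, by simpa [phi_nil] using h⟩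
  | (x :: p), [], Y, h => by
      exfalso
      rcases fin2 x with rfl | rfl
      · rw [phi_zero] at h; simp [phi_nil] at h
      · rw [phi_one] at h; simp [phi_nil] at h
  | (x :: p), (y :: v), Y, h => by
      rcases fin2 x with rfl | rfl <;> rcases fin2 y with rfl | rfl
      · rw [phi_zero, phi_zero] at h
        obtain ⟨v', h1, h2⟩ := phi_prefix_inj (List.cons.inj h).2
        exact ⟨v', by rw [h1]; rfl, h2⟩
      · rw [phi_zero, phi_one] at h
        exact absurd (List.cons.inj h).1 (by decide)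
      · rw [phi_zero, phi_one] at h
        exact absurd (List.cons.inj h).1 (by decide)
      · rw [phi_one, phi_one] at h
        obtain ⟨v', h1, h2⟩ := phi_prefix_inj (List.cons.inj (List.cons.inj h).2).2
        exact ⟨v', by rw [h1]; rfl, h2⟩

theorem phi_inj {u v : List (Fin 2)} (h : phi u = phi v) : u = v := by
  obtain ⟨v', h1, h2⟩ := phi_prefix_inj (p := u) (v := v) (Y := []) (by simpa using h)
  cases v' with
  | nil => simpa using h1.symm
  | cons x v' =>
    rcases fin2 x with rfl | rfl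
    · rw [phi_zero] at h2; simp at h2
    · rw [phi_one] at h2; simp at h2

theorem plus_inj {u v : List (Fin 2)} (h : plus u = plus v) : u = v :=
  phi_inj (List.cons.inj h).2

theorem decode0 : ∀ {w X Z : List (Fin 2)}, 0 :: phi w = X ++ 0 :: Z → ∃ u v, w = u ++ v ∧ Z = phi v
  | w, [], Z, h => ⟨[], w, rfl, by simpa using (List.cons.inj h).2.symm⟩
  | [], (x :: X), Z, h => by
      exfalso
      have := (List.cons.inj h).2
      simp [phi_nil] at this
  | (y :: w), (x :: X), Z, h => by
      have h' := (List.cons.inj h).2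
      rcases fin2 y with rfl | rfl
      · rw [phi_zero] at h'
        obtain ⟨u, v, h1, h2⟩ := decode0 h'
        exact ⟨0 :: u, v, by rw [h1]; rfl, h2⟩
      · rw [phi_one] at h'
        cases X with
        | nil => exact absurd (List.cons.inj h').1 (by decide)
        | cons z X =>
          obtain ⟨u, v, h1, h2⟩ := decode0 (List.cons.inj h').2
          exact ⟨1 :: u, v, by rw [h1]; rfl, h2⟩

theorem decode1 : ∀ {w X Z : List (Fin 2)}, 0 :: phi w = X ++ 1 :: Z →
    ∃ u v, w = u ++ 1 :: v ∧ Z = 0 :: phi v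
  | w, [], Z, h => absurd (List.cons.inj h).1 (by decide)
  | [], (x :: X), Z, h => by
      exfalso
      have := (List.cons.inj h).2
      simp [phi_nil] at this
  | (y :: w), (x :: X), Z, h => by
      have h' := (List.cons.inj h).2
      rcases fin2 y with rfl | rfl
      · rw [phi_zero] at h'
        obtain ⟨u, v, h1, h2⟩ := decode1 h'
        exact ⟨0 :: u, v, by rw [h1]; rfl, h2⟩
      · rw [phi_one] at h'
        cases X with
        | nil => exact ⟨[], w, rfl, (List.cons.inj h').2.symm⟩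
        | cons z X =>
          obtain ⟨u, v, h1, h2⟩ := decode1 (List.cons.inj h').2
          exact ⟨1 :: u, v, by rw [h1]; rfl, h2⟩

theorem plus_factor {p w : List (Fin 2)} (h : plus p <:+: plus w) : p <:+: w := by
  obtain ⟨s, t, hst⟩ := h
  have : 0 :: phi w = s ++ 0 :: (phi p ++ t) := by
    rw [plus, plus] at hst
    rw [← hst]; simp
  obtain ⟨u, v, h1, h2⟩ := decode0 this
  obtain ⟨v', h3, _⟩ := phi_prefix_inj h2
  exact ⟨u, v', by rw [h1, h3]; simp⟩

theorem core_factor {r w : List (Fin 2)} (hr : r = [] ∨ ∃ r', r = 1 :: r')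
    (h : phi r ++ [1] <:+: plus w) : r ++ [1] <:+: w := by
  obtain ⟨X, Y, hXY⟩ := h
  rcases hr with rfl | ⟨r', rfl⟩
  · have : 0 :: phi w = X ++ 1 :: Y := by
      rw [plus] at hXY
      rw [← hXY]; simp [phi_nil]
    obtain ⟨u, v, h1, _⟩ := decode1 this
    exact ⟨u, v, by rw [h1]; simp⟩
  · have : 0 :: phi w = X ++ 1 :: (0 :: (phi r' ++ 1 :: Y)) := by
      rw [plus] at hXY
      rw [← hXY]; simp [phi_one]
    obtain ⟨u, v, h1, h2⟩ := decode1 this
    obtain ⟨v', h3, h4⟩ := phi_prefix_inj (List.cons.inj h2).2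
    cases v' with
    | nil => simp [phi_nil] at h4
    | cons x v' =>
      rcases fin2 x with rfl | rfl
      · rw [phi_zero] at h4
        exact absurd (List.cons.inj h4).1 (by decide)
      · exact ⟨u, v', by rw [h1, h3]; simp⟩

theorem plus_rev (w : List (Fin 2)) : plus w.reverse = (plus w).reverse := by
  induction w with
  | nil => rfl
  | cons x w ih =>
    simp only [plus, List.reverse_cons] at ih ⊢
    rw [phi_append, ← List.cons_append, ih]
    rcases fin2 x with rfl | rfl
    · rw [phi_zero, phi_zero]; simp [phi_nil]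
    · rw [phi_one, phi_one]; simp [phi_nil]

theorem phi_prefix {u v : List (Fin 2)} (h : u <+: v) : phi u <+: phi v := by
  obtain ⟨t, rfl⟩ := h
  rw [phi_append]
  exact List.prefix_append _ _

theorem wit_plus {x : Fin 2} {p w : List (Fin 2)} (h : Wit p (x :: w)) :
    Wit (plus p) (plus (x :: w)) := by
  obtain ⟨h1, h2, h3⟩ := h
  rw [List.tail_cons] at h3
  refine ⟨?_, ?_, ?_⟩
  · exact List.cons_prefix_cons.mpr ⟨rfl, phi_prefix h1⟩
  · rw [← plus_rev, h2]
  · have et : (plus (x :: w)).tail = phi (x :: w) := rfl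
    rw [et]
    intro h'
    rcases fin2 x with rfl | rfl
    · rw [phi_zero] at h'
      exact h3 (plus_factor h')
    · rw [phi_one, List.infix_cons_iff] at h'
      rcases h' with h' | h'
      · exact absurd (List.cons_prefix_cons.mp h').1 (by decide)
      · exact h3 (plus_factor h')

theorem rich_plus {w : List (Fin 2)} (h : Rich w) : Rich (plus w) := by
  induction w with
  | nil =>
    refine ⟨trivial, [0], ?_, rfl, ?_⟩
    · exact List.prefix_refl _
    · simp [phi_nil]
  | cons x w ih =>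
    obtain ⟨hw, p, hp⟩ := h
    have hp2 := wit_plus hp
    rcases fin2 x with rfl | rfl
    · rw [plus_zero] at hp2 ⊢
      exact ⟨ih hw, _, hp2⟩
    · rw [plus_one] at hp2 ⊢
      refine ⟨⟨ih hw, ?_⟩, _, hp2⟩
      obtain ⟨h1, h2, h3⟩ := hp
      rw [List.tail_cons] at h3
      -- p = r ++ [1]
      obtain ⟨p', rfl⟩ : ∃ p', p = 1 :: p' := by
        cases p with
        | nil => exact absurd List.nil_infix h3
        | cons y p' => exact ⟨p', by rw [(List.cons_prefix_cons.mp h1).1]⟩
      obtain ⟨r, hr⟩ : ∃ r, 1 :: p' = r ++ [1] := by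
        refine ⟨p'.reverse, ?_⟩
        rw [← h2]; simp
      have hr' : r = [] ∨ ∃ r', r = 1 :: r' := by
        cases r with
        | nil => exact Or.inl rfl
        | cons y r =>
          right
          exact ⟨r, by rw [← (List.cons.inj hr).1]⟩
      rw [hr] at h1 h2 h3
      refine ⟨phi r ++ [1], ?_, ?_, ?_⟩
      · have := phi_prefix h1
        rw [phi_append, phi_one, phi_one] at this
        refine List.IsPrefix.trans ?_ this
        exact ⟨[0], by simp [phi_nil]⟩
      · have e : plus (r ++ [1]) = 0 :: (phi r ++ [1] ++ [0]) := by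
          rw [plus, phi_append, phi_one]; simp [phi_nil]
        have e2 := plus_rev (r ++ [1])
        rw [h2, e] at e2
        generalize phi r ++ [1] = core at e2
        have e4 : core ++ [0] = core.reverse ++ [0] := by
          simpa using e2
        exact (List.append_cancel_right e4).symm
      · rw [List.tail_cons]
        intro h'
        exact h3 (core_factor hr' h')

theorem nobb_plus (w : List (Fin 2)) : ¬ [1, 1] <:+: plus w := by
  rintro ⟨X, Y, h⟩
  have : 0 :: phi w = X ++ 1 :: (1 :: Y) := by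
    rw [plus] at h; rw [← h]; simp
  obtain ⟨u, v, _, h2⟩ := decode1 this
  exact absurd (List.cons.inj h2).1 (by decide)

theorem av0_plus {s : ℕ} {w : List (Fin 2)} (h : Av 0 1 s w) : Av 0 1 (s + 1) (plus w) := by
  intro h'
  apply h
  have e : pat 0 1 (s + 1) = phi (1 :: A s) ++ [1] := by
    rw [phi_one, phi_A]; rfl
  rw [e] at h'
  exact core_factor (Or.inr ⟨_, rfl⟩) h'

/-- invariant at the start of a stage -/
structure SI (c lo : ℕ) (V : List (Fin 2)) : Prop where
  rich : Rich V
  wit : ∃ q, Wit q V ∧ q ++ [1] <+: V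
  head : ∃ V', V = A c ++ 1 :: V'
  av0 : ∀ s, lo < s → s < c → Av 0 1 s V
  nobb : ¬ [1, 1] <:+: V

theorem Inv.plus {M c lo : ℕ} {used : ℕ → Prop} {W : List (Fin 2)} (h : Inv M c lo used W) :
    SI (c + 1) (lo + 1) (plus W) := by
  obtain ⟨hr, _, ⟨q, hq1, hq2⟩, ⟨W', hW'⟩, hav0, _⟩ := h
  refine ⟨rich_plus hr.of_append, ⟨RW.plus q, ?_, ?_⟩, ?_, ?_, nobb_plus W⟩
  · cases W with
    | nil =>
      exfalso
      have := congrArg List.length hW'
      simp at this
    | cons x W => exact wit_plus hq1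
  · have := phi_prefix hq2
    rw [phi_append, phi_one] at this
    rw [RW.plus, RW.plus]
    refine List.cons_prefix_cons.mpr ⟨rfl, ?_⟩
    refine List.IsPrefix.trans ?_ this
    exact ⟨[0], by simp [phi_nil]⟩
  · rw [hW', RW.plus, phi_append, phi_A, phi_one]
    exact ⟨_, rfl⟩
  · intro s h1 h2
    obtain ⟨s, rfl⟩ : ∃ s', s = s' + 1 := ⟨s - 1, by omega⟩
    exact av0_plus (hav0 s (by omega) (by omega))

theorem B_not_infix {V V' : List (Fin 2)} (hV : V = 0 :: V') (h : ¬ [1, 1] <:+: V) {j : ℕ}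
    (hj : 2 ≤ j) : ∀ i, i < j → ¬ B j <:+: B i ++ V := by
  intro i
  induction i with
  | zero =>
    intro _ h'
    apply h
    have h1 : [1, 1] <:+: B j := by
      obtain ⟨k, rfl⟩ := Nat.exists_eq_add_of_le hj
      refine ⟨[], B k, ?_⟩
      rw [B, B, List.replicate_add]; rfl
    exact h1.trans h'
  | succ i ih =>
    intro hij h'
    rw [B_succ, List.cons_append, List.infix_cons_iff] at h'
    rcases h' with h' | h'
    · have e : 1 :: (B i ++ V) = B (i + 1) ++ V := rfl
      rw [e] at h'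
      obtain ⟨k, rfl⟩ := Nat.exists_eq_add_of_lt hij
      have e2 : B (i + 1 + k + 1) = B (i + 1) ++ B (k + 1) := by
        rw [B, B, B, add_assoc (i + 1) k 1, List.replicate_add]
      rw [e2, List.prefix_append_right_inj, hV, B_succ] at h'
      exact absurd (List.cons_prefix_cons.mp h').1 (by decide)
    · exact ih (by omega) h'

theorem SI.start {c lo M : ℕ} {V : List (Fin 2)} (h : SI c lo V) (hc : 1 ≤ c) (hM : 2 ≤ M) :
    Inv M c lo (fun _ => False) V := by
  obtain ⟨hr, ⟨q, hq1, hq2⟩, ⟨V', hV'⟩, hav0, hbb⟩ := h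
  have hV0 : ∃ V'', V = 0 :: V'' := by
    obtain ⟨c, rfl⟩ : ∃ s', c = s' + 1 := ⟨c - 1, by omega⟩
    rw [hV', A_succ]; exact ⟨_, rfl⟩
  obtain ⟨V'', hV''⟩ := hV0
  have h1 : Rich (1 :: V) := ⟨hr, _, mirror1 hq1 hq2⟩
  have key : ∀ j, 2 ≤ j → Rich (B j ++ V) ∧ Wit (B j) (B j ++ V) := by
    intro j hj
    have hw : ∀ j, 2 ≤ j → Wit (B j) (B j ++ V) := by
      intro j hj
      refine ⟨List.prefix_append _ _, B_rev j, ?_⟩
      obtain ⟨i, rfl⟩ : ∃ i, j = i + 1 := ⟨j - 1, by omega⟩
      have : (B (i + 1) ++ V).tail = B i ++ V := rfl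
      rw [this]
      exact B_not_infix hV'' hbb hj i (by omega)
    induction j, hj using Nat.le_induction with
    | base => exact ⟨⟨h1, _, hw 2 le_rfl⟩, hw 2 le_rfl⟩
    | succ j hj ih => exact ⟨⟨ih.1, _, hw (j + 1) (by omega)⟩, hw (j + 1) (by omega)⟩
  obtain ⟨hR, hW⟩ := key M hM
  refine ⟨hR, ⟨_, hW, ?_⟩, ⟨q, hq1, hq2⟩, ⟨V', hV'⟩, hav0, ?_⟩
  · apply (List.prefix_append_right_inj _).mpr
    rw [hV']
    exact rep_prefix (by omega) _
  · intro t ht _ _ h'
    apply hbb
    refine List.IsInfix.trans ?_ h'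
    obtain ⟨t, rfl⟩ : ∃ t', t = t' + 2 := ⟨t - 2, by omega⟩
    refine ⟨[0], B t ++ [0], ?_⟩
    rw [pat]
    rfl

theorem Inv.mono {M c lo : ℕ} {used used' : ℕ → Prop} {W : List (Fin 2)}
    (h : Inv M c lo used W) (hu : ∀ u, used u → used' u) : Inv M c lo used' W := by
  obtain ⟨h1, h2, h3, h4, h5, h6⟩ := h
  exact ⟨h1, h2, h3, h4, h5, fun t a b c => h6 t a b (fun e => c (hu t e))⟩

/-- the word of a stage -/
def st (M c : ℕ) : List (List ℕ) → List (Fin 2) → List (Fin 2)
  | [], W => W
  | (ts :: gs), W => G (c - (gs.length + 1)) ts ++ (B M ++ st M c gs W)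

theorem st_inv {M c lo : ℕ} {W : List (Fin 2)} (hM : 2 ≤ M)
    (h : Inv M c lo (fun _ => False) W) (gs : List (List ℕ)) (hne : ∀ ts ∈ gs, ts ≠ [])
    (hge : ∀ ts ∈ gs, ∀ u ∈ ts, 2 ≤ u) (hlt : ∀ ts ∈ gs, ∀ u ∈ ts, u < M)
    (hinc : ∀ ts ∈ gs, ts.Pairwise (· < ·)) (hdis : gs.Pairwise List.Disjoint)
    (hc : lo + gs.length < c) :
    Inv M (c - gs.length) lo (fun u => ∃ ts ∈ gs, u ∈ ts) (st M c gs W) := by
  induction gs with
  | nil =>
    simp only [List.length_nil, Nat.sub_zero, st]
    exact h.mono (fun u hu => hu.elim)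
  | cons ts gs ih =>
    rw [List.pairwise_cons] at hdis
    simp only [List.length_cons] at hc
    have ih' := ih (fun t ht => hne t (by simp [ht])) (fun t ht => hge t (by simp [ht]))
      (fun t ht => hlt t (by simp [ht])) (fun t ht => hinc t (by simp [ht])) hdis.2 (by omega)
    cases ts with
    | nil => exact absurd rfl (hne [] (by simp))
    | cons t ts =>
      have hstep := group_step hM (by omega) ih' t ts (hge _ (by simp)) (hlt _ (by simp))
        (hinc _ (by simp)) (by
          rintro u hu ⟨ts', hts', hu'⟩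
          exact hdis.1 ts' hts' hu hu')
      have e : c - gs.length - 1 = c - (gs.length + 1) := by omega
      rw [e] at hstep
      have e2 : c - (List.length ((t :: ts) :: gs)) = c - (gs.length + 1) := rfl
      rw [e2]
      refine Inv.mono hstep ?_
      rintro u (⟨ts', hts', hu'⟩ | hu)
      · exact ⟨ts', by simp [hts'], hu'⟩
      · exact ⟨t :: ts, by simp, hu⟩

end Pool.Agent.Helper586.RW
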