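import Pool.Agent.Helper586.RichFarey
import Pool.Agent.Helper586.RichAna

set_option autoImplicit false
open Filter

namespace Pool.Agent.Helper586.RW

theorem B_pad_inj {x y i j : ℕ} {V V' : List (Fin 2)} (h : Cl x y V) (h' : Cl x y V')
    (e : B i ++ V = B j ++ V') : V = V' := by
  obtain ⟨W, hW⟩ := h.pre
  obtain ⟨W', hW'⟩ := h'.pre
  rw [hW, hW', ← List.append_assoc, ← List.append_assoc] at e
  have e1 : B i ++ B x = List.replicate (i + x) 1 := by rw [B, B, List.replicate_add]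
  have e2 : B j ++ B x = List.replicate (j + x) 1 := by rw [B, B, List.replicate_add]
  rw [e1, e2] at e
  have := run_eq (x := (1 : Fin 2)) (y := 0) (by decide) e
  rw [hW, hW', this.2]

theorem fin_words (n : ℕ) {A : Type*} [Finite A] : {w : List A | w.length = n}.Finite :=
  List.finite_length_eq A n

theorem R_ge (X n : ℕ) (hX : 1 ≤ X) (hn : 5 * X * (X ^ 2 + 1) + 2 ≤ n) :
    2 ^ ((S X 1 1).card + 1) ≤ R n := by
  obtain ⟨F, hF, hc⟩ := fam X X 1 1 le_rfl le_rfl hX hX (by omega) (X + 1) (X + 1)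
    (by rw [Nat.div_one]; omega) (by rw [Nat.div_one]; omega)
  rw [Lf_eq X X 1 1 le_rfl le_rfl (by omega)] at hF hc
  have hlen : ∀ W ∈ F, W.length ≤ n := by
    intro W hW
    have h1 := (hF W hW).2
    rw [cost, one_mul, one_mul, ← len_zo] at h1
    have h2 := S_le X
    have h3 : 5 * X * ((S X 1 1).card + 1) ≤ 5 * X * (X ^ 2 + 1) :=
      Nat.mul_le_mul_left _ (Nat.add_le_add_right h2 1)
    omega
  rw [← hc, R]
  have hinj : Set.InjOn (fun W : List (Fin 2) => B (n - W.length) ++ W) (F : Set (List (Fin 2))) := by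
    intro V hV W hW h
    exact B_pad_inj (hF V hV).1 (hF W hW).1 h
  rw [← Set.ncard_coe_finset F, ← Set.ncard_image_of_injOn hinj]
  apply Set.ncard_le_ncard
  · rintro _ ⟨W, hW, rfl⟩
    have hr := pad_rich (hF W hW).1 (n - W.length)
    refine ⟨?_, hr.ncard⟩
    have := hlen W hW
    simp [B]
    omega
  · exact (fin_words n).subset (fun w hw => hw.1)

theorem log_R_ge (n X : ℕ) (hX : 1 ≤ X) (hn : 5 * X * (X ^ 2 + 1) + 2 ≤ n) :
    (((X / 2 : ℕ) : ℝ) ^ 2 / 4) * Real.log 2 ≤ Real.log (R n) := by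
  have h1 := R_ge X n hX hn
  have h2 : ((2 : ℝ) ^ ((S X 1 1).card + 1)) ≤ (R n : ℝ) := by exact_mod_cast h1
  have h3 := Real.log_le_log (by positivity) h2
  rw [Real.log_pow] at h3
  have h4 := S_ge X
  have h5 : (((X / 2 : ℕ) : ℝ) ^ 2) ≤ 4 * ((S X 1 1).card : ℝ) := by exact_mod_cast h4
  have hl : (0 : ℝ) < Real.log 2 := Real.log_pos (by norm_num)
  refine le_trans ?_ h3
  apply mul_le_mul_of_nonneg_right _ hl.le
  push_cast
  linarith

theorem R_pos_of_big {n : ℕ} (hn : 12 ≤ n) : 1 ≤ R n := by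
  have := R_ge 1 n le_rfl (by omega)
  exact le_trans (Nat.one_le_two_pow) this

/-- explicit lower bound -/
theorem log_R_ge' (n : ℕ) (hn : 768 ≤ n) :
    Real.log 2 / 64 * ((n : ℝ) / 12) ^ ((2 : ℝ) / 3) ≤ Real.log (R n) := by
  set t : ℝ := ((n : ℝ) / 12) ^ ((1 : ℝ) / 3) with ht
  have hnr : (768 : ℝ) ≤ n := by exact_mod_cast hn
  have hn0 : (0 : ℝ) ≤ (n : ℝ) / 12 := by positivity
  have ht3 : t ^ 3 = (n : ℝ) / 12 := by
    rw [ht, ← Real.rpow_natCast, ← Real.rpow_mul hn0]; norm_num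
  have ht2 : t ^ 2 = ((n : ℝ) / 12) ^ ((2 : ℝ) / 3) := by
    rw [ht, ← Real.rpow_natCast, ← Real.rpow_mul hn0]; norm_num
  have ht0 : 0 ≤ t := Real.rpow_nonneg hn0 _
  have ht4 : 4 ≤ t := by
    by_contra hlt
    push Not at hlt
    have : t ^ 3 < 4 ^ 3 := by gcongr
    rw [ht3] at this
    linarith
  set X := ⌊t⌋₊ with hX
  have hXt : (X : ℝ) ≤ t := Nat.floor_le ht0
  have hXt' : t < X + 1 := Nat.lt_floor_add_one t
  have hX1 : 4 ≤ X := Nat.le_floor (by exact_mod_cast ht4)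
  have hXn : 12 * X ^ 3 ≤ n := by
    have h1 : (X : ℝ) ^ 3 ≤ t ^ 3 := by gcongr
    rw [ht3] at h1
    have h2 : (12 : ℝ) * (X : ℝ) ^ 3 ≤ n := by linarith
    exact_mod_cast h2
  have hb : 5 * X * (X ^ 2 + 1) + 2 ≤ n := by
    refine le_trans ?_ hXn
    have h2 : X ≤ X ^ 3 := Nat.le_self_pow (by decide) X
    have h3 : 1 ≤ X ^ 3 := Nat.one_le_pow _ _ (by omega)
    have e : 5 * X * (X ^ 2 + 1) = 5 * X ^ 3 + 5 * X := by ring
    omega
  have h := log_R_ge n X (by omega) hb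
  have hl : (0 : ℝ) < Real.log 2 := Real.log_pos (by norm_num)
  rw [← ht2]
  have hh : t / 4 ≤ ((X / 2 : ℕ) : ℝ) := by
    have h1 : X ≤ 2 * (X / 2) + 1 := by omega
    have h2 : (X : ℝ) ≤ 2 * ((X / 2 : ℕ) : ℝ) + 1 := by exact_mod_cast h1
    linarith
  have hh2 : (t / 4) ^ 2 ≤ ((X / 2 : ℕ) : ℝ) ^ 2 := by gcongr
  calc Real.log 2 / 64 * t ^ 2 = ((t / 4) ^ 2 / 4) * Real.log 2 := by ring
    _ ≤ (((X / 2 : ℕ) : ℝ) ^ 2 / 4) * Real.log 2 := by gcongr
    _ ≤ _ := h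

end Pool.Agent.Helper586.RW
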